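import Pool.Agent.Work.MP_054302_co.Y.Sw2

-- merged part: Pool.Agent.Work.MP_054302_co.Y.Homog
section
namespace Pool.Agent.Work.MP_054302_co.Y

open Finset Function Pool.Agent.Work.MP_054302_co.X
open scoped Classical

variable {V : Type} [Fintype V] [DecidableEq V]

lemma host_back {G : SimpleGraph V} {H : Finset (V × V)} {X' Y' Xs Ys : Finset V} {lam : ℝ}
    {o : ℕ} (h : Host G H X' Y' lam) (hX : X' ⊆ Sd o Xs Ys) (hY : Y' ⊆ Sd (o + 1) Xs Ys) :
    Host G (Ho o H) (Sd o X' Y') (Sd (o + 1) X' Y') lam ∧ Sd o X' Y' ⊆ Xs ∧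
      Sd (o + 1) X' Y' ⊆ Ys := by
  refine ⟨host_Ho h o, ?_⟩
  rcases Nat.mod_two_eq_zero_or_one o with e | e
  · have e' : ¬ (o + 1) % 2 = 0 := by omega
    simp only [Sd, if_pos e, if_neg e'] at hX hY ⊢
    exact ⟨hX, hY⟩
  · have e1 : ¬ o % 2 = 0 := by omega
    have e' : (o + 1) % 2 = 0 := by omega
    simp only [Sd, if_neg e1, if_pos e'] at hX hY ⊢
    exact ⟨hY, hX⟩

/-- Homogeneity lemma with an orientation for each item. -/
theorem homog {ι σ : Type} [DecidableEq ι] {G : SimpleGraph V} {Δ : ℕ} (hΔ : 0 < Δ)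
    (hdeg : ∀ v, (nbr G v).card ≤ Δ) (I : Finset ι) (o : ι → ℕ) (θ : ι → ℝ) (D : ι → ℕ) (v0 : ℕ)
    (supp : ι → σ → Finset V) (Adm : ι → (ι → V → Finset V) → V → σ → Prop)
    (wt : ι → Finset (V × V) → σ → V → ℕ) (κ β : ℕ → ℝ)
    (hθ : ∀ i ∈ I, 0 < θ i ∧ 2 ≤ θ i * D i)
    (hsupp : ∀ i ∈ I, ∀ S y s, Adm i S y s → (supp i s).Nonempty ∧ (supp i s).card ≤ v0)
    (hAdm : ∀ i ∈ I, ∀ S S' : ι → V → Finset V, (∀ j y, S j y ⊆ S' j y) →
      ∀ y s, Adm i S' y s → Adm i S y s)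
    (hwt : ∀ i ∈ I, ∀ H : Finset (V × V), (∀ p ∈ H, G.Adj p.1 p.2) → ∀ s x, wt i H s x ≤ Δ)
    (hmono : ∀ i ∈ I, ∀ H H' : Finset (V × V), H' ⊆ H → ∀ s x, wt i H' s x ≤ wt i H s x)
    (hκ : ∀ t, 0 < κ t ∧ 0 < β t ∧ κ (t + 1) ≤ β t * κ t / 2)
    {H0 : Finset (V × V)} {X0 Y0 : Finset V} (h0 : Host G H0 X0 Y0 (κ 0 * Δ)) :
    ∃ t ≤ I.card, ∃ (H : Finset (V × V)) (Xs Ys : Finset V), H ⊆ H0 ∧ Xs ⊆ X0 ∧ Ys ⊆ Y0 ∧
      Host G H Xs Ys (κ t * Δ) ∧ ∃ Sx : ι → V → Finset V, (∀ i y, (Sx i y).card ≤ v0 * D i) ∧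
      ∀ i ∈ I, Lt (Ho (o i) H) Δ (θ i) (Adm i Sx) (supp i) (Sx i) (wt i H) ∨
        ∃ Ls : V → Finset σ,
          Lists (Ho (o i) H) Δ (θ i) (D i) (β t) (Adm i Sx) (supp i) (wt i H) Ls := by
  suffices key : ∀ (n : ℕ) (T : Finset ι), T ⊆ I → I.card = T.card + n →
      ∀ (H : Finset (V × V)) (Xs Ys : Finset V) (Sx : ι → V → Finset V), H ⊆ H0 →
      Xs ⊆ X0 → Ys ⊆ Y0 →
      Host G H Xs Ys (κ T.card * Δ) → (∀ i y, (Sx i y).card ≤ v0 * D i) →
      (∀ i, i ∉ T → ∀ y, Sx i y = ∅) →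
      (∀ i ∈ T, Lt (Ho (o i) H) Δ (θ i) (Adm i Sx) (supp i) (Sx i) (wt i H)) →
      ∃ t ≤ I.card, ∃ (H : Finset (V × V)) (Xs Ys : Finset V), H ⊆ H0 ∧ Xs ⊆ X0 ∧ Ys ⊆ Y0 ∧
        Host G H Xs Ys (κ t * Δ) ∧ ∃ Sx : ι → V → Finset V, (∀ i y, (Sx i y).card ≤ v0 * D i) ∧
        ∀ i ∈ I, Lt (Ho (o i) H) Δ (θ i) (Adm i Sx) (supp i) (Sx i) (wt i H) ∨
          ∃ Ls : V → Finset σ,
          Lists (Ho (o i) H) Δ (θ i) (D i) (β t) (Adm i Sx) (supp i) (wt i H) Ls from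
    key I.card ∅ (empty_subset _) (by simp) H0 X0 Y0 (fun _ _ => ∅) Subset.rfl Subset.rfl
      Subset.rfl h0
      (by simp) (fun _ _ _ => rfl) (by simp)
  intro n
  induction n with
  | zero =>
    intro T hT hc H Xs Ys Sx a0 a1 a2 a3 a4 _ a6
    obtain rfl : T = I := eq_of_subset_of_card_le hT hc.le
    exact ⟨_, le_rfl, H, Xs, Ys, a0, a1, a2, a3, Sx, a4, fun i hi => Or.inl (a6 i hi)⟩
  | succ n ih =>
    intro T hT hc H Xs Ys Sx a0 a1 a2 a3 a4 a5 a6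
    by_cases h : ∀ i ∈ I, i ∉ T → ∃ Ls : V → Finset σ,
        Lists (Ho (o i) H) Δ (θ i) (D i) (β T.card) (Adm i Sx) (supp i) (wt i H) Ls
    · exact ⟨_, card_le_card hT, H, Xs, Ys, a0, a1, a2, a3, Sx, a4, fun i hi =>
        (em (i ∈ T)).imp (a6 i) (h i hi)⟩
    push Not at h
    obtain ⟨i, hi, hiT, hL⟩ := h
    have hadj : ∀ p ∈ H, G.Adj p.1 p.2 := fun p hp => (a3.sub p hp).1
    have a3' := host_Ho a3 (o i)
    choose Ls l1 l2 l3 l4 using fun y => greedy (nbX (Ho (o i) H) y) Δ (D i) (θ i) (Adm i Sx y)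
      (supp i) (wt i H) hΔ (hθ i hi).1 (hθ i hi).2
      (host_deg_le hdeg (Ho_adj hadj (o i)) y).1 (hwt i hi H hadj)
      fun s hs => (hsupp i hi Sx y s hs).1
    have hB : β T.card * (Ho (o i) H).card < (((Ho (o i) H).filter fun p =>
        (∑ s ∈ Ls p.2, (wt i H s p.1 : ℝ)) < θ i / 2 * D i * Δ).card : ℝ) :=
      not_le.1 fun k => hL Ls ⟨l1, l2, l3, k⟩
    obtain ⟨k1, k2, k3⟩ := hκ T.card
    obtain ⟨c1, c2, -⟩ := host_card hdeg a3'
    have D0 : (0 : ℝ) < Δ := by exact_mod_cast hΔ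
    obtain ⟨H2, X2, Y2, b1, b2, b3, b4⟩ := clean (G := G) (Xs := Sd (o i) Xs Ys)
      (Ys := Sd (o i + 1) Xs Ys)
      ((Ho (o i) H).filter fun p => (∑ s ∈ Ls p.2, (wt i H s p.1 : ℝ)) < θ i / 2 * D i * Δ)
      (lam := κ (T.card + 1) * Δ) (mul_pos (hκ _).1 D0)
      (fun p hp => a3'.sub p (mem_filter.1 hp).1)
      (card_pos.1 (Nat.cast_pos.1 (lt_of_le_of_lt (by positivity) hB))) (by
        have e : κ (T.card + 1) * Δ * (((Sd (o i) Xs Ys).card : ℝ) + (Sd (o i + 1) Xs Ys).card) ≤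
            β T.card * κ T.card / 2 * Δ *
              (((Sd (o i) Xs Ys).card : ℝ) + (Sd (o i + 1) Xs Ys).card) := by gcongr
        linarith [mul_le_mul_of_nonneg_left c1 k2.le, mul_le_mul_of_nonneg_left c2 k2.le])
    obtain ⟨b5, b6, b7⟩ := host_back b4 b2 b3
    have b8 : Ho (o i) (Ho (o i) H2) = H2 := Ho_Ho _ _
    have hs : Ho (o i) H2 ⊆ H := by
      have := Ho_mono (o := o i) (b1.trans (filter_subset _ _))
      rwa [Ho_Ho] at this
    generalize Ho (o i) H2 = H' at b5 b8 hs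
    have hS : ∀ j y, Sx j y ⊆ update Sx i (fun y => (Ls y).biUnion (supp i)) j y := fun j y => by
      rcases eq_or_ne j i with rfl | e
      · rw [a5 j hiT]
        exact empty_subset _
      · rw [update_of_ne e]
    refine ih (insert i T) (insert_subset hi hT) (by rw [card_insert_of_notMem hiT]; omega) H' _ _
      (update Sx i fun y => (Ls y).biUnion (supp i)) (hs.trans a0) (b6.trans a1) (b7.trans a2)
      (by rwa [card_insert_of_notMem hiT]) (fun j y => ?_) (fun j hj y => ?_) fun j hj y s m1 m2 => ?_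
    · rcases eq_or_ne j i with rfl | e
      · rw [update_self, mul_comm]
        exact (card_biUnion_le_card_mul _ _ _ fun s hs =>
          (hsupp j hi Sx y s (l2 y s hs)).2).trans (Nat.mul_le_mul_right _ (l1 y))
      · rw [update_of_ne e]
        exact a4 j y
    · rw [mem_insert, not_or] at hj
      rw [update_of_ne hj.1, a5 j hj.2]
    · have hjI : j ∈ I := insert_subset hi hT hj
      have m3 := hAdm j hjI _ _ hS y s m1
      have m4 : ∀ A : Finset V, nbX (Ho (o j) H') y ⊆ A →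
          (∑ x ∈ nbX (Ho (o j) H') y, (wt j H' s x : ℝ)) ≤ ∑ x ∈ A, (wt j H s x : ℝ) := fun A hA =>
        (sum_le_sum fun x _ => Nat.cast_le.2 (hmono j hjI H H' hs s x)).trans
          (sum_le_sum_of_subset_of_nonneg hA fun _ _ _ => Nat.cast_nonneg _)
      rcases eq_or_ne j i with rfl | e
      · rw [update_self] at m2
        refine (m4 _ fun x hx => ?_).trans_lt (l4 y s m3 m2)
        have hx1 := mem_nbX.1 hx
        have hx2 := Ho_mono hs hx1
        rw [b8] at hx1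
        exact mem_filter.2 ⟨mem_nbX.2 hx2, (mem_filter.1 (b1 hx1)).2⟩
      · rw [update_of_ne e] at m2
        exact (m4 _ fun x hx => mem_nbX.2 (Ho_mono hs (mem_nbX.1 hx))).trans_lt
          (a6 j ((mem_insert.1 hj).resolve_left e) y s m3 m2)

end Pool.Agent.Work.MP_054302_co.Y
end

-- merged part: Pool.Agent.Work.MP_054302_co.Y.MDefs
section
namespace Pool.Agent.Work.MP_054302_co.Y

open Finset Function Pool.Agent.Work.MP_054302_co.X
open scoped Classical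

/-- Data of one merge step. -/
structure MD (V : Type) where
  d : ℕ
  N : ℕ
  r : ℕ → ℕ
  G : SimpleGraph V
  Δ : ℕ
  H : Finset (V × V)
  Xs : Finset V
  Ys : Finset V
  S : V → Finset V
  a : ℕ
  b : ℕ
  b' : ℕ
  c : ℕ
  B : ℕ
  B1 : ℕ
  B2 : ℕ
  Q : ℕ
  Qs : ℕ → ℕ
  D1 : ℕ
  D2 : ℕ
  s : ℕ
  θ : ℝ
  θ1 : ℝ
  θ2 : ℝ
  κ : ℝ
  β : ℝ
  θi : ℝ
  L1 : V → Finset (Lb → V)
  L2 : V → Finset (Lb → V)
  v0 : V

namespace MD

variable {V : Type} [Fintype V] [DecidableEq V] (M : MD V)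

/-- The stretch. -/
def U : Finset Lb := Seg M.d M.N M.r (2 * M.b) (2 * M.b')
/-- Its non-roots. -/
def U0 : Finset Lb := M.U.filter fun v => isRoot v = false
/-- Its roots. -/
def UR : Finset Lb := M.U.filter fun v => isRoot v = true
/-- Size of the tree. -/
def u : ℕ := (VT M.d M.N M.r).card
/-- Number of edges of the stretch. -/
def e : ℕ := M.U.card - 1
/-- Size of the host. -/
def n : ℕ := M.Xs.card + M.Ys.card
/-- Basic density constant. -/
noncomputable def γ : ℝ := M.κ ^ (M.u + 1)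
/-- A set with the stored sets of its members. -/
def hat (A : Finset V) : Finset V := A.biUnion fun x => insert x (M.S x)
/-- Support of a stem of the left piece. -/
def s1 (w : Lb → V) : Finset V := suppR M.d M.N M.r M.a M.b w
/-- Support of a stem of the right piece. -/
def s2 (w : Lb → V) : Finset V := suppL M.d M.N M.r M.b' M.c w
/-- Weight of a stem of the left piece. -/
noncomputable def w1 (w : Lb → V) (x : V) : ℕ := wtR M.d M.N M.r M.G M.H M.B1 M.a M.b w x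
/-- Weight of a stem of the right piece. -/
noncomputable def w2 (w : Lb → V) (x : V) : ℕ := wtL M.d M.N M.r M.G M.H M.B2 M.b' M.c w x
/-- Vertices to be avoided. -/
def Av (x : V) : Finset V :=
  M.hat {x} ∪ (M.L1 x).biUnion (fun w => M.hat (M.s1 w)) ∪
    (M.L2 x).biUnion fun w => M.hat (M.s2 w)
/-- Bound for the size of `Av`. -/
def s0 : ℕ := (1 + M.s) * (1 + (M.D1 + M.D2) * (M.u + 2))

/-- Numerical and structural hypotheses. -/
structure Hyp : Prop where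
  hab : M.a < M.b
  hb : 1 ≤ M.b
  hbb : M.b ≤ M.b'
  hb' : M.b' ≤ M.N
  hbc : M.b' < M.c
  hc : M.c ≤ M.N + 1
  hΔ : 0 < M.Δ
  hdeg : ∀ v, (nbr M.G v).card ≤ M.Δ
  hκ : 0 < M.κ ∧ M.κ ≤ 1
  host : Host M.G M.H M.Xs M.Ys (M.κ * M.Δ)
  hS : ∀ y, (M.S y).card ≤ M.s
  hθ : 0 < M.θ ∧ M.θ ≤ M.θ1 ∧ M.θ ≤ M.θ2
  hB1 : M.B + M.u ≤ M.B1
  hB2 : M.B + M.u ≤ M.B2
  l1 : Lists (Hi M.d M.H M.b) M.Δ M.θ1 M.D1 M.β (admR M.d M.N M.r M.S M.a M.b) M.s1 M.w1 M.L1
  l2 : Lists (Hi M.d M.H M.b') M.Δ M.θ2 M.D2 M.β (admL M.d M.N M.r M.S M.b' M.c) M.s2 M.w2 M.L2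
  hβ : M.β ≤ M.γ / 20
  hpath : ∀ j o, 2 ≤ j → j ≤ M.d + 2 →
    (((HA M.G M.Qs (M.Xs ∪ M.Ys) j M.v0).filter (Alt M.H o j)).card : ℝ) ≤
      M.θi * M.n * (M.Δ : ℝ) ^ j
  hθi : ((M.d : ℝ) + 3) * (M.u : ℝ) ^ (M.d + 3) * M.θi ≤ M.γ / 20
  hAv : (M.u : ℝ) ^ 2 * M.s0 ≤ M.γ / 20 * M.Δ
  hX1 : 16 * ((M.u : ℝ) * M.s + (M.u + 2) * (1 + M.s)) ≤ M.θ ^ 2 * M.D1
  hX2 : 16 * ((M.u : ℝ) * M.s + (M.u + 2) * (1 + M.s)) ≤ M.θ ^ 2 * M.D2
  hQ : M.B < M.Q
  hQs : ∀ j ≤ M.d + 2, M.Qs j < M.Q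
  hsl : (sunC M.u M.Q : ℝ) * (M.n : ℝ) ^ (M.UR.card - 1) ≤ M.γ * M.θ ^ 2 / 64 * (M.Δ : ℝ) ^ M.e

/-- Good homomorphisms of the stretch. -/
noncomputable def GH : Finset (Lb → V) :=
  (Hom M.d M.N M.r M.H M.Xs M.Ys M.U M.v0).filter fun φ =>
    M.θ1 / 2 * M.D1 * M.Δ ≤ (∑ w ∈ M.L1 (φ (Lb.y M.b)), (M.w1 w (φ (Lb.c M.b)) : ℝ)) ∧
    M.θ2 / 2 * M.D2 * M.Δ ≤ (∑ w ∈ M.L2 (φ (Lb.y M.b')), (M.w2 w (φ (Lb.c M.b')) : ℝ)) ∧
    (∀ (j : ℕ) (q : ℕ → Lb), 2 ≤ j → j ≤ M.d + 2 → TP M.d M.N M.r M.U j q →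
      ¬ RP M.G (M.Qs j) j (φ (q 0)) (φ (q j))) ∧
    ∀ v ∈ M.U, ∀ v' ∈ M.U, v ≠ v' → φ v' ∉ M.Av (φ v)

lemma mem_GH {φ : Lb → V} : φ ∈ M.GH ↔ φ ∈ Hom M.d M.N M.r M.H M.Xs M.Ys M.U M.v0 ∧
    M.θ1 / 2 * M.D1 * M.Δ ≤ (∑ w ∈ M.L1 (φ (Lb.y M.b)), (M.w1 w (φ (Lb.c M.b)) : ℝ)) ∧
    M.θ2 / 2 * M.D2 * M.Δ ≤ (∑ w ∈ M.L2 (φ (Lb.y M.b')), (M.w2 w (φ (Lb.c M.b')) : ℝ)) ∧
    (∀ (j : ℕ) (q : ℕ → Lb), 2 ≤ j → j ≤ M.d + 2 → TP M.d M.N M.r M.U j q →
      ¬ RP M.G (M.Qs j) j (φ (q 0)) (φ (q j))) ∧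
    ∀ v ∈ M.U, ∀ v' ∈ M.U, v ≠ v' → φ v' ∉ M.Av (φ v) := by
  simp only [GH, mem_filter]

/-- Compatibility of two stems with `φ` and with each other. -/
def Cmp (φ w w' : Lb → V) : Prop :=
  (∀ v ∈ M.U, Disjoint (M.s1 w) (M.S (φ v)) ∧ Disjoint (M.s2 w') (M.S (φ v))) ∧
    Disjoint (M.s1 w) (M.hat (M.s2 w')) ∧ Disjoint (M.s2 w') (M.hat (M.s1 w))

/-- The decorations `((w1, cL), (w2, cR))` of `φ`. -/
noncomputable def Dl (φ : Lb → V) : Finset (((Lb → V) × V) × ((Lb → V) × V)) :=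
  ((M.L1 (φ (Lb.y M.b)) ×ˢ univ) ×ˢ (M.L2 (φ (Lb.y M.b')) ×ˢ univ)).filter fun δ =>
    (δ.1.2, δ.1.1 (Lb.y M.a)) ∈ Hi M.d M.H M.a ∧
    Good M.d M.N M.r M.G M.B1 M.a M.b δ.1.1 δ.1.2 (φ (Lb.c M.b)) ∧
    (δ.2.2, δ.2.1 (Lb.y M.c)) ∈ Hi M.d M.H M.c ∧
    Good M.d M.N M.r M.G M.B2 M.b' M.c δ.2.1 (φ (Lb.c M.b')) δ.2.2 ∧ M.Cmp φ δ.1.1 δ.2.1

lemma mem_Dl {φ : Lb → V} {δ : ((Lb → V) × V) × ((Lb → V) × V)} : δ ∈ M.Dl φ ↔
    δ.1.1 ∈ M.L1 (φ (Lb.y M.b)) ∧ δ.2.1 ∈ M.L2 (φ (Lb.y M.b')) ∧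
    (δ.1.2, δ.1.1 (Lb.y M.a)) ∈ Hi M.d M.H M.a ∧
    Good M.d M.N M.r M.G M.B1 M.a M.b δ.1.1 δ.1.2 (φ (Lb.c M.b)) ∧
    (δ.2.2, δ.2.1 (Lb.y M.c)) ∈ Hi M.d M.H M.c ∧
    Good M.d M.N M.r M.G M.B2 M.b' M.c δ.2.1 (φ (Lb.c M.b')) δ.2.2 ∧ M.Cmp φ δ.1.1 δ.2.1 := by
  simp only [Dl, mem_filter, mem_product, mem_univ, and_true, and_assoc]

/-- Objects: a good homomorphism with a decoration. -/
noncomputable def Ob : Finset ((Lb → V) × (((Lb → V) × V) × ((Lb → V) × V))) :=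
  M.GH.biUnion fun φ => (M.Dl φ).image (Prod.mk φ)

lemma mem_Ob {ω : (Lb → V) × (((Lb → V) × V) × ((Lb → V) × V))} :
    ω ∈ M.Ob ↔ ω.1 ∈ M.GH ∧ ω.2 ∈ M.Dl ω.1 := by
  simp only [Ob, mem_biUnion, mem_image]
  constructor
  · rintro ⟨φ, h1, δ, h2, rfl⟩
    exact ⟨h1, h2⟩
  · rintro ⟨h1, h2⟩
    exact ⟨ω.1, h1, ω.2, h2, rfl⟩

/-- The homomorphisms with the same datum as `ω`. -/
noncomputable def Fib (ω : (Lb → V) × (((Lb → V) × V) × ((Lb → V) × V))) : Finset (Lb → V) :=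
  M.GH.filter fun ψ => ω.2 ∈ M.Dl ψ ∧ ∀ v ∈ M.UR, ψ v = ω.1 v

lemma mem_Fib {ω : (Lb → V) × (((Lb → V) × V) × ((Lb → V) × V))} {ψ : Lb → V} :
    ψ ∈ M.Fib ω ↔ ψ ∈ M.GH ∧ ω.2 ∈ M.Dl ψ ∧ ∀ v ∈ M.UR, ψ v = ω.1 v := by
  simp only [Fib, mem_filter]

/-- The middle part of the stretch for the outcome `(s,t)`. -/
def Mid (s t : ℕ) : Finset Lb :=
  Seg M.d M.N M.r (if s = M.b then 2 * s else 2 * s - 1) (if t = M.b' then 2 * t else 2 * t + 1)
/-- Its non-roots. -/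
def Jt (s t : ℕ) : Finset Lb := (M.Mid s t).filter fun v => isRoot v = false
/-- New left end. -/
def a' (s : ℕ) : ℕ := if s = M.b then M.a else s - 1
/-- New right end. -/
def c' (t : ℕ) : ℕ := if t = M.b' then M.c else t + 1

/-- The outcome `(s,t)` of the sunflower analysis. -/
def Out (ω : (Lb → V) × (((Lb → V) × V) × ((Lb → V) × V))) (s t : ℕ) : Prop :=
  M.b ≤ s ∧ s ≤ t ∧ t ≤ M.b' ∧ ∃ P : Finset (Lb → V), P ⊆ M.Fib ω ∧ M.Q ≤ P.card ∧
    (∀ ψ ∈ P, (s ≠ M.b → ψ (Lb.c (s - 1)) = ω.1 (Lb.c (s - 1))) ∧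
      (t ≠ M.b' → ψ (Lb.c (t + 1)) = ω.1 (Lb.c (t + 1)))) ∧
    ∀ ψ ∈ P, ∀ ψ' ∈ P, ψ ≠ ψ' → ∀ v ∈ M.Jt s t, ∀ w ∈ M.Jt s t, ψ v ≠ ψ' w

/-- The glued labelling. -/
def Phi (ω : (Lb → V) × (((Lb → V) × V) × ((Lb → V) × V))) (v : Lb) : V :=
  if pos v < 2 * M.b then ω.2.1.1 v else if pos v ≤ 2 * M.b' then ω.1 v else ω.2.2.1 v

/-- Relabelling of the two new anchors. -/
def iota (s t : ℕ) (v : Lb) : Lb :=
  if s ≠ M.b ∧ v = Lb.y (s - 1) then Lb.m (s - 1) 0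
  else if t ≠ M.b' ∧ v = Lb.y (t + 1) then Lb.m t M.d else v

/-- The labelling of the new piece. -/
def wn (ω : (Lb → V) × (((Lb → V) × V) × ((Lb → V) × V))) (s t : ℕ) (v : Lb) : V :=
  M.Phi ω (M.iota s t v)

/-- The boundary pair of the new piece. -/
def pt (ω : (Lb → V) × (((Lb → V) × V) × ((Lb → V) × V))) (s t : ℕ) : V × V :=
  (if s = M.b then ω.2.1.2 else ω.1 (Lb.c (s - 1)),
    if t = M.b' then ω.2.2.2 else ω.1 (Lb.c (t + 1)))

/-- The key of an object. -/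
def key (ω : (Lb → V) × (((Lb → V) × V) × ((Lb → V) × V))) (s t : ℕ) :
    (Lb → V) × (Lb → V) × (Lb → V) :=
  (fun v => if v ∈ M.Mid s t then ω.1 v else M.v0,
    if s = M.b then ω.2.1.1 else fun _ => M.v0, if t = M.b' then ω.2.2.1 else fun _ => M.v0)

end MD

end Pool.Agent.Work.MP_054302_co.Y
end

-- merged part: Pool.Agent.Work.MP_054302_co.Y.M0
section
namespace Pool.Agent.Work.MP_054302_co.Y

open Finset Function Pool.Agent.Work.MP_054302_co.X
open scoped Classical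

namespace MD

variable {V : Type} [Fintype V] [DecidableEq V] {M : MD V}

lemma conn_U (h : M.Hyp) : Conn (adj M.d M.N M.r) M.U :=
  conn_seg h.hb h.hbb h.hb' (Or.inl rfl) (Or.inl rfl)

lemma c_mem_U (h : M.Hyp) {i : ℕ} (h1 : M.b ≤ i) (h2 : i ≤ M.b') : Lb.c i ∈ M.U := by
  have := h.hb
  have := h.hb'
  simp only [U, mem_Seg, IsReal, pos]
  omega

lemma y_mem_U (h : M.Hyp) {i : ℕ} (h1 : M.b ≤ i) (h2 : i ≤ M.b') : Lb.y i ∈ M.U := by
  have := h.hb
  have := h.hb'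
  simp only [U, mem_Seg, IsReal, pos]
  omega

lemma m_mem_U (h : M.Hyp) {i t : ℕ} (h1 : M.b ≤ i) (h2 : i < M.b') (h3 : t ≤ M.d) :
    Lb.m i t ∈ M.U := by
  have := h.hb
  have := h.hb'
  simp only [U, mem_Seg, IsReal, pos]
  omega

lemma card_U (h : M.Hyp) : 2 ≤ M.U.card ∧ M.U.card ≤ M.u ∧ M.e + 1 = M.U.card := by
  have h2 : 2 ≤ M.U.card := by
    apply one_lt_card.2
    exact ⟨Lb.c M.b, c_mem_U h le_rfl h.hbb, Lb.y M.b, y_mem_U h le_rfl h.hbb, by simp⟩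
  refine ⟨h2, card_le_card (filter_subset _ _), ?_⟩
  simp only [e]
  omega

lemma one_le_UR (h : M.Hyp) : 1 ≤ M.UR.card :=
  card_pos.2 ⟨Lb.y M.b, mem_filter.2 ⟨y_mem_U h le_rfl h.hbb, rfl⟩⟩

/-- A homomorphism into the host is a homomorphism into `G`. -/
lemma hom_adj (h : M.Hyp) {φ : Lb → V} (hφ : φ ∈ Hom M.d M.N M.r M.H M.Xs M.Ys M.U M.v0) :
    ∀ u ∈ M.U, ∀ v ∈ M.U, adj M.d M.N M.r u v → M.G.Adj (φ u) (φ v) := by
  intro u hu v hv huv
  have h3 := (mem_Hom.1 hφ).2.2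
  rcases huv with huv | huv
  · exact Ho_adj (fun p hp => (h.host.sub p hp).1) _ _ (h3 u hu v hv huv)
  · exact (Ho_adj (fun p hp => (h.host.sub p hp).1) _ _ (h3 v hv u hu huv)).symm

lemma hom_mem (h : M.Hyp) {φ : Lb → V} (hφ : φ ∈ Hom M.d M.N M.r M.H M.Xs M.Ys M.U M.v0) :
    ∀ v ∈ M.U, φ v ∈ M.Xs ∪ M.Ys := by
  have _ := h.hb
  intro v hv
  exact Sd_sub _ _ _ ((mem_Hom.1 hφ).2.1 v hv)

lemma mem_hat {A : Finset V} {x : V} : x ∈ M.hat A ↔ ∃ x' ∈ A, x = x' ∨ x ∈ M.S x' := by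
  simp only [hat, mem_biUnion, mem_insert]

lemma card_hat (h : M.Hyp) (A : Finset V) : (M.hat A).card ≤ A.card * (1 + M.s) := by
  apply card_biUnion_le_card_mul
  intro x _
  have h1 := card_insert_le x (M.S x)
  have h2 := h.hS x
  omega

lemma card_s1 (w : Lb → V) : (M.s1 w).card ≤ M.u + 2 :=
  card_image_le.trans (card_erase_le.trans (card_Lab _ _))

lemma card_s2 (w : Lb → V) : (M.s2 w).card ≤ M.u + 2 :=
  card_image_le.trans (card_erase_le.trans (card_Lab _ _))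

lemma M0_bi (h : M.Hyp) (L : Finset (Lb → V)) (D : ℕ) (hL : L.card ≤ D)
    (f : (Lb → V) → Finset V) (hf : ∀ w, (f w).card ≤ M.u + 2) :
    (L.biUnion fun w => M.hat (f w)).card ≤ D * ((M.u + 2) * (1 + M.s)) := by
  refine (card_biUnion_le_card_mul _ _ ((M.u + 2) * (1 + M.s)) ?_).trans
    (Nat.mul_le_mul_right _ hL)
  intro w _
  exact (card_hat h _).trans (Nat.mul_le_mul_right _ (hf w))

lemma card_Av (h : M.Hyp) (x : V) : (M.Av x).card ≤ M.s0 := by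
  have h0 := card_hat h {x}
  rw [card_singleton, one_mul] at h0
  have h1 := M0_bi h (M.L1 x) M.D1 (h.l1.card_le x) M.s1 card_s1
  have h2 := M0_bi h (M.L2 x) M.D2 (h.l2.card_le x) M.s2 card_s2
  have h3 : M.s0 = 1 + M.s + M.D1 * ((M.u + 2) * (1 + M.s)) +
      M.D2 * ((M.u + 2) * (1 + M.s)) := by
    simp only [s0]
    ring
  rw [h3]
  exact (card_union_le _ _).trans
    (Nat.add_le_add ((card_union_le _ _).trans (Nat.add_le_add h0 h1)) h2)

lemma M0_nbX (h : M.Hyp) (i : ℕ) (v : V) : (nbX (Hi M.d M.H i) v).card ≤ M.Δ :=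
  (host_deg_le h.hdeg (Ho_adj (fun p hp => (h.host.sub p hp).1) _) v).1

lemma w1_le (h : M.Hyp) (w : Lb → V) (x : V) : M.w1 w x ≤ M.Δ :=
  (card_filter_le _ _).trans (M0_nbX h _ _)

lemma w2_le (h : M.Hyp) (w : Lb → V) (x : V) : M.w2 w x ≤ M.Δ :=
  (card_filter_le _ _).trans (M0_nbX h _ _)

lemma gh_inj {φ : Lb → V} (hφ : φ ∈ M.GH) : Set.InjOn φ M.U := by
  intro v hv v' hv' hvv
  by_contra hne
  apply (M.mem_GH.1 hφ).2.2.2.2 v hv v' hv' hne
  rw [← hvv]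
  exact mem_union_left _ (mem_union_left _ (mem_hat.2 ⟨φ v, mem_singleton_self _, Or.inl rfl⟩))

lemma M0_half (h : M.Hyp) (L : Finset (Lb → V)) (D : ℕ) (hL : L.card ≤ D) (i : ℕ) :
    (L.biUnion fun w => (nbX (Hi M.d M.H i) (w (Lb.y i))).image (Prod.mk w)).card ≤ D * M.Δ := by
  refine (card_biUnion_le_card_mul _ _ M.Δ ?_).trans (Nat.mul_le_mul_right _ hL)
  intro w _
  exact card_image_le.trans (M0_nbX h _ _)

/-- At most `D1 Δ D2 Δ` candidates for a decoration once the two lists are known. -/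
lemma card_deco (h : M.Hyp) (y y' : V) (T : Finset (((Lb → V) × V) × ((Lb → V) × V)))
    (hT : ∀ δ ∈ T, δ.1.1 ∈ M.L1 y ∧ δ.2.1 ∈ M.L2 y' ∧
      (δ.1.2, δ.1.1 (Lb.y M.a)) ∈ Hi M.d M.H M.a ∧
      (δ.2.2, δ.2.1 (Lb.y M.c)) ∈ Hi M.d M.H M.c) : T.card ≤ M.D1 * M.Δ * (M.D2 * M.Δ) := by
  have h1 := M0_half h (M.L1 y) M.D1 (h.l1.card_le y) M.a
  have h2 := M0_half h (M.L2 y') M.D2 (h.l2.card_le y') M.c
  refine le_trans ?_ (Nat.mul_le_mul h1 h2)
  rw [← card_product]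
  apply card_le_card
  intro δ hδ
  obtain ⟨a1, a2, a3, a4⟩ := hT δ hδ
  simp only [mem_product, mem_biUnion, mem_image, mem_nbX]
  exact ⟨⟨δ.1.1, a1, δ.1.2, a3, rfl⟩, ⟨δ.2.1, a2, δ.2.2, a4, rfl⟩⟩

lemma mid_sub (h : M.Hyp) {s t : ℕ} (hs : M.b ≤ s) (hst : s ≤ t) (ht : t ≤ M.b') :
    M.Mid s t ⊆ M.U := by
  have _ := h.hb
  intro v hv
  simp only [Mid, U, mem_Seg] at hv ⊢
  obtain ⟨h1, h2, h3⟩ := hv
  refine ⟨h1, ?_, ?_⟩
  · split_ifs at h2 <;> omega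
  · split_ifs at h3 <;> omega

lemma conn_Mid (h : M.Hyp) {s t : ℕ} (hs : M.b ≤ s) (hst : s ≤ t) (ht : t ≤ M.b') :
    Conn (adj M.d M.N M.r) (M.Mid s t) := by
  have hb := h.hb
  refine conn_seg (s := s) (t := t) (by omega) hst (ht.trans h.hb') ?_ ?_
  · split_ifs <;> omega
  · split_ifs <;> omega

lemma mem_Mid {s t : ℕ} (hs : 1 ≤ s) {v : Lb} : v ∈ M.Mid s t ↔ IsReal M.d M.N M.r v ∧
    (2 * s ≤ pos v ∨ (s ≠ M.b ∧ 2 * s ≤ pos v + 1)) ∧
    (pos v ≤ 2 * t ∨ (t ≠ M.b' ∧ pos v ≤ 2 * t + 1)) := by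
  simp only [Mid, mem_Seg]
  refine and_congr_right fun _ => and_congr ?_ ?_
  · split_ifs <;> omega
  · split_ifs <;> omega

lemma pos_D (h : M.Hyp) : 0 < M.D1 ∧ 0 < M.D2 ∧ 0 < M.n ∧ 0 < M.γ := by
  have hp : (0 : ℝ) < 16 * ((M.u : ℝ) * M.s + (M.u + 2) * (1 + M.s)) := by positivity
  refine ⟨?_, ?_, ?_, pow_pos h.hκ.1 _⟩
  · by_contra h0
    have h1 := h.hX1
    rw [show M.D1 = 0 by omega] at h1
    simp only [Nat.cast_zero, mul_zero] at h1
    linarith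
  · by_contra h0
    have h1 := h.hX2
    rw [show M.D2 = 0 by omega] at h1
    simp only [Nat.cast_zero, mul_zero] at h1
    linarith
  · obtain ⟨p, hp⟩ := h.host.ne
    have := card_pos.2 ⟨p.1, (h.host.sub p hp).2.1⟩
    simp only [n]
    omega

end MD

end Pool.Agent.Work.MP_054302_co.Y
end

-- merged part: Pool.Agent.Work.MP_054302_co.Y.TpF
section
namespace Pool.Agent.Work.MP_054302_co.Y

open Finset Function Pool.Agent.Work.MP_054302_co.X
open scoped Classical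

variable {d N : ℕ} {r : ℕ → ℕ} {p : ℕ}

lemma mem_TpS {x : Lb × ℕ} :
    x ∈ TpS d N r p ↔ IsReal d N r x.1 ∧ x.2 < p ∧ (isRoot x.1 = true → x.2 = 0) := by
  simp only [TpS, mem_filter, mem_product, mem_VT, mem_range, and_assoc]

lemma TpF_roots {u v : Lb} (h : adj d N r u v) (hu : isRoot u = true) : isRoot v = false := by
  cases u <;> cases v <;> simp_all [adj, Ed, isRoot]

lemma TpF_adj {x x' : TpS d N r p} (h : adj d N r x.1.1 x'.1.1)
    (h2 : x.1.2 = x'.1.2 ∨ isRoot x.1.1 = true ∨ isRoot x'.1.1 = true) : (Tp d N r p).Adj x x' := by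
  rw [Tp, SimpleGraph.fromRel_adj]
  refine ⟨?_, Or.inl ⟨h, h2⟩⟩
  rintro rfl
  exact adj_irrefl _ h

lemma TpF_of_adj {x x' : TpS d N r p} (h : (Tp d N r p).Adj x x') : adj d N r x.1.1 x'.1.1 ∧
    (x.1.2 = x'.1.2 ∨ isRoot x.1.1 = true ∨ isRoot x'.1.1 = true) := by
  rw [Tp, SimpleGraph.fromRel_adj] at h
  rcases h.2 with h | h
  · exact h
  · refine ⟨adj_symm _ _ h.1, ?_⟩
    rcases h.2 with h | h | h
    · exact Or.inl h.symm
    · exact Or.inr (Or.inr h)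
    · exact Or.inr (Or.inl h)

lemma TpF_copies {V : Type} [DecidableEq V] {G : SimpleGraph V} {w : Lb → V}
    (h : Rob (adj d N r) G ((p + 1) * (VT d N r).card) (NR d N r) w) (k : ℕ) (hk : k ≤ p) :
    ∃ F : ℕ → Lb → V, ∀ i < k, (∀ v, v ∉ NR d N r → F i v = w v) ∧ Set.InjOn (F i) (NR d N r) ∧
      (∀ v ∈ NR d N r, F i v ∉ (RT d N r).image w) ∧
      (∀ u ∈ NR d N r, ∀ v, adj d N r u v → G.Adj (F i u) (F i v)) ∧
      ∀ j < i, ∀ u ∈ NR d N r, ∀ v ∈ NR d N r, F i u ≠ F j v := by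
  induction k with
  | zero => exact ⟨fun _ => w, fun i hi => absurd hi (Nat.not_lt_zero i)⟩
  | succ k ih =>
    obtain ⟨F, hF⟩ := ih (Nat.le_of_succ_le hk)
    have h1 : (RT d N r).card ≤ (VT d N r).card := card_filter_le _ _
    have h2 : (NR d N r).card ≤ (VT d N r).card := card_filter_le _ _
    have h3 : ((range k).biUnion fun j => (NR d N r).image (F j)).card ≤ k * (VT d N r).card := by
      refine card_biUnion_le.trans ?_
      refine (sum_le_card_nsmul _ _ (VT d N r).card fun j _ => card_image_le.trans h2).trans ?_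
      simp
    have h4 : ((RT d N r).image w ∪ (range k).biUnion fun j => (NR d N r).image (F j)).card ≤
        (p + 1) * (VT d N r).card := by
      refine (card_union_le _ _).trans ?_
      have h5 : ((RT d N r).image w).card ≤ (VT d N r).card := card_image_le.trans h1
      have h6 : k * (VT d N r).card ≤ p * (VT d N r).card :=
        Nat.mul_le_mul_right _ (Nat.le_of_succ_le hk)
      rw [Nat.add_mul, Nat.one_mul]
      omega
    obtain ⟨f, hf1, hf2, hf3, hf4⟩ := h _ h4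
    refine ⟨update F k f, fun i hi => ?_⟩
    rcases Nat.lt_succ_iff_lt_or_eq.1 hi with hi | rfl
    · obtain ⟨a1, a2, a3, a4, a5⟩ := hF i hi
      rw [update_of_ne hi.ne]
      refine ⟨a1, a2, a3, a4, fun j hj => ?_⟩
      rw [update_of_ne (hj.trans hi).ne]
      exact a5 j hj
    · rw [update_self]
      refine ⟨hf1, hf2, fun v hv hm => hf3 v hv (mem_union_left _ hm), hf4, fun j hj => ?_⟩
      rw [update_of_ne hj.ne]
      intro u hu v hv he
      refine hf3 u hu (mem_union_right _ (mem_biUnion.2 ⟨j, mem_range.2 hj, ?_⟩))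
      exact mem_image.2 ⟨v, hv, he.symm⟩

/-- The parent of a vertex, towards `c 1`. -/
def TpF_par (d : ℕ) : Lb → Lb
  | .c i => .m (i - 1) d
  | .y i => .c i
  | .m i t => if t = 0 then .c i else .m i (t - 1)
  | .a i j t => if t = 0 then .c i else .a i j (t - 1)
  | .z i j => .a i j d

lemma TpF_par_root (v : Lb) : isRoot (TpF_par d v) = false := by
  cases v <;> simp only [TpF_par] <;> first | rfl | (split_ifs <;> rfl)

lemma TpF_par_ed {v : Lb} (hv : IsReal d N r v) (hc : v ≠ Lb.c 1) :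
    Ed d N r (TpF_par d v) v := by
  cases v with
  | c i =>
    have h1 : i ≠ 1 := fun h => hc (by rw [h])
    simp only [IsReal] at hv
    simp only [Ed, TpF_par, true_and]
    omega
  | y i => exact ⟨rfl, hv⟩
  | m i t =>
    simp only [IsReal] at hv
    simp only [TpF_par]
    split_ifs <;> simp only [Ed, true_and] <;> omega
  | a i j t =>
    simp only [IsReal] at hv
    simp only [TpF_par]
    split_ifs <;> simp only [Ed, true_and] <;> omega
  | z i j => exact ⟨rfl, rfl, rfl, hv⟩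

lemma TpF_par_spec {v : Lb} (hv : IsReal d N r v) (hc : v ≠ Lb.c 1) :
    adj d N r v (TpF_par d v) ∧ rk d (TpF_par d v) < rk d v :=
  ⟨Or.inr (TpF_par_ed hv hc), by rw [ed_rk (TpF_par_ed hv hc)]; omega⟩

lemma TpF_par_mem {v : Lb} {i : ℕ} (hv : IsReal d N r v) (hc : v ≠ Lb.c 1) (hi : i < p) :
    (TpF_par d v, i) ∈ TpS d N r p :=
  mem_TpS.2 ⟨(adj_real (TpF_par_spec hv hc).1).2, hi, fun h => by
    rw [TpF_par_root] at h
    exact absurd h (by decide)⟩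

lemma TpF_cp_mem {v : Lb} {i : ℕ} (hv : IsReal d N r v) (hi : i < p) :
    (v, if isRoot v = true then 0 else i) ∈ TpS d N r p :=
  mem_TpS.2 ⟨hv, by
    dsimp only
    split_ifs
    · omega
    · exact hi, fun h => if_pos h⟩

/-- Choose `p` copies one after the other, each avoiding the roots and the earlier copies; send
`(v, i)` to the value of copy `i` at `v`. Two roots are never adjacent. -/
theorem tp_contained {V : Type} [Fintype V] [DecidableEq V] {G : SimpleGraph V}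
    (h : Full d N r G ((p + 1) * (VT d N r).card)) : (Tp d N r p).IsContained G := by
  obtain ⟨w, hw, hR⟩ := h
  obtain ⟨F, hF⟩ := TpF_copies hR p le_rfl
  have hroot : ∀ (v : Lb) (i : ℕ), i < p → isRoot v = true → F i v = w v := fun v i hi hv =>
    (hF i hi).1 v fun h => by
      have := (mem_NR.1 h).2
      rw [hv] at this
      exact absurd this (by decide)
  have key : ∀ x x' : TpS d N r p, isRoot x.1.1 = false → adj d N r x.1.1 x'.1.1 →
      (x.1.2 = x'.1.2 ∨ isRoot x'.1.1 = true) → G.Adj (F x.1.2 x.1.1) (F x'.1.2 x'.1.1) := by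
    intro x x' h1 h2 h3
    have hx := mem_TpS.1 x.2
    have hx' := mem_TpS.1 x'.2
    have h4 := (hF _ hx.2.1).2.2.2.1 _ (mem_NR.2 ⟨hx.1, h1⟩) _ h2
    rcases h3 with h3 | h3
    · rw [← h3]
      exact h4
    · rw [hroot _ _ hx'.2.1 h3, ← hroot _ _ hx.2.1 h3]
      exact h4
  refine ⟨⟨⟨fun x => F x.1.2 x.1.1, fun {x x'} hxx => ?_⟩, fun x x' he => ?_⟩⟩
  · obtain ⟨h1, h2⟩ := TpF_of_adj hxx
    cases hr : isRoot x.1.1 with
    | true => exact (key x' x (TpF_roots h1 hr) (adj_symm _ _ h1) (Or.inr hr)).symm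
    | false =>
      refine key x x' hr h1 ?_
      rcases h2 with h2 | h2 | h2
      · exact Or.inl h2
      · rw [hr] at h2
        exact absurd h2 (by decide)
      · exact Or.inr h2
  · have he' : F x.1.2 x.1.1 = F x'.1.2 x'.1.1 := he
    have hx := mem_TpS.1 x.2
    have hx' := mem_TpS.1 x'.2
    have mixed : ∀ x x' : TpS d N r p, isRoot x.1.1 = true → isRoot x'.1.1 = false →
        F x.1.2 x.1.1 ≠ F x'.1.2 x'.1.1 := by
      intro x x' h1 h2 h3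
      have hx := mem_TpS.1 x.2
      have hx' := mem_TpS.1 x'.2
      refine (hF _ hx'.2.1).2.2.1 _ (mem_NR.2 ⟨hx'.1, h2⟩) (mem_image.2 ⟨x.1.1,
        mem_RT.2 ⟨hx.1, h1⟩, ?_⟩)
      rw [← h3, hroot _ _ hx.2.1 h1]
    cases hr : isRoot x.1.1 with
    | true =>
      cases hr' : isRoot x'.1.1 with
      | true =>
        rw [hroot _ _ hx.2.1 hr, hroot _ _ hx'.2.1 hr'] at he'
        have h1 := hw (mem_coe.2 (mem_RT.2 ⟨hx.1, hr⟩)) (mem_coe.2 (mem_RT.2 ⟨hx'.1, hr'⟩)) he'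
        exact Subtype.ext (Prod.ext h1 ((hx.2.2 hr).trans (hx'.2.2 hr').symm))
      | false => exact absurd he' (mixed x x' hr hr')
    | false =>
      cases hr' : isRoot x'.1.1 with
      | true => exact absurd he'.symm (mixed x' x hr' hr)
      | false =>
        have n1 := mem_NR.2 ⟨hx.1, hr⟩
        have n2 := mem_NR.2 ⟨hx'.1, hr'⟩
        rcases lt_trichotomy x.1.2 x'.1.2 with h1 | h1 | h1
        · exact absurd he'.symm ((hF _ hx'.2.1).2.2.2.2 _ h1 _ n2 _ n1)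
        · rw [← h1] at he'
          exact Subtype.ext (Prod.ext ((hF _ hx.2.1).2.1 (mem_coe.2 n1) (mem_coe.2 n2) he') h1)
        · exact absurd he' ((hF _ hx.2.1).2.2.2.2 _ h1 _ n1 _ n2)

lemma tp_card (hp : 1 ≤ p) :
    Fintype.card (TpS d N r p) = p * (NR d N r).card + (RT d N r).card := by
  have h1 : TpS d N r p = NR d N r ×ˢ range p ∪ RT d N r ×ˢ ({0} : Finset ℕ) := by
    ext x
    simp only [mem_TpS, mem_union, mem_product, mem_NR, mem_RT, mem_range, mem_singleton]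
    cases isRoot x.1 with
    | true =>
      constructor
      · rintro ⟨a, _, c⟩
        exact Or.inr ⟨⟨a, rfl⟩, c rfl⟩
      · rintro (⟨⟨_, b⟩, _⟩ | ⟨⟨a, _⟩, c⟩)
        · exact absurd b (by decide)
        · exact ⟨a, by omega, fun _ => c⟩
    | false =>
      constructor
      · rintro ⟨a, b, _⟩
        exact Or.inl ⟨⟨a, rfl⟩, b⟩
      · rintro (⟨⟨a, _⟩, b⟩ | ⟨⟨_, b⟩, _⟩)
        · exact ⟨a, b, fun h => absurd h (by decide)⟩
        · exact absurd b (by decide)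
  have h2 : Disjoint (NR d N r ×ˢ range p) (RT d N r ×ˢ ({0} : Finset ℕ)) := by
    refine disjoint_left.2 fun x hx hx' => ?_
    have a := (mem_NR.1 (mem_product.1 hx).1).2
    rw [(mem_RT.1 (mem_product.1 hx').1).2] at a
    exact absurd a (by decide)
  rw [Fintype.card_coe, h1, card_union_of_disjoint h2, card_product, card_product, card_range,
    card_singleton, Nat.mul_one, Nat.mul_comm]

/-- Inject `(VT.erase (c 1)) × range p` into the edges: `(v, i)` goes to the edge between the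
copies of `v` and of its parent (towards `c 1`) in copy `i`; one end is a non-root and gives `i`,
the end of larger rank gives `v`. -/
lemma tp_edges (hN : 1 ≤ N) : p * ((VT d N r).card - 1) ≤ (Tp d N r p).edgeSet.ncard := by
  have hc : Lb.c 1 ∈ VT d N r := mem_VT.2 ⟨le_rfl, hN⟩
  set S : Finset (Lb × ℕ) := (VT d N r).erase (Lb.c 1) ×ˢ range p with hS
  have hm : ∀ x : S, IsReal d N r x.1.1 ∧ x.1.1 ≠ Lb.c 1 ∧ x.1.2 < p := fun x => by
    have h := mem_product.1 x.2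
    exact ⟨mem_VT.1 (mem_of_mem_erase h.1), ne_of_mem_erase h.1, mem_range.1 h.2⟩
  let φ : S → Sym2 (TpS d N r p) := fun x =>
    s(⟨_, TpF_cp_mem (hm x).1 (hm x).2.2⟩, ⟨_, TpF_par_mem (hm x).1 (hm x).2.1 (hm x).2.2⟩)
  have h1 : ∀ x ∈ (Set.univ : Set S), φ x ∈ (Tp d N r p).edgeSet := fun x _ => by
    refine (SimpleGraph.mem_edgeSet _).2 (TpF_adj (TpF_par_spec (hm x).1 (hm x).2.1).1 ?_)
    dsimp only
    split_ifs with h
    · exact Or.inr (Or.inl h)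
    · exact Or.inl rfl
  have h2 : Set.InjOn φ Set.univ := fun x _ x' _ he => by
    rcases Sym2.eq_iff.1 he with ⟨a, b⟩ | ⟨a, b⟩
    · have a' : x.1.1 = x'.1.1 := congrArg (fun t : TpS d N r p => t.1.1) a
      have b' : x.1.2 = x'.1.2 := congrArg (fun t : TpS d N r p => t.1.2) b
      exact Subtype.ext (Prod.ext a' b')
    · have a' : x.1.1 = TpF_par d x'.1.1 := congrArg (fun t : TpS d N r p => t.1.1) a
      have b' : TpF_par d x.1.1 = x'.1.1 := congrArg (fun t : TpS d N r p => t.1.1) b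
      have c := (TpF_par_spec (hm x).1 (hm x).2.1).2
      have c' := (TpF_par_spec (hm x').1 (hm x').2.1).2
      rw [b'] at c
      rw [← a'] at c'
      omega
  have h3 := Set.ncard_le_ncard_of_injOn φ h1 h2 (Set.toFinite _)
  rw [Set.ncard_univ, Nat.card_eq_fintype_card, Fintype.card_coe, hS, card_product,
    card_erase_of_mem hc, card_range, Nat.mul_comm] at h3
  exact h3

/-- Every vertex is reachable from the root `y 1` (induction on the rank). -/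
lemma tp_conn (hN : 1 ≤ N) (hp : 1 ≤ p) : (Tp d N r p).Connected := by
  have hy : (Lb.y 1, 0) ∈ TpS d N r p := mem_TpS.2 ⟨⟨le_rfl, hN⟩, hp, fun _ => rfl⟩
  have key : ∀ (n : ℕ) (x : TpS d N r p), rk d x.1.1 < n → (Tp d N r p).Reachable x ⟨_, hy⟩ := by
    intro n
    induction n with
    | zero => exact fun x hx => absurd hx (Nat.not_lt_zero _)
    | succ n ih =>
      intro x hx
      have hm := mem_TpS.1 x.2
      by_cases hc : x.1.1 = Lb.c 1
      · refine (TpF_adj ?_ (Or.inr (Or.inr rfl))).reachable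
        rw [hc]
        exact Or.inl ⟨rfl, le_rfl, hN⟩
      · have hs := TpF_par_spec hm.1 hc
        have h1 : (Tp d N r p).Adj x ⟨_, TpF_par_mem hm.1 hc hm.2.1⟩ := TpF_adj hs.1 (Or.inl rfl)
        refine h1.reachable.trans (ih _ ?_)
        have := hs.2
        dsimp only
        omega
  rw [SimpleGraph.connected_iff_exists_forall_reachable]
  exact ⟨⟨_, hy⟩, fun x => (key _ x (Nat.lt_succ_self _)).symm⟩

lemma tp_col : (Tp d N r p).Colorable 2 := by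
  have C : (Tp d N r p).Coloring Bool :=
    SimpleGraph.Coloring.mk (fun x => decide (rk d x.1.1 % 2 = 0)) (by
      intro x x' h
      have := adj_rk (TpF_of_adj h).1
      simp only [ne_eq, decide_eq_decide]
      omega)
  simpa using C.colorable

end Pool.Agent.Work.MP_054302_co.Y
end

-- merged part: Pool.Agent.Work.MP_054302_co.Y.HomLb
section
namespace Pool.Agent.Work.MP_054302_co.Y

open Finset Function Pool.Agent.Work.MP_054302_co.X
open scoped Classical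

variable {V : Type} [Fintype V] [DecidableEq V] {d N : ℕ} {r : ℕ → ℕ}

/-- One leaf more multiplies the number of homomorphisms by at least `lam`. -/
lemma HomLb_step {G : SimpleGraph V} {H : Finset (V × V)} {Xs Ys : Finset V} {lam : ℝ}
    (hH : Host G H Xs Ys lam) (v0 : V) (U : Finset Lb) (v p : Lb) (hv : v ∈ U) (hp : p ∈ U)
    (hpv : p ≠ v) (hadj : adj d N r v p) (honly : ∀ w ∈ U, adj d N r v w → w = p) :
    ((Hom d N r H Xs Ys (U.erase v) v0).card : ℝ) * lam ≤ ((Hom d N r H Xs Ys U v0).card : ℝ) := by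
  obtain ⟨nb, hnb⟩ : ∃ nb : (Lb → V) → Finset V,
      ∀ f, nb f = nbX (Ho (rk d v) H) (f p) := ⟨_, fun _ => rfl⟩
  have hp' : p ∈ U.erase v := mem_erase.2 ⟨hpv, hp⟩
  have hpar := adj_rk hadj
  have hO := host_Ho hH (rk d v)
  have h1 : ∀ f ∈ Hom d N r H Xs Ys (U.erase v) v0, lam ≤ ((nb f).card : ℝ) := by
    intro f hf
    rw [mem_Hom] at hf
    rw [hnb]
    refine hO.dY _ ?_
    rw [← Sd_congr hpar]
    exact hf.2.1 p hp'
  have h2 : ((Hom d N r H Xs Ys (U.erase v) v0).sigma nb).card ≤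
      (Hom d N r H Xs Ys U v0).card := by
    apply card_le_card_of_injOn (fun q => update q.1 v q.2)
    · rintro ⟨f, x⟩ hq
      rw [mem_coe, mem_sigma] at hq
      obtain ⟨hf, hx⟩ := hq
      simp only at hf hx
      rw [mem_Hom] at hf
      obtain ⟨hf0, hfs, hfe⟩ := hf
      rw [hnb, mem_nbX] at hx
      rw [mem_coe, mem_Hom]
      refine ⟨?_, ?_, ?_⟩
      · intro w hw
        have hwv : w ≠ v := fun e => hw (e ▸ hv)
        show update f v x w = v0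
        rw [update_of_ne hwv]
        exact hf0 w (fun hw' => hw (mem_of_mem_erase hw'))
      · intro w hw
        by_cases hwv : w = v
        · subst hwv
          show update f w x w ∈ _
          rw [update_self]
          exact (hO.sub _ hx).2.1
        · show update f v x w ∈ _
          rw [update_of_ne hwv]
          exact hfs w (mem_erase.2 ⟨hwv, hw⟩)
      · intro u hu w hw he
        show (update f v x u, update f v x w) ∈ _
        by_cases huv : u = v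
        · subst huv
          have hwp : w = p := honly w hw (Or.inl he)
          subst hwp
          rw [update_self, update_of_ne hpv]
          exact hx
        · by_cases hwv : w = v
          · subst hwv
            have hup : u = p := honly u hu (Or.inr he)
            subst hup
            rw [update_self, update_of_ne hpv, Ho_congr hpar]
            exact mem_Ho_succ.2 hx
          · rw [update_of_ne huv, update_of_ne hwv]
            exact hfe u (mem_erase.2 ⟨huv, hu⟩) w (mem_erase.2 ⟨hwv, hw⟩) he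
    · rintro ⟨f, x⟩ hq ⟨g, y⟩ hq' e
      rw [mem_coe, mem_sigma] at hq hq'
      have hf := (mem_Hom.1 hq.1).1 v (notMem_erase v U)
      have hg := (mem_Hom.1 hq'.1).1 v (notMem_erase v U)
      simp only at hf hg e
      have hxy : x = y := by
        have := congrFun e v
        rwa [update_self, update_self] at this
      have hfg : f = g := by
        funext w
        by_cases hwv : w = v
        · rw [hwv, hf, hg]
        · have := congrFun e w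
          rwa [update_of_ne hwv, update_of_ne hwv] at this
      subst hxy
      subst hfg
      rfl
  rw [card_sigma] at h2
  calc ((Hom d N r H Xs Ys (U.erase v) v0).card : ℝ) * lam
      = ∑ _f ∈ Hom d N r H Xs Ys (U.erase v) v0, lam := by rw [sum_const, nsmul_eq_mul]
    _ ≤ ∑ f ∈ Hom d N r H Xs Ys (U.erase v) v0, ((nb f).card : ℝ) := sum_le_sum h1
    _ ≤ _ := by exact_mod_cast h2

/-- The single root. -/
lemma HomLb_base {H : Finset (V × V)} {Xs Ys : Finset V} (v0 : V) (ρ : Lb) :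
    (Sd (rk d ρ) Xs Ys).card ≤ (Hom d N r H Xs Ys {ρ} v0).card := by
  apply card_le_card_of_injOn (fun x => update (fun _ => v0) ρ x)
  · intro x hx
    rw [mem_coe] at hx
    rw [mem_coe, mem_Hom]
    refine ⟨?_, ?_, ?_⟩
    · intro w hw
      have hwv : w ≠ ρ := fun e => hw (mem_singleton.2 e)
      show update (fun _ => v0) ρ x w = v0
      rw [update_of_ne hwv]
    · intro w hw
      rw [mem_singleton] at hw
      subst hw
      show update (fun _ => v0) w x w ∈ _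
      rw [update_self]
      exact hx
    · intro u hu w hw he
      rw [mem_singleton] at hu hw
      have hs := ed_rk he
      rw [hw, hu] at hs
      omega
  · intro x _ y _ e
    have := congrFun e ρ
    simp only [update_self] at this
    exact this

/-- General version for sets closed under a parent map, by induction on `U` removing a vertex `v`
of maximal rank: its only neighbour in `U` is `par v`, every homomorphism of `U.erase v` extends
by `update f v x` for `x` in `nbX` or `nbY` of `f (par v)`, and `(f, x)` is recovered. -/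
lemma hom_lb_par {G : SimpleGraph V} {H : Finset (V × V)} {Xs Ys : Finset V} {lam : ℝ}
    (hH : Host G H Xs Ys lam) (hlam : 0 ≤ lam) (v0 : V) (ρ : Lb)
    (par : Lb → Lb) (rn : Lb → ℕ) (U : Finset Lb) (hρ : ρ ∈ U)
    (h : ∀ v ∈ U, v ≠ ρ → par v ∈ U ∧ adj d N r v (par v) ∧ rn (par v) < rn v)
    (ht : ∀ u ∈ U, ∀ v ∈ U, adj d N r u v → (u ≠ ρ ∧ v = par u) ∨ (v ≠ ρ ∧ u = par v)) :
    ((Sd (rk d ρ) Xs Ys).card : ℝ) * lam ^ (U.card - 1) ≤ ((Hom d N r H Xs Ys U v0).card : ℝ) := by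
  obtain ⟨n, hn⟩ : ∃ n, (U.erase ρ).card = n := ⟨_, rfl⟩
  induction n generalizing U with
  | zero =>
    have hU : U = {ρ} := by
      rw [card_eq_zero] at hn
      apply eq_singleton_iff_unique_mem.2 ⟨hρ, ?_⟩
      intro x hx
      by_contra hne
      have : x ∈ U.erase ρ := mem_erase.2 ⟨hne, hx⟩
      rw [hn] at this
      exact notMem_empty _ this
    subst hU
    rw [card_singleton, Nat.sub_self, pow_zero, mul_one]
    exact_mod_cast HomLb_base v0 ρ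
  | succ n ih =>
    have hne : (U.erase ρ).Nonempty := card_pos.1 (by omega)
    obtain ⟨v, hv, hmax⟩ := exists_max_image (U.erase ρ) rn hne
    obtain ⟨hvρ, hvU⟩ := mem_erase.1 hv
    obtain ⟨hpU, hpa, hpr⟩ := h v hvU hvρ
    have hpv : par v ≠ v := fun e => by rw [e] at hpr; exact lt_irrefl _ hpr
    have hnp : ∀ w ∈ U, w ≠ ρ → par w ≠ v := by
      intro w hw hwρ e
      have h1 := (h w hw hwρ).2.2
      have h2 := hmax w (mem_erase.2 ⟨hwρ, hw⟩)
      rw [e] at h1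
      omega
    have honly : ∀ w ∈ U, adj d N r v w → w = par v := by
      intro w hw ha
      rcases ht v hvU w hw ha with h1 | h1
      · exact h1.2
      · exact absurd h1.2.symm (hnp w hw h1.1)
    have hstep := HomLb_step hH v0 U v (par v) hvU hpU hpv hpa honly
    have hih := ih (U.erase v) (mem_erase.2 ⟨hvρ.symm, hρ⟩)
      (fun w hw hwρ => by
        have hwU := mem_of_mem_erase hw
        obtain ⟨a1, a2, a3⟩ := h w hwU hwρ
        exact ⟨mem_erase.2 ⟨hnp w hwU hwρ, a1⟩, a2, a3⟩)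
      (fun u hu w hw ha => ht u (mem_of_mem_erase hu) w (mem_of_mem_erase hw) ha)
      (by
        rw [erase_right_comm, card_erase_of_mem hv]
        omega)
    have hc1 : (U.erase ρ).card = U.card - 1 := card_erase_of_mem hρ
    have hc2 : (U.erase v).card = U.card - 1 := card_erase_of_mem hvU
    have hc3 : U.card - 1 = ((U.erase v).card - 1) + 1 := by omega
    rw [hc3, pow_succ, ← mul_assoc]
    exact le_trans (mul_le_mul_of_nonneg_right hih hlam) hstep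

lemma HomLb_par {u v : Lb} (he : Ed d N r u v) : u = TpF_par d v := by
  cases u <;> cases v <;> simp only [Ed] at he <;> simp [TpF_par, he.1, he.2.1]
  · simp [he.2.2.1]
  · simp [he.2.2.1]

lemma hom_lb {G : SimpleGraph V} {H : Finset (V × V)} {Xs Ys : Finset V} {lam : ℝ}
    (hH : Host G H Xs Ys lam) (hlam : 0 ≤ lam) (v0 : V) {b b' : ℕ} (hb : 1 ≤ b) (hbb : b ≤ b')
    (hb' : b' ≤ N) :
    ((Sd (b * (d + 2)) Xs Ys).card : ℝ) * lam ^ ((Seg d N r (2 * b) (2 * b')).card - 1) ≤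
      ((Hom d N r H Xs Ys (Seg d N r (2 * b) (2 * b')) v0).card : ℝ) := by
  have key : ∀ u ∈ Seg d N r (2 * b) (2 * b'), ∀ v, Ed d N r u v → v ≠ Lb.c b := by
    rintro u hu v he rfl
    have := (mem_Seg.1 hu).2.1
    cases u <;> simp only [Ed, pos] at he this
    omega
  apply hom_lb_par hH hlam v0 (Lb.c b) (TpF_par d) (rk d)
  · rw [mem_Seg]
    simp only [IsReal, pos]
    omega
  · intro v hv hvb
    rw [mem_Seg] at hv
    have h1 : v ≠ Lb.c 1 := by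
      rintro rfl
      simp only [pos] at hv
      exact hvb (by rw [show b = 1 by omega])
    have h2 := TpF_par_spec hv.1 h1
    refine ⟨mem_Seg.2 ⟨(adj_real h2.1).2, ?_⟩, h2⟩
    cases v with
    | c i =>
      have hib : i ≠ b := fun e => hvb (by rw [e])
      simp only [pos, TpF_par] at hv ⊢
      omega
    | y i => exact hv.2
    | m i t =>
      simp only [pos, TpF_par] at hv ⊢
      split_ifs <;> simp only [pos] <;> omega
    | a i j t =>
      simp only [pos, TpF_par] at hv ⊢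
      split_ifs <;> simp only [pos] <;> omega
    | z i j => exact hv.2
  · intro u hu v hv ha
    rcases ha with he | he
    · exact .inr ⟨key u hu v he, HomLb_par he⟩
    · exact .inl ⟨key v hv u he, HomLb_par he⟩

end Pool.Agent.Work.MP_054302_co.Y
end

-- merged part: Pool.Agent.Work.MP_054302_co.Y.Paths
section
namespace Pool.Agent.Work.MP_054302_co.Y

open Finset Function Pool.Agent.Work.MP_054302_co.X
open scoped Classical

variable {d N : ℕ} {r : ℕ → ℕ}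

lemma tp_sub {U : Finset Lb} {j a e : ℕ} {q : ℕ → Lb} (h : TP d N r U j q) (he : a + e ≤ j) :
    TP d N r U e fun i => q (a + i) :=
  ⟨fun i hi => h.1 _ (by omega), fun i hi => h.2.1 _ (by omega), fun i hi i' hi' k => by
    have := h.2.2 _ (by omega) _ (by omega) k
    omega⟩

lemma tp_rk {U : Finset Lb} {j : ℕ} {q : ℕ → Lb} (h : TP d N r U j q) :
    ∀ i ≤ j, rk d (q i) % 2 = (rk d (q 0) + i) % 2 := by
  intro i
  induction i with
  | zero => exact fun _ => rfl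
  | succ i ih =>
    intro hi
    have h1 := adj_rk (h.2.1 i (by omega))
    have h2 := ih (by omega)
    omega

/-- The path from the anchor into the gap to the right. -/
lemma tp_right {b b' i t : ℕ} (hb : 1 ≤ b) (hb' : b' ≤ N) (h1 : b ≤ i) (h2 : i < b')
    (ht : t ≤ d) : TP d N r (Seg d N r (2 * b) (2 * b')) (t + 2)
      fun k => if k = 0 then Lb.y i else gl d i (k - 1) := by
  refine ⟨fun k hk => ?_, fun k hk => ?_, fun k hk k' hk' e => ?_⟩
  · simp only [gl, mem_Seg]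
    split_ifs <;> simp only [IsReal, pos] <;> omega
  · rcases Nat.eq_zero_or_pos k with rfl | h0
    · exact .inr ⟨rfl, by omega, by omega⟩
    · have := gl_adj (d := d) (N := N) (r := r) (i := i) (t := k - 1) (by omega) (by omega)
        (by omega)
      rw [show k - 1 + 1 = k + 1 - 1 by omega] at this
      simpa only [if_neg h0.ne', if_neg k.succ_ne_zero] using this
  · simp only [gl] at e
    split_ifs at e <;> simp at e <;> omega

/-- The path from the anchor into the gap to the left. -/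
lemma tp_left {b b' i t : ℕ} (hb : 1 ≤ b) (hb' : b' ≤ N) (h1 : b ≤ i) (h2 : i < b')
    (ht : t ≤ d) : TP d N r (Seg d N r (2 * b) (2 * b')) (t + 2)
      fun k => if k = 0 then Lb.y (i + 1) else gl d i (d + 3 - k) := by
  refine ⟨fun k hk => ?_, fun k hk => ?_, fun k hk k' hk' e => ?_⟩
  · simp only [gl, mem_Seg]
    split_ifs <;> simp only [IsReal, pos] <;> omega
  · rcases Nat.eq_zero_or_pos k with rfl | h0
    · have e : gl d i (d + 3 - (0 + 1)) = Lb.c (i + 1) := by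
        rw [gl, if_neg (by omega), if_neg (by omega)]
      simp only [if_true, if_neg (Nat.succ_ne_zero 0), e]
      exact .inr ⟨rfl, by omega, by omega⟩
    · have := gl_adj (d := d) (N := N) (r := r) (i := i) (t := d + 3 - (k + 1)) (by omega)
        (by omega) (by omega)
      rw [show d + 3 - (k + 1) + 1 = d + 3 - k by omega] at this
      simpa only [if_neg h0.ne', if_neg k.succ_ne_zero] using adj_symm _ _ this
  · simp only [gl] at e
    split_ifs at e <;> simp at e <;> omega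

/-- The path from the anchor into a leg. -/
lemma tp_leg {b b' i j t : ℕ} (hb : 1 ≤ b) (hb' : b' ≤ N) (h1 : b ≤ i) (h2 : i ≤ b')
    (hj : j < r i) (ht : t ≤ d) : TP d N r (Seg d N r (2 * b) (2 * b')) (t + 2)
      fun k => if k = 0 then Lb.y i else ll d i j (k - 1) := by
  refine ⟨fun k hk => ?_, fun k hk => ?_, fun k hk k' hk' e => ?_⟩
  · simp only [ll, mem_Seg]
    split_ifs <;> simp only [IsReal, pos] <;> omega
  · rcases Nat.eq_zero_or_pos k with rfl | h0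
    · exact .inr ⟨rfl, by omega, by omega⟩
    · have := ll_adj (d := d) (N := N) (r := r) (i := i) (j := j) (t := k - 1) (by omega)
        (by omega) hj (by omega)
      rw [show k - 1 + 1 = k + 1 - 1 by omega] at this
      simpa only [if_neg h0.ne', if_neg k.succ_ne_zero] using this
  · simp only [ll] at e
    split_ifs at e <;> simp at e <;> omega

lemma tp_gl {b b' i : ℕ} (hb : 1 ≤ b) (hb' : b' ≤ N) (h1 : b ≤ i) (h2 : i < b') :
    TP d N r (Seg d N r (2 * b) (2 * b')) (d + 2) (gl d i) := by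
  refine ⟨fun k hk => ?_, fun k hk => gl_adj (by omega) (by omega) hk,
    fun k hk k' hk' e => gl_inj hk hk' e⟩
  simp only [gl, mem_Seg]
  split_ifs <;> simp only [IsReal, pos] <;> omega

lemma tp_ll {b b' i j : ℕ} (hb : 1 ≤ b) (hb' : b' ≤ N) (h1 : b ≤ i) (h2 : i ≤ b')
    (hj : j < r i) : TP d N r (Seg d N r (2 * b) (2 * b')) (d + 2) (ll d i j) := by
  refine ⟨fun k hk => ?_, fun k hk => ll_adj (by omega) (by omega) hj hk,
    fun k hk k' hk' e => ll_inj hk hk' e⟩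
  simp only [ll, mem_Seg]
  split_ifs <;> simp only [IsReal, pos] <;> omega

/-- Sequences of length `j + 1` in `U`, constant afterwards. -/
noncomputable def PS (U : Finset Lb) (j : ℕ) : Finset (ℕ → Lb) :=
  ((range (j + 1)).pi fun _ => U).image fun g i =>
    if h : i ∈ range (j + 1) then g i h else Lb.c 0

lemma mem_PS {U : Finset Lb} {j : ℕ} {q : ℕ → Lb} (h1 : ∀ i ≤ j, q i ∈ U)
    (h2 : ∀ i, j < i → q i = Lb.c 0) : q ∈ PS U j := by
  refine mem_image.2 ⟨fun i _ => q i, mem_pi.2 fun i hi => h1 i ?_, funext fun i => ?_⟩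
  · exact Nat.lt_succ_iff.1 (mem_range.1 hi)
  · split_ifs with h
    · rfl
    · exact (h2 i (by rw [mem_range] at h; omega)).symm

lemma card_PS (U : Finset Lb) (j : ℕ) : (PS U j).card ≤ U.card ^ (j + 1) :=
  card_image_le.trans (by rw [card_pi, prod_const, card_range])

variable {V : Type} [Fintype V] [DecidableEq V] {G : SimpleGraph V}

lemma hom_Ho {H : Finset (V × V)} {Xs Ys : Finset V} {U : Finset Lb} {v0 : V} {φ : Lb → V}
    (hφ : φ ∈ Hom d N r H Xs Ys U v0) {u v : Lb} (hu : u ∈ U) (hv : v ∈ U)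
    (h : adj d N r u v) : (φ u, φ v) ∈ Ho (rk d u) H := by
  rcases h with h | h
  · exact (mem_Hom.1 hφ).2.2 u hu v hv h
  · rw [ed_rk h]
    exact mem_Ho_succ.2 ((mem_Hom.1 hφ).2.2 v hv u hu h)

/-- A shortest heavy path of an injective homomorphism. -/
lemma path_HA {H : Finset (V × V)} {Xs Ys : Finset V} {U : Finset Lb} {v0 : V} {φ : Lb → V}
    {Q : ℕ → ℕ} {L : ℕ} (hH : ∀ p ∈ H, G.Adj p.1 p.2) (hφ : φ ∈ Hom d N r H Xs Ys U v0)
    (hi : Set.InjOn φ U)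
    (h : ∃ j q, 2 ≤ j ∧ j ≤ L ∧ TP d N r U j q ∧ RP G (Q j) j (φ (q 0)) (φ (q j))) :
    ∃ j q, 2 ≤ j ∧ j ≤ L ∧ TP d N r U j q ∧ (∀ i, j < i → q i = Lb.c 0) ∧
      (fun i => if i ≤ j then φ (q i) else v0) ∈
        (HA G Q (Xs ∪ Ys) j v0).filter (Alt H (rk d (q 0)) j) := by
  obtain ⟨j, ⟨q, h1, h2, h3, h4⟩, hmin⟩ : ∃ j, (∃ q, 2 ≤ j ∧ j ≤ L ∧ TP d N r U j q ∧
      RP G (Q j) j (φ (q 0)) (φ (q j))) ∧ ∀ e < j, ¬ ∃ q, 2 ≤ e ∧ e ≤ L ∧ TP d N r U e q ∧
      RP G (Q e) e (φ (q 0)) (φ (q e)) :=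
    ⟨Nat.find h, Nat.find_spec h, fun e he => Nat.find_min h he⟩
  have hA : ∀ i < j, (φ (q i), φ (q (i + 1))) ∈ Ho (rk d (q 0) + i) H := fun i hi' => by
    rw [← Ho_congr (tp_rk h3 i hi'.le)]
    exact hom_Ho hφ (h3.1 i hi'.le) (h3.1 (i + 1) hi') (h3.2.1 i hi')
  refine ⟨j, fun i => if i ≤ j then q i else Lb.c 0, h1, h2, ⟨fun i hi' => ?_, fun i hi' => ?_,
    fun i hi1 i' hi2 e => ?_⟩, fun i hi' => ?_, mem_filter.2 ⟨mem_HA.2 ⟨mem_WK.2
      ⟨fun i hi' => ?_, fun i hi' => ?_, fun i hi' => ?_⟩, fun i hi1 i' hi2 e => ?_, ?_,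
      fun a e e1 e2 e3 k => ?_⟩, fun i hi' => ?_⟩⟩
  · simpa only [if_pos hi'] using h3.1 i hi'
  · simpa only [if_pos hi'.le, if_pos (Nat.succ_le_of_lt hi')] using h3.2.1 i hi'
  · simp only [if_pos hi1, if_pos hi2] at e
    exact h3.2.2 i hi1 i' hi2 e
  · exact if_neg (by omega)
  · exact if_neg (by omega)
  · simp only [if_pos hi']
    exact Sd_sub _ _ _ ((mem_Hom.1 hφ).2.1 _ (h3.1 i hi'))
  · simp only [if_pos hi'.le, if_pos (Nat.succ_le_of_lt hi')]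
    exact Ho_adj hH _ _ (hA i hi')
  · simp only [if_pos hi1, if_pos hi2] at e
    exact h3.2.2 i hi1 i' hi2 (hi (h3.1 i hi1) (h3.1 i' hi2) e)
  · simpa only [if_pos (Nat.zero_le j), if_pos (le_refl j)] using h4
  · simp only [if_pos e3, if_pos (show a ≤ j by omega)] at k
    exact hmin e e2 ⟨fun i => q (a + i), e1, by omega, tp_sub h3 e3, k⟩
  · simp only [if_pos hi'.le, if_pos (Nat.succ_le_of_lt hi'), if_pos (Nat.zero_le j)]
    exact hA i hi'

/-- Injective homomorphisms with a heavy path are rare. -/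
lemma bad_paths {H : Finset (V × V)} {Xs Ys : Finset V} {U : Finset Lb} {v0 : V} {Q : ℕ → ℕ}
    {L Δ u : ℕ} {c : ℝ} (hdeg : ∀ v, (nbr G v).card ≤ Δ) (hH : ∀ p ∈ H, G.Adj p.1 p.2)
    (hc : Conn (adj d N r) U) (hu : U.card ≤ u) (hu1 : 1 ≤ u) (hc0 : 0 ≤ c)
    (hp : ∀ j o, 2 ≤ j → j ≤ L →
      (((HA G Q (Xs ∪ Ys) j v0).filter (Alt H o j)).card : ℝ) ≤ c * (Δ : ℝ) ^ j) :
    (((Hom d N r H Xs Ys U v0).filter fun φ => Set.InjOn φ U ∧ ∃ j q, 2 ≤ j ∧ j ≤ L ∧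
      TP d N r U j q ∧ RP G (Q j) j (φ (q 0)) (φ (q j))).card : ℝ) ≤
      ((L : ℝ) + 1) * (u : ℝ) ^ (L + 1) * c * (Δ : ℝ) ^ (U.card - 1) := by
  obtain ⟨F, hF⟩ : ∃ F : ℕ → (ℕ → Lb) → Finset (Lb → V), ∀ j q, F j q =
      (Hom d N r H Xs Ys U v0).filter fun φ => 2 ≤ j ∧ j ≤ L ∧ TP d N r U j q ∧
        (fun i => if i ≤ j then φ (q i) else v0) ∈
          (HA G Q (Xs ∪ Ys) j v0).filter (Alt H (rk d (q 0)) j) := ⟨_, fun _ _ => rfl⟩
  have h1 : ∀ j q, ((F j q).card : ℝ) ≤ c * (Δ : ℝ) ^ (U.card - 1) := by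
    intro j q
    rcases (F j q).eq_empty_or_nonempty with e | ⟨φ0, e⟩
    · rw [e, card_empty, Nat.cast_zero]
      positivity
    rw [hF, mem_filter] at e
    obtain ⟨-, e1, e2, e3, -⟩ := e
    have cS : ((range (j + 1)).image q).card = j + 1 := by
      rw [card_image_of_injOn, card_range]
      intro i hi i' hi' k
      exact e3.2.2 i (Nat.lt_succ_iff.1 (mem_range.1 hi)) i' (Nat.lt_succ_iff.1 (mem_range.1 hi')) k
    have sS : (range (j + 1)).image q ⊆ U := image_subset_iff.2 fun i hi =>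
      e3.1 i (Nat.lt_succ_iff.1 (mem_range.1 hi))
    have a1 := ext_ub' hdeg hc sS ⟨q 0, mem_image_of_mem _ (mem_range.2 (by omega))⟩ (F j q)
      (fun f hf u hu v hv h => by
        rw [hF, mem_filter] at hf
        exact Ho_adj hH _ _ (hom_Ho hf.1 hu hv h))
      (fun f hf g hg v hv => by
        rw [hF, mem_filter] at hf hg
        rw [(mem_Hom.1 hf.1).1 v hv, (mem_Hom.1 hg.1).1 v hv])
      (fun φ i => if i ≤ j then φ (q i) else v0)
      ((HA G Q (Xs ∪ Ys) j v0).filter (Alt H (rk d (q 0)) j))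
      (fun f hf => by
        rw [hF, mem_filter] at hf
        exact hf.2.2.2.2)
      (fun f _ g _ k v hv => by
        obtain ⟨i, hi, rfl⟩ := mem_image.1 hv
        have := congrFun k i
        simpa only [if_pos (Nat.lt_succ_iff.1 (mem_range.1 hi))] using this)
    have a2 := card_le_card sS
    rw [cS] at a1 a2
    have a3 : U.card - 1 = j + (U.card - (j + 1)) := by omega
    rw [a3, pow_add, ← mul_assoc]
    refine le_trans ?_ (mul_le_mul_of_nonneg_right (hp j (rk d (q 0)) e1 e2) (by positivity))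
    exact_mod_cast a1
  have h2 : ((Hom d N r H Xs Ys U v0).filter fun φ => Set.InjOn φ U ∧ ∃ j q, 2 ≤ j ∧ j ≤ L ∧
      TP d N r U j q ∧ RP G (Q j) j (φ (q 0)) (φ (q j))).card ≤
      ∑ j ∈ range (L + 1), ∑ q ∈ PS U j, (F j q).card := by
    refine le_trans (card_le_card (t := (range (L + 1)).biUnion fun j => (PS U j).biUnion (F j))
      fun φ hφ => ?_) (card_biUnion_le.trans (sum_le_sum fun j _ => card_biUnion_le))
    rw [mem_filter] at hφ
    obtain ⟨j, q, a1, a2, a3, a4, a5⟩ := path_HA hH hφ.1 hφ.2.1 hφ.2.2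
    refine mem_biUnion.2 ⟨j, mem_range.2 (by omega), mem_biUnion.2 ⟨q, mem_PS a3.1 a4, ?_⟩⟩
    rw [hF]
    exact mem_filter.2 ⟨hφ.1, a1, a2, a3, a5⟩
  have h3 : ∀ j ∈ range (L + 1), (∑ q ∈ PS U j, ((F j q).card : ℝ)) ≤
      (u : ℝ) ^ (L + 1) * (c * (Δ : ℝ) ^ (U.card - 1)) := by
    intro j hj
    refine (sum_le_card_nsmul _ _ _ fun q _ => h1 j q).trans ?_
    rw [nsmul_eq_mul]
    refine mul_le_mul_of_nonneg_right ?_ (by positivity)
    have : (PS U j).card ≤ u ^ (L + 1) := (card_PS U j).trans ((Nat.pow_le_pow_left hu _).trans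
      (Nat.pow_le_pow_right hu1 (by rw [mem_range] at hj; omega)))
    exact_mod_cast this
  have h4 := sum_le_card_nsmul _ _ _ h3
  rw [nsmul_eq_mul, card_range] at h4
  have h5 : (((Hom d N r H Xs Ys U v0).filter fun φ => Set.InjOn φ U ∧ ∃ j q, 2 ≤ j ∧ j ≤ L ∧
      TP d N r U j q ∧ RP G (Q j) j (φ (q 0)) (φ (q j))).card : ℝ) ≤
      ∑ j ∈ range (L + 1), ∑ q ∈ PS U j, ((F j q).card : ℝ) := by exact_mod_cast h2
  push_cast at h4
  linarith

/-- No path of length at most `L` has fixed ends and a free vertex. -/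
lemma no_run {U : Finset Lb} {φ : Lb → V} {Qs : ℕ → ℕ} {L Q l k : ℕ} {q : ℕ → Lb}
    (P : Finset (Lb → V)) (Fx : Lb → Prop) (hq : TP d N r U l q) (hl : l ≤ L)
    (hQ : ∀ j ≤ L, Qs j < Q) (hP : Q ≤ P.card)
    (hφ : ¬ ∃ j q, 2 ≤ j ∧ j ≤ L ∧ TP d N r U j q ∧ RP G (Qs j) j (φ (q 0)) (φ (q j)))
    (hadj : ∀ ψ ∈ P, ∀ u ∈ U, ∀ v ∈ U, adj d N r u v → G.Adj (ψ u) (ψ v))
    (hinj : ∀ ψ ∈ P, Set.InjOn ψ U) (hfix : ∀ ψ ∈ P, ∀ v ∈ U, Fx v → ψ v = φ v)
    (hdis : ∀ ψ ∈ P, ∀ ψ' ∈ P, ψ ≠ ψ' → ∀ v ∈ U, ∀ w ∈ U, ¬ Fx v → ¬ Fx w → ψ v ≠ ψ' w)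
    (h0 : Fx (q 0)) (h1 : Fx (q l)) (hk : k ≤ l) : Fx (q k) := by
  by_contra hkF
  have hQ0 := hQ 0 (Nat.zero_le L)
  obtain ⟨a, e, e1, e2, -, e3⟩ := run_rp (G := G) (Q := Q - 1) P (fun ψ i => ψ (q i))
    (fun i => φ (q i)) (fun i => Fx (q i)) h0 h1 hk hkF
    (fun ψ hψ i hi => hfix ψ hψ _ (hq.1 i hi))
    (fun ψ hψ ψ' hψ' ne i hi i' hi' => hdis ψ hψ ψ' hψ' ne _ (hq.1 i hi) _ (hq.1 i' hi'))
    (fun ψ hψ => ⟨fun i hi => hadj ψ hψ _ (hq.1 i hi.le) _ (hq.1 (i + 1) hi) (hq.2.1 i hi),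
      fun i hi i' hi' e => hq.2.2 i hi i' hi' (hinj ψ hψ (hq.1 i hi) (hq.1 i' hi') e)⟩)
    (by omega)
  have := hQ e (by omega)
  exact hφ ⟨e, fun i => q (a + i), e1, by omega, tp_sub hq e2, rp_mono (by omega) e3⟩

/-- Kernel analysis on labels: `Fx` is closed along short paths and contains the roots. -/
lemma kernel {b b' : ℕ} (hb : 1 ≤ b) (hb' : b' ≤ N) (Fx : Lb → Prop)
    (hroot : ∀ v, isRoot v = true → Fx v)
    (hrun : ∀ l q k, TP d N r (Seg d N r (2 * b) (2 * b')) l q → l ≤ d + 2 → Fx (q 0) →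
      Fx (q l) → k ≤ l → Fx (q k)) :
    ((∀ i, b ≤ i → i ≤ b' → Fx (Lb.c i)) → ∀ v ∈ Seg d N r (2 * b) (2 * b'), Fx v) ∧
    (∀ i t, b ≤ i → i < b' → t ≤ d → Fx (Lb.m i t) → Fx (Lb.c i) ∧ Fx (Lb.c (i + 1))) ∧
    ∀ i j t, b ≤ i → i ≤ b' → j < r i → t ≤ d → Fx (Lb.a i j t) → Fx (Lb.c i) := by
  refine ⟨fun al v hv => ?_, fun i t h1 h2 ht h => ⟨?_, ?_⟩, fun i j t h1 h2 hj ht h => ?_⟩
  · obtain ⟨h1, h2, h3⟩ := mem_Seg.1 hv
    cases v with
    | c i => exact al i (by simp only [pos] at h2; omega) (by simp only [pos] at h3; omega)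
    | y i => exact hroot _ rfl
    | z i j => exact hroot _ rfl
    | m i t =>
      simp only [pos, IsReal] at h1 h2 h3
      have := hrun _ _ (t + 1) (tp_gl (i := i) hb hb' (by omega) (by omega)) le_rfl
        (al i (by omega) (by omega))
        (by rw [gl, if_neg (by omega), if_neg (by omega)]; exact al _ (by omega) (by omega))
        (by omega)
      rwa [gl, if_neg (by omega), if_pos (by omega), Nat.add_sub_cancel] at this
    | a i j t =>
      simp only [pos, IsReal] at h1 h2 h3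
      have := hrun _ _ (t + 1) (tp_ll (i := i) (j := j) hb hb' (by omega) (by omega) (by omega))
        le_rfl (al i (by omega) (by omega))
        (by rw [ll, if_neg (by omega), if_neg (by omega)]; exact hroot _ rfl) (by omega)
      rwa [ll, if_neg (by omega), if_pos (by omega), Nat.add_sub_cancel] at this
  · exact hrun _ _ 1 (tp_right hb hb' h1 h2 ht) (by omega) (hroot _ rfl) (by
      show Fx (gl d i (t + 1))
      rwa [gl, if_neg (by omega), if_pos (by omega), Nat.add_sub_cancel]) (by omega)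
  · have := hrun _ _ 1 (tp_left (t := d - t) hb hb' h1 h2 (by omega)) (by omega) (hroot _ rfl) (by
      show Fx (gl d i (d + 3 - (d - t + 2)))
      rwa [gl, if_neg (by omega), if_pos (by omega), show d + 3 - (d - t + 2) - 1 = t by omega])
      (by omega)
    have e : gl d i (d + 3 - 1) = Lb.c (i + 1) := by
      rw [gl, if_neg (by omega), if_neg (by omega)]
    simpa only [if_neg one_ne_zero, e] using this
  · exact hrun _ _ 1 (tp_leg hb hb' h1 h2 hj ht) (by omega) (hroot _ rfl) (by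
      show Fx (ll d i j (t + 1))
      rwa [ll, if_neg (by omega), if_pos (by omega), Nat.add_sub_cancel]) (by omega)

end Pool.Agent.Work.MP_054302_co.Y
end

-- merged part: Pool.Agent.Work.MP_054302_co.Y.M1
section
namespace Pool.Agent.Work.MP_054302_co.Y

open Finset Function Pool.Agent.Work.MP_054302_co.X
open scoped Classical

namespace MD

variable {V : Type} [Fintype V] [DecidableEq V] {M : MD V}

lemma M1_union {ι α : Type} (I : Finset ι) (B : Finset α) (Fi : ι → Finset α) (c : ℝ)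
    (hsub : ∀ φ ∈ B, ∃ i ∈ I, φ ∈ Fi i) (h : ∀ i ∈ I, ((Fi i).card : ℝ) ≤ c) :
    (B.card : ℝ) ≤ I.card * c := by
  have h1 : B.card ≤ ∑ i ∈ I, (Fi i).card :=
    (card_le_card fun φ hφ => mem_biUnion.2 (hsub φ hφ)).trans card_biUnion_le
  have h2 : (B.card : ℝ) ≤ ∑ i ∈ I, ((Fi i).card : ℝ) := by exact_mod_cast h1
  refine h2.trans ?_
  simpa [nsmul_eq_mul] using sum_le_card_nsmul I _ c h

/-- `ext_ub'` for a family of homomorphisms of the stretch, in real numbers. -/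
lemma M1_ext (h : M.Hyp) {β : Type} {S : Finset Lb} (hS : S ⊆ M.U) (hne : S.Nonempty)
    (F : Finset (Lb → V)) (hF : F ⊆ Hom M.d M.N M.r M.H M.Xs M.Ys M.U M.v0)
    (π : (Lb → V) → β) (T : Finset β) (hT : ∀ f ∈ F, π f ∈ T)
    (hπ : ∀ f ∈ F, ∀ g ∈ F, π f = π g → ∀ v ∈ S, f v = g v) (c : ℝ) (k : ℕ)
    (hk : S.card = k + 1) (hc : (T.card : ℝ) ≤ c * (M.Δ : ℝ) ^ k) :
    (F.card : ℝ) ≤ c * (M.Δ : ℝ) ^ M.e := by
  have h1 := ext_ub' h.hdeg (conn_U h) hS hne F (fun f hf => hom_adj h (hF hf))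
    (fun f hf g hg v hv => ((mem_Hom.1 (hF hf)).1 v hv).trans ((mem_Hom.1 (hF hg)).1 v hv).symm)
    π T hT hπ
  have h2 : (F.card : ℝ) ≤ T.card * (M.Δ : ℝ) ^ (M.U.card - S.card) := by exact_mod_cast h1
  have h3 := card_le_card hS
  have h4 := (card_U h).2.2
  have h5 : M.e = k + (M.U.card - S.card) := by omega
  rw [h5, pow_add, ← mul_assoc]
  exact h2.trans (mul_le_mul_of_nonneg_right hc (by positivity))

lemma M1_union_le : ((M.Xs ∪ M.Ys).card : ℝ) ≤ M.n := by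
  have := card_union_le M.Xs M.Ys
  unfold n
  exact_mod_cast this

lemma M1_five {α : Type} (A A0 A1 A2 A3 A4 : Finset α) (c : ℝ) {d : ℝ}
    (h1 : (A1.card : ℝ) ≤ c) (h2 : (A2.card : ℝ) ≤ c) (h3 : (A3.card : ℝ) ≤ c)
    (h4 : (A4.card : ℝ) ≤ c) (h0 : d ≤ A.card)
    (hs : ∀ φ ∈ A, φ ∈ A0 ∨ φ ∈ A1 ∨ φ ∈ A2 ∨ φ ∈ A3 ∨ φ ∈ A4) : d - 4 * c ≤ A0.card := by
  have a0 : A.card ≤ (A0 ∪ (A1 ∪ (A2 ∪ (A3 ∪ A4)))).card :=
    card_le_card fun φ hφ => by simpa only [mem_union] using hs φ hφ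
  have a1 := card_union_le A0 (A1 ∪ (A2 ∪ (A3 ∪ A4)))
  have a2 := card_union_le A1 (A2 ∪ (A3 ∪ A4))
  have a3 := card_union_le A2 (A3 ∪ A4)
  have a4 := card_union_le A3 A4
  have a5 : A.card ≤ A0.card + A1.card + A2.card + A3.card + A4.card := by omega
  have a6 : (A.card : ℝ) ≤ A0.card + A1.card + A2.card + A3.card + A4.card := by
    exact_mod_cast a5
  linarith

/-- `hom_lb`, `host_card`: `κ n ≤ 2 Xs.card` and `κ^(e+1) ≥ γ`. -/
lemma card_hom (h : M.Hyp) : M.γ / 2 * M.n * (M.Δ : ℝ) ^ M.e ≤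
    ((Hom M.d M.N M.r M.H M.Xs M.Ys M.U M.v0).card : ℝ) := by
  have hD : (0 : ℝ) < M.Δ := by exact_mod_cast h.hΔ
  obtain ⟨hk0, hk1⟩ := h.hκ
  have h1 := hom_lb (d := M.d) (N := M.N) (r := M.r) h.host (by positivity) M.v0 h.hb h.hbb h.hb'
  obtain ⟨h2', h2, h3, h3b, -⟩ := host_card h.hdeg h.host
  have h3' : (M.H.card : ℝ) ≤ M.Xs.card * M.Δ := by exact_mod_cast h3
  have h3c : (M.H.card : ℝ) ≤ M.Ys.card * M.Δ := by exact_mod_cast h3b
  have h4 : M.κ * M.Ys.card ≤ M.Xs.card := by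
    refine le_of_mul_le_mul_right ?_ hD
    calc M.κ * M.Ys.card * M.Δ = M.κ * M.Δ * M.Ys.card := by ring
      _ ≤ _ := h2.trans h3'
  have h4' : M.κ * M.Xs.card ≤ M.Ys.card := by
    refine le_of_mul_le_mul_right ?_ hD
    calc M.κ * M.Xs.card * M.Δ = M.κ * M.Δ * M.Xs.card := by ring
      _ ≤ _ := h2'.trans h3c
  have h5 : M.κ * M.Xs.card ≤ M.Xs.card := mul_le_of_le_one_left (by positivity) hk1
  have h5' : M.κ * M.Ys.card ≤ M.Ys.card := mul_le_of_le_one_left (by positivity) hk1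
  have h6 : M.κ * M.n ≤ 2 * (Sd (M.b * (M.d + 2)) M.Xs M.Ys).card := by
    unfold n Sd
    push_cast
    split_ifs <;> linarith
  generalize Sd (M.b * (M.d + 2)) M.Xs M.Ys = Zs at h1 h6
  have h7 : M.γ ≤ M.κ ^ (M.e + 1) := by
    have := card_U h
    exact pow_le_pow_of_le_one hk0.le hk1 (by omega)
  refine le_trans ?_ h1
  change _ ≤ (Zs.card : ℝ) * (M.κ * M.Δ) ^ M.e
  calc M.γ / 2 * M.n * (M.Δ : ℝ) ^ M.e ≤ M.κ ^ (M.e + 1) / 2 * M.n * (M.Δ : ℝ) ^ M.e := by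
        gcongr
    _ = (M.κ * M.n) / 2 * (M.κ * M.Δ) ^ M.e := by rw [mul_pow]; ring
    _ ≤ (2 * Zs.card) / 2 * (M.κ * M.Δ) ^ M.e := by gcongr
    _ = _ := by ring

/-- Homomorphisms sending the edge `c i, y i` into a set `Bd` of pairs (`ext_ub'`). -/
lemma bad_edge (h : M.Hyp) {i : ℕ} (h1 : M.b ≤ i) (h2 : i ≤ M.b') (Bd : Finset (V × V))
    (hB : (Bd.card : ℝ) ≤ M.β * M.H.card) :
    (((Hom M.d M.N M.r M.H M.Xs M.Ys M.U M.v0).filter
      fun φ => (φ (Lb.c i), φ (Lb.y i)) ∈ Bd).card : ℝ) ≤ M.γ / 20 * M.n * (M.Δ : ℝ) ^ M.e := by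
  have hγ := (pos_D h).2.2.2
  have hH : (M.H.card : ℝ) ≤ M.n * M.Δ := by
    have h3 := (host_card h.hdeg h.host).2.2.1
    have h4 : M.H.card ≤ M.n * M.Δ :=
      h3.trans (Nat.mul_le_mul_right _ (Nat.le_add_right _ _))
    exact_mod_cast h4
  refine M1_ext h (S := {Lb.c i, Lb.y i}) ?_ (insert_nonempty _ _) _ (filter_subset _ _)
    (fun φ => (φ (Lb.c i), φ (Lb.y i))) Bd (fun f hf => (mem_filter.1 hf).2) ?_ _ 1 ?_ ?_
  · intro v hv
    rcases mem_insert.1 hv with rfl | hv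
    · exact c_mem_U h h1 h2
    · rw [mem_singleton.1 hv]
      exact y_mem_U h h1 h2
  · intro f _ g _ hfg v hv
    rcases mem_insert.1 hv with rfl | hv
    · exact (Prod.ext_iff.1 hfg).1
    · rw [mem_singleton.1 hv]
      exact (Prod.ext_iff.1 hfg).2
  · exact card_pair (by simp)
  · calc (Bd.card : ℝ) ≤ M.β * M.H.card := hB
      _ ≤ M.γ / 20 * M.H.card := mul_le_mul_of_nonneg_right h.hβ (by positivity)
      _ ≤ M.γ / 20 * (M.n * M.Δ) := mul_le_mul_of_nonneg_left hH (by positivity)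
      _ = _ := by ring

lemma bad_path (h : M.Hyp) :
    (((Hom M.d M.N M.r M.H M.Xs M.Ys M.U M.v0).filter fun φ => Set.InjOn φ M.U ∧
      ∃ j q, 2 ≤ j ∧ j ≤ M.d + 2 ∧ TP M.d M.N M.r M.U j q ∧
        RP M.G (M.Qs j) j (φ (q 0)) (φ (q j))).card : ℝ) ≤
      M.γ / 20 * M.n * (M.Δ : ℝ) ^ M.e := by
  have hD : (0 : ℝ) < M.Δ := by exact_mod_cast h.hΔ
  have hθ : 0 ≤ M.θi * M.n := by
    have h1 : (0 : ℝ) ≤ M.θi * M.n * (M.Δ : ℝ) ^ 2 :=
      (Nat.cast_nonneg _).trans (h.hpath 2 0 le_rfl (by omega))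
    exact nonneg_of_mul_nonneg_left h1 (by positivity)
  have hu := card_U h
  refine (bad_paths h.hdeg (fun p hp => (h.host.sub p hp).1) (conn_U h) hu.2.1 (by omega) hθ
    h.hpath).trans ?_
  have h2 := h.hθi
  calc (((M.d + 2 : ℕ) : ℝ) + 1) * (M.u : ℝ) ^ (M.d + 2 + 1) * (M.θi * M.n) *
        (M.Δ : ℝ) ^ (M.U.card - 1)
      = ((M.d : ℝ) + 3) * (M.u : ℝ) ^ (M.d + 3) * M.θi * M.n * (M.Δ : ℝ) ^ M.e := by
        unfold e
        push_cast
        ring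
    _ ≤ _ := by gcongr

/-- Union over at most `u^2` pairs, `ext_ub'` with `π φ = (φ v, φ v')`. -/
lemma bad_av (h : M.Hyp) :
    (((Hom M.d M.N M.r M.H M.Xs M.Ys M.U M.v0).filter fun φ => ∃ v ∈ M.U, ∃ v' ∈ M.U,
      v ≠ v' ∧ φ v' ∈ M.Av (φ v)).card : ℝ) ≤ M.γ / 20 * M.n * (M.Δ : ℝ) ^ M.e := by
  have hD : (0 : ℝ) < M.Δ := by exact_mod_cast h.hΔ
  have hu : (M.U.card : ℝ) ≤ M.u := by exact_mod_cast (card_U h).2.1
  refine (M1_union (M.U ×ˢ M.U) _
    (fun t => (Hom M.d M.N M.r M.H M.Xs M.Ys M.U M.v0).filter fun φ =>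
      t.1 ≠ t.2 ∧ φ t.2 ∈ M.Av (φ t.1))
    (M.n * M.s0 / M.Δ * (M.Δ : ℝ) ^ M.e) ?_ ?_).trans ?_
  · intro φ hφ
    obtain ⟨hφ, v, hv, v', hv', hp⟩ := mem_filter.1 hφ
    exact ⟨(v, v'), mem_product.2 ⟨hv, hv'⟩, mem_filter.2 ⟨hφ, hp⟩⟩
  · rintro ⟨v, v'⟩ ht
    obtain ⟨hv, hv'⟩ := mem_product.1 ht
    dsimp only at hv hv' ⊢
    by_cases hne : v = v'
    · rw [filter_false_of_mem fun φ _ hp => hp.1 hne, card_empty, Nat.cast_zero]
      positivity
    refine M1_ext h (S := {v, v'}) ?_ (insert_nonempty _ _) _ (filter_subset _ _)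
      (fun φ => (φ v, φ v'))
      ((M.Xs ∪ M.Ys).biUnion fun x => (M.Av x).image (Prod.mk x)) ?_ ?_ _ 1 (card_pair hne) ?_
    · intro x hx
      simp only [mem_insert, mem_singleton] at hx
      rcases hx with rfl | rfl <;> assumption
    · intro f hf
      obtain ⟨hf, -, hj⟩ := mem_filter.1 hf
      exact mem_biUnion.2 ⟨f v, hom_mem h hf v hv, mem_image_of_mem _ hj⟩
    · intro f _ g _ hfg x hx
      simp only [mem_insert, mem_singleton] at hx
      simp only [Prod.mk.injEq] at hfg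
      rcases hx with rfl | rfl
      exacts [hfg.1, hfg.2]
    · refine (M1_union (M.Xs ∪ M.Ys) _ (fun x => (M.Av x).image (Prod.mk x)) (M.s0 : ℝ)
        (fun p hp => mem_biUnion.1 hp) fun x _ => ?_).trans ?_
      · exact_mod_cast card_image_le.trans (card_Av h x)
      · rw [pow_one, div_mul_cancel₀ _ hD.ne']
        exact mul_le_mul_of_nonneg_right M1_union_le (by positivity)
  · rw [card_product]
    push_cast
    have h1 : (M.u : ℝ) ^ 2 * M.s0 / M.Δ ≤ M.γ / 20 := (div_le_iff₀ hD).2 h.hAv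
    calc (M.U.card : ℝ) * M.U.card * (M.n * M.s0 / M.Δ * (M.Δ : ℝ) ^ M.e)
        ≤ M.u * M.u * (M.n * M.s0 / M.Δ * (M.Δ : ℝ) ^ M.e) := by gcongr
      _ = ((M.u : ℝ) ^ 2 * M.s0 / M.Δ) * M.n * (M.Δ : ℝ) ^ M.e := by ring
      _ ≤ _ := by gcongr

theorem card_GH (h : M.Hyp) : M.γ / 4 * M.n * (M.Δ : ℝ) ^ M.e ≤ (M.GH.card : ℝ) := by
  have h0 := card_hom h
  have h1 := bad_edge h le_rfl h.hbb _ (h.l1.cov.trans_eq (by rw [Hi, card_Ho]))
  have h2 := bad_edge h h.hbb le_rfl _ (h.l2.cov.trans_eq (by rw [Hi, card_Ho]))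
  have h3 := bad_path h
  have h4 := bad_av h
  have hp : 0 ≤ M.γ * M.n * (M.Δ : ℝ) ^ M.e := by
    have := (pos_D h).2.2.2
    positivity
  have hed : ∀ φ ∈ Hom M.d M.N M.r M.H M.Xs M.Ys M.U M.v0, ∀ i, M.b ≤ i → i ≤ M.b' →
      (φ (Lb.c i), φ (Lb.y i)) ∈ Hi M.d M.H i := fun φ hφ i a1 a2 =>
    (mem_Hom.1 hφ).2.2 _ (c_mem_U h a1 a2) _ (y_mem_U h a1 a2)
      ⟨rfl, h.hb.trans a1, a2.trans h.hb'⟩
  refine le_trans ?_ (M1_five _ M.GH _ _ _ _ _ h1 h2 h3 h4 h0 ?_)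
  · linarith
  intro φ hφ
  by_contra hn
  simp only [not_or] at hn
  obtain ⟨n0, n1, n2, n3, n4⟩ := hn
  refine n0 ((mem_GH M).2 ⟨hφ, ?_, ?_, ?_, ?_⟩)
  · exact le_of_not_gt fun hl =>
      n1 (mem_filter.2 ⟨hφ, mem_filter.2 ⟨hed φ hφ _ le_rfl h.hbb, hl⟩⟩)
  · exact le_of_not_gt fun hl =>
      n2 (mem_filter.2 ⟨hφ, mem_filter.2 ⟨hed φ hφ _ h.hbb le_rfl, hl⟩⟩)
  · refine fun j q a1 a2 a3 a4 => n3 (mem_filter.2 ⟨hφ, fun v hv v' hv' e => ?_, j, q, a1, a2,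
      a3, a4⟩)
    by_contra hne
    refine n4 (mem_filter.2 ⟨hφ, v, hv, v', hv', hne, ?_⟩)
    rw [← e]
    exact mem_union_left _ (mem_union_left _ (mem_hat.2 ⟨φ v, mem_singleton_self _, Or.inl rfl⟩))
  · exact fun v hv v' hv' a1 a2 => n4 (mem_filter.2 ⟨hφ, v, hv, v', hv', a1, a2⟩)

end MD

end Pool.Agent.Work.MP_054302_co.Y
end

-- merged part: Pool.Agent.Work.MP_054302_co.Y.M2
section
namespace Pool.Agent.Work.MP_054302_co.Y

open Finset Function Pool.Agent.Work.MP_054302_co.X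
open scoped Classical

namespace MD

variable {V : Type} [Fintype V] [DecidableEq V] {M : MD V}

/-- Pairs whose first member meets a small set depending on the second member. -/
lemma M2_pairs {σ : Type} (A B : Finset σ) (supp : σ → Finset V)
    (hd : ∀ s ∈ A, ∀ s' ∈ A, s ≠ s' → Disjoint (supp s) (supp s')) (Z : σ → Finset V) (X : ℕ)
    (hZ : ∀ t ∈ B, (Z t).card ≤ X) :
    ((A ×ˢ B).filter fun p => ¬ Disjoint (supp p.1) (Z p.2)).card ≤ B.card * X := by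
  have h1 : ((A ×ˢ B).filter fun p => ¬ Disjoint (supp p.1) (Z p.2)) ⊆
      B.biUnion fun t => (A.filter fun s => ¬ Disjoint (supp s) (Z t)).image fun s => (s, t) := by
    intro p hp
    rw [mem_filter, mem_product] at hp
    rw [mem_biUnion]
    refine ⟨p.2, hp.1.2, mem_image.2 ⟨p.1, mem_filter.2 ⟨hp.1.1, hp.2⟩, rfl⟩⟩
  refine (card_le_card h1).trans ?_
  refine card_biUnion_le.trans ?_
  rw [← smul_eq_mul, ← sum_const]
  refine sum_le_sum fun t ht => card_image_le.trans ?_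
  refine le_trans ?_ (hZ t ht)
  convert card_meet_le A supp hd (Z t)

/-- The same with the roles exchanged. -/
lemma M2_pairs' {σ : Type} (A B : Finset σ) (supp : σ → Finset V)
    (hd : ∀ s ∈ B, ∀ s' ∈ B, s ≠ s' → Disjoint (supp s) (supp s')) (Z : σ → Finset V) (X : ℕ)
    (hZ : ∀ t ∈ A, (Z t).card ≤ X) :
    ((A ×ˢ B).filter fun p => ¬ Disjoint (supp p.2) (Z p.1)).card ≤ A.card * X := by
  refine le_trans ?_ (M2_pairs B A supp hd Z X hZ)
  refine card_le_card_of_injOn Prod.swap ?_ ?_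
  · intro p hp
    simp only [coe_filter, mem_product, Set.mem_ofPred_eq, Prod.fst_swap, Prod.snd_swap] at hp ⊢
    exact ⟨⟨hp.1.2, hp.1.1⟩, hp.2⟩
  · intro p _ q _ hpq
    exact Prod.swap_injective hpq

/-- Four applications of `card_meet_le`. -/
lemma card_incmp (h : M.Hyp) (φ : Lb → V) (y y' : V) :
    ((M.L1 y ×ˢ M.L2 y').filter fun p => ¬ M.Cmp φ p.1 p.2).card ≤
      (M.D1 + M.D2) * (M.u * M.s + (M.u + 2) * (1 + M.s)) := by
  set Z : Finset V := M.U.biUnion fun v => M.S (φ v) with hZ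
  set X : ℕ := M.u * M.s + (M.u + 2) * (1 + M.s) with hX
  have hZc : Z.card ≤ M.u * M.s := by
    refine card_biUnion_le.trans ?_
    refine le_trans (sum_le_sum fun v _ => h.hS (φ v)) ?_
    rw [sum_const, smul_eq_mul]
    exact Nat.mul_le_mul_right _ (card_U h).2.1
  have hA : ∀ t ∈ M.L2 y', (Z ∪ M.hat (M.s2 t)).card ≤ X := by
    intro t _
    refine (card_union_le _ _).trans (Nat.add_le_add hZc ?_)
    exact (card_hat h _).trans (Nat.mul_le_mul_right _ (card_s2 t))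
  have hB : ∀ t ∈ M.L1 y, (Z ∪ M.hat (M.s1 t)).card ≤ X := by
    intro t _
    refine (card_union_le _ _).trans (Nat.add_le_add hZc ?_)
    exact (card_hat h _).trans (Nat.mul_le_mul_right _ (card_s1 t))
  have h1 := M2_pairs (M.L1 y) (M.L2 y') M.s1 (h.l1.disj y) (fun t => Z ∪ M.hat (M.s2 t)) X hA
  have h2 := M2_pairs' (M.L1 y) (M.L2 y') M.s2 (h.l2.disj y') (fun t => Z ∪ M.hat (M.s1 t)) X hB
  have hsub : ((M.L1 y ×ˢ M.L2 y').filter fun p => ¬ M.Cmp φ p.1 p.2) ⊆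
      ((M.L1 y ×ˢ M.L2 y').filter fun p => ¬ Disjoint (M.s1 p.1) (Z ∪ M.hat (M.s2 p.2))) ∪
      ((M.L1 y ×ˢ M.L2 y').filter fun p => ¬ Disjoint (M.s2 p.2) (Z ∪ M.hat (M.s1 p.1))) := by
    intro p hp
    rw [mem_filter] at hp
    rw [mem_union, mem_filter, mem_filter]
    by_contra hcon
    push Not at hcon
    have e1 := hcon.1 hp.1
    have e2 := hcon.2 hp.1
    rw [disjoint_union_right] at e1 e2
    apply hp.2
    refine ⟨fun v hv => ⟨?_, ?_⟩, e1.2, e2.2⟩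
    · exact e1.1.mono_right (subset_biUnion_of_mem (fun v => M.S (φ v)) hv)
    · exact e2.1.mono_right (subset_biUnion_of_mem (fun v => M.S (φ v)) hv)
  refine (card_le_card hsub).trans ((card_union_le _ _).trans ?_)
  have h3 : (M.L2 y').card * X ≤ M.D2 * X := Nat.mul_le_mul_right _ (h.l2.card_le y')
  have h4 : (M.L1 y).card * X ≤ M.D1 * X := Nat.mul_le_mul_right _ (h.l1.card_le y)
  rw [add_mul, add_comm (M.D1 * X)]
  exact Nat.add_le_add (le_trans (by convert h1) h3) (le_trans (by convert h2) h4)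

/-- The decorations over the compatible pairs of stems. -/
lemma M2_sum_le (φ : Lb → V) :
    ∑ p ∈ (M.L1 (φ (Lb.y M.b)) ×ˢ M.L2 (φ (Lb.y M.b'))).filter (fun p => M.Cmp φ p.1 p.2),
      M.w1 p.1 (φ (Lb.c M.b)) * M.w2 p.2 (φ (Lb.c M.b')) ≤ (M.Dl φ).card := by
  have hmap : Set.MapsTo (fun δ : ((Lb → V) × V) × ((Lb → V) × V) => (δ.1.1, δ.2.1))
      (M.Dl φ : Set (((Lb → V) × V) × ((Lb → V) × V)))
      (((M.L1 (φ (Lb.y M.b)) ×ˢ M.L2 (φ (Lb.y M.b'))).filter (fun p => M.Cmp φ p.1 p.2) :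
        Finset ((Lb → V) × (Lb → V))) : Set ((Lb → V) × (Lb → V))) := by
    intro δ hδ
    rw [mem_coe, mem_Dl] at hδ
    rw [mem_coe, mem_filter, mem_product]
    exact ⟨⟨hδ.1, hδ.2.1⟩, hδ.2.2.2.2.2.2⟩
  rw [card_eq_sum_card_fiberwise hmap]
  refine sum_le_sum fun p hp => ?_
  rw [mem_filter, mem_product] at hp
  unfold w1 w2 wtR wtL
  rw [← card_product]
  refine card_le_card_of_injOn (fun q => ((p.1, q.1), (p.2, q.2))) ?_ ?_
  · intro q hq
    simp only [coe_product, coe_filter, Set.mem_prod, Set.mem_ofPred_eq, mem_nbX] at hq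
    simp only [coe_filter, Set.mem_ofPred_eq, mem_Dl]
    exact ⟨⟨hp.1.1, hp.1.2, hq.1.1, hq.1.2, hq.2.1, hq.2.2, hp.2⟩, trivial⟩
  · intro q _ q' _ hqq
    simp only [Prod.mk.injEq, true_and] at hqq
    exact Prod.ext hqq.1 hqq.2

/-- The number of decorations is the sum over compatible pairs of stems of the product of the
weights; all pairs give the product of the two sums, each lost pair costs at most `Δ^2`. -/
theorem card_Dl (h : M.Hyp) {φ : Lb → V} (hφ : φ ∈ M.GH) :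
    M.θ ^ 2 / 8 * M.D1 * M.D2 * (M.Δ : ℝ) ^ 2 ≤ ((M.Dl φ).card : ℝ) := by
  rw [mem_GH] at hφ
  obtain ⟨_, h1, h2, _, _⟩ := hφ
  set y := φ (Lb.y M.b)
  set y' := φ (Lb.y M.b')
  set x := φ (Lb.c M.b)
  set x' := φ (Lb.c M.b')
  set P := M.L1 y ×ˢ M.L2 y' with hP
  have hsplit := sum_filter_add_sum_filter_not P (fun p => M.Cmp φ p.1 p.2)
    (fun p => M.w1 p.1 x * M.w2 p.2 x')
  have hgood := M2_sum_le (M := M) φ
  have hbad : ∑ p ∈ P.filter (fun p => ¬ M.Cmp φ p.1 p.2), M.w1 p.1 x * M.w2 p.2 x' ≤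
      (M.D1 + M.D2) * (M.u * M.s + (M.u + 2) * (1 + M.s)) * (M.Δ * M.Δ) := by
    refine le_trans (sum_le_sum fun p _ => Nat.mul_le_mul (w1_le h p.1 x) (w2_le h p.2 x')) ?_
    rw [sum_const, smul_eq_mul]
    exact Nat.mul_le_mul_right _ (card_incmp h φ y y')
  have hall : ∑ p ∈ P, M.w1 p.1 x * M.w2 p.2 x' =
      (∑ w ∈ M.L1 y, M.w1 w x) * ∑ w ∈ M.L2 y', M.w2 w x' := by
    rw [hP, sum_product, sum_mul_sum]
  have hN : (∑ w ∈ M.L1 y, M.w1 w x) * (∑ w ∈ M.L2 y', M.w2 w x') ≤ (M.Dl φ).card +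
      (M.D1 + M.D2) * (M.u * M.s + (M.u + 2) * (1 + M.s)) * (M.Δ * M.Δ) := by
    rw [← hall, ← hsplit]
    exact Nat.add_le_add hgood hbad
  have hR : (∑ w ∈ M.L1 y, (M.w1 w x : ℝ)) * (∑ w ∈ M.L2 y', (M.w2 w x' : ℝ)) ≤
      ((M.Dl φ).card : ℝ) + ((M.D1 : ℝ) + M.D2) *
        ((M.u : ℝ) * M.s + (M.u + 2) * (1 + M.s)) * ((M.Δ : ℝ) * M.Δ) := by
    exact_mod_cast hN
  set X : ℝ := (M.u : ℝ) * M.s + (M.u + 2) * (1 + M.s) with hX
  have hX1 : 16 * X ≤ M.θ ^ 2 * M.D1 := h.hX1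
  have hX2 : 16 * X ≤ M.θ ^ 2 * M.D2 := h.hX2
  obtain ⟨hθ, hθ1, hθ2⟩ := h.hθ
  have hD1 : (0 : ℝ) ≤ M.D1 := Nat.cast_nonneg _
  have hD2 : (0 : ℝ) ≤ M.D2 := Nat.cast_nonneg _
  have hΔ : (0 : ℝ) ≤ M.Δ := Nat.cast_nonneg _
  have a1 : M.θ / 2 * M.D1 * M.Δ ≤ ∑ w ∈ M.L1 y, (M.w1 w x : ℝ) := by
    refine le_trans ?_ h1
    gcongr
  have a2 : M.θ / 2 * M.D2 * M.Δ ≤ ∑ w ∈ M.L2 y', (M.w2 w x' : ℝ) := by
    refine le_trans ?_ h2
    gcongr
  have a3 : (M.θ / 2 * M.D1 * M.Δ) * (M.θ / 2 * M.D2 * M.Δ) ≤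
      (∑ w ∈ M.L1 y, (M.w1 w x : ℝ)) * (∑ w ∈ M.L2 y', (M.w2 w x' : ℝ)) :=
    mul_le_mul a1 a2 (by positivity) (le_trans (by positivity) a1)
  have a4 : ((M.D1 : ℝ) + M.D2) * X ≤ M.θ ^ 2 / 8 * M.D1 * M.D2 := by
    have b1 : (M.D1 : ℝ) * (16 * X) ≤ M.D1 * (M.θ ^ 2 * M.D2) := mul_le_mul_of_nonneg_left hX2 hD1
    have b2 : (M.D2 : ℝ) * (16 * X) ≤ M.D2 * (M.θ ^ 2 * M.D1) := mul_le_mul_of_nonneg_left hX1 hD2
    nlinarith
  have a5 : ((M.D1 : ℝ) + M.D2) * X * ((M.Δ : ℝ) * M.Δ) ≤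
      M.θ ^ 2 / 8 * M.D1 * M.D2 * ((M.Δ : ℝ) * M.Δ) :=
    mul_le_mul_of_nonneg_right a4 (by positivity)
  nlinarith

end MD

end Pool.Agent.Work.MP_054302_co.Y
end

-- merged part: Pool.Agent.Work.MP_054302_co.Y.M3
section
namespace Pool.Agent.Work.MP_054302_co.Y

open Finset Function Pool.Agent.Work.MP_054302_co.X
open scoped Classical

namespace MD

variable {V : Type} [Fintype V] [DecidableEq V] {M : MD V}

lemma card_Ob (h : M.Hyp) :
    M.γ * M.θ ^ 2 / 32 * M.n * (M.Δ : ℝ) ^ (M.e + 2) * M.D1 * M.D2 ≤ (M.Ob.card : ℝ) := by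
  have e : M.Ob.card = ∑ φ ∈ M.GH, (M.Dl φ).card := by
    rw [Ob, card_biUnion]
    · exact sum_congr rfl fun φ _ => card_image_of_injective _ (Prod.mk_right_injective φ)
    · intro φ _ ψ _ k
      refine disjoint_left.2 fun ω h1 h2 => k ?_
      obtain ⟨_, -, rfl⟩ := mem_image.1 h1
      obtain ⟨_, -, e⟩ := mem_image.1 h2
      exact (congrArg Prod.fst e).symm
  have e2 := card_nsmul_le_sum M.GH (fun φ => ((M.Dl φ).card : ℝ)) _ fun φ hφ => card_Dl h hφ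
  have e3 := mul_le_mul_of_nonneg_right (card_GH h)
    (by positivity : (0 : ℝ) ≤ M.θ ^ 2 / 8 * M.D1 * M.D2 * (M.Δ : ℝ) ^ 2)
  rw [e, Nat.cast_sum, pow_add]
  rw [nsmul_eq_mul] at e2
  linarith

/-- Map `ω` to the datum (restriction of `ω.1` to `UR`, `ω.2`): at most `n^ρ D1 Δ D2 Δ` data
(`card_maps_le`, `card_deco`), and on each fibre `ω.1` ranges injectively over non-petals of one
set `Fib` (`card_nonpetal`). -/
lemma card_nonpet (h : M.Hyp) :
    (M.Ob.filter fun ω => ¬ IsPetal M.U0 M.Q (M.Fib ω) ω.1).card ≤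
      M.n ^ M.UR.card * (M.D1 * M.Δ * (M.D2 * M.Δ)) * sunC M.u M.Q := by
  let π : (Lb → V) × (((Lb → V) × V) × ((Lb → V) × V)) →
      (Lb → V) × (((Lb → V) × V) × ((Lb → V) × V)) :=
    fun ω => (fun v => if v ∈ M.UR then ω.1 v else M.v0, ω.2)
  have ur : ∀ v ∈ M.UR, v ∈ M.U := fun v hv => (mem_filter.1 hv).1
  have yr : ∀ i, M.b ≤ i → i ≤ M.b' → Lb.y i ∈ M.UR := fun i h1 h2 =>
    mem_filter.2 ⟨y_mem_U h h1 h2, rfl⟩
  rw [mul_comm]
  refine (card_le_mul_card_image (f := π) _ (sunC M.u M.Q) fun d hd => ?_).trans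
    (Nat.mul_le_mul_left _ ?_)
  · obtain ⟨ω0, -, rfl⟩ := mem_image.1 hd
    refine le_trans ?_ (card_nonpetal M.u M.Q (by have := h.hQ; omega) M.U0
      ((card_filter_le _ _).trans (card_U h).2.1) (M.Fib ω0) fun f hf g hg v hv => ?_)
    · refine card_le_card_of_injOn Prod.fst (fun ω hω => ?_) fun ω hω ω' hω' e =>
        Prod.ext e (congrArg Prod.snd ((mem_filter.1 hω).2.trans (mem_filter.1 hω').2.symm) :)
      obtain ⟨h1, h2⟩ := mem_filter.1 hω
      obtain ⟨h3, h4⟩ := mem_filter.1 h1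
      have e1 : ω.2 = ω0.2 := (congrArg Prod.snd h2 :)
      have e2 : ∀ v ∈ M.UR, ω.1 v = ω0.1 v := fun v hv => by
        simpa [π, hv] using congrFun (congrArg Prod.fst h2) v
      have e3 : M.Fib ω = M.Fib ω0 := by
        ext ψ
        rw [mem_Fib, mem_Fib, e1]
        exact and_congr_right fun _ => and_congr_right fun _ =>
          forall₂_congr fun v hv => by rw [e2 v hv]
      rw [mem_coe, mem_filter, ← e3, mem_Fib]
      exact ⟨⟨(M.mem_Ob.1 h3).1, (M.mem_Ob.1 h3).2, fun _ _ => rfl⟩, h4⟩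
    · obtain ⟨f1, -, f2⟩ := M.mem_Fib.1 hf
      obtain ⟨g1, -, g2⟩ := M.mem_Fib.1 hg
      by_cases k : v ∈ M.U
      · have : v ∈ M.UR := mem_filter.2 ⟨k, by simpa [U0, k] using hv⟩
        rw [f2 v this, g2 v this]
      · rw [(mem_Hom.1 (M.mem_GH.1 f1).1).1 v k, (mem_Hom.1 (M.mem_GH.1 g1).1).1 v k]
  · rw [mul_comm]
    refine (card_le_mul_card_image (f := Prod.fst) _ (M.D1 * M.Δ * (M.D2 * M.Δ))
      fun ψ _ => ?_).trans (Nat.mul_le_mul_left _ ?_)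
    · rw [← card_image_of_injOn (f := Prod.snd) fun ω hω ω' hω' e =>
        Prod.ext ((mem_filter.1 hω).2.trans (mem_filter.1 hω').2.symm) e]
      refine card_deco h (ψ (Lb.y M.b)) (ψ (Lb.y M.b')) _ fun δ hδ => ?_
      obtain ⟨d, h1, rfl⟩ := mem_image.1 hδ
      obtain ⟨h2, rfl⟩ := mem_filter.1 h1
      obtain ⟨ω, h3, rfl⟩ := mem_image.1 h2
      obtain ⟨m1, m2, m3, -, m4, -⟩ := M.mem_Dl.1 (M.mem_Ob.1 (mem_filter.1 h3).1).2
      simp only [π, if_pos (yr _ le_rfl h.hbb), if_pos (yr _ h.hbb le_rfl)]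
      exact ⟨m1, m2, m3, m4⟩
    · refine (card_maps_le M.UR (M.Xs ∪ M.Ys) _ (fun f hf v hv => ?_) fun f hf g hg v hv => ?_).trans
        (Nat.pow_le_pow_left (card_union_le _ _) _)
      · obtain ⟨d, h2, rfl⟩ := mem_image.1 hf
        obtain ⟨ω, h3, rfl⟩ := mem_image.1 h2
        simp only [π, if_pos hv]
        exact hom_mem h (M.mem_GH.1 (M.mem_Ob.1 (mem_filter.1 h3).1).1).1 v (ur v hv)
      · obtain ⟨d, h2, rfl⟩ := mem_image.1 hf
        obtain ⟨ω, -, rfl⟩ := mem_image.1 h2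
        obtain ⟨d, h2, rfl⟩ := mem_image.1 hg
        obtain ⟨ω', -, rfl⟩ := mem_image.1 h2
        simp only [π, if_neg hv]

theorem card_pet (h : M.Hyp) :
    M.γ * M.θ ^ 2 / 64 * M.n * (M.Δ : ℝ) ^ (M.e + 2) * M.D1 * M.D2 ≤
      ((M.Ob.filter fun ω => IsPetal M.U0 M.Q (M.Fib ω) ω.1).card : ℝ) := by
  have e1 := card_Ob h
  have e2 : (((M.Ob.filter fun ω => ¬ IsPetal M.U0 M.Q (M.Fib ω) ω.1).card : ℕ) : ℝ) ≤
      (M.n : ℝ) ^ M.UR.card * (M.D1 * M.Δ * (M.D2 * M.Δ)) * sunC M.u M.Q := by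
    exact_mod_cast card_nonpet h
  have e3 : ((M.Ob.filter fun ω => IsPetal M.U0 M.Q (M.Fib ω) ω.1).card : ℝ) +
      (M.Ob.filter fun ω => ¬ IsPetal M.U0 M.Q (M.Fib ω) ω.1).card = M.Ob.card := by
    exact_mod_cast card_filter_add_card_filter_not _
  have e4 := mul_le_mul_of_nonneg_right h.hsl
    (by positivity : (0 : ℝ) ≤ M.n * (M.D1 * M.Δ * (M.D2 * M.Δ)))
  rw [← Nat.sub_add_cancel (one_le_UR h), pow_succ] at e2
  rw [pow_add] at e1 ⊢
  linarith

end MD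

end Pool.Agent.Work.MP_054302_co.Y
end

-- merged part: Pool.Agent.Work.MP_054302_co.Y.M4
section
namespace Pool.Agent.Work.MP_054302_co.Y

open Finset Function Pool.Agent.Work.MP_054302_co.X
open scoped Classical

namespace MD

variable {V : Type} [Fintype V] [DecidableEq V] {M : MD V}

/-- Kernel analysis. -/
theorem out_of_pet (h : M.Hyp) {ω : (Lb → V) × (((Lb → V) × V) × ((Lb → V) × V))}
    (hω : ω ∈ M.Ob) (hp : IsPetal M.U0 M.Q (M.Fib ω) ω.1) : ∃ s t, M.Out ω s t := by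
  obtain ⟨K, hK, hKne, P, hPF, -, hQ, hfix, hdiff⟩ := hp
  have hb := h.hb
  have hb' := h.hb'
  have mU : ∀ v, v ∈ M.U ↔ IsReal M.d M.N M.r v ∧ 2 * M.b ≤ pos v ∧ pos v ≤ 2 * M.b' := fun v => mem_Seg
  have mU0 : ∀ v, v ∈ M.U0 ↔ v ∈ M.U ∧ isRoot v = false := fun v => mem_filter
  have fx : ∀ v ∈ M.U, v ∈ K ∨ isRoot v = true → ∀ ψ ∈ P, ψ v = ω.1 v := fun v hv k ψ hψ =>
    k.elim (hfix ψ hψ v) fun k => (M.mem_Fib.1 (hPF hψ)).2.2 v (mem_filter.2 ⟨hv, k⟩)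
  have gh : ∀ ψ ∈ P, ψ ∈ M.GH := fun ψ hψ => (M.mem_Fib.1 (hPF hψ)).1
  obtain ⟨k1, k2, k3⟩ := kernel (d := M.d) (r := M.r) hb hb' (fun v => v ∈ K ∨ isRoot v = true)
    (fun v hv => .inr hv) (fun l q k hq hl h0 h1 hk =>
      no_run (G := M.G) (φ := ω.1) P (fun v => v ∈ K ∨ isRoot v = true) hq hl h.hQs hQ
        (fun ⟨j, q, a1, a2, a3, a4⟩ =>
          (M.mem_GH.1 (M.mem_Ob.1 hω).1).2.2.2.1 j q a1 a2 a3 a4)
        (fun ψ hψ => hom_adj h (M.mem_GH.1 (gh ψ hψ)).1) (fun ψ hψ => gh_inj (gh ψ hψ))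
        (fun ψ hψ v hv k => fx v hv k ψ hψ)
        (fun ψ hψ ψ' hψ' e v hv w hw n n' => hdiff ψ hψ ψ' hψ' e v
          ((mU0 v).2 ⟨hv, by simpa using fun k => n (.inr k)⟩) (fun k => n (.inl k)) w
          ((mU0 w).2 ⟨hw, by simpa using fun k => n' (.inr k)⟩) fun k => n' (.inl k))
        h0 h1 hk)
  have cF : ∀ i, (Lb.c i ∈ K ∨ isRoot (Lb.c i) = true) → Lb.c i ∈ K := fun i k =>
    k.resolve_right (by simp [isRoot])
  have ex : ∃ i, M.b ≤ i ∧ i ≤ M.b' ∧ Lb.c i ∉ K := by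
    by_contra n
    obtain ⟨v, hv, hvK⟩ := exists_of_ssubset (Finset.ssubset_iff_subset_ne.2 ⟨hK, hKne⟩)
    obtain ⟨hv, hr⟩ := (mU0 v).1 hv
    rcases k1 (fun i h1 h2 => .inl (by
      by_contra k
      exact n ⟨i, h1, h2, k⟩)) v hv with k | k
    · exact hvK k
    · rw [hr] at k
      cases k
  obtain ⟨s, ⟨s1, s2, s3⟩, s4⟩ : ∃ s, (M.b ≤ s ∧ s ≤ M.b' ∧ Lb.c s ∉ K) ∧
      ∀ i < s, ¬ (M.b ≤ i ∧ i ≤ M.b' ∧ Lb.c i ∉ K) :=
    ⟨Nat.find ex, Nat.find_spec ex, fun i hi => Nat.find_min ex hi⟩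
  have ex' : ∃ t, s ≤ t ∧ (t = M.b' ∨ Lb.c (t + 1) ∈ K) := ⟨M.b', s2, .inl rfl⟩
  obtain ⟨t, ⟨t1, t2⟩, t3⟩ : ∃ t, (s ≤ t ∧ (t = M.b' ∨ Lb.c (t + 1) ∈ K)) ∧
      ∀ i < t, ¬ (s ≤ i ∧ (i = M.b' ∨ Lb.c (i + 1) ∈ K)) :=
    ⟨Nat.find ex', Nat.find_spec ex', fun i hi => Nat.find_min ex' hi⟩
  have t4 : t ≤ M.b' := by
    by_contra n
    exact t3 M.b' (by omega) ⟨s2, .inl rfl⟩
  have cK : ∀ i, s ≤ i → i ≤ t → Lb.c i ∉ K := fun i h1 h2 k => by
    rcases h1.eq_or_lt with rfl | h1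
    · exact s3 k
    · obtain ⟨j, rfl⟩ : ∃ j, i = j + 1 := ⟨i - 1, by omega⟩
      exact t3 j (by omega) ⟨by omega, .inr k⟩
  have J : ∀ v ∈ M.Jt s t, v ∈ M.U0 ∧ v ∉ K := fun v hv => by
    obtain ⟨hv, hr⟩ := mem_filter.1 hv
    have hU := mid_sub h s1 t1 t4 hv
    refine ⟨(mU0 v).2 ⟨hU, hr⟩, ?_⟩
    obtain ⟨h1, h2, h3⟩ := (mem_Mid (by omega)).1 hv
    cases v with
    | c i => simp only [pos] at h2 h3; exact cK i (by omega) (by omega)
    | y i => cases hr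
    | z i j => cases hr
    | m i j =>
      simp only [pos, IsReal] at h1 h2 h3
      have h4 := ((mU _).1 hU).2
      simp only [pos] at h4
      intro k
      have k4 := k2 i j (by omega) (by omega) (by omega) (.inl k)
      by_cases k : s ≤ i
      · exact cK i k (by omega) (cF _ k4.1)
      · exact cK (i + 1) (by omega) (by omega) (cF _ k4.2)
    | a i j l =>
      simp only [pos, IsReal] at h1 h2 h3
      exact fun k => cK i (by omega) (by omega)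
        (cF _ (k3 i j l (by omega) (by omega) (by omega) (by omega) (.inl k)))
  refine ⟨s, t, s1, t1, t4, P, hPF, hQ, fun ψ hψ => ⟨fun n => hfix ψ hψ _ ?_,
    fun n => hfix ψ hψ _ (t2.resolve_left n)⟩, fun ψ hψ ψ' hψ' e v hv w hw =>
      hdiff ψ hψ ψ' hψ' e v (J v hv).1 (J v hv).2 w (J w hw).1 (J w hw).2⟩
  by_contra k
  exact s4 (s - 1) (by omega) ⟨by omega, by omega, k⟩

end MD

end Pool.Agent.Work.MP_054302_co.Y
end

-- merged part: Pool.Agent.Work.MP_054302_co.Y.M5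
section
namespace Pool.Agent.Work.MP_054302_co.Y

open Finset Function Pool.Agent.Work.MP_054302_co.X
open scoped Classical

namespace MD

variable {V : Type} [Fintype V] [DecidableEq V] {M : MD V}

lemma M5_symm {S : V → Finset V} {x y : V} (h : Sep S x y) : Sep S y x :=
  ⟨h.1.symm, h.2.2, h.2.1⟩

lemma M5_adm (h : M.Hyp) {ω : (Lb → V) × (((Lb → V) × V) × ((Lb → V) × V))} (hω : ω ∈ M.Ob) :
    admR M.d M.N M.r M.S M.a M.b (ω.1 (Lb.y M.b)) ω.2.1.1 ∧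
      admL M.d M.N M.r M.S M.b' M.c (ω.1 (Lb.y M.b')) ω.2.2.1 :=
  ⟨h.l1.adm _ _ (M.mem_Dl.1 (M.mem_Ob.1 hω).2).1, h.l2.adm _ _ (M.mem_Dl.1 (M.mem_Ob.1 hω).2).2.1⟩

lemma M5_U {v : Lb} (hv : v ∈ M.U) : 2 * M.b ≤ pos v ∧ pos v ≤ 2 * M.b' := (mem_Seg.1 hv).2

lemma M5_root {a b : ℕ} {v : Lb} (hv : v ∈ Lab M.d M.N M.r a b) : isRoot v = true := by
  rcases mem_Lab.1 hv with rfl | rfl | hv
  exacts [rfl, rfl, hv.2.1]

lemma M5_iota (h : M.Hyp) {s t : ℕ} (hs : M.b ≤ s) (hst : s ≤ t) (ht : t ≤ M.b') {v : Lb}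
    (hv : v ∈ Lab M.d M.N M.r (M.a' s) (M.c' t)) :
    (M.iota s t v ∈ Lab M.d M.N M.r M.a M.b ∧ pos (M.iota s t v) < 2 * M.b ∧ s = M.b) ∨
      M.iota s t v ∈ M.Mid s t ∨
      (M.iota s t v ∈ Lab M.d M.N M.r M.b' M.c ∧ 2 * M.b' < pos (M.iota s t v) ∧ t = M.b') := by
  have h1 := h.hab
  have h2 := h.hb
  have h3 := h.hb'
  have h4 := h.hbc
  unfold iota
  split_ifs with c1 c2
  · refine Or.inr (Or.inl ((mem_Mid (by omega)).2 ?_))
    have := c1.1
    simp only [IsReal, pos]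
    omega
  · refine Or.inr (Or.inl ((mem_Mid (by omega)).2 ?_))
    have := c2.1
    simp only [IsReal, pos]
    omega
  · rcases mem_Lab.1 hv with e | e | ⟨e1, e2, e3, e4⟩
    · by_cases c : s = M.b
      · rw [a', if_pos c] at e
        exact Or.inl ⟨mem_Lab.2 (Or.inl e), by rw [e, pos]; omega, c⟩
      · rw [a', if_neg c] at e
        exact absurd ⟨c, e⟩ c1
    · by_cases c : t = M.b'
      · rw [c', if_pos c] at e
        exact Or.inr (Or.inr ⟨mem_Lab.2 (Or.inr (Or.inl e)), by rw [e, pos]; omega, c⟩)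
      · rw [c', if_neg c] at e
        exact absurd ⟨c, e⟩ c2
    · have e5 : (s = M.b ∧ 2 * M.a < pos v) ∨ (s ≠ M.b ∧ 2 * (s - 1) < pos v) := by
        unfold a' at e3
        split_ifs at e3 with c
        exacts [Or.inl ⟨c, e3⟩, Or.inr ⟨c, e3⟩]
      have e6 : (t = M.b' ∧ pos v < 2 * M.c) ∨ (t ≠ M.b' ∧ pos v < 2 * (t + 1)) := by
        unfold c' at e4
        split_ifs at e4 with c
        exacts [Or.inl ⟨c, e4⟩, Or.inr ⟨c, e4⟩]
      by_cases d1 : pos v < 2 * M.b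
      · exact Or.inl ⟨mem_Lab.2 (Or.inr (Or.inr ⟨e1, e2, by omega, d1⟩)), d1, by omega⟩
      by_cases d2 : 2 * M.b' < pos v
      · exact Or.inr (Or.inr ⟨mem_Lab.2 (Or.inr (Or.inr ⟨e1, e2, d2, by omega⟩)), d2, by omega⟩)
      exact Or.inr (Or.inl ((mem_Mid (by omega)).2 ⟨e1, by omega, by omega⟩))

lemma M5_inj (h : M.Hyp) {s t : ℕ} (hs : M.b ≤ s) (hst : s ≤ t) {u v : Lb}
    (hu : isRoot u = true) (hv : isRoot v = true) (e : M.iota s t u = M.iota s t v) : u = v := by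
  have h2 := h.hb
  unfold iota at e
  split_ifs at e with c1 c2 c3 c4 c5 c6 c7 c8
  · rw [c1.2, c2.2]
  · injection e with e _
    omega
  · rw [← e] at hv
    exact absurd hv (by simp [isRoot])
  · injection e with e _
    omega
  · rw [c4.2, c6.2]
  · rw [← e] at hv
    exact absurd hv (by simp [isRoot])
  · rw [e] at hu
    exact absurd hu (by simp [isRoot])
  · rw [e] at hu
    exact absurd hu (by simp [isRoot])
  · exact e

/-- On `Lab a b` the map `Phi` is the first stem, on `U` it is `ω.1`, on `Lab b' c` the second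
stem (admissibility identifies the values at `y b` and `y b'`). -/
lemma phi_vals (h : M.Hyp) {ω : (Lb → V) × (((Lb → V) × V) × ((Lb → V) × V))} (hω : ω ∈ M.Ob) :
    (∀ v ∈ Lab M.d M.N M.r M.a M.b, M.Phi ω v = ω.2.1.1 v) ∧ (∀ v ∈ M.U, M.Phi ω v = ω.1 v) ∧
      ∀ v ∈ Lab M.d M.N M.r M.b' M.c, M.Phi ω v = ω.2.2.1 v := by
  have h1 := h.hab
  have h2 := h.hbb
  have h4 := h.hbc
  obtain ⟨a1, a2⟩ := M5_adm h hω
  refine ⟨fun v hv => ?_, fun v hv => ?_, fun v hv => ?_⟩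
  · rcases mem_Lab.1 hv with rfl | rfl | ⟨-, -, -, e⟩
    · exact if_pos (by rw [pos]; omega)
    · rw [Phi, if_neg (by rw [pos]; omega), if_pos (by rw [pos]; omega), a1.1]
    · exact if_pos e
  · have := M5_U hv
    rw [Phi, if_neg (by omega), if_pos this.2]
  · rcases mem_Lab.1 hv with rfl | rfl | ⟨-, -, e, -⟩
    · rw [Phi, if_neg (by rw [pos]; omega), if_pos (by rw [pos]), a2.1]
    · rw [Phi, if_neg (by rw [pos]; omega), if_neg (by rw [pos]; omega)]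
    · rw [Phi, if_neg (by omega), if_neg (by omega)]

/-- Inside a stem: admissibility. Inside `U`: `Av`. Stem against `U`: `Av` and `Cmp`, for the
label `y b` resp. `y b'` admissibility. Stem against stem: `Cmp`. -/
lemma phi_sep (h : M.Hyp) {ω : (Lb → V) × (((Lb → V) × V) × ((Lb → V) × V))} (hω : ω ∈ M.Ob) :
    PSep M.S (Lab M.d M.N M.r M.a M.b ∪ M.U ∪ Lab M.d M.N M.r M.b' M.c) (M.Phi ω) := by
  obtain ⟨a1, a2⟩ := M5_adm h hω
  obtain ⟨p1, p2, p3⟩ := phi_vals h hω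
  obtain ⟨hG, hD⟩ := M.mem_Ob.1 hω
  have hA := (M.mem_GH.1 hG).2.2.2.2
  obtain ⟨l1, l2, -, -, -, -, c1, c2, c3⟩ := M.mem_Dl.1 hD
  have yb := y_mem_U h le_rfl h.hbb
  have yb' := y_mem_U h h.hbb le_rfl
  have m1 : ∀ u ∈ Lab M.d M.N M.r M.a M.b, u ≠ Lb.y M.b → ω.2.1.1 u ∈ M.s1 ω.2.1.1 := fun u hu e =>
    mem_image_of_mem _ (mem_erase.2 ⟨e, hu⟩)
  have m2 : ∀ u ∈ Lab M.d M.N M.r M.b' M.c, u ≠ Lb.y M.b' → ω.2.2.1 u ∈ M.s2 ω.2.2.1 := fun u hu e =>
    mem_image_of_mem _ (mem_erase.2 ⟨e, hu⟩)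
  have nh : ∀ (A : Finset V) (x y : V), x ∉ M.hat A → y ∈ A → x ≠ y ∧ x ∉ M.S y :=
    fun A x y hx hy => ⟨fun e => hx (mem_hat.2 ⟨y, hy, Or.inl e⟩),
      fun e => hx (mem_hat.2 ⟨y, hy, Or.inr e⟩)⟩
  have uu : ∀ u ∈ M.U, ∀ v ∈ M.U, u ≠ v → ω.1 v ≠ ω.1 u ∧ ω.1 v ∉ M.S (ω.1 u) :=
    fun u hu v hv e => nh {ω.1 u} _ _
      (fun z => hA u hu v hv e (mem_union_left _ (mem_union_left _ z))) (mem_singleton_self _)
  have k1 : ∀ u ∈ Lab M.d M.N M.r M.a M.b, ∀ v ∈ M.U, u ≠ v → u ≠ Lb.y M.b →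
      Sep M.S (M.Phi ω u) (M.Phi ω v) := fun u hu v hv e e' => by
    by_cases c : v = Lb.y M.b
    · have hv' : v ∈ Lab M.d M.N M.r M.a M.b := mem_Lab.2 (Or.inr (Or.inl c))
      rw [p1 u hu, p1 v hv']
      exact a1.2 u hu v hv' e
    · have z := nh (M.s1 ω.2.1.1) (ω.1 v) _ (fun z => hA _ yb v hv (Ne.symm c)
        (mem_union_left _ (mem_union_right _ (mem_biUnion.2 ⟨_, l1, z⟩)))) (m1 u hu e')
      rw [p1 u hu, p2 v hv]
      exact ⟨z.1.symm, disjoint_left.1 (c1 v hv).1 (m1 u hu e'), z.2⟩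
  have k2 : ∀ u ∈ Lab M.d M.N M.r M.b' M.c, ∀ v ∈ M.U, u ≠ v → u ≠ Lb.y M.b' →
      Sep M.S (M.Phi ω u) (M.Phi ω v) := fun u hu v hv e e' => by
    by_cases c : v = Lb.y M.b'
    · have hv' : v ∈ Lab M.d M.N M.r M.b' M.c := mem_Lab.2 (Or.inl c)
      rw [p3 u hu, p3 v hv']
      exact a2.2 u hu v hv' e
    · have z := nh (M.s2 ω.2.2.1) (ω.1 v) _ (fun z => hA _ yb' v hv (Ne.symm c)
        (mem_union_right _ (mem_biUnion.2 ⟨_, l2, z⟩))) (m2 u hu e')
      rw [p3 u hu, p2 v hv]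
      exact ⟨z.1.symm, disjoint_left.1 (c1 v hv).2 (m2 u hu e'), z.2⟩
  have k3 : ∀ u ∈ Lab M.d M.N M.r M.a M.b, ∀ v ∈ Lab M.d M.N M.r M.b' M.c, u ≠ Lb.y M.b →
      v ≠ Lb.y M.b' → Sep M.S (M.Phi ω u) (M.Phi ω v) := fun u hu v hv e e' => by
    have z := nh _ _ _ (disjoint_left.1 c2 (m1 u hu e)) (m2 v hv e')
    rw [p1 u hu, p3 v hv]
    exact ⟨z.1, z.2, (nh _ _ _ (disjoint_left.1 c3 (m2 v hv e')) (m1 u hu e)).2⟩
  have cl : ∀ u ∈ Lab M.d M.N M.r M.a M.b ∪ M.U ∪ Lab M.d M.N M.r M.b' M.c,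
      (u ∈ Lab M.d M.N M.r M.a M.b ∧ u ≠ Lb.y M.b) ∨ u ∈ M.U ∨
        (u ∈ Lab M.d M.N M.r M.b' M.c ∧ u ≠ Lb.y M.b') := fun u hu => by
    by_cases c : u ∈ M.U
    · exact Or.inr (Or.inl c)
    rcases mem_union.1 hu with hu | hu
    · exact Or.inl ⟨(mem_union.1 hu).resolve_right c, fun e => c (e ▸ yb)⟩
    · exact Or.inr (Or.inr ⟨hu, fun e => c (e ▸ yb')⟩)
  intro u hu v hv e
  rcases cl u hu with hu | hu | hu <;> rcases cl v hv with hv | hv | hv
  · rw [p1 u hu.1, p1 v hv.1]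
    exact a1.2 u hu.1 v hv.1 e
  · exact k1 u hu.1 v hv e hu.2
  · exact k3 u hu.1 v hv.1 hu.2 hv.2
  · exact M5_symm (k1 v hv.1 u hu e.symm hv.2)
  · rw [p2 u hu, p2 v hv]
    exact ⟨(uu u hu v hv e).1.symm, (uu v hv u hu e.symm).2, (uu u hu v hv e).2⟩
  · exact M5_symm (k2 v hv.1 u hu e.symm hv.2)
  · exact M5_symm (k3 v hv.1 u hu.1 hv.2 hu.2)
  · exact k2 u hu.1 v hv e hu.2
  · rw [p3 u hu.1, p3 v hv.1]
    exact a2.2 u hu.1 v hv.1 e

/-- `iota` maps the new label set injectively into the old ones. -/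
theorem wn_sep (h : M.Hyp) {ω : (Lb → V) × (((Lb → V) × V) × ((Lb → V) × V))} (hω : ω ∈ M.Ob)
    {s t : ℕ} (hs : M.b ≤ s) (hst : s ≤ t) (ht : t ≤ M.b') :
    PSep M.S (Lab M.d M.N M.r (M.a' s) (M.c' t)) (M.wn ω s t) := by
  have k : ∀ v ∈ Lab M.d M.N M.r (M.a' s) (M.c' t),
      M.iota s t v ∈ Lab M.d M.N M.r M.a M.b ∪ M.U ∪ Lab M.d M.N M.r M.b' M.c := fun v hv => by
    rcases M5_iota h hs hst ht hv with e | e | e
    · exact mem_union_left _ (mem_union_left _ e.1)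
    · exact mem_union_left _ (mem_union_right _ (mid_sub h hs hst ht e))
    · exact mem_union_right _ e.1
  exact fun u hu v hv e => phi_sep h hω _ (k u hu) _ (k v hv)
    fun z => e (M5_inj h hs hst (M5_root hu) (M5_root hv) z)

theorem pt_mem (h : M.Hyp) {ω : (Lb → V) × (((Lb → V) × V) × ((Lb → V) × V))} (hω : ω ∈ M.Ob)
    {s t : ℕ} (hs : M.b ≤ s) (hst : s ≤ t) (ht : t ≤ M.b') :
    ((M.pt ω s t).1, M.wn ω s t (Lb.y (M.a' s))) ∈ Hi M.d M.H (M.a' s) ∧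
      ((M.pt ω s t).2, M.wn ω s t (Lb.y (M.c' t))) ∈ Hi M.d M.H (M.c' t) := by
  have h1 := h.hab
  have h2 := h.hb
  have h3 := h.hb'
  have h4 := h.hbc
  obtain ⟨p1, p2, p3⟩ := phi_vals h hω
  obtain ⟨hG, hD⟩ := M.mem_Ob.1 hω
  have hE := (mem_Hom.1 (M.mem_GH.1 hG).1).2.2
  obtain ⟨-, -, d1, -, d2, -⟩ := M.mem_Dl.1 hD
  constructor
  · change ((if s = M.b then ω.2.1.2 else ω.1 (Lb.c (s - 1))), _) ∈ _
    by_cases c : s = M.b
    · rw [a', wn, iota, if_pos c, if_pos c, if_neg fun z => z.1 c,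
        if_neg fun z => by have := Lb.y.inj z.2; omega, p1 _ (mem_Lab.2 (Or.inl rfl))]
      exact d1
    · have m := m_mem_U h (i := s - 1) (t := 0) (by omega) (by omega) (Nat.zero_le _)
      rw [a', wn, iota, if_neg c, if_neg c, if_pos ⟨c, rfl⟩, p2 _ m]
      exact hE _ (c_mem_U h (by omega) (by omega)) _ m ⟨rfl, rfl, by omega, by omega⟩
  · change ((if t = M.b' then ω.2.2.2 else ω.1 (Lb.c (t + 1))), _) ∈ _
    by_cases c : t = M.b'
    · rw [c', wn, iota, if_pos c, if_pos c, if_neg fun z => by have := Lb.y.inj z.2; omega,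
        if_neg fun z => z.1 c, p3 _ (mem_Lab.2 (Or.inr (Or.inl rfl)))]
      exact d2
    · have m := m_mem_U h (i := t) (t := M.d) (by omega) (by omega) le_rfl
      rw [c', wn, iota, if_neg c, if_neg c, if_neg fun z => by have := Lb.y.inj z.2; omega,
        if_pos ⟨c, rfl⟩, p2 _ m]
      have k := hE _ m _ (c_mem_U h (i := t + 1) (by omega) (by omega))
        ⟨rfl, rfl, by omega, by omega⟩
      have e : (t + 1) * (M.d + 2) = rk M.d (Lb.m t M.d) + 1 := by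
        simp only [rk]
        ring
      rw [Hi, e]
      exact mem_Ho_succ.2 k

/-- The key determines the new labelling on the new label set. -/
theorem wn_of_key (h : M.Hyp) {ω ω' : (Lb → V) × (((Lb → V) × V) × ((Lb → V) × V))}
    {s t : ℕ} (hs : M.b ≤ s) (hst : s ≤ t) (ht : t ≤ M.b') (hk : M.key ω' s t = M.key ω s t) :
    ∀ v ∈ Lab M.d M.N M.r (M.a' s) (M.c' t), M.wn ω' s t v = M.wn ω s t v := by
  intro v hv
  have h2 := h.hbb
  simp only [key, Prod.mk.injEq] at hk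
  obtain ⟨k1, k2, k3⟩ := hk
  unfold wn Phi
  rcases M5_iota h hs hst ht hv with e | e | e
  · rw [if_pos e.2.2, if_pos e.2.2] at k2
    rw [if_pos e.2.1, if_pos e.2.1, k2]
  · have z := M5_U (mid_sub h hs hst ht e)
    have k := congrFun k1 (M.iota s t v)
    rw [if_pos e, if_pos e] at k
    have z' := not_lt.2 z.1
    rw [if_neg z', if_neg z', if_pos z.2, if_pos z.2, k]
  · rw [if_pos e.2.2, if_pos e.2.2] at k3
    have z := not_le.2 e.2.1
    have z' : ¬ pos (M.iota s t v) < 2 * M.b := by omega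
    rw [if_neg z', if_neg z', if_neg z, if_neg z, k3]

end MD

end Pool.Agent.Work.MP_054302_co.Y
end

-- merged part: Pool.Agent.Work.MP_054302_co.Y.M6
section
namespace Pool.Agent.Work.MP_054302_co.Y

open Finset Function Pool.Agent.Work.MP_054302_co.X
open scoped Classical

namespace MD

variable {V : Type} [Fintype V] [DecidableEq V] {M : MD V}

lemma M6_root_pos {d N : ℕ} {r : ℕ → ℕ} {u v : Lb} (h : adj d N r u v) (hv : isRoot v = true) :
    pos u = pos v := by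
  rcases h with h | h <;> cases u <;> cases v <;> simp_all [Ed, isRoot, pos]

lemma M6_mem_Jt {s t : ℕ} (hs : 1 ≤ s) {v : Lb} : v ∈ M.Jt s t ↔ (IsReal M.d M.N M.r v ∧
    (2 * s ≤ pos v ∨ (s ≠ M.b ∧ 2 * s ≤ pos v + 1)) ∧
    (pos v ≤ 2 * t ∨ (t ≠ M.b' ∧ pos v ≤ 2 * t + 1))) ∧ isRoot v = false := by
  rw [Jt, mem_filter, mem_Mid hs]

lemma M6_mem_ite {p : Prop} [Decidable p] {A : Finset Lb} {v : Lb} :
    v ∈ (if p then A else ∅) ↔ p ∧ v ∈ A := by
  by_cases hp : p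
  · simp only [hp, if_true, true_and]
  · simp only [hp, if_false, false_and, notMem_empty]

lemma M6_a' (M : MD V) (s : ℕ) :
    (s = M.b ∧ M.a' s = M.a) ∨ (s ≠ M.b ∧ M.a' s = s - 1) := by
  by_cases hs : s = M.b
  · exact Or.inl ⟨hs, if_pos hs⟩
  · exact Or.inr ⟨hs, if_neg hs⟩

lemma M6_c' (M : MD V) (t : ℕ) :
    (t = M.b' ∧ M.c' t = M.c) ∨ (t ≠ M.b' ∧ M.c' t = t + 1) := by
  by_cases ht : t = M.b'
  · exact Or.inl ⟨ht, if_pos ht⟩
  · exact Or.inr ⟨ht, if_neg ht⟩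

lemma nn_split (h : M.Hyp) {s t : ℕ} (hs : M.b ≤ s) (hst : s ≤ t) (ht : t ≤ M.b') :
    Nn M.d M.N M.r (M.a' s) (M.c' t) =
      ((if s = M.b then Nn M.d M.N M.r M.a M.b else ∅) ∪
        (if t = M.b' then Nn M.d M.N M.r M.b' M.c else ∅)) ∪ M.Jt s t := by
  have h1 := h.hab
  have h2 := h.hb
  have h3 := h.hbc
  have h4 := M6_a' M s
  have h5 := M6_c' M t
  ext v
  rw [mem_union, mem_union, M6_mem_ite, M6_mem_ite, M6_mem_Jt (by omega), mem_Nn, mem_Nn, mem_Nn]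
  constructor
  · rintro ⟨k1, k2, k3, k4⟩
    by_cases l1 : s = M.b ∧ pos v < 2 * M.b
    · exact Or.inl (Or.inl ⟨l1.1, k1, k2, by omega, l1.2⟩)
    · by_cases l2 : t = M.b' ∧ 2 * M.b' < pos v
      · exact Or.inl (Or.inr ⟨l2.1, k1, k2, l2.2, by omega⟩)
      · exact Or.inr ⟨⟨k1, by omega, by omega⟩, k2⟩
  · rintro ((⟨k0, k1, k2, k3, k4⟩ | ⟨k0, k1, k2, k3, k4⟩) | ⟨⟨k1, k3, k4⟩, k2⟩)
    · exact ⟨k1, k2, by omega, by omega⟩
    · exact ⟨k1, k2, by omega, by omega⟩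
    · exact ⟨k1, k2, by omega, by omega⟩

lemma M6_avoid {P : Finset (Lb → V)} {J : Finset Lb} {Z : Finset V} (hc : Z.card < P.card)
    (hd : ∀ ψ ∈ P, ∀ ψ' ∈ P, ψ ≠ ψ' → ∀ v ∈ J, ∀ w ∈ J, ψ v ≠ ψ' w) :
    ∃ ψ ∈ P, ∀ v ∈ J, ψ v ∉ Z := by
  by_contra hn
  have hx : ∀ ψ : Lb → V, ∃ v : Lb, ψ ∈ P → v ∈ J ∧ ψ v ∈ Z := fun ψ => by
    by_cases hψ : ψ ∈ P
    · by_contra k
      exact hn ⟨ψ, hψ, fun v hv hz => k ⟨v, fun _ => ⟨hv, hz⟩⟩⟩
    · exact ⟨Lb.c 0, fun k => absurd k hψ⟩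
  choose f hf using hx
  obtain ⟨ψ, h1, ψ', h2, h3, h4⟩ := exists_ne_map_eq_of_card_lt_of_maps_to hc
    (f := fun ψ => ψ (f ψ)) fun ψ hψ => (hf ψ hψ).2
  exact hd ψ h1 ψ' h2 h3 _ (hf ψ h1).1 _ (hf ψ' h2).1 h4

lemma M6_upd_root {w : Lb → V} {i j : ℕ} {x y : V} {v : Lb} (hv : isRoot v = true) :
    update (update w (Lb.c i) x) (Lb.c j) y v = w v := by
  have k : ∀ l, v ≠ Lb.c l := fun l e => by
    rw [e] at hv
    exact Bool.noConfusion hv
  rw [update_of_ne (k j), update_of_ne (k i)]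

lemma M6_upd_left {w : Lb → V} {i j : ℕ} {x y : V} (hij : i < j) :
    update (update w (Lb.c i) x) (Lb.c j) y (Lb.c i) = x := by
  rw [update_of_ne (fun e => hij.ne (Lb.c.inj e)), update_self]

lemma M6_wn (ω : (Lb → V) × (((Lb → V) × V) × ((Lb → V) × V))) {s t : ℕ} {v : Lb}
    (h1 : 2 * M.a' s < pos v) (h2 : pos v < 2 * M.c' t) : M.wn ω s t v = M.Phi ω v := by
  have h4 := M6_a' M s
  have h5 := M6_c' M t
  have k1 : ¬ (s ≠ M.b ∧ v = Lb.y (s - 1)) := fun k => by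
    have : pos v = 2 * (s - 1) := by rw [k.2]; rfl
    have := k.1
    omega
  have k2 : ¬ (t ≠ M.b' ∧ v = Lb.y (t + 1)) := fun k => by
    have : pos v = 2 * (t + 1) := by rw [k.2]; rfl
    have := k.1
    omega
  rw [wn, iota, if_neg k1, if_neg k2]

/-- `rob_ext` with `J = Jt s t`: given `Z`, some `ψ ∈ P` avoids `Z` on `Jt` because `B < Q`; put
`g' = ψ` on `Jt`. The two old pieces are robust over `g'` by `mem_Dl` for `ψ`, `rob_congr`,
`nn_boundary`, `rob_mono`, and are joined by `rob_union` (no edges between them: `adj_pos`). -/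
theorem good_of_out (h : M.Hyp) {ω : (Lb → V) × (((Lb → V) × V) × ((Lb → V) × V))}
    (hω : ω ∈ M.Ob) {s t : ℕ} (ho : M.Out ω s t) :
    Good M.d M.N M.r M.G M.B (M.a' s) (M.c' t) (M.wn ω s t) (M.pt ω s t).1 (M.pt ω s t).2 := by
  obtain ⟨hs, hst, ht, P, hP, hQ, hk, hd⟩ := ho
  have h1 := h.hab
  have h2 := h.hb
  have h3 := h.hbc
  have h3' := h.hb'
  have h4 := M6_a' M s
  have h5 := M6_c' M t
  have hs1 : 1 ≤ s := by omega
  have hac : M.a' s < M.c' t := by omega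
  have hsp := nn_split h hs hst ht
  have pc : ∀ i, pos (Lb.c i) = 2 * i := fun _ => rfl
  unfold Good
  generalize hg : update (update (M.wn ω s t) (Lb.c (M.a' s)) (M.pt ω s t).1) (Lb.c (M.c' t))
    (M.pt ω s t).2 = g
  have gL : g (Lb.c (M.a' s)) = (M.pt ω s t).1 := by rw [← hg, M6_upd_left hac]
  have gR : g (Lb.c (M.c' t)) = (M.pt ω s t).2 := by rw [← hg, update_self]
  have gT : ∀ v, isRoot v = true → 2 * M.a' s < pos v → pos v < 2 * M.c' t → g v = M.Phi ω v :=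
    fun v k1 k2 k3 => by rw [← hg, M6_upd_root k1, M6_wn ω k2 k3]
  generalize hS1 : (if s = M.b then Nn M.d M.N M.r M.a M.b else ∅) = S1 at hsp
  generalize hS2 : (if t = M.b' then Nn M.d M.N M.r M.b' M.c else ∅) = S2 at hsp
  have m1 : ∀ v, v ∈ S1 ↔ s = M.b ∧ v ∈ Nn M.d M.N M.r M.a M.b := fun v => by
    rw [← hS1, M6_mem_ite]
  have m2 : ∀ v, v ∈ S2 ↔ t = M.b' ∧ v ∈ Nn M.d M.N M.r M.b' M.c := fun v => by
    rw [← hS2, M6_mem_ite]
  have p1 : ∀ v ∈ S1, pos v < 2 * M.b := fun v hv => (mem_Nn.1 ((m1 v).1 hv).2).2.2.2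
  have p2 : ∀ v ∈ S2, 2 * M.b' < pos v := fun v hv => (mem_Nn.1 ((m2 v).1 hv).2).2.2.1
  have JU : ∀ v ∈ M.Jt s t, v ∈ M.U := fun v hv => mid_sub h hs hst ht (mem_filter.1 hv).1
  have pJ : ∀ v ∈ M.Jt s t, 2 * M.b ≤ pos v ∧ pos v ≤ 2 * M.b' := fun v hv =>
    (mem_Seg.1 (JU v hv)).2
  have cJt : ∀ i, s ≤ i → i ≤ t → Lb.c i ∈ M.Jt s t := fun i k1 k2 => (M6_mem_Jt hs1).2
    ⟨⟨⟨by omega, by omega⟩, by rw [pc]; omega, by rw [pc]; omega⟩, rfl⟩
  have d1 : Disjoint S1 (M.Jt s t) := disjoint_left.2 fun v k1 k2 => by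
    have := p1 v k1
    have := pJ v k2
    omega
  have d2 : Disjoint S2 (M.Jt s t) := disjoint_left.2 fun v k1 k2 => by
    have := p2 v k1
    have := pJ v k2
    omega
  have cJ : (M.Jt s t).card + S1.card ≤ M.u := by
    rw [← card_union_of_disjoint d1.symm]
    refine card_le_card fun v hv => mem_VT.2 ?_
    rcases mem_union.1 hv with hv | hv
    · exact (mem_Seg.1 (JU v hv)).1
    · exact (mem_Nn.1 ((m1 v).1 hv).2).1
  rw [hsp]
  refine rob_ext adj_symm (disjoint_union_left.2 ⟨d1, d2⟩) fun Z hZ => ?_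
  obtain ⟨ψ, hψ, hz⟩ := M6_avoid (lt_of_le_of_lt hZ (lt_of_lt_of_le h.hQ hQ)) hd
  obtain ⟨f1, f2, f3⟩ := M.mem_Fib.1 (hP hψ)
  obtain ⟨-, -, -, e1, -, e2, -⟩ := M.mem_Dl.1 f2
  obtain ⟨kL, kR⟩ := hk ψ hψ
  obtain ⟨g', gJ, gN⟩ : ∃ g' : Lb → V, (∀ v ∈ M.Jt s t, g' v = ψ v) ∧
      ∀ v, v ∉ M.Jt s t → g' v = g v :=
    ⟨fun v => if v ∈ M.Jt s t then ψ v else g v, fun v hv => if_pos hv, fun v hv => if_neg hv⟩
  have rJ : ∀ v, isRoot v = true → v ∉ M.Jt s t := fun v k1 k2 => by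
    rw [(mem_filter.1 k2).2] at k1
    exact Bool.noConfusion k1
  refine ⟨g', gN, fun u hu v hv e => ?_, fun v hv => ?_, fun u hu v hv e => ?_, ?_⟩
  · rw [gJ u hu, gJ v hv] at e
    exact gh_inj f1 (JU u hu) (JU v hv) e
  · rw [gJ v hv]
    exact hz v hv
  · have key : v ∈ M.U ∧ g' v = ψ v := by
      by_cases hvJ : v ∈ M.Jt s t
      · exact ⟨JU v hvJ, gJ v hvJ⟩
      · have q1 := adj_pos e
        have q2 := pJ u hu
        rw [gN v hvJ]
        rcases nn_boundary (a := M.a' s) (b := M.c' t) (by rw [hsp]; exact mem_union_right _ hu)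
          (by rw [hsp, mem_union, not_or]; exact ⟨hv, hvJ⟩) e with k | k | ⟨k1, k2, k3, k4⟩
        · rw [k, pc] at q1
          have l1 : s ≠ M.b ∧ M.a' s = s - 1 := by omega
          rw [k, gL, l1.2, kL l1.1]
          exact ⟨c_mem_U h (by omega) (by omega), if_neg l1.1⟩
        · rw [k, pc] at q1
          have l1 : t ≠ M.b' ∧ M.c' t = t + 1 := by omega
          rw [k, gR, l1.2, kR l1.1]
          exact ⟨c_mem_U h (by omega) (by omega), if_neg l1.1⟩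
        · have q3 := M6_root_pos e k2
          have vU : v ∈ M.U := mem_Seg.2 ⟨k1, by omega, by omega⟩
          rw [gT v k2 k3 k4, f3 v (mem_filter.2 ⟨vU, k2⟩), Phi, if_neg (by omega),
            if_pos (by omega)]
          exact ⟨vU, rfl⟩
    rw [gJ u hu, key.2]
    exact hom_adj h (M.mem_GH.1 f1).1 u (JU u hu) v key.1 e
  · refine rob_union (disjoint_left.2 fun v k1 k2 => ?_) (fun u hu v hv => ?_) ?_ ?_
    · have := p1 v k1
      have := p2 v k2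
      omega
    · have := p1 u hu
      have := p2 v hv
      constructor <;> intro e <;> have := adj_pos e <;> omega
    · by_cases l1 : s = M.b
      · have l2 : M.a' s = M.a := if_pos l1
        rw [← hS1, if_pos l1]
        refine rob_mono (by have := h.hB1; omega) (rob_congr (fun u hu v hv e => ?_) e1)
        rcases nn_boundary hu hv e with k | k | ⟨k1, k2, k3, k4⟩
        · rw [k, M6_upd_left h1, gN _ fun l => by have := pJ _ l; rw [pc] at this; omega, ← l2, gL]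
          exact (if_pos l1).symm
        · rw [k, update_self, gJ _ (cJt M.b l1.le (by omega))]
        · rw [M6_upd_root k2, gN v (rJ v k2), gT v k2 (by omega) (by omega), Phi, if_pos k4]
      · rw [← hS1, if_neg l1]
        exact rob_empty _ _
    · by_cases l1 : t = M.b'
      · have l2 : M.c' t = M.c := if_pos l1
        rw [← hS2, if_pos l1]
        refine rob_mono (by have := h.hB2; omega) (rob_congr (fun u hu v hv e => ?_) e2)
        rcases nn_boundary hu hv e with k | k | ⟨k1, k2, k3, k4⟩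
        · rw [k, M6_upd_left h3, gJ _ (cJt M.b' (by omega) l1.ge)]
        · rw [k, update_self, gN _ fun l => by have := pJ _ l; rw [pc] at this; omega, ← l2, gR]
          exact (if_pos l1).symm
        · rw [M6_upd_root k2, gN v (rJ v k2), gT v k2 (by omega) (by omega), Phi,
            if_neg (by omega), if_neg (by omega)]
      · rw [← hS2, if_neg l1]
        exact rob_empty _ _

end MD

end Pool.Agent.Work.MP_054302_co.Y
end

-- merged part: Pool.Agent.Work.MP_054302_co.Y.M7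
section
namespace Pool.Agent.Work.MP_054302_co.Y

open Finset Function Pool.Agent.Work.MP_054302_co.X
open scoped Classical

namespace MD

variable {V : Type} [Fintype V] [DecidableEq V] {M : MD V}

lemma M7_c_mem (h : M.Hyp) {s t : ℕ} (hs : M.b ≤ s) (hst : s ≤ t) (ht : t ≤ M.b') :
    Lb.c s ∈ M.Mid s t := by
  have h1 := h.hb
  have h2 := h.hb'
  refine (mem_Mid (by omega)).2 ⟨⟨by omega, by omega⟩, Or.inl ?_, Or.inl ?_⟩
  · exact le_rfl
  · exact Nat.mul_le_mul_left 2 hst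

lemma M7_y_mem (h : M.Hyp) {s t i : ℕ} (hs : M.b ≤ s) (hsi : s ≤ i) (hit : i ≤ t)
    (ht : t ≤ M.b') : Lb.y i ∈ M.Mid s t := by
  have h1 := h.hb
  have h2 := h.hb'
  refine (mem_Mid (by omega)).2 ⟨⟨by omega, by omega⟩, Or.inl ?_, Or.inl ?_⟩
  · exact Nat.mul_le_mul_left 2 hsi
  · exact Nat.mul_le_mul_left 2 hit

lemma M7_left_not (h : M.Hyp) {s t : ℕ} (hs : M.b ≤ s) : Lb.c (s - 1) ∉ M.Mid s t := by
  have h1 := h.hb
  intro hm
  have h2 := ((mem_Mid (by omega)).1 hm).2.1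
  have h3 : pos (Lb.c (s - 1)) = 2 * (s - 1) := rfl
  rw [h3] at h2
  omega

lemma M7_right_not (h : M.Hyp) {s t : ℕ} (hs : M.b ≤ s) : Lb.c (t + 1) ∉ M.Mid s t := by
  have h1 := h.hb
  intro hm
  have h2 := ((mem_Mid (by omega)).1 hm).2.2
  have h3 : pos (Lb.c (t + 1)) = 2 * (t + 1) := rfl
  rw [h3] at h2
  omega

lemma M7_half (h : M.Hyp) (Ls : Finset (Lb → V)) (D : ℕ) (hD : Ls.card ≤ D) (i : ℕ) :
    (Ls.biUnion fun w => (nbX (Hi M.d M.H i) (w (Lb.y i))).image (Prod.mk w)).card ≤ D * M.Δ :=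
  M0_half h Ls D hD i

lemma M7_mem_half {Ls : Finset (Lb → V)} {i : ℕ} {δ : (Lb → V) × V} (h1 : δ.1 ∈ Ls)
    (h2 : (δ.2, δ.1 (Lb.y i)) ∈ Hi M.d M.H i) :
    δ ∈ Ls.biUnion fun w => (nbX (Hi M.d M.H i) (w (Lb.y i))).image (Prod.mk w) :=
  mem_biUnion.2 ⟨δ.1, h1, mem_image.2 ⟨δ.2, mem_nbX.2 h2, rfl⟩⟩

lemma M7_fibre {α β γ : Type} (K : Finset (α × β × γ)) (f : α) (A : Finset β) (B : Finset γ)
    (hK : ∀ k ∈ K, k.1 = f → k.2.1 ∈ A ∧ k.2.2 ∈ B) :
    (K.filter fun k => k.1 = f).card ≤ A.card * B.card := by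
  rw [← card_product]
  refine card_le_card_of_injOn Prod.snd (fun k hk => ?_) fun k hk k' hk' e => ?_
  · have hk' := mem_filter.1 (mem_coe.1 hk)
    exact mem_coe.2 (mem_product.2 (hK k hk'.1 hk'.2))
  · exact Prod.ext ((mem_filter.1 (mem_coe.1 hk)).2.trans (mem_filter.1 (mem_coe.1 hk')).2.symm) e

/-- First components: `ext_ub'` on `Mid` with `S = {c s}` and `T = Xs`. Given the first component,
the second lies in `L1` of its value at `y b` if `s = b` and is constant otherwise; same for the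
third. -/
theorem card_keys (h : M.Hyp) {s t : ℕ} (hs : M.b ≤ s) (hst : s ≤ t) (ht : t ≤ M.b') :
    (M.Ob.image fun ω => M.key ω s t).card ≤ M.n * M.Δ ^ ((M.Mid s t).card - 1) *
      (if s = M.b then M.D1 else 1) * (if t = M.b' then M.D2 else 1) := by
  have hc := M7_c_mem h hs hst ht
  have hsub := mid_sub h hs hst ht
  have h1 : ((M.Ob.image fun ω => M.key ω s t).image Prod.fst).card ≤
      M.n * M.Δ ^ ((M.Mid s t).card - 1) := by
    have key : ∀ f ∈ (M.Ob.image fun ω => M.key ω s t).image Prod.fst,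
        ∃ φ ∈ Hom M.d M.N M.r M.H M.Xs M.Ys M.U M.v0,
          f = fun v => if v ∈ M.Mid s t then φ v else M.v0 := by
      intro f hf
      obtain ⟨k, hk, rfl⟩ := mem_image.1 hf
      obtain ⟨ω, hω, rfl⟩ := mem_image.1 hk
      exact ⟨ω.1, (M.mem_GH.1 (M.mem_Ob.1 hω).1).1, rfl⟩
    have h2 := ext_ub' h.hdeg (conn_Mid h hs hst ht) (singleton_subset_iff.2 hc)
      (singleton_nonempty _) ((M.Ob.image fun ω => M.key ω s t).image Prod.fst)
      (fun f hf u hu v hv huv => by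
        obtain ⟨φ, hφ, rfl⟩ := key f hf
        simp only [hu, hv, if_true]
        exact hom_adj h hφ u (hsub hu) v (hsub hv) huv)
      (fun f hf g hg v hv => by
        obtain ⟨φ, -, rfl⟩ := key f hf
        obtain ⟨ψ, -, rfl⟩ := key g hg
        simp only [hv, if_false])
      (fun f => f (Lb.c s)) (M.Xs ∪ M.Ys)
      (fun f hf => by
        obtain ⟨φ, hφ, rfl⟩ := key f hf
        simp only [hc, if_true]
        exact hom_mem h hφ _ (hsub hc))
      (fun f _ g _ e v hv => by rw [mem_singleton.1 hv]; exact e)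
    rw [card_singleton] at h2
    exact h2.trans (Nat.mul_le_mul_right _ (card_union_le _ _))
  have h3 := card_le_mul_card_image (f := Prod.fst) (M.Ob.image fun ω => M.key ω s t)
    ((if s = M.b then M.D1 else 1) * (if t = M.b' then M.D2 else 1)) fun f _ => by
      refine (M7_fibre _ f (if s = M.b then M.L1 (f (Lb.y M.b)) else {fun _ => M.v0})
        (if t = M.b' then M.L2 (f (Lb.y M.b')) else {fun _ => M.v0}) fun k hk e => ?_).trans
        (Nat.mul_le_mul ?_ ?_)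
      · obtain ⟨ω, hω, rfl⟩ := mem_image.1 hk
        have hd := M.mem_Dl.1 (M.mem_Ob.1 hω).2
        rw [← e]
        constructor
        · by_cases hb : s = M.b
          · have hy : Lb.y M.b ∈ M.Mid s t := M7_y_mem h hs hb.le (hb ▸ hst) ht
            simp only [key, if_pos hb, if_pos hy]
            exact hd.1
          · simp only [key, if_neg hb, mem_singleton]
        · by_cases hb : t = M.b'
          · have hy : Lb.y M.b' ∈ M.Mid s t := M7_y_mem h hs (hb ▸ hst) hb.ge ht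
            simp only [key, if_pos hb, if_pos hy]
            exact hd.2.1
          · simp only [key, if_neg hb, mem_singleton]
      · split_ifs
        · exact h.l1.card_le _
        · exact (card_singleton _).le
      · split_ifs
        · exact h.l2.card_le _
        · exact (card_singleton _).le
  refine h3.trans ?_
  rw [mul_comm, mul_assoc (M.n * _)]
  exact Nat.mul_le_mul_right _ h1

/-- The set on which maps with equal key and boundary pair agree. -/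
lemma card_fix (h : M.Hyp) {s t : ℕ} (hs : M.b ≤ s) (hst : s ≤ t) (ht : t ≤ M.b') :
    ∃ S : Finset Lb, S ⊆ M.U ∧ S.Nonempty ∧
      S.card = (M.Mid s t).card + (if s = M.b then 0 else 1) + (if t = M.b' then 0 else 1) ∧
      1 ≤ (M.Mid s t).card ∧
      ∀ v ∈ S, v ∈ M.Mid s t ∨ (s ≠ M.b ∧ v = Lb.c (s - 1)) ∨ (t ≠ M.b' ∧ v = Lb.c (t + 1)) := by
  have hc := M7_c_mem h hs hst ht
  have hsub := mid_sub h hs hst ht
  have hl := M7_left_not (t := t) h hs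
  have hr := M7_right_not (t := t) h hs
  have h1 : 1 ≤ (M.Mid s t).card := card_pos.2 ⟨_, hc⟩
  by_cases e1 : s = M.b
  · by_cases e2 : t = M.b'
    · exact ⟨M.Mid s t, hsub, ⟨_, hc⟩, by rw [if_pos e1, if_pos e2]; rfl, h1,
        fun v hv => Or.inl hv⟩
    · refine ⟨insert (Lb.c (t + 1)) (M.Mid s t),
        insert_subset (c_mem_U h (by omega) (by omega)) hsub, insert_nonempty _ _, ?_, h1,
        fun v hv => ?_⟩
      · rw [card_insert_of_notMem hr, if_pos e1, if_neg e2]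
      · rcases mem_insert.1 hv with hv | hv
        · exact Or.inr (Or.inr ⟨e2, hv⟩)
        · exact Or.inl hv
  · by_cases e2 : t = M.b'
    · refine ⟨insert (Lb.c (s - 1)) (M.Mid s t),
        insert_subset (c_mem_U h (by omega) (by omega)) hsub, insert_nonempty _ _, ?_, h1,
        fun v hv => ?_⟩
      · rw [card_insert_of_notMem hl, if_neg e1, if_pos e2]
      · rcases mem_insert.1 hv with hv | hv
        · exact Or.inr (Or.inl ⟨e1, hv⟩)
        · exact Or.inl hv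
    · have hn : Lb.c (t + 1) ∉ insert (Lb.c (s - 1)) (M.Mid s t) := by
        rw [mem_insert, not_or]
        refine ⟨fun e => ?_, hr⟩
        have := Lb.c.inj e
        omega
      refine ⟨insert (Lb.c (t + 1)) (insert (Lb.c (s - 1)) (M.Mid s t)),
        insert_subset (c_mem_U h (by omega) (by omega))
          (insert_subset (c_mem_U h (by omega) (by omega)) hsub), insert_nonempty _ _, ?_, h1,
        fun v hv => ?_⟩
      · rw [card_insert_of_notMem hn, card_insert_of_notMem hl, if_neg e1, if_neg e2]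
      · rcases mem_insert.1 hv with hv | hv
        · exact Or.inr (Or.inr ⟨e2, hv⟩)
        · rcases mem_insert.1 hv with hv | hv
          · exact Or.inr (Or.inl ⟨e1, hv⟩)
          · exact Or.inl hv

/-- First components: `ext_ub` with the set of `card_fix`. Given the first component, the left
half of the decoration is determined if `s = b` and has at most `D1 Δ` values otherwise. -/
theorem card_mult (h : M.Hyp) {s t : ℕ} (hs : M.b ≤ s) (hst : s ≤ t) (ht : t ≤ M.b')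
    (ω : (Lb → V) × (((Lb → V) × V) × ((Lb → V) × V))) :
    (M.Ob.filter fun ω' => M.key ω' s t = M.key ω s t ∧ M.pt ω' s t = M.pt ω s t).card ≤
      M.Δ ^ (M.U.card - ((M.Mid s t).card + (if s = M.b then 0 else 1) +
        (if t = M.b' then 0 else 1))) *
      (if s = M.b then 1 else M.D1 * M.Δ) * (if t = M.b' then 1 else M.D2 * M.Δ) := by
  obtain ⟨S, hSU, hSne, hScard, -, hSmem⟩ := card_fix h hs hst ht
  rw [← hScard]
  obtain ⟨T, hT⟩ : ∃ T, T = M.Ob.filter fun ω' =>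
      M.key ω' s t = M.key ω s t ∧ M.pt ω' s t = M.pt ω s t := ⟨_, rfl⟩
  have hTm : ∀ ω' ∈ T, ω' ∈ M.Ob ∧ M.key ω' s t = M.key ω s t ∧ M.pt ω' s t = M.pt ω s t :=
    fun ω' hω' => by rw [hT] at hω'; exact mem_filter.1 hω'
  rw [← hT]
  have hfix : ∀ ω' ∈ T, ∀ v ∈ S, ω'.1 v = ω.1 v := by
    intro ω' hω' v hv
    obtain ⟨-, hk, hp⟩ := hTm ω' hω'
    rcases hSmem v hv with hv | ⟨e, hv⟩ | ⟨e, hv⟩
    · have := congrFun (congrArg Prod.fst hk) v
      simpa only [key, if_pos hv] using this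
    · have := congrArg Prod.fst hp
      rw [hv]
      simpa only [pt, if_neg e] using this
    · have := congrArg Prod.snd hp
      rw [hv]
      simpa only [pt, if_neg e] using this
  have hhom : ∀ ω' ∈ T, ω'.1 ∈ Hom M.d M.N M.r M.H M.Xs M.Ys M.U M.v0 := fun ω' hω' =>
    (M.mem_GH.1 (M.mem_Ob.1 (hTm ω' hω').1).1).1
  have h1 : (T.image Prod.fst).card ≤ M.Δ ^ (M.U.card - S.card) :=
    ext_ub h.hdeg (conn_U h) hSU hSne _
      (fun f hf => by
        obtain ⟨ω', hω', rfl⟩ := mem_image.1 hf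
        exact hom_adj h (hhom ω' hω'))
      (fun f hf g hg v hv => by
        obtain ⟨ω', hω', rfl⟩ := mem_image.1 hf
        obtain ⟨ω'', hω'', rfl⟩ := mem_image.1 hg
        rcases hv with hv | hv
        · rw [hfix ω' hω' v hv, hfix ω'' hω'' v hv]
        · rw [(mem_Hom.1 (hhom ω' hω')).1 v hv, (mem_Hom.1 (hhom ω'' hω'')).1 v hv])
  have h3 := card_le_mul_card_image (f := Prod.fst) T
    ((if s = M.b then 1 else M.D1 * M.Δ) * (if t = M.b' then 1 else M.D2 * M.Δ)) fun f _ => by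
      refine (M7_fibre T f
        (if s = M.b then {ω.2.1} else (M.L1 (f (Lb.y M.b))).biUnion fun w =>
          (nbX (Hi M.d M.H M.a) (w (Lb.y M.a))).image (Prod.mk w))
        (if t = M.b' then {ω.2.2} else (M.L2 (f (Lb.y M.b'))).biUnion fun w =>
          (nbX (Hi M.d M.H M.c) (w (Lb.y M.c))).image (Prod.mk w)) fun k hk e => ?_).trans
        (Nat.mul_le_mul ?_ ?_)
      · obtain ⟨hω, hkey, hp⟩ := hTm k hk
        have hd := M.mem_Dl.1 (M.mem_Ob.1 hω).2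
        rw [← e]
        constructor
        · by_cases hb : s = M.b
          · have e1 := congrArg (fun x => x.2.1) hkey
            have e2 := congrArg Prod.fst hp
            simp only [key, if_pos hb] at e1
            simp only [pt, if_pos hb] at e2
            rw [if_pos hb, mem_singleton]
            exact Prod.ext e1 e2
          · rw [if_neg hb]
            exact M7_mem_half hd.1 hd.2.2.1
        · by_cases hb : t = M.b'
          · have e1 := congrArg (fun x => x.2.2) hkey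
            have e2 := congrArg Prod.snd hp
            simp only [key, if_pos hb] at e1
            simp only [pt, if_pos hb] at e2
            rw [if_pos hb, mem_singleton]
            exact Prod.ext e1 e2
          · rw [if_neg hb]
            exact M7_mem_half hd.2.1 hd.2.2.2.2.1
      · split_ifs
        · exact (card_singleton _).le
        · exact M7_half h _ _ (h.l1.card_le _) _
      · split_ifs
        · exact (card_singleton _).le
        · exact M7_half h _ _ (h.l2.card_le _) _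
  refine h3.trans ?_
  rw [mul_comm, mul_assoc (M.Δ ^ _)]
  exact Nat.mul_le_mul_right _ h1

end MD

end Pool.Agent.Work.MP_054302_co.Y
end

-- merged part: Pool.Agent.Work.MP_054302_co.Y.M8
section
namespace Pool.Agent.Work.MP_054302_co.Y

open Finset Function Pool.Agent.Work.MP_054302_co.X
open scoped Classical

namespace MD

variable {V : Type} [Fintype V] [DecidableEq V] {M : MD V}

lemma M8_prod (n Δ D1 D2 e m u : ℕ) (P Q : Prop) [Decidable P] [Decidable Q] (hm : 1 ≤ m)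
    (hu : e + 1 = u) (hle : m + (if P then 0 else 1) + (if Q then 0 else 1) ≤ u) :
    n * Δ ^ (m - 1) * (if P then D1 else 1) * (if Q then D2 else 1) *
      (Δ ^ (u - (m + (if P then 0 else 1) + (if Q then 0 else 1))) *
        (if P then 1 else D1 * Δ) * (if Q then 1 else D2 * Δ)) = n * Δ ^ e * D1 * D2 := by
  obtain ⟨k, rfl⟩ := Nat.exists_eq_add_of_le' hm
  obtain ⟨j, hj⟩ := Nat.exists_eq_add_of_le hle
  rw [hj, Nat.add_sub_cancel_left, Nat.add_sub_cancel]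
  by_cases hP : P <;> by_cases hQ : Q <;> simp only [hP, hQ, if_true, if_false] at hj ⊢
  · obtain rfl : e = k + j := by omega
    ring
  · obtain rfl : e = k + j + 1 := by omega
    ring
  · obtain rfl : e = k + j + 1 := by omega
    ring
  · obtain rfl : e = k + j + 2 := by omega
    ring

/-- `key_pigeon` with `card_keys`, `card_mult` (the product of the two bounds is
`n Δ^e D1 D2` by `card_fix`), then `wn_of_key`, `good_congr`, `pt_mem`, `good_of_out`, `wn_sep`. -/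
lemma heavy_of_class (h : M.Hyp) {s t : ℕ}
    (C : Finset ((Lb → V) × (((Lb → V) × V) × ((Lb → V) × V)))) (hC : C ⊆ M.Ob)
    (hne : C.Nonempty) (ho : ∀ ω ∈ C, M.Out ω s t) (thr : ℝ)
    (hthr : thr * (M.n * (M.Δ : ℝ) ^ M.e * M.D1 * M.D2) ≤ C.card) :
    Heavy M.d M.N M.r M.G M.H M.S M.B thr (M.a' s) (M.c' t) := by
  obtain ⟨ω0, hω0⟩ := hne
  obtain ⟨hs, hst, ht, -⟩ := ho ω0 hω0
  obtain ⟨S, hSU, -, hSc, hm, -⟩ := card_fix h hs hst ht
  have hU := (card_U h).2.2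
  have hle := card_le_card hSU
  have hprod := M8_prod M.n M.Δ M.D1 M.D2 M.e (M.Mid s t).card M.U.card (s = M.b) (t = M.b')
    hm hU (hSc ▸ hle)
  obtain ⟨ω, hω, hk⟩ := key_pigeon C (fun ω => M.key ω s t) (fun ω => M.pt ω s t) _ _ thr
    ⟨ω0, hω0⟩
    (le_trans (card_le_card fun x hx => by
      simp only [mem_image] at hx ⊢
      obtain ⟨y, hy, e⟩ := hx
      exact ⟨y, hC hy, e⟩) (card_keys h hs hst ht))
    (fun ω _ => le_trans (card_le_card fun x hx => by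
      simp only [mem_filter] at hx ⊢
      exact ⟨hC hx.1, hx.2⟩) (card_mult h hs hst ht ω))
    (by
      rw [← Nat.cast_mul, hprod]
      push_cast
      exact hthr)
  refine ⟨M.wn ω s t, wn_sep h (hC hω) hs hst ht, hk.trans (Nat.cast_le.2 (card_le_card ?_))⟩
  intro p hp
  simp only [mem_image, mem_filter] at hp
  obtain ⟨ω', hω', rfl⟩ := hp
  have hw := wn_of_key h hs hst ht hω'.2
  have hp' := pt_mem h (hC hω'.1) hs hst ht
  rw [mem_gpairs, ← hw _ (mem_Lab.2 (Or.inl rfl)), ← hw _ (mem_Lab.2 (Or.inr (Or.inl rfl)))]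
  exact ⟨hp'.1, hp'.2, good_congr hw (good_of_out h (hC hω'.1) (ho ω' hω'.1))⟩

/-- Merge step: pigeonhole the petals over the at most `N^2` outcomes in `Icc 1 N × Icc 1 N`. -/
theorem merge (h : M.Hyp) : ∃ s t, M.b ≤ s ∧ s ≤ t ∧ t ≤ M.b' ∧
    Heavy M.d M.N M.r M.G M.H M.S M.B (M.γ * M.θ ^ 2 / (64 * (M.N : ℝ) ^ 2) * (M.Δ : ℝ) ^ 2)
      (M.a' s) (M.c' t) := by
  have hp := card_pet h
  obtain ⟨hD1, hD2, hn, hγ⟩ := pos_D h
  have hθ := h.hθ.1
  have hN : 0 < M.N := lt_of_lt_of_le h.hb (h.hbb.trans h.hb')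
  have hΔ := h.hΔ
  generalize hP : (M.Ob.filter fun ω => IsPetal M.U0 M.Q (M.Fib ω) ω.1) = P at hp
  have hPO : ∀ ω ∈ P, ω ∈ M.Ob ∧ ∃ s t, M.Out ω s t := fun ω hω => by
    rw [← hP, mem_filter] at hω
    exact ⟨hω.1, out_of_pet h hω.1 hω.2⟩
  have hI : (Icc 1 M.N ×ˢ Icc 1 M.N).Nonempty :=
    ⟨(1, 1), mem_product.2 ⟨mem_Icc.2 ⟨le_rfl, hN⟩, mem_Icc.2 ⟨le_rfl, hN⟩⟩⟩
  obtain ⟨q, -, hq⟩ := (Icc 1 M.N ×ˢ Icc 1 M.N).exists_max_image
    (fun q => (P.filter fun ω => M.Out ω q.1 q.2).card) hI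
  have h1 : P ⊆ (Icc 1 M.N ×ˢ Icc 1 M.N).biUnion fun q => P.filter fun ω => M.Out ω q.1 q.2 := by
    intro ω hω
    obtain ⟨s, t, hst⟩ := (hPO ω hω).2
    have a1 := h.hb
    have a2 := h.hb'
    have a3 := hst.1
    have a4 := hst.2.1
    have a5 := hst.2.2.1
    exact mem_biUnion.2 ⟨(s, t), mem_product.2 ⟨mem_Icc.2 ⟨by omega, by omega⟩,
      mem_Icc.2 ⟨by omega, by omega⟩⟩, mem_filter.2 ⟨hω, hst⟩⟩
  have h2 := (card_le_card h1).trans (card_biUnion_le_card_mul _ _ _ hq)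
  rw [card_product, Nat.card_Icc, Nat.add_sub_cancel] at h2
  generalize hC : (P.filter fun ω => M.Out ω q.1 q.2) = C at h2
  have hCO : ∀ ω ∈ C, ω ∈ M.Ob ∧ M.Out ω q.1 q.2 := fun ω hω => by
    rw [← hC, mem_filter] at hω
    exact ⟨(hPO ω hω.1).1, hω.2⟩
  have h3 : (P.card : ℝ) ≤ M.N * M.N * C.card := by exact_mod_cast h2
  have hN' : (0 : ℝ) < M.N := Nat.cast_pos.2 hN
  have h4 : M.γ * M.θ ^ 2 / (64 * (M.N : ℝ) ^ 2) * (M.Δ : ℝ) ^ 2 *
      (M.n * (M.Δ : ℝ) ^ M.e * M.D1 * M.D2) ≤ C.card := by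
    refine le_of_mul_le_mul_left (le_trans (le_of_eq ?_) (hp.trans h3)) (mul_pos hN' hN')
    field_simp
    ring
  have hne : C.Nonempty := by
    have h5 : (0 : ℝ) < C.card := lt_of_lt_of_le (by positivity) h4
    exact card_pos.1 (Nat.cast_pos.1 h5)
  obtain ⟨ω, hω⟩ := hne
  have ho := (hCO ω hω).2
  exact ⟨q.1, q.2, ho.1, ho.2.1, ho.2.2.1, heavy_of_class h C (fun ω hω => (hCO ω hω).1) ⟨ω, hω⟩
    (fun ω hω => (hCO ω hω).2) _ h4⟩

end MD

end Pool.Agent.Work.MP_054302_co.Y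
end

-- merged part: Pool.Agent.Work.MP_054302_co.Y.Main
section
namespace Pool.Agent.Work.MP_054302_co.Y

open Finset Function Pool.Agent.Work.MP_054302_co.X
open scoped Classical

/-- Items: left end, right end, view, level. -/
def Itm (N : ℕ) : Finset (ℕ × ℕ × Bool × ℕ) :=
  (range (N + 2) ×ˢ range (N + 2) ×ˢ (univ : Finset Bool) ×ˢ range (N + 1)).filter
    fun i => i.1 < i.2.1

lemma mem_Itm {N : ℕ} {i : ℕ × ℕ × Bool × ℕ} :
    i ∈ Itm N ↔ i.1 < i.2.1 ∧ i.2.1 ≤ N + 1 ∧ i.2.2.2 ≤ N := by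
  simp only [Itm, mem_filter, mem_product, mem_range, mem_univ, true_and]
  omega

section

variable {V : Type} [Fintype V] [DecidableEq V]

/-- Union of the stored sets of level at least `k`. -/
def Sk (N : ℕ) (Sx : ℕ × ℕ × Bool × ℕ → V → Finset V) (k : ℕ) (y : V) : Finset V :=
  ((Itm N).filter fun i => k ≤ i.2.2.2).biUnion fun i => Sx i y

lemma Sk_anti {N : ℕ} {Sx : ℕ × ℕ × Bool × ℕ → V → Finset V} {k k' : ℕ} (h : k ≤ k') (y : V) :
    Sk N Sx k' y ⊆ Sk N Sx k y := by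
  intro x hx
  simp only [Sk, mem_biUnion, mem_filter] at hx ⊢
  obtain ⟨i, ⟨h1, h2⟩, h3⟩ := hx
  exact ⟨i, ⟨h1, h.trans h2⟩, h3⟩

lemma Sk_mono {N : ℕ} {S S' : ℕ × ℕ × Bool × ℕ → V → Finset V} (h : ∀ j y, S j y ⊆ S' j y)
    (k : ℕ) (y : V) : Sk N S k y ⊆ Sk N S' k y := by
  intro x hx
  simp only [Sk, mem_biUnion] at hx ⊢
  obtain ⟨i, h1, h3⟩ := hx
  exact ⟨i, h1, h i y h3⟩

lemma own_sub {N : ℕ} {Sx : ℕ × ℕ × Bool × ℕ → V → Finset V} {i : ℕ × ℕ × Bool × ℕ}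
    (hi : i ∈ Itm N) (y : V) : Sx i y ⊆ Sk N Sx i.2.2.2 y := by
  intro x hx
  simp only [Sk, mem_biUnion, mem_filter]
  exact ⟨i, ⟨hi, le_rfl⟩, hx⟩

lemma Sk_card {N v0 : ℕ} {Sx : ℕ × ℕ × Bool × ℕ → V → Finset V} {Dk : ℕ → ℕ} (hD : Antitone Dk)
    (h : ∀ i y, (Sx i y).card ≤ v0 * Dk i.2.2.2) (k : ℕ) (y : V) :
    (Sk N Sx k y).card ≤ (Itm N).card * (v0 * Dk k) := by
  refine (card_biUnion_le_card_mul _ _ (v0 * Dk k) ?_).trans ?_
  · intro i hi
    exact (h i y).trans (Nat.mul_le_mul_left _ (hD (mem_filter.1 hi).2))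
  · exact Nat.mul_le_mul_right _ (card_filter_le _ _)

/-- Admissibility for an item. -/
def iAdm (d N : ℕ) (r : ℕ → ℕ) (i : ℕ × ℕ × Bool × ℕ) (Sx : ℕ × ℕ × Bool × ℕ → V → Finset V) :
    V → (Lb → V) → Prop :=
  cond i.2.2.1 (admR d N r (Sk N Sx (i.2.2.2 + 1)) i.1 i.2.1)
    (admL d N r (Sk N Sx (i.2.2.2 + 1)) i.1 i.2.1)

/-- Support for an item. -/
def iSupp (d N : ℕ) (r : ℕ → ℕ) (i : ℕ × ℕ × Bool × ℕ) : (Lb → V) → Finset V :=
  cond i.2.2.1 (suppR d N r i.1 i.2.1) (suppL d N r i.1 i.2.1)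

/-- Weight for an item. -/
noncomputable def iWt (d N : ℕ) (r : ℕ → ℕ) (G : SimpleGraph V) (Bk : ℕ → ℕ)
    (i : ℕ × ℕ × Bool × ℕ) (H : Finset (V × V)) : (Lb → V) → V → ℕ :=
  cond i.2.2.1 (wtR d N r G H (Bk i.2.2.2) i.1 i.2.1) (wtL d N r G H (Bk i.2.2.2) i.1 i.2.1)

/-- Orientation for an item. -/
def iOr (d : ℕ) (i : ℕ × ℕ × Bool × ℕ) : ℕ := cond i.2.2.1 (i.2.1 * (d + 2)) (i.1 * (d + 2))

/-- The homogeneity lemma for the items of the tree. -/
lemma homog_items (d N : ℕ) (r : ℕ → ℕ) {G : SimpleGraph V} {Δ : ℕ} (hΔ : 0 < Δ)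
    (hdeg : ∀ v, (nbr G v).card ≤ Δ) (κ β th : ℕ → ℝ) (Dk Bk : ℕ → ℕ) (hD : Antitone Dk)
    (hth : ∀ k, 0 < th k) (h2 : ∀ k ≤ N, 2 ≤ th k * Dk k)
    (hκ : ∀ t, 0 < κ t ∧ 0 < β t ∧ κ (t + 1) ≤ β t * κ t / 2)
    {H0 : Finset (V × V)} {X0 Y0 : Finset V} (h0 : Host G H0 X0 Y0 (κ 0 * Δ)) :
    ∃ t ≤ (Itm N).card, ∃ (H : Finset (V × V)) (Xs Ys : Finset V), H ⊆ H0 ∧ Xs ⊆ X0 ∧ Ys ⊆ Y0 ∧
      Host G H Xs Ys (κ t * Δ) ∧ ∃ S : ℕ → V → Finset V, (∀ k k' y, k ≤ k' → S k' y ⊆ S k y) ∧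
      (∀ k y, (S k y).card ≤ (Itm N).card * (((VT d N r).card + 2) * Dk k)) ∧
      ∀ a b k, a < b → b ≤ N + 1 → k ≤ N →
        Heavy d N r G H (S k) (Bk k) (th k * (Δ : ℝ) ^ 2) a b →
        (∃ Ls, Lists (Hi d H b) Δ (th k) (Dk k) (β t) (admR d N r (S (k + 1)) a b)
          (suppR d N r a b) (wtR d N r G H (Bk k) a b) Ls) ∧
        ∃ Ls, Lists (Hi d H a) Δ (th k) (Dk k) (β t) (admL d N r (S (k + 1)) a b)
          (suppL d N r a b) (wtL d N r G H (Bk k) a b) Ls := by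
  obtain ⟨t, ht, H, Xs, Ys, hH0, hX, hY, hH, Sx, hSx, hd⟩ := homog (σ := Lb → V) hΔ hdeg (Itm N)
    (iOr d) (fun i => th i.2.2.2) (fun i => Dk i.2.2.2) ((VT d N r).card + 2) (iSupp d N r) (iAdm d N r)
    (iWt d N r G Bk) κ β (fun i hi => ⟨hth _, h2 _ (mem_Itm.1 hi).2.2⟩)
    (by
      rintro ⟨a, b, v, k⟩ hi S y s -
      have := supp_card (N := N) (d := d) (r := r) (mem_Itm.1 hi).1 s
      cases v
      · exact this.2.2
      · exact ⟨this.1, this.2.1⟩)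
    (by
      rintro ⟨a, b, v, k⟩ hi S S' hS y s h
      cases v
      · exact ⟨h.1, psep_mono (Sk_mono hS _) h.2⟩
      · exact ⟨h.1, psep_mono (Sk_mono hS _) h.2⟩)
    (by
      rintro ⟨a, b, v, k⟩ hi H hH s x
      cases v
      · exact (wt_le hdeg hH _ _ _ _ _).2
      · exact (wt_le hdeg hH _ _ _ _ _).1)
    (by
      rintro ⟨a, b, v, k⟩ hi H H' hH s x
      cases v
      · exact (wt_mono hH _ _ _ _ _).2
      · exact (wt_mono hH _ _ _ _ _).1)
    hκ h0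
  refine ⟨t, ht, H, Xs, Ys, hH0, hX, hY, hH, Sk N Sx, fun k k' y h => Sk_anti h y,
    Sk_card hD hSx, ?_⟩
  intro a b k hab hb hk hv
  constructor
  · have hi : (a, b, true, k) ∈ Itm N := mem_Itm.2 ⟨hab, hb, hk⟩
    rcases hd _ hi with h | h
    · exact absurd h (not_lt_R (Sk_anti (Nat.le_succ k)) (own_sub hi) hv)
    · exact h
  · have hi : (a, b, false, k) ∈ Itm N := mem_Itm.2 ⟨hab, hb, hk⟩
    rcases hd _ hi with h | h
    · exact absurd h (not_lt_L (Sk_anti (Nat.le_succ k)) (own_sub hi) hv)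
    · exact h

end

theorem full_of_regular (d N : ℕ) (r : ℕ → ℕ) (α : ℝ) (hN : 1 ≤ N) (hα : 0 < α)
    (hs : Slack d N r α) (B : ℕ) (κ0 : ℝ) (h0 : 0 < κ0) (h1 : κ0 ≤ 1) :
    ∃ (C : ℝ) (D0 : ℕ), 0 < C ∧ ∀ (V : Type) [Fintype V] [DecidableEq V] (G : SimpleGraph V)
      (Δ : ℕ) (V' : Finset V) (H0 : Finset (V × V)), (∀ v, (nbr G v).card ≤ Δ) →
      Host G H0 V' V' (κ0 * Δ) → D0 ≤ Δ → C * (V'.card : ℝ) ^ α ≤ Δ → Full d N r G B := by
  obtain ⟨u, hu⟩ : ∃ u, u = (VT d N r).card := ⟨_, rfl⟩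
  obtain ⟨Mi, hMi⟩ : ∃ Mi, Mi = (Itm N).card := ⟨_, rfl⟩
  have h0' : 0 < κ0 / (4 * ((u : ℝ) + 1)) := by positivity
  have h1' : κ0 / (4 * ((u : ℝ) + 1)) ≤ 1 := by
    have : (0 : ℝ) ≤ u := Nat.cast_nonneg u
    rw [div_le_one (by positivity)]
    linarith
  obtain ⟨κ, β, th, Dk, hκ0, hκ, hκa, hth0, hth, htha, hths, hDa, hD2, hDX⟩ :=
    params N u Mi (κ0 / (4 * ((u : ℝ) + 1))) h0' h1' hN
  have hu1 : 1 ≤ u := by
    have := card_VT (d := d) (r := r) hN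
    omega
  have huR : (0 : ℝ) < u := by exact_mod_cast hu1
  have hγ : 0 < κ Mi ^ (u + 1) := pow_pos (hκ Mi).1 _
  obtain ⟨θi, hθi⟩ : ∃ θi : ℝ, θi = κ Mi ^ (u + 1) / (20 * (((d : ℝ) + 3) * (u : ℝ) ^ (d + 3))) :=
    ⟨_, rfl⟩
  have hθi0 : 0 < θi := by rw [hθi]; positivity
  obtain ⟨Qs, D0, hQs, hterm⟩ := tl u (B + 2 * u) (d + 2) (by omega) κ0 θi h0 h1 hθi0
  obtain ⟨Q, hQ0, hQ1⟩ : ∃ Q, Qs (d + 2) < Q ∧ B + N * u < Q :=
    ⟨Qs (d + 2) + (B + N * u + 1), by omega, by omega⟩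
  obtain ⟨s, hsdef⟩ : ∃ s, s = Mi * ((u + 2) * Dk 0) := ⟨_, rfl⟩
  obtain ⟨K, hK⟩ : ∃ K : ℝ, K = (sunC u Q : ℝ) * 64 / (κ Mi ^ (u + 1) * th N ^ 2) := ⟨_, rfl⟩
  have hthN := hth N
  have hK0 : 0 ≤ K := by rw [hK]; positivity
  obtain ⟨D1, hD1⟩ := exists_nat_ge
    (20 * (u : ℝ) ^ 2 * ((1 + s) * (1 + (Dk 0 + Dk 0) * (u + 2)) : ℕ) / κ Mi ^ (u + 1))
  obtain ⟨D2, hD2'⟩ := exists_nat_ge ((2 * (s : ℝ) + 2) / κ Mi)
  refine ⟨1 + K * 2 ^ u, D0 + D1 + D2 + 1, by positivity, ?_⟩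
  intro V _ _ G Δ V' H0 hdeg hH0 hΔ hC
  by_contra hF
  have hΔ0 : 0 < Δ := by omega
  have hΔR : (0 : ℝ) < Δ := by exact_mod_cast hΔ0
  obtain ⟨H1, X1, Y1, hX1, hY1, hH1, hpath⟩ := hterm V G Δ H0 V' V' hdeg hH0 (by omega)
    fun hc => hF (full_of_sweep hN (by rw [← hu]; exact hc))
  obtain ⟨t, ht, H, Xs, Ys, hHH, hX, hY, hH, S, hSa, hSc, hL⟩ := homog_items d N r hΔ0 hdeg κ β
    th Dk (fun k => B + (N - k) * u) hDa hth hD2
    (fun t => ⟨(hκ t).1, (hκ t).2.2.1, (hκ t).2.2.2.1⟩) (by rw [hκ0]; exact hH1)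
  replace hX := hX.trans hX1
  replace hY := hY.trans hY1
  rw [← hMi] at ht hSc
  rw [← hu] at hSc
  have hκt : κ Mi ≤ κ t := hκa ht
  have hγt : κ Mi ^ (u + 1) ≤ κ t ^ (u + 1) := pow_le_pow_left₀ (hκ Mi).1.le hκt _
  obtain ⟨p0, hp0⟩ := hH0.ne
  have hV' : 1 ≤ V'.card := card_pos.2 ⟨p0.1, (hH0.sub p0 hp0).2.1⟩
  have hD1Δ : (D1 : ℝ) ≤ Δ := by exact_mod_cast (by omega : D1 ≤ Δ)
  have hD2Δ : (D2 : ℝ) ≤ Δ := by exact_mod_cast (by omega : D2 ≤ Δ)
  have hbase : ∀ a, Nn d N r a (a + 1) = ∅ →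
      Heavy d N r G H (S 0) (B + (N - 0) * u) (th 0 * (Δ : ℝ) ^ 2) a (a + 1) := by
    intro a ha
    refine heavy_base hdeg hH (mul_pos (hκ t).1 hΔR).le (S 0) s (by rw [hsdef]; exact hSc 0) ?_
      _ a ha ?_
    · have h3 : 2 * (s : ℝ) + 2 ≤ Δ * κ Mi := (div_le_iff₀ (hκ Mi).1).1 (hD2'.trans hD2Δ)
      nlinarith
    · rw [mul_pow]
      exact mul_le_mul_of_nonneg_right
        (hth0.trans (pow_le_pow_left₀ (hκ Mi).1.le hκt _)) (by positivity)
  have hfin := merge_ind N hN (fun a b k => ∃ k', k' ≤ k ∧ k' ≤ N ∧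
      Heavy d N r G H (S k') (B + (N - k') * u) (th k' * (Δ : ℝ) ^ 2) a b)
    (fun a b k k' hk ⟨j, h1, h2⟩ => ⟨j, h1.trans hk, h2⟩) ?_
    ⟨0, le_rfl, Nat.zero_le _, hbase 0 nn_first⟩ ⟨0, le_rfl, Nat.zero_le _, hbase N nn_last⟩
  · obtain ⟨k, -, -, hk⟩ := hfin
    exact hF (full_of_heavy (mul_pos (hth k) (by positivity)) (Nat.le_add_right _ _) hk)
  rintro a b b' c k hab hb hbb hb' hbc hc hk ⟨k1, hk1, hk1N, hv1⟩ ⟨k2, hk2, hk2N, hv2⟩
  obtain ⟨L1, hL1⟩ := (hL a b k1 hab (by omega) hk1N hv1).1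
  obtain ⟨L2, hL2⟩ := (hL b' c k2 hbc hc hk2N hv2).2
  have hBk : ∀ j, j ≤ k → B + (N - (k + 1)) * u + u ≤ B + (N - j) * u := by
    intro j hj
    have : (N - (k + 1) + 1) * u ≤ (N - j) * u := Nat.mul_le_mul_right _ (by omega)
    rw [add_mul, one_mul] at this
    omega
  have hXk : ∀ j, j ≤ k → 16 * ((u : ℝ) * (Mi * ((u + 2) * Dk (k + 1)) : ℕ) +
      (u + 2) * (1 + (Mi * ((u + 2) * Dk (k + 1)) : ℕ))) ≤ th k ^ 2 * Dk j := by
    intro j hj
    refine (hDX k hk).trans (mul_le_mul_of_nonneg_left ?_ (by positivity))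
    exact_mod_cast hDa hj
  let M : MD V := ⟨d, N, r, G, Δ, H, Xs, Ys, S (k + 1), a, b, b', c, B + (N - (k + 1)) * u,
    B + (N - k1) * u, B + (N - k2) * u, Q, Qs, Dk k1, Dk k2, Mi * ((u + 2) * Dk (k + 1)), th k,
    th k1, th k2, κ t, β t, θi, L1, L2, p0.1⟩
  have hMu : M.u = u := hu.symm
  have hMγ : M.γ = κ t ^ (u + 1) := by
    show κ t ^ (M.u + 1) = _
    rw [hMu]
  have hM : M.Hyp := by
    refine ⟨hab, hb, hbb, hb', hbc, hc, hΔ0, hdeg, ⟨(hκ t).1, (hκ t).2.1⟩, hH, hSc (k + 1),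
      ⟨hth k, htha hk1, htha hk2⟩, ?_, ?_, ?_, ?_, ?_,
      hpath H Xs Ys p0.1 hHH fun e he => (hH.sub e he).2, ?_, ?_, ?_, ?_, ?_,
      fun j hj => (hQs hj).trans_lt hQ0, ?_⟩
    · rw [hMu]; exact hBk k1 hk1
    · rw [hMu]; exact hBk k2 hk2
    · exact lists_mono (fun y w h => ⟨h.1, psep_mono (fun y => hSa _ _ y (by omega)) h.2⟩) hL1
    · exact lists_mono (fun y w h => ⟨h.1, psep_mono (fun y => hSa _ _ y (by omega)) h.2⟩) hL2
    · rw [hMγ]; exact (hκ t).2.2.2.2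
    · rw [hMu, hMγ]
      show ((d : ℝ) + 3) * (u : ℝ) ^ (d + 3) * θi ≤ _
      have : ((d : ℝ) + 3) * (u : ℝ) ^ (d + 3) * θi = κ Mi ^ (u + 1) / 20 := by
        rw [hθi]; field_simp
      rw [this]
      linarith
    · rw [hMu, hMγ]
      have h3 : M.s0 ≤ (1 + s) * (1 + (Dk 0 + Dk 0) * (u + 2)) := by
        show (1 + Mi * ((u + 2) * Dk (k + 1))) * (1 + (Dk k1 + Dk k2) * (M.u + 2)) ≤ _
        rw [hMu, hsdef]
        have e1 := hDa (Nat.zero_le (k + 1))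
        have e2 := hDa (Nat.zero_le k1)
        have e3 := hDa (Nat.zero_le k2)
        gcongr
      have h4 : (M.s0 : ℝ) ≤ ((1 + s) * (1 + (Dk 0 + Dk 0) * (u + 2)) : ℕ) := by exact_mod_cast h3
      have h5 := (div_le_iff₀ hγ).1 (hD1.trans hD1Δ)
      have h6 : (u : ℝ) ^ 2 * M.s0 ≤
          (u : ℝ) ^ 2 * ((1 + s) * (1 + (Dk 0 + Dk 0) * (u + 2)) : ℕ) := by gcongr
      have h7 : (Δ : ℝ) * κ Mi ^ (u + 1) ≤ Δ * κ t ^ (u + 1) := by gcongr
      show _ ≤ _ * (Δ : ℝ)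
      linarith
    · rw [hMu]; exact hXk k1 hk1
    · rw [hMu]; exact hXk k2 hk2
    · show B + (N - (k + 1)) * u < Q
      have : (N - (k + 1)) * u ≤ N * u := Nat.mul_le_mul_right _ (by omega)
      omega
    · rw [hMu, hMγ]
      have c1 := card_seg (d := d) (r := r) hb hbb hb'
      have c2 := card_seg_root (d := d) (r := r) hb hbb hb'
      have c3 : (Seg d N r (2 * b) (2 * b')).card ≤ u := by
        rw [hu]; exact card_filter_le _ _
      have c4 : ((Seg d N r (2 * b) (2 * b')).filter fun v => isRoot v = true).card ≤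
          (Seg d N r (2 * b) (2 * b')).card := card_filter_le _ _
      have hUR : M.UR.card = (b' + 1 - b) + ∑ i ∈ Icc b b', r i := c2
      have he : M.e = (b' + 1 - b) + (d + 2) * ((b' - b) + ∑ i ∈ Icc b b', r i) := by
        show (Seg d N r (2 * b) (2 * b')).card - 1 = _
        omega
      have he1 : M.e + 1 = (Seg d N r (2 * b) (2 * b')).card := by omega
      have hsl := hs b b' hb hbb hb'
      have h3 : K * (M.n : ℝ) ^ (M.UR.card - 1) ≤ (Δ : ℝ) ^ M.e := by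
        refine slack_pow (u := u) (m := V'.card) hα (by omega) (by omega) ?_ hV' ?_ hK0 ?_ ?_ hC
        · have e1 : ((M.UR.card - 1 : ℕ) : ℝ) =
              ((b' + 1 - b : ℕ) : ℝ) + (∑ i ∈ Icc b b', r i : ℕ) - 1 := by
            rw [Nat.cast_sub (by omega), hUR]; push_cast; ring
          have e2 : (M.e : ℝ) = ((b' + 1 - b : ℕ) : ℝ) +
              ((d : ℝ) + 2) * (((b' + 1 - b : ℕ) : ℝ) - 1 + (∑ i ∈ Icc b b', r i : ℕ)) := by
            have e3 : b' + 1 - b = (b' - b) + 1 := by omega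
            rw [he, e3]
            generalize b' - b = x
            generalize ∑ i ∈ Icc b b', r i = y
            push_cast
            ring
          rw [e1, e2]; exact hsl
        · show Xs.card + Ys.card ≤ _
          have := card_le_card hX
          have := card_le_card hY
          omega
        · have : 0 ≤ K * 2 ^ u := by positivity
          linarith
        · linarith
      have h4 : (sunC u Q : ℝ) = κ Mi ^ (u + 1) * th N ^ 2 / 64 * K := by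
        rw [hK]; field_simp
      have h5 : th N ^ 2 ≤ th k ^ 2 := pow_le_pow_left₀ hthN.le (htha hk.le) _
      show (sunC u Q : ℝ) * _ ≤ κ t ^ (u + 1) * th k ^ 2 / 64 * (Δ : ℝ) ^ M.e
      rw [h4, mul_assoc]
      have := (hκ t).1
      gcongr
  obtain ⟨s', t', g1, g2, g3, g4⟩ := MD.merge hM
  refine ⟨s', t', g1, g2, g3, k + 1, le_rfl, hk, heavy_mono ?_ g4⟩
  rw [hMγ]
  show _ ≤ κ t ^ (u + 1) * th k ^ 2 / (64 * (N : ℝ) ^ 2) * (Δ : ℝ) ^ 2
  refine mul_le_mul_of_nonneg_right ((hths k).trans ?_) (by positivity)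
  gcongr

end Pool.Agent.Work.MP_054302_co.Y
end
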