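import Pool.Agent.Work.MP_054302_co.Y.Sw2
import Pool.Agent.Work.MP_054302_co.Y.Main
import Pool.Prelude.Def_F_a394211a

-- merged part: Pool.Agent.Work.MP_054302_co.X.Regular
section
namespace Pool.Agent.Work.MP_054302_co.X

open Finset Function
open scoped Classical

/-- A subset of prescribed size carrying at least its share of the weight (remove minimal
elements one at a time, or average over `powersetCard`). -/
lemma exists_heavy_subset {V : Type} [DecidableEq V] (S : Finset V) (w : V → ℝ) (j : ℕ)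
    (hj : j ≤ S.card) : ∃ T : Finset V, T ⊆ S ∧ T.card = j ∧
      (j : ℝ) * ∑ x ∈ S, w x ≤ S.card * ∑ x ∈ T, w x := by
  obtain ⟨k, hk⟩ := Nat.exists_eq_add_of_le hj
  clear hj
  induction k generalizing S with
  | zero => exact ⟨S, subset_rfl, by simpa using hk, by rw [hk]; simp⟩
  | succ k ih =>
    obtain ⟨x, hx, hmin⟩ := exists_min_image S w (card_pos.1 (by omega))
    have h1 : (S.erase x).card + 1 = S.card := card_erase_add_one hx
    obtain ⟨T, hT, hc, hw⟩ := ih (S.erase x) (by omega)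
    refine ⟨T, hT.trans (erase_subset _ _), hc, ?_⟩
    have h2 : w x + ∑ y ∈ S.erase x, w y = ∑ y ∈ S, w y := add_sum_erase S w hx
    have h3 : S.card • w x ≤ ∑ y ∈ S, w y := card_nsmul_le_sum _ _ _ hmin
    rw [nsmul_eq_mul] at h3
    have h4 : (S.card : ℝ) = (S.erase x).card + 1 := by exact_mod_cast h1.symm
    rcases Nat.eq_zero_or_pos j with h0 | h0
    · subst h0
      rw [card_eq_zero.1 hc]
      simp
    have h5 : (0 : ℝ) < (S.erase x).card := by exact_mod_cast (by omega : 0 < (S.erase x).card)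
    have h6 : (0 : ℝ) ≤ j := Nat.cast_nonneg _
    rw [h4] at h3 ⊢
    refine le_of_mul_le_mul_left ?_ h5
    have h7 : ((S.erase x).card : ℝ) * ∑ y ∈ S, w y ≤
        (((S.erase x).card : ℝ) + 1) * ∑ y ∈ S.erase x, w y := by
      rw [← h2] at h3 ⊢
      linarith
    have h8 := mul_le_mul_of_nonneg_left h7 h6
    have h9 := mul_le_mul_of_nonneg_left hw (by positivity : (0 : ℝ) ≤ (S.erase x).card + 1)
    linarith

/-- Number of ordered adjacent pairs inside a set. -/
noncomputable def Regular_E {V : Type} (G : SimpleGraph V) (S : Finset V) : ℕ :=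
  ((S ×ˢ S).filter fun p => G.Adj p.1 p.2).card

lemma Regular_pairs {V : Type} (G : SimpleGraph V) (A B : Finset V) :
    ((A ×ˢ B).filter fun p => G.Adj p.1 p.2).card =
      ∑ x ∈ A, (B.filter fun y => G.Adj x y).card := by
  simp only [card_filter]
  rw [sum_product]

lemma Regular_edges {V : Type} [Fintype V] [DecidableEq V] (G : SimpleGraph V) :
    G.edgeSet.ncard ≤ Regular_E G univ := by
  have h : G.edgeSet ⊆ ((((univ : Finset V) ×ˢ (univ : Finset V)).filter
      fun p => G.Adj p.1 p.2).image fun p => s(p.1, p.2) : Finset (Sym2 V)) := by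
    intro e he
    induction e using Sym2.ind with
    | _ a b =>
      exact mem_coe.2 (mem_image.2 ⟨(a, b), mem_filter.2 ⟨by simp, he⟩, rfl⟩)
  refine (Set.ncard_le_ncard h (Finset.finite_toSet _)).trans ?_
  rw [Set.ncard_coe_finset]
  exact card_image_le

lemma Regular_split {V : Type} [DecidableEq V] (G : SimpleGraph V) (S B : Finset V) :
    Regular_E G S ≤ Regular_E G (S \ B) + 2 * ∑ x ∈ S, (B.filter fun y => G.Adj x y).card := by
  rw [← Regular_pairs]
  have h : ((S ×ˢ S).filter fun p => G.Adj p.1 p.2) ⊆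
      (((S \ B) ×ˢ (S \ B)).filter fun p => G.Adj p.1 p.2) ∪
        (((S ×ˢ B).filter fun p => G.Adj p.1 p.2) ∪
          ((S ×ˢ B).filter fun p => G.Adj p.1 p.2).image Prod.swap) := by
    rintro ⟨u, v⟩ hp
    obtain ⟨hp, hr⟩ := mem_filter.1 hp
    obtain ⟨hu, hv⟩ := mem_product.1 hp
    by_cases e : v ∈ B
    · exact mem_union_right _ (mem_union_left _ (mem_filter.2 ⟨mem_product.2 ⟨hu, e⟩, hr⟩))
    by_cases e' : u ∈ B
    · exact mem_union_right _ (mem_union_right _ (mem_image.2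
        ⟨(v, u), mem_filter.2 ⟨mem_product.2 ⟨hv, e'⟩, hr.symm⟩, rfl⟩))
    exact mem_union_left _
      (mem_filter.2 ⟨mem_product.2 ⟨mem_sdiff.2 ⟨hu, e'⟩, mem_sdiff.2 ⟨hv, e⟩⟩, hr⟩)
  have h2 := (card_le_card h).trans ((card_union_le _ _).trans (Nat.add_le_add_left
      ((card_union_le _ _).trans (Nat.add_le_add_left card_image_le _)) _))
  unfold Regular_E
  omega

lemma Regular_low {V : Type} [DecidableEq V] (G : SimpleGraph V) (T B : Finset V) :
    ∑ x ∈ T, (B.filter fun y => G.Adj x y).card ≤ Regular_E G (T ∪ B) := by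
  rw [← Regular_pairs]
  exact card_le_card (filter_subset_filter _
    (product_subset_product subset_union_left subset_union_right))

/-- Few pairs meet the vertices of large degree in a set of maximal density. -/
lemma Regular_half {V : Type} [DecidableEq V] (G : SimpleGraph V) (S B : Finset V) {α t : ℝ}
    (h0 : 0 < α) (ht : 2 ≤ t) (htα : (2 / t) ^ α = 1 / 16) (hm : t ≤ S.card)
    (hB : (B.card : ℝ) ≤ S.card / (2 * t))
    (hmax : ∀ T : Finset V, T.Nonempty → (Regular_E G T : ℝ) / (T.card : ℝ) ^ (1 + α) ≤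
      (Regular_E G S : ℝ) / (S.card : ℝ) ^ (1 + α)) :
    (Regular_E G S : ℝ) / 2 ≤ Regular_E G (S \ B) := by
  by_contra hc
  push Not at hc
  have ht0 : 0 < t := by linarith
  have hm0 : (0 : ℝ) < S.card := by linarith
  have hq0 : (0 : ℝ) < S.card / (2 * t) := by positivity
  have hj : ⌈(S.card : ℝ) / (2 * t)⌉₊ ≤ S.card :=
    Nat.ceil_le.2 (div_le_self hm0.le (by linarith))
  obtain ⟨T, -, hTc, hw⟩ := exists_heavy_subset S
    (fun x => ((B.filter fun y => G.Adj x y).card : ℝ)) _ hj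
  have a1 : (Regular_E G S : ℝ) ≤ Regular_E G (S \ B) +
      2 * ∑ x ∈ S, ((B.filter fun y => G.Adj x y).card : ℝ) := by
    exact_mod_cast Regular_split G S B
  have a2 : ∑ x ∈ T, ((B.filter fun y => G.Adj x y).card : ℝ) ≤ Regular_E G (T ∪ B) := by
    exact_mod_cast Regular_low G T B
  set W := ∑ x ∈ S, ((B.filter fun y => G.Adj x y).card : ℝ) with hW
  have hW0 : 0 ≤ W := sum_nonneg fun _ _ => Nat.cast_nonneg _
  have a3 : (S.card : ℝ) / (2 * t) ≤ ⌈(S.card : ℝ) / (2 * t)⌉₊ := Nat.le_ceil _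
  have a4 : (⌈(S.card : ℝ) / (2 * t)⌉₊ : ℝ) < S.card / (2 * t) + 1 := Nat.ceil_lt_add_one hq0.le
  have a5 : W / (2 * t) ≤ Regular_E G (T ∪ B) := by
    refine le_of_mul_le_mul_left ?_ hm0
    have b1 := mul_le_mul_of_nonneg_right a3 hW0
    have b2 := mul_le_mul_of_nonneg_left a2 hm0.le
    have b3 : (S.card : ℝ) * (W / (2 * t)) = S.card / (2 * t) * W := by ring
    linarith
  have hT : (T ∪ B).Nonempty := by
    refine Nonempty.mono subset_union_left (card_pos.1 ?_)
    rw [hTc]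
    exact Nat.ceil_pos.2 hq0
  have a6 : ((T ∪ B).card : ℝ) ≤ 2 / t * S.card := by
    have b1 : ((T ∪ B).card : ℝ) ≤ T.card + B.card := by exact_mod_cast card_union_le _ _
    rw [hTc] at b1
    have b2 : (1 : ℝ) ≤ S.card / t := (one_le_div ht0).2 hm
    have b3 : (S.card : ℝ) / t = 2 * (S.card / (2 * t)) := by field_simp
    have b4 : 2 / t * (S.card : ℝ) = 4 * (S.card / (2 * t)) := by field_simp; ring
    linarith
  have hT0 : (0 : ℝ) < (T ∪ B).card := by exact_mod_cast card_pos.2 hT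
  have a7 : ((T ∪ B).card : ℝ) ^ (1 + α) ≤ 1 / (8 * t) * (S.card : ℝ) ^ (1 + α) := by
    refine (Real.rpow_le_rpow hT0.le a6 (by linarith)).trans_eq ?_
    rw [Real.mul_rpow (by positivity) hm0.le, Real.rpow_add (by positivity), Real.rpow_one, htα]
    field_simp
    ring
  have a8 := hmax _ hT
  rw [div_le_div_iff₀ (by positivity) (by positivity)] at a8
  have a9 := mul_le_mul_of_nonneg_left a7 (Nat.cast_nonneg (Regular_E G S) : (0 : ℝ) ≤ _)
  have a10 : (Regular_E G (T ∪ B) : ℝ) ≤ Regular_E G S * (1 / (8 * t)) := by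
    refine le_of_mul_le_mul_right ?_ (by positivity : (0 : ℝ) < (S.card : ℝ) ^ (1 + α))
    linarith
  have a11 : W / (2 * t) ≤ Regular_E G S * (1 / (8 * t)) := a5.trans a10
  rw [div_le_iff₀ (by positivity)] at a11
  have a12 : (Regular_E G S : ℝ) * (1 / (8 * t)) * (2 * t) = Regular_E G S / 4 := by
    field_simp
    ring
  linarith

/-- Regularisation (Erdos and Simonovits). Let `E S` be the number of ordered adjacent pairs in
`S`; choose a nonempty `S` maximising `E S / card S ^ (1+α)`, `m = card S`, `d = E S / m`, an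
integer `t ≥ 2` with `t^α > 64`, `C0 = 2 t` (so `m ≥ 2 t` since `E S ≤ m^2`). The set `Bg` of
vertices of degree `> 2 t d` in `S` has at most `m / (2t)` members. If more than half of the pairs
met `Bg`, then `Bg` together with a subset of `S` of size `⌈m / (2t)⌉` given by
`exists_heavy_subset` (weight = number of neighbours in `Bg`) would beat `S`. Then apply
`clean_sym` to `S \ Bg` with `lam = d / 4`, let `G'` be `G` restricted to the result,
`Δ = ⌊2 t d⌋₊`, `κ0 = 1 / (8 t)`. -/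
theorem regularise (α : ℝ) (h0 : 0 < α) (h1 : α ≤ 1) : ∃ κ0 : ℝ, 0 < κ0 ∧ κ0 ≤ 1 ∧
    ∃ C0 : ℝ, 0 < C0 ∧ ∀ C : ℝ, C0 ≤ C → ∀ (V : Type) [Fintype V] [DecidableEq V]
      (G : SimpleGraph V), 0 < Fintype.card V →
      C * (Fintype.card V : ℝ) ^ (1 + α) ≤ G.edgeSet.ncard →
      ∃ (G' : SimpleGraph V) (V' : Finset V) (Δ : ℕ), G' ≤ G ∧ V'.Nonempty ∧
        (∀ v, (nbr G' v).card ≤ Δ) ∧ (∀ u v, G'.Adj u v → u ∈ V') ∧
        (∀ v ∈ V', κ0 * Δ ≤ ((nbr G' v).card : ℝ)) ∧ C / 2 * (V'.card : ℝ) ^ α ≤ Δ := by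
  have _ := h1
  obtain ⟨t, ht, htα⟩ : ∃ t : ℝ, 2 ≤ t ∧ (2 / t) ^ α = 1 / 16 := by
    have b1 : (1 : ℝ) ≤ 16 ^ α⁻¹ := Real.one_le_rpow (by norm_num) (by positivity)
    refine ⟨2 * 16 ^ α⁻¹, by linarith, ?_⟩
    rw [show (2 : ℝ) / (2 * 16 ^ α⁻¹) = (16 ^ α⁻¹)⁻¹ by field_simp,
      Real.inv_rpow (by positivity), Real.rpow_inv_rpow (by norm_num) h0.ne', one_div]
  have ht0 : 0 < t := by linarith
  refine ⟨1 / (8 * t), by positivity, (div_le_one (by positivity)).2 (by linarith), t, ht0, ?_⟩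
  intro C hC V _ _ G hn hE
  have hu : (univ : Finset V).Nonempty := card_pos.1 (by rwa [card_univ])
  obtain ⟨S, hS, hmax⟩ := exists_max_image ((univ : Finset (Finset V)).filter Finset.Nonempty)
    (fun T => (Regular_E G T : ℝ) / (T.card : ℝ) ^ (1 + α)) ⟨univ, mem_filter.2 ⟨mem_univ _, hu⟩⟩
  have hmax' : ∀ T : Finset V, T.Nonempty → (Regular_E G T : ℝ) / (T.card : ℝ) ^ (1 + α) ≤
      (Regular_E G S : ℝ) / (S.card : ℝ) ^ (1 + α) := fun T hT =>
    hmax T (mem_filter.2 ⟨mem_univ _, hT⟩)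
  have hm1 : (1 : ℝ) ≤ S.card := by exact_mod_cast card_pos.2 (mem_filter.1 hS).2
  have hm0 : (0 : ℝ) < S.card := by linarith
  have hn0 : (0 : ℝ) < Fintype.card V := by exact_mod_cast hn
  have a1 : C * (S.card : ℝ) ^ (1 + α) ≤ Regular_E G S := by
    have b1 := hmax' univ hu
    rw [card_univ] at b1
    have b2 : (G.edgeSet.ncard : ℝ) ≤ Regular_E G univ := by exact_mod_cast Regular_edges G
    have b3 : C ≤ (Regular_E G univ : ℝ) / (Fintype.card V : ℝ) ^ (1 + α) :=
      (le_div_iff₀ (by positivity)).2 (hE.trans b2)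
    exact (le_div_iff₀ (by positivity)).1 (b3.trans b1)
  rw [Real.rpow_add hm0, Real.rpow_one] at a1
  have a2 : (1 : ℝ) ≤ (S.card : ℝ) ^ α := Real.one_le_rpow hm1 h0.le
  obtain ⟨d, hd⟩ : ∃ d : ℝ, (Regular_E G S : ℝ) = S.card * d :=
    ⟨Regular_E G S / S.card, by field_simp⟩
  have a3 : C * (S.card : ℝ) ^ α ≤ d := by
    refine le_of_mul_le_mul_left ?_ hm0
    linarith
  have hC0 : 0 < C := by linarith
  have a4 : C ≤ d := le_trans (le_mul_of_one_le_right hC0.le a2) a3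
  have hd0 : 0 < d := by linarith
  have a5 : d ≤ S.card := by
    have b1 : Regular_E G S ≤ S.card * S.card :=
      (card_filter_le _ _).trans_eq (card_product _ _)
    have b2 : (Regular_E G S : ℝ) ≤ S.card * S.card := by exact_mod_cast b1
    exact le_of_mul_le_mul_left (hd ▸ b2) hm0
  set B := S.filter fun x => 2 * t * d < ((S.filter fun y => G.Adj x y).card : ℝ) with hBdef
  have a6 : (B.card : ℝ) ≤ S.card / (2 * t) := by
    have b1 : B.card • (2 * t * d) ≤ ∑ x ∈ B, ((S.filter fun y => G.Adj x y).card : ℝ) :=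
      card_nsmul_le_sum _ _ _ fun x hx => (mem_filter.1 hx).2.le
    have b2 : ∑ x ∈ B, ((S.filter fun y => G.Adj x y).card : ℝ) ≤
        ∑ x ∈ S, ((S.filter fun y => G.Adj x y).card : ℝ) :=
      sum_le_sum_of_subset_of_nonneg (filter_subset _ _) fun _ _ _ => Nat.cast_nonneg _
    have b3 : (Regular_E G S : ℝ) = ∑ x ∈ S, ((S.filter fun y => G.Adj x y).card : ℝ) := by
      exact_mod_cast Regular_pairs G S S
    rw [nsmul_eq_mul] at b1
    rw [le_div_iff₀ (by positivity)]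
    refine le_of_mul_le_mul_right ?_ hd0
    linarith
  have a7 := Regular_half G S B h0 ht htα (by linarith) a6 hmax'
  have a8 : (S \ B).Nonempty := by
    have b1 : (0 : ℝ) < Regular_E G (S \ B) := lt_of_lt_of_le (by rw [hd]; positivity) a7
    obtain ⟨p, hp⟩ := card_pos.1 (show 0 < Regular_E G (S \ B) by exact_mod_cast b1)
    exact ⟨p.1, (mem_product.1 (mem_filter.1 hp).1).1⟩
  obtain ⟨U, hU, hUn, hdeg⟩ := clean_sym G.Adj (fun _ _ h => h.symm) (fun _ h => h.ne rfl)
    (S \ B) a8 (lam := d / 4) (by positivity) (by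
      have b1 : (((S \ B).card : ℕ) : ℝ) ≤ S.card := by exact_mod_cast card_le_card sdiff_subset
      have b2 := mul_le_mul_of_nonneg_left b1 hd0.le
      refine le_trans ?_ a7
      linarith)
  let G' : SimpleGraph V :=
    { Adj := fun u v => G.Adj u v ∧ u ∈ U ∧ v ∈ U
      symm := ⟨fun _ _ h => ⟨h.1.symm, h.2.2, h.2.1⟩⟩
      loopless := ⟨fun _ h => h.1.ne rfl⟩ }
  have hG : ∀ v w, w ∈ nbr G' v ↔ G.Adj v w ∧ v ∈ U ∧ w ∈ U := fun _ _ => mem_nbr
  have hfl : (⌊2 * t * d⌋₊ : ℝ) ≤ 2 * t * d := Nat.floor_le (by positivity)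
  refine ⟨G', U, ⌊2 * t * d⌋₊, fun _ _ h => h.1, hUn, fun v => ?_, fun _ _ h => h.2.1,
    fun v hv => ?_, ?_⟩
  · by_cases hv : v ∈ U
    · refine Nat.le_floor ?_
      obtain ⟨b1, b2⟩ := mem_sdiff.1 (hU hv)
      have b3 : ((S.filter fun y => G.Adj v y).card : ℝ) ≤ 2 * t * d :=
        not_lt.1 fun h => b2 (mem_filter.2 ⟨b1, h⟩)
      refine le_trans ?_ b3
      exact Nat.cast_le.2 (card_le_card fun w hw =>
        mem_filter.2 ⟨(mem_sdiff.1 (hU ((hG _ _).1 hw).2.2)).1, ((hG _ _).1 hw).1⟩)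
    · rw [card_eq_zero.2 (eq_empty_of_forall_notMem fun w hw => hv ((hG _ _).1 hw).2.1)]
      exact Nat.zero_le _
  · have b1 : 1 / (8 * t) * (⌊2 * t * d⌋₊ : ℝ) ≤ 1 / (8 * t) * (2 * t * d) :=
      mul_le_mul_of_nonneg_left hfl (by positivity)
    have b2 : 1 / (8 * t) * (2 * t * d) = d / 4 := by
      field_simp
      ring
    refine (b1.trans_eq b2).trans ((hdeg v hv).trans ?_)
    exact Nat.cast_le.2 (card_le_card fun w hw =>
      (hG _ _).2 ⟨(mem_filter.1 hw).2, hv, (mem_filter.1 hw).1⟩)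
  · have b1 : (U.card : ℝ) ≤ S.card := by
      exact_mod_cast card_le_card (hU.trans sdiff_subset)
    have b2 : (U.card : ℝ) ^ α ≤ (S.card : ℝ) ^ α :=
      Real.rpow_le_rpow (Nat.cast_nonneg _) b1 h0.le
    have b3 := mul_le_mul_of_nonneg_left b2 hC0.le
    have b4 : 2 * t * d < (⌊2 * t * d⌋₊ : ℝ) + 1 := Nat.lt_floor_add_one _
    have b5 := mul_le_mul_of_nonneg_right ht hd0.le
    linarith

end Pool.Agent.Work.MP_054302_co.X
end

-- merged part: Pool.Agent.Work.MP_054302_co.X.Word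
section
namespace Pool.Agent.Work.MP_054302_co.X

open Finset Function
open scoped Classical

lemma Word_tel {F : ℕ → ℕ} (hF : Monotone F) (b d : ℕ) :
    ∑ i ∈ Icc (b + 1) (b + d), (F i - F (i - 1)) + F b = F (b + d) := by
  induction d with
  | zero => simp
  | succ d ih =>
    rw [← add_assoc, sum_Icc_succ_top (by omega), Nat.add_sub_cancel]
    have := hF (Nat.le_succ (b + d))
    simp only [Nat.succ_eq_add_one] at this
    omega

/-- `r i = i (R-1) / N - (i-1) (R-1) / N + (if i = 1 then 1 else 0)` in natural division; the sums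
telescope. -/
lemma exists_word (N R : ℕ) (hN : 1 ≤ N) (hR : 1 ≤ R) : ∃ r : ℕ → ℕ,
    ∑ i ∈ Icc 1 N, r i = R ∧ ∀ b b', 1 ≤ b → b ≤ b' → b' ≤ N →
      N * ∑ i ∈ Icc b b', r i ≤ (R - 1) * (b' + 1 - b) + N := by
  have hF : Monotone fun i : ℕ => i * (R - 1) / N + if i = 0 then 0 else 1 := by
    intro i j h
    have h1 : i * (R - 1) / N ≤ j * (R - 1) / N :=
      Nat.div_le_div_right (Nat.mul_le_mul_right _ h)
    dsimp only
    split_ifs <;> omega
  obtain ⟨F, hM, h0, h1, h2, h3⟩ : ∃ F : ℕ → ℕ, Monotone F ∧ F 0 = 0 ∧ F N = R ∧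
      (∀ i, N * F i ≤ i * (R - 1) + N) ∧ ∀ i, i * (R - 1) ≤ N * F i := by
    refine ⟨_, hF, by simp, ?_, fun i => ?_, fun i => ?_⟩
    · rw [Nat.mul_div_cancel_left _ hN, if_neg (by omega)]
      omega
    · have := Nat.mul_div_le (i * (R - 1)) N
      rw [mul_add]
      split_ifs <;> omega
    · have := Nat.lt_mul_div_succ (i * (R - 1)) hN
      split_ifs with h
      · simp [h]
      · exact this.le
  refine ⟨fun i => F i - F (i - 1), ?_, fun b b' a1 a2 _ => ?_⟩
  · have := Word_tel hM 0 N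
    simp only [zero_add] at this ⊢
    omega
  · obtain ⟨c, rfl⟩ : ∃ c, b = c + 1 := ⟨b - 1, by omega⟩
    obtain ⟨d, rfl⟩ : ∃ d, b' = c + d := ⟨b' - c, by omega⟩
    have h4 := congrArg (N * ·) (Word_tel hM c d)
    have h5 := h2 (c + d)
    have h6 := h3 c
    simp only [mul_add, add_mul] at h4 h5
    rw [show c + d + 1 - (c + 1) = d by omega, mul_comm (R - 1) d]
    dsimp only
    omega

/-- With `N = 2 B - A`, `R = 2 A - 3 B + 1`, so `A = 3 N - 2 + 2 R`, `B = 2 N - 1 + R`: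
`(A - B)(3j - 2 + 2S) - A (j + S - 1) = N + (R-1) j - N S`. -/
lemma exists_slack (A B : ℕ) (h1 : 3 * B ≤ 2 * A) (h2 : A < 2 * B) : ∃ (N : ℕ) (r : ℕ → ℕ),
    1 ≤ N ∧ A + 2 = 3 * N + 2 * ∑ i ∈ Icc 1 N, r i ∧ B + 1 = 2 * N + ∑ i ∈ Icc 1 N, r i ∧
      Slack N r (1 - (B : ℝ) / A) := by
  obtain ⟨N, hN⟩ : ∃ N, 2 * B = A + N := ⟨2 * B - A, by omega⟩
  obtain ⟨R, hR⟩ : ∃ R, 2 * A + 1 = 3 * B + R := ⟨2 * A + 1 - 3 * B, by omega⟩
  obtain ⟨r, hr, hs⟩ := exists_word N R (by omega) (by omega)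
  refine ⟨N, r, by omega, by omega, by omega, fun b b' a1 a2 a3 => ?_⟩
  have h3 := hs b b' a1 a2 a3
  generalize ∑ i ∈ Icc b b', r i = S at h3 ⊢
  generalize b' + 1 - b = j at h3 ⊢
  obtain ⟨Q, rfl⟩ : ∃ Q, R = Q + 1 := ⟨R - 1, by omega⟩
  rw [Nat.add_sub_cancel] at h3
  have hA : (0 : ℝ) < A := Nat.cast_pos.2 (by omega)
  have e1 : (A : ℝ) = 3 * N + 2 * Q := by exact_mod_cast (by omega : A = 3 * N + 2 * Q)
  have e2 : (B : ℝ) = 2 * N + Q := by exact_mod_cast (by omega : B = 2 * N + Q)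
  have h4 : (N : ℝ) * S ≤ Q * j + N := by exact_mod_cast h3
  rw [one_sub_div hA.ne', div_mul_eq_mul_div, le_div_iff₀ hA, e1, e2]
  linarith

end Pool.Agent.Work.MP_054302_co.X
end

-- merged part: Pool.Agent.Work.MP_054302_co.Y.Word
section
namespace Pool.Agent.Work.MP_054302_co.Y

open Finset Function Pool.Agent.Work.MP_054302_co.X
open scoped Classical

/-- With `M = A - B`, `L = d + 2 = ⌈B / M⌉`, `N = A - L M`, `R = M + 1 - N`. -/
lemma exists_slack (A B : ℕ) (h1 : B < A) (h2 : A < 2 * B) : ∃ (d N : ℕ) (r : ℕ → ℕ),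
    1 ≤ N ∧ A = N + (d + 2) * ((N - 1) + ∑ i ∈ Icc 1 N, r i) ∧
      B = N + (d + 1) * ((N - 1) + ∑ i ∈ Icc 1 N, r i) ∧ Slack d N r (1 - (B : ℝ) / A) := by
  obtain ⟨M, rfl⟩ : ∃ M, A = B + M := ⟨A - B, by omega⟩
  have hM : 0 < M := by omega
  have c1 := Nat.div_mul_le_self (B - 1) M
  have c2 := Nat.lt_div_mul_add (a := B - 1) hM
  have c3 : 1 ≤ (B - 1) / M := (Nat.one_le_div_iff hM).2 (by omega)
  obtain ⟨d, hd⟩ : ∃ d, (B - 1) / M = d + 1 := ⟨(B - 1) / M - 1, by omega⟩
  rw [hd] at c1 c2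
  obtain ⟨N, hN⟩ : ∃ N, B = N + (d + 1) * M := ⟨B - (d + 1) * M, by omega⟩
  obtain ⟨Q, hQ⟩ : ∃ Q, M = N + Q := ⟨M - N, by omega⟩
  obtain ⟨r, hr, hs⟩ := exists_word N (Q + 1) (by omega) (by omega)
  have e0 : N - 1 + ∑ i ∈ Icc 1 N, r i = M := by omega
  have e3 : (d + 2) * M = (d + 1) * M + M := by ring
  refine ⟨d, N, r, by omega, by rw [e0]; omega, by rw [e0]; omega, fun b b' a1 a2 a3 => ?_⟩
  have h3 := hs b b' a1 a2 a3
  generalize ∑ i ∈ Icc b b', r i = S at h3 ⊢
  generalize b' + 1 - b = j at h3 ⊢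
  rw [Nat.add_sub_cancel] at h3
  have hA : (0 : ℝ) < (B + M : ℕ) := Nat.cast_pos.2 (by omega)
  have e1 : ((B + M : ℕ) : ℝ) = N + (d + 2) * (N + Q) := by
    have : B + M = N + (d + 2) * (N + Q) := by rw [← hQ]; omega
    exact_mod_cast this
  have e2 : (B : ℝ) = N + (d + 1) * (N + Q) := by
    have : B = N + (d + 1) * (N + Q) := by rw [← hQ]; omega
    exact_mod_cast this
  have h4 : (N : ℝ) * S ≤ Q * j + N := by exact_mod_cast h3
  rw [one_sub_div hA.ne', div_mul_eq_mul_div, le_div_iff₀ hA, e1, e2]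
  linarith

end Pool.Agent.Work.MP_054302_co.Y
end

-- merged part: Pool.Agent.Work.MP_054302_co.Y.Upper
section
namespace Pool.Agent.Work.MP_054302_co.Y

open Finset Function Pool.Agent.Work.MP_054302_co.X
open scoped Classical

/-- `regularise`, then `full_of_regular` for `G'` with the host of all ordered edges of `G'`,
then `tp_contained`. -/
theorem tree_upper (d N : ℕ) (r : ℕ → ℕ) (α : ℝ) (hN : 1 ≤ N) (hα : 0 < α) (hα1 : α ≤ 1)
    (hs : Slack d N r α) (p : ℕ) : Bnd (Tp d N r p) (1 - α) := by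
  obtain ⟨κ0, h0, h1, C0, hC0, hreg⟩ := regularise α hα hα1
  obtain ⟨C, D0, hC, hfull⟩ := full_of_regular d N r α hN hα hs ((p + 1) * (VT d N r).card) κ0 h0 h1
  refine ⟨C0 + 2 * C + 2 * D0 + 2, by positivity, ?_⟩
  intro V _ G hG
  by_contra hlt
  have hlt := not_le.1 hlt
  have e : (2 : ℝ) - (1 - α) = 1 + α := by ring
  rw [e] at hlt
  have hV : 0 < Fintype.card V := by
    by_contra hV
    have : IsEmpty V := Fintype.card_eq_zero_iff.1 (by omega)
    have h2 : G.edgeSet = ∅ := Set.eq_empty_of_isEmpty _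
    rw [h2, Set.ncard_empty] at hlt
    have : (0 : ℝ) ≤ (C0 + 2 * C + 2 * D0 + 2) * (Fintype.card V : ℝ) ^ (1 + α) := by positivity
    push_cast at hlt
    linarith
  have hD0 : (0 : ℝ) ≤ D0 := Nat.cast_nonneg _
  obtain ⟨G', V', Δ, hle, hne, hdeg, hsup, hmin, hΔ⟩ :=
    hreg (C0 + 2 * C + 2 * D0 + 2) (by linarith) V G hV hlt.le
  have hm : (1 : ℝ) ≤ (V'.card : ℝ) ^ α :=
    Real.one_le_rpow (by exact_mod_cast card_pos.2 hne) hα.le
  have hΔ1 : (D0 : ℝ) + 1 ≤ Δ := by nlinarith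
  have hΔ2 : C * (V'.card : ℝ) ^ α ≤ Δ := by nlinarith
  have hH : Host G' (univ.filter fun q : V × V => G'.Adj q.1 q.2) V' V' (κ0 * Δ) := by
    refine ⟨?_, ?_, ?_, ?_⟩
    · obtain ⟨v, hv⟩ := hne
      have : (0 : ℝ) < (nbr G' v).card := lt_of_lt_of_le (by nlinarith) (hmin v hv)
      obtain ⟨w, hw⟩ := card_pos.1 (by exact_mod_cast this : 0 < (nbr G' v).card)
      exact ⟨(v, w), by simpa using mem_nbr.1 hw⟩
    · intro q hq
      have := (mem_filter.1 hq).2
      exact ⟨this, hsup _ _ this, hsup _ _ this.symm⟩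
    · intro x hx
      have : nbY (univ.filter fun q : V × V => G'.Adj q.1 q.2) x = nbr G' x := by
        ext y; simp [mem_nbY, mem_nbr]
      rw [this]; exact hmin x hx
    · intro y hy
      have : nbX (univ.filter fun q : V × V => G'.Adj q.1 q.2) y = nbr G' y := by
        ext x; simp [mem_nbX, mem_nbr, G'.adj_comm]
      rw [this]; exact hmin y hy
  have hD : D0 ≤ Δ := by
    have : (D0 : ℝ) ≤ Δ := by linarith
    exact_mod_cast this
  exact hG ((tp_contained (hfull V G' Δ V' _ hdeg hH hD hΔ2)).mono_right hle)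

/-- `exists_slack`, `tree_upper`, `tp_card`, `tp_edges`, `card_VT`, `card_NR`, `card_RT`. -/
theorem ok_base (A B p : ℕ) (h1 : B < A) (h2 : A < 2 * B) (hp : 1 ≤ p) :
    Ok (p * B + (A + 1 - B)) (p * A) ((B : ℝ) / A) := by
  obtain ⟨d, N, r, hN, hA, hB, hs⟩ := exists_slack A B h1 h2
  have hA0 : (0 : ℝ) < A := by exact_mod_cast (by omega : 0 < A)
  have hBA : (B : ℝ) < A := by exact_mod_cast (by omega : B < A)
  have hq : (B : ℝ) / A < 1 := (div_lt_one hA0).2 hBA
  have hq0 : (0 : ℝ) ≤ (B : ℝ) / A := by positivity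
  have hb := tree_upper d N r _ hN (by linarith) (by linarith) hs p
  have e : (1 : ℝ) - (1 - (B : ℝ) / A) = (B : ℝ) / A := by ring
  rw [e] at hb
  have c1 := card_VT (d := d) (r := r) hN
  have c2 := card_NR (d := d) (r := r) hN
  have c3 := card_RT (d := d) (r := r) hN
  have c0 : (d + 2) * (N - 1 + ∑ i ∈ Icc 1 N, r i) =
      (d + 1) * (N - 1 + ∑ i ∈ Icc 1 N, r i) + (N - 1 + ∑ i ∈ Icc 1 N, r i) := by ring
  have c4 : (NR d N r).card = B := by omega
  have c5 : (RT d N r).card = A + 1 - B := by omega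
  have c6 : (VT d N r).card - 1 = A := by omega
  refine ⟨TpS d N r p, inferInstance, Tp d N r p, ?_, ?_, ?_, tp_conn hN hp, tp_col, hb⟩
  · rw [tp_card hp, c4, c5]
  · have : 1 * 1 ≤ p * B := Nat.mul_le_mul hp (by omega)
    omega
  · rw [← c6]; exact tp_edges hN

end Pool.Agent.Work.MP_054302_co.Y
end

-- merged part: Pool.Agent.Work.MP_054302_co.Y.Star
section
namespace Pool.Agent.Work.MP_054302_co.Y

open Finset Function Pool.Agent.Work.MP_054302_co.X
open scoped Classical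

/-- The star with `t` leaves. -/
def star (t : ℕ) : SimpleGraph (Option (Fin t)) := SimpleGraph.fromRel fun a _ => a = none

lemma star_adj {t : ℕ} {a b : Option (Fin t)} :
    (star t).Adj a b ↔ a ≠ b ∧ (a = none ∨ b = none) := by
  simp [star, SimpleGraph.fromRel_adj]

lemma star_contained {t : ℕ} {V : Type} [Fintype V] {G : SimpleGraph V} {v : V}
    (h : t ≤ G.degree v) : (star t).IsContained G := by
  have h1 : Fintype.card (Fin t) ≤ Fintype.card (G.neighborSet v) := by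
    rw [Fintype.card_fin, SimpleGraph.card_neighborSet_eq_degree]; exact h
  obtain ⟨e⟩ := Function.Embedding.nonempty_of_card_le h1
  refine ⟨⟨⟨fun a => a.elim v fun i => (e i : V), ?_⟩, ?_⟩⟩
  · rintro (_ | a) (_ | b) hab
    · exact absurd rfl (star_adj.1 hab).1
    · exact (e b).2
    · exact SimpleGraph.Adj.symm (e a).2
    · simpa using (star_adj.1 hab).2
  · rintro (_ | a) (_ | b) hab
    · rfl
    · exact absurd hab (G.ne_of_adj (e b).2)
    · exact absurd hab.symm (G.ne_of_adj (e a).2)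
    · exact congrArg some (e.injective (Subtype.ext hab))

theorem ok_star (t : ℕ) (ht : 1 ≤ t) : Ok (t + 1) t 1 := by
  refine ⟨Option (Fin t), inferInstance, star t, by simp, by omega, ?_, ?_, ?_, t, ?_, ?_⟩
  · have h1 : (Set.range fun i : Fin t => s(none, some i)) ⊆ (star t).edgeSet := by
      rintro _ ⟨i, rfl⟩
      exact star_adj.2 ⟨by simp, .inl rfl⟩
    refine le_trans ?_ (Set.ncard_le_ncard h1 (Set.toFinite _))
    rw [Set.ncard_range_of_injective, Nat.card_eq_fintype_card, Fintype.card_fin]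
    intro i j h
    simpa using h
  · refine (SimpleGraph.connected_iff_exists_forall_reachable _).2 ⟨none, ?_⟩
    rintro (_ | i)
    · rfl
    · exact (star_adj.2 ⟨by simp, .inl rfl⟩).reachable
  · refine ⟨SimpleGraph.Coloring.mk (fun a => a.elim 0 fun _ => 1) ?_⟩
    rintro (_ | a) (_ | b) hab
    · exact absurd rfl (star_adj.1 hab).1
    · simp
    · simp
    · simpa using (star_adj.1 hab).2
  · exact_mod_cast ht
  · intro V _ G hG
    have h1 : ∀ v, G.degree v ≤ t := fun v => by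
      by_contra h
      exact hG (star_contained (v := v) (by omega))
    have h2 := G.sum_degrees_eq_twice_card_edges
    have h3 : ∑ v, G.degree v ≤ Fintype.card V * t :=
      (sum_le_card_nsmul _ _ t fun v _ => h1 v).trans (by simp)
    have h4 : G.edgeSet.ncard ≤ t * Fintype.card V := by
      rw [← SimpleGraph.coe_edgeFinset, Set.ncard_coe_finset, mul_comm]
      omega
    have e : (2 : ℝ) - 1 = 1 := by norm_num
    rw [e, Real.rpow_one]
    exact_mod_cast h4

/-- The choice `B = ⌈sqrt (k / m)⌉`, `p = (k - B - 2 m) / B`, `A = ⌈l / p⌉`. -/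
lemma choose_m (m k l l' : ℕ) (hm : 1 ≤ m) (hk : 1 ≤ k) (h1 : k ≤ l) (h2 : l' ≤ m * k)
    (h3 : (l : ℝ) + 4 * Real.sqrt (m * k) + 4 * (m : ℝ) ^ 2 ≤ l') :
    ∃ A B p : ℕ, 1 ≤ p ∧ 1 ≤ B ∧ B ≤ A ∧ p * B + A % B + 2 * (A / B) ≤ k + 1 ∧
      l ≤ p * A ∧ 2 ≤ k ∧ 2 ≤ l' ∧ ((k : ℝ) - 2) / ((l' : ℝ) - 1) < (B : ℝ) / A := by
  obtain ⟨s, hs1, hs2⟩ : ∃ s : ℕ, s * s ≤ m * k ∧ m * k < (s + 1) * (s + 1) :=
    ⟨Nat.sqrt (m * k), Nat.sqrt_le _, Nat.lt_succ_sqrt _⟩
  have n2 : l + 4 * s + 4 * (m * m) ≤ l' := by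
    have a1 : (s : ℝ) ≤ Real.sqrt (m * k) := by
      refine Real.le_sqrt_of_sq_le ?_
      rw [sq]
      exact_mod_cast hs1
    have : (l : ℝ) + 4 * s + 4 * (m * m) ≤ l' := by nlinarith
    exact_mod_cast this
  have s1 : 1 ≤ s := by
    by_contra h
    have : s = 0 := by omega
    subst this
    have := Nat.mul_pos hm hk
    omega
  obtain ⟨B, hB1, hB2⟩ : ∃ B : ℕ, s + 1 ≤ B * m ∧ B * m ≤ s + m := by
    refine ⟨s / m + 1, ?_, ?_⟩
    · have := Nat.lt_div_mul_add (a := s) hm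
      rw [add_mul, one_mul]; omega
    · have := Nat.div_mul_le_self s m
      rw [add_mul, one_mul]; omega
  have B1 : 1 ≤ B := by
    by_contra h
    have : B = 0 := by omega
    subst this
    omega
  have k1 : 4 * B + 4 * m ≤ k + 4 := by
    have : m * (4 * B + 4 * m) ≤ m * (k + 4) := by nlinarith
    exact Nat.le_of_mul_le_mul_left this hm
  have k0 : 4 * m < k := by
    have : m * (4 * m) < m * k := by nlinarith
    exact Nat.lt_of_mul_lt_mul_left this
  have d1 := Nat.div_mul_le_self (k - B - 2 * m) B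
  have d2 := Nat.lt_div_mul_add (a := k - B - 2 * m) B1
  generalize (k - B - 2 * m) / B = p at d1 d2
  have p1 : 1 ≤ p := by
    rcases p with _ | p
    · omega
    · omega
  have p2 : p ≤ s := by
    have a1 : p * B ≤ k := by omega
    have a2 : p * (s + 1) ≤ p * (B * m) := Nat.mul_le_mul_left _ hB1
    have a3 : p * B * m ≤ k * m := Nat.mul_le_mul_right _ a1
    have a4 : p * (s + 1) < (s + 1) * (s + 1) := by nlinarith
    have := Nat.lt_of_mul_lt_mul_right a4
    omega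
  have c1 := Nat.div_mul_le_self (l + p - 1) p
  have c2 := Nat.lt_div_mul_add (a := l + p - 1) p1
  generalize (l + p - 1) / p = A at c1 c2
  obtain ⟨L, rfl⟩ : ∃ L, l' = L + 1 := ⟨l' - 1, by omega⟩
  have m1 : m ≤ m * m := Nat.le_mul_of_pos_left m hm
  have e1 : k * L ≤ (p * B + (2 * B + 2 * m)) * L := Nat.mul_le_mul_right L (by omega)
  have e2 : (2 * B + 2 * m) * L ≤ (2 * B + 2 * m) * (m * k) := Nat.mul_le_mul_left _ (by omega)
  have e3 : k * (A * p + 1 + (2 * (B * m) + 2 * (m * m))) ≤ k * L :=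
    Nat.mul_le_mul_left _ (by omega)
  have e4 : A * k < B * L := lt_of_mul_lt_mul_left (a := p) (by nlinarith) p.zero_le
  have e5 : B ≤ A := by
    have a : p * B ≤ p * A := by rw [mul_comm p A]; omega
    exact Nat.le_of_mul_le_mul_left a p1
  have e6 : A / B ≤ m := by
    have a1 : B * L ≤ B * (m * k) := Nat.mul_le_mul_left _ (by omega)
    have a2 : A * k < (m * B) * k := by nlinarith
    have a3 := Nat.lt_of_mul_lt_mul_right a2
    exact Nat.div_le_of_le_mul (by rw [mul_comm]; omega)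
  have e7 := Nat.mod_lt A B1
  refine ⟨A, B, p, p1, B1, e5, by omega, by rw [mul_comm]; omega, by omega, by omega, ?_⟩
  have k8 : (0 : ℝ) < L := by exact_mod_cast (show 0 < L by omega)
  have k9 : (0 : ℝ) < A := by exact_mod_cast (show 0 < A by omega)
  have k10 : (A : ℝ) * k < (B : ℝ) * L := by exact_mod_cast e4
  rw [Nat.cast_succ L, add_sub_cancel_right, div_lt_div_iff₀ k8 k9]
  linarith

/-- The choice `m = ⌈l' / k⌉`. -/
lemma choose_all (k l l' : ℕ) (hk : 1 ≤ k) (h1 : k ≤ l)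
    (h3 : (l : ℝ) + 6 * Real.sqrt l' + 16 * ((l' : ℝ) / k) ^ 2 ≤ l') :
    ∃ A B p : ℕ, 1 ≤ p ∧ 1 ≤ B ∧ B ≤ A ∧ p * B + A % B + 2 * (A / B) ≤ k + 1 ∧
      l ≤ p * A ∧ 2 ≤ k ∧ 2 ≤ l' ∧ ((k : ℝ) - 2) / ((l' : ℝ) - 1) < (B : ℝ) / A := by
  have hkR : (0 : ℝ) < k := by exact_mod_cast hk
  have a0 : l ≤ l' := by
    have : (l : ℝ) ≤ l' := by
      have := Real.sqrt_nonneg (l' : ℝ)
      have := sq_nonneg ((l' : ℝ) / k)
      linarith
    exact_mod_cast this
  have c1 := Nat.div_mul_le_self (l' + k - 1) k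
  have c2 := Nat.lt_div_mul_add (a := l' + k - 1) hk
  generalize (l' + k - 1) / k = m at c1 c2
  have hm : 1 ≤ m := by
    rcases m with _ | m
    · omega
    · omega
  have a1 : (m : ℝ) * k ≤ 2 * l' := by exact_mod_cast (by omega : m * k ≤ 2 * l')
  refine choose_m m k l l' hm hk h1 (by omega) (le_trans ?_ h3)
  have a2 : Real.sqrt (m * k) ≤ 3 / 2 * Real.sqrt l' := by
    refine Real.sqrt_le_iff.2 ⟨by positivity, ?_⟩
    rw [mul_pow, Real.sq_sqrt (Nat.cast_nonneg _)]
    have : (0 : ℝ) ≤ l' := Nat.cast_nonneg _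
    linarith
  have a3 : (m : ℝ) ≤ 2 * ((l' : ℝ) / k) := by
    rw [← mul_div_assoc, le_div_iff₀ hkR]; exact a1
  have a4 : (m : ℝ) ^ 2 ≤ (2 * ((l' : ℝ) / k)) ^ 2 := by gcongr
  nlinarith

end Pool.Agent.Work.MP_054302_co.Y
end

-- merged part: Pool.Agent.Work.MP_054302_co.X.Dens
section
namespace Pool.Agent.Work.MP_054302_co.X

open Finset Function
open scoped Classical

/-- Average over all subsets `S`: each pair is cut by a quarter of them. -/
lemma exists_cut {V : Type} [Fintype V] [DecidableEq V] (P : Finset (V × V))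
    (hP : ∀ p ∈ P, p.1 ≠ p.2) :
    ∃ S : Finset V, P.card ≤ 4 * (P.filter fun p => p.1 ∈ S ∧ p.2 ∉ S).card := by
  have key : ∀ p ∈ P, (univ : Finset (Finset V)).card ≤
      4 * ((univ : Finset (Finset V)).filter fun S => p.1 ∈ S ∧ p.2 ∉ S).card := by
    intro p hp
    have hne := hP p hp
    refine Finset.card_le_mul_card_image_of_maps_to
      (f := fun S : Finset V => (insert p.1 S).erase p.2) ?_ 4 ?_
    · intro S _
      simp [hne]
    · intro T _
      refine le_trans (Finset.card_le_card (t := {T, T.erase p.1, insert p.2 T,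
        insert p.2 (T.erase p.1)}) ?_) Finset.card_le_four
      intro S hS
      have hS' : (insert p.1 S).erase p.2 = T := (mem_filter.mp hS).2
      subst hS'
      simp only [mem_insert, mem_singleton]
      by_cases h1 : p.1 ∈ S <;> by_cases h2 : p.2 ∈ S
      · right; right; left
        ext x
        by_cases hx : x = p.2
        · simp [hx, h2]
        · by_cases hy : x = p.1
          · simp [hy, h1, hne]
          · simp [hx, hy]
      · left
        ext x
        by_cases hx : x = p.2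
        · simp [hx, h2]
        · by_cases hy : x = p.1
          · simp [hy, h1, hne]
          · simp [hx, hy]
      · right; right; right
        ext x
        by_cases hx : x = p.2
        · simp [hx, h2]
        · by_cases hy : x = p.1
          · simp [hy, h1, hne]
          · simp [hx, hy]
      · right; left
        ext x
        by_cases hx : x = p.2
        · simp [hx, h2]
        · by_cases hy : x = p.1
          · simp [hy, h1]
          · simp [hx, hy]
  by_contra hcon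
  push Not at hcon
  have h1 : ∑ S : Finset V, 4 * (P.filter fun p => p.1 ∈ S ∧ p.2 ∉ S).card <
      ∑ _S : Finset V, P.card :=
    Finset.sum_lt_sum_of_nonempty ⟨∅, mem_univ _⟩ fun S _ => hcon S
  have h2 : ∑ S : Finset V, (P.filter fun p => p.1 ∈ S ∧ p.2 ∉ S).card =
      ∑ p ∈ P, ((univ : Finset (Finset V)).filter fun S => p.1 ∈ S ∧ p.2 ∉ S).card := by
    simp only [card_filter]
    exact Finset.sum_comm
  have h3 : ∑ _p ∈ P, (univ : Finset (Finset V)).card ≤
      ∑ p ∈ P, 4 * ((univ : Finset (Finset V)).filter fun S => p.1 ∈ S ∧ p.2 ∉ S).card :=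
    Finset.sum_le_sum key
  rw [← Finset.mul_sum, h2, Finset.mul_sum] at h1
  simp only [sum_const, smul_eq_mul] at h1 h3
  rw [mul_comm] at h3
  omega

/-- Two proper two-colourings of a connected graph agree everywhere or nowhere. -/
lemma col_unique {W : Type} {Γ : SimpleGraph W} (hc : Γ.Connected) (f g : W → Bool)
    (hf : ∀ u v, Γ.Adj u v → f u ≠ f v) (hg : ∀ u v, Γ.Adj u v → g u ≠ g v) :
    (∀ v, f v = g v) ∨ ∀ v, f v ≠ g v := by
  have step : ∀ u v, Γ.Adj u v → (f u = g u ↔ f v = g v) := by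
    intro u v h
    have h1 := hf u v h
    have h2 := hg u v h
    revert h1 h2
    cases f u <;> cases f v <;> cases g u <;> cases g v <;> simp
  have walk : ∀ u v, Γ.Walk u v → (f u = g u ↔ f v = g v) := by
    intro u v w
    induction w with
    | nil => exact Iff.rfl
    | cons h _ ih => exact (step _ _ h).trans ih
  by_cases h : ∀ v, f v = g v
  · exact Or.inl h
  · right
    push Not at h
    obtain ⟨u, hu⟩ := h
    intro v hv
    obtain ⟨w⟩ := hc.preconnected u v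
    exact hu ((walk u v w).mpr hv)

/-- Apply `Bnd` to the bipartite graph between `X` and `Y` on the subtype of `X ∪ Y`, then
`col_unique`. -/
lemma bnd_sides {W : Type} {Γ : SimpleGraph W} {γ C : ℝ} (hc : Γ.Connected) (col : W → Bool)
    (hcol : ∀ u v, Γ.Adj u v → col u ≠ col v)
    (hB : ∀ (V : Type) [Fintype V] (G : SimpleGraph V), ¬ Γ.IsContained G →
      (G.edgeSet.ncard : ℝ) ≤ C * (Fintype.card V : ℝ) ^ (2 - γ))
    {V : Type} [Fintype V] [DecidableEq V] (G : SimpleGraph V) (X Y : Finset V)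
    (hd : Disjoint X Y) (h : C * ((X ∪ Y).card : ℝ) ^ (2 - γ) <
      (((X ×ˢ Y).filter fun p => G.Adj p.1 p.2).card : ℝ)) :
    ∃ (f : W → V) (s : Bool), Injective f ∧ (∀ u v, Γ.Adj u v → G.Adj (f u) (f v)) ∧
      ∀ v, (col v = s → f v ∈ X) ∧ (col v ≠ s → f v ∈ Y) := by
  let U : Type := {v : V // v ∈ X ∪ Y}
  let H : SimpleGraph U :=
    { Adj := fun a b => G.Adj a.1 b.1 ∧ ((a.1 ∈ X ∧ b.1 ∈ Y) ∨ (a.1 ∈ Y ∧ b.1 ∈ X))
      symm := ⟨fun a b hab => ⟨hab.1.symm, by tauto⟩⟩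
      loopless := ⟨fun a hab => G.irrefl hab.1⟩ }
  have hdis : ∀ x, x ∈ X → x ∈ Y → False := fun x hx hy => Finset.disjoint_left.mp hd hx hy
  have hcardU : Fintype.card U = (X ∪ Y).card := Fintype.card_coe _
  have hcount : ((X ×ˢ Y).filter fun p => G.Adj p.1 p.2).card ≤ H.edgeSet.ncard := by
    have hinj : Set.InjOn (fun p : V × V => s(p.1, p.2))
        (((X ×ˢ Y).filter fun p => G.Adj p.1 p.2 : Finset (V × V)) : Set (V × V)) := by
      intro p hp q hq hpq
      have hp' := mem_product.mp (mem_filter.mp (mem_coe.mp hp)).1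
      have hq' := mem_product.mp (mem_filter.mp (mem_coe.mp hq)).1
      rcases Sym2.eq_iff.mp hpq with ⟨e1, e2⟩ | ⟨e1, e2⟩
      · exact Prod.ext e1 e2
      · exact (hdis _ hp'.1 (e1 ▸ hq'.2)).elim
    have hsub : (fun p : V × V => s(p.1, p.2)) ''
        (((X ×ˢ Y).filter fun p => G.Adj p.1 p.2 : Finset (V × V)) : Set (V × V)) ⊆
        Sym2.map (fun a : U => a.1) '' H.edgeSet := by
      rintro _ ⟨p, hp, rfl⟩
      have hp0 := mem_filter.mp (mem_coe.mp hp)
      have hp' := mem_product.mp hp0.1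
      refine ⟨s(⟨p.1, mem_union_left _ hp'.1⟩, ⟨p.2, mem_union_right _ hp'.2⟩), ?_, rfl⟩
      exact (SimpleGraph.mem_edgeSet H).mpr ⟨hp0.2, Or.inl hp'⟩
    rw [← Set.ncard_coe_finset, ← hinj.ncard_image]
    exact le_trans (Set.ncard_le_ncard hsub (Set.toFinite _))
      (Set.ncard_image_le (Set.toFinite _))
  have hcont : Γ.IsContained H := by
    by_contra hn
    have h1 := hB U H hn
    rw [hcardU] at h1
    have h2 : (((X ×ˢ Y).filter fun p => G.Adj p.1 p.2).card : ℝ) ≤ H.edgeSet.ncard := by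
      exact_mod_cast hcount
    linarith
  obtain ⟨φ⟩ := hcont
  have hadj : ∀ u v, Γ.Adj u v → H.Adj (φ u) (φ v) := fun u v huv => φ.toHom.map_adj huv
  have hmem : ∀ v, (φ v).1 ∉ X → (φ v).1 ∈ Y := fun v hv =>
    (mem_union.mp (φ v).2).resolve_left hv
  have hg : ∀ u v, Γ.Adj u v → decide ((φ u).1 ∈ X) ≠ decide ((φ v).1 ∈ X) := by
    intro u v huv he
    have he' : (φ u).1 ∈ X ↔ (φ v).1 ∈ X := by simpa using he
    rcases (hadj u v huv).2 with ⟨a, b⟩ | ⟨a, b⟩
    · exact hdis _ (he'.mp a) b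
    · exact hdis _ (he'.mpr b) a
  have hinj : Injective fun v => (φ v).1 := fun u v huv => φ.injective (Subtype.ext huv)
  rcases col_unique hc col (fun v => decide ((φ v).1 ∈ X)) hcol hg with hh | hh
  · refine ⟨fun v => (φ v).1, true, hinj, fun u v huv => (hadj u v huv).1, fun v => ⟨?_, ?_⟩⟩
    · intro hv
      have := hh v
      rw [hv] at this
      simpa using this.symm
    · intro hv
      apply hmem
      intro hx
      apply hv
      rw [hh v]
      simpa using hx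
  · refine ⟨fun v => (φ v).1, false, hinj, fun u v huv => (hadj u v huv).1, fun v => ⟨?_, ?_⟩⟩
    · intro hv
      have := hh v
      rw [hv] at this
      simpa using this
    · intro hv
      apply hmem
      intro hx
      apply hh v
      have h1 : col v = true := by simpa using hv
      rw [h1]
      simpa using hx

/-- Count walks `u x y v` with `u ≠ v`: at least `m d d (d-1)`, over at most `m^2` pairs. -/
lemma exists_link {V : Type} [Fintype V] [DecidableEq V] (G : SimpleGraph V) (V' : Finset V)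
    (d : ℝ) (hne : V'.Nonempty) (hsup : ∀ u v, G.Adj u v → u ∈ V')
    (hd : ∀ v ∈ V', d ≤ ((nbr G v).card : ℝ)) (h2 : 2 ≤ d) :
    ∃ u v, u ≠ v ∧ d ^ 3 / (2 * V'.card) ≤
      (((nbr G u ×ˢ nbr G v).filter fun p => G.Adj p.1 p.2).card : ℝ) := by
  obtain ⟨u, hu⟩ := hne
  by_contra hcon
  push Not at hcon
  have hm : (0 : ℝ) < V'.card := by exact_mod_cast card_pos.mpr ⟨u, hu⟩
  have hd0 : (0 : ℝ) < d := by linarith
  have hL : ∀ v, (((nbr G u ×ˢ nbr G v).filter fun p => G.Adj p.1 p.2).card : ℝ) =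
      ∑ x ∈ nbr G u, ∑ y ∈ nbr G x, if G.Adj v y then (1 : ℝ) else 0 := by
    intro v
    rw [card_filter, sum_product]
    push_cast
    refine sum_congr rfl fun x _ => ?_
    simp only [nbr, sum_filter]
    refine sum_congr rfl fun y _ => ?_
    by_cases h1 : G.Adj v y <;> by_cases h2 : G.Adj x y <;> simp [h1, h2]
  have hup : ∑ v ∈ V'.erase u, (((nbr G u ×ˢ nbr G v).filter fun p => G.Adj p.1 p.2).card : ℝ) ≤
      ∑ _v ∈ V'.erase u, d ^ 3 / (2 * V'.card) :=
    sum_le_sum fun v hv => (hcon u v (ne_of_mem_erase hv).symm).le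
  have hlow : d * (d * (d - 1)) ≤
      ∑ v ∈ V'.erase u, (((nbr G u ×ˢ nbr G v).filter fun p => G.Adj p.1 p.2).card : ℝ) := by
    simp only [hL]
    rw [sum_comm]
    have hx : ∀ x ∈ nbr G u, d * (d - 1) ≤
        ∑ v ∈ V'.erase u, ∑ y ∈ nbr G x, if G.Adj v y then (1 : ℝ) else 0 := by
      intro x hx
      have hxV : x ∈ V' := hsup x u (mem_nbr.mp hx).symm
      rw [sum_comm]
      have hy : ∀ y ∈ nbr G x, d - 1 ≤ ∑ v ∈ V'.erase u, if G.Adj v y then (1 : ℝ) else 0 := by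
        intro y hy
        have hyV : y ∈ V' := hsup y x (mem_nbr.mp hy).symm
        have h1 : (nbr G y).erase u ⊆ (V'.erase u).filter fun v => G.Adj v y := by
          intro v hv
          have hv1 := mem_erase.mp hv
          have hv2 := (mem_nbr.mp hv1.2).symm
          exact mem_filter.mpr ⟨mem_erase.mpr ⟨hv1.1, hsup v y hv2⟩, hv2⟩
        have h3 : (nbr G y).card ≤ ((V'.erase u).filter fun v => G.Adj v y).card + 1 := by
          have h4 := card_le_card h1
          have h5 : (nbr G y).card - 1 ≤ ((nbr G y).erase u).card := pred_card_le_card_erase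
          omega
        have h6 : ((nbr G y).card : ℝ) ≤
            (((V'.erase u).filter fun v => G.Adj v y).card : ℝ) + 1 := by exact_mod_cast h3
        have h7 : (((V'.erase u).filter fun v => G.Adj v y).card : ℝ) =
            ∑ v ∈ V'.erase u, if G.Adj v y then (1 : ℝ) else 0 := by
          rw [card_filter]
          push_cast
          rfl
        have h8 := hd y hyV
        linarith
      have h1 := sum_le_sum hy
      rw [sum_const, nsmul_eq_mul] at h1
      have h3 := mul_le_mul_of_nonneg_right (hd x hxV) (by linarith : (0 : ℝ) ≤ d - 1)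
      linarith
    have h1 := sum_le_sum hx
    rw [sum_const, nsmul_eq_mul] at h1
    have h3 := mul_le_mul_of_nonneg_right (hd u hu)
      (mul_nonneg hd0.le (by linarith) : (0 : ℝ) ≤ d * (d - 1))
    linarith
  rw [sum_const, nsmul_eq_mul] at hup
  have hc1 : ((V'.erase u).card : ℝ) < V'.card := by exact_mod_cast card_erase_lt_of_mem hu
  have hq : (0 : ℝ) < d ^ 3 / (2 * V'.card) := by positivity
  have h1 := mul_lt_mul_of_pos_right hc1 hq
  have h3 : (V'.card : ℝ) * (d ^ 3 / (2 * V'.card)) = d ^ 3 / 2 := by field_simp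
  have h4 : d ^ 3 / 2 ≤ d * (d * (d - 1)) := by nlinarith [mul_pos hd0 hd0]
  linarith

/-- The densified graph: the new vertex `s` is joined to the colour class `s`. -/
def dens {W : Type} (Γ : SimpleGraph W) (col : W → Bool) : SimpleGraph (W ⊕ Bool) :=
  SimpleGraph.fromRel fun x x' => match x, x' with
    | Sum.inl u, Sum.inl v => Γ.Adj u v
    | Sum.inl u, Sum.inr s => col u = s
    | _, _ => False

/-- The numerical inequality behind the densification step. -/
lemma Dens_num {γ C1 κ C m D : ℝ} (h0 : 0 < γ) (h1 : γ ≤ 1) (hC1 : 0 < C1) (hκ0 : 0 < κ)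
    (hC2 : 2 ≤ C) (hCκ : 4 * (5 + 16 * C1) ≤ κ ^ 3 * C) (hm1 : 1 ≤ m) (hD1 : 1 ≤ D)
    (hbig : C / 2 * m ^ (1 / (1 + γ)) ≤ D) :
    4 * (C1 * (2 * D) ^ (2 - γ)) + 2 * D < (κ * D) ^ 3 / (2 * m) := by
  have hγ1 : 0 < 1 + γ := by linarith
  have hm0 : 0 < m := by linarith
  have hD0 : 0 < D := by linarith
  have hC0 : 0 < C / 2 := by linarith
  have e1 : (C / 2 * m ^ (1 / (1 + γ))) ^ (1 + γ) ≤ D ^ (1 + γ) :=
    Real.rpow_le_rpow (by positivity) hbig hγ1.le
  have e2 : (C / 2 * m ^ (1 / (1 + γ))) ^ (1 + γ) = (C / 2) ^ (1 + γ) * m := by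
    rw [Real.mul_rpow hC0.le (by positivity), ← Real.rpow_mul hm0.le,
      one_div_mul_cancel hγ1.ne', Real.rpow_one]
  have e3 : C / 2 ≤ (C / 2) ^ (1 + γ) := by
    have := Real.rpow_le_rpow_of_exponent_le (by linarith : 1 ≤ C / 2) (by linarith : 1 ≤ 1 + γ)
    rwa [Real.rpow_one] at this
  have e4 : C / 2 * m ≤ D ^ (1 + γ) := by
    have := mul_le_mul_of_nonneg_right e3 hm0.le
    linarith
  have e5 : D ^ (1 + γ) * D ^ (2 - γ) = D ^ 3 := by
    rw [← Real.rpow_add hD0, show 1 + γ + (2 - γ) = ((3 : ℕ) : ℝ) by push_cast; ring,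
      Real.rpow_natCast]
  have hT0 : 0 < D ^ (2 - γ) := by positivity
  have e6 : D ≤ D ^ (2 - γ) := by
    have := Real.rpow_le_rpow_of_exponent_le hD1 (by linarith : 1 ≤ 2 - γ)
    rwa [Real.rpow_one] at this
  have e7 : (2 * D) ^ (2 - γ) ≤ 4 * D ^ (2 - γ) := by
    rw [Real.mul_rpow (by norm_num) hD0.le]
    refine mul_le_mul_of_nonneg_right ?_ hT0.le
    have := Real.rpow_le_rpow_of_exponent_le (by norm_num : (1 : ℝ) ≤ 2)
      (by push_cast; linarith : 2 - γ ≤ ((2 : ℕ) : ℝ))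
    rw [Real.rpow_natCast] at this
    linarith
  obtain ⟨T, hT⟩ : ∃ T : ℝ, T = D ^ (2 - γ) := ⟨_, rfl⟩
  rw [← hT] at e5 hT0 e6 e7
  rw [lt_div_iff₀ (by positivity), mul_pow, ← e5]
  have e8 : C / 2 * m * T ≤ D ^ (1 + γ) * T := mul_le_mul_of_nonneg_right e4 hT0.le
  have e9 := mul_le_mul_of_nonneg_left e8 (by positivity : 0 ≤ κ ^ 3)
  have hmT : 0 < m * T := by positivity
  have e10 := mul_le_mul_of_nonneg_right hCκ hmT.le
  have e11 := mul_le_mul_of_nonneg_left e7 (by positivity : 0 ≤ C1 * m)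
  have e12 := mul_le_mul_of_nonneg_left e6 hm0.le
  nlinarith

/-- `regularise` with `α = 1 / (1+γ)`, `exists_link` with `d = κ0 Δ`, delete the at most `4 Δ`
pairs using `u` or `v`, `exists_cut`, `bnd_sides` on at most `2 Δ` vertices; the inequality needed
is `Δ^(1+γ) ≥ K card V'`. -/
lemma bnd_dens {W : Type} {Γ : SimpleGraph W} {γ : ℝ} (h0 : 0 < γ) (h1 : γ ≤ 1)
    (hc : Γ.Connected) (col : W → Bool) (hcol : ∀ u v, Γ.Adj u v → col u ≠ col v)
    (hB : Bnd Γ γ) : Bnd (dens Γ col) (γ / (1 + γ)) := by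
  obtain ⟨C1, hC1, hB⟩ := hB
  have hγ1 : 0 < 1 + γ := by linarith
  have hα0 : 0 < 1 / (1 + γ) := by positivity
  have hα1 : 1 / (1 + γ) ≤ 1 := by
    rw [div_le_one hγ1]
    linarith
  obtain ⟨κ, hκ0, hκ1, C0, hC0, hreg⟩ := regularise (1 / (1 + γ)) hα0 hα1
  have hK0 : 0 < 4 * (5 + 16 * C1) / κ ^ 3 := by positivity
  refine ⟨C0 + 2 + 4 * (5 + 16 * C1) / κ ^ 3, by positivity, ?_⟩
  intro V _ G hG
  obtain ⟨C, hC⟩ : ∃ C : ℝ, C = C0 + 2 + 4 * (5 + 16 * C1) / κ ^ 3 := ⟨_, rfl⟩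
  rw [← hC]
  have hC2 : 2 ≤ C := by linarith
  have hCκ : 4 * (5 + 16 * C1) ≤ κ ^ 3 * C := by
    have e : κ ^ 3 * (4 * (5 + 16 * C1) / κ ^ 3) = 4 * (5 + 16 * C1) := by field_simp
    have e2 : 4 * (5 + 16 * C1) / κ ^ 3 ≤ C := by linarith
    have e3 := mul_le_mul_of_nonneg_left e2 (by positivity : (0 : ℝ) ≤ κ ^ 3)
    linarith
  by_contra hcon
  push Not at hcon
  have hn : 0 < Fintype.card V := by
    by_contra h00
    have hE : IsEmpty V := Fintype.card_eq_zero_iff.mp (by omega)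
    have hz : G.edgeSet = ∅ := by
      ext e
      induction e using Sym2.ind with
      | _ a b => exact hE.elim a
    rw [hz, Set.ncard_empty] at hcon
    have : 0 ≤ C * (Fintype.card V : ℝ) ^ (2 - γ / (1 + γ)) := by positivity
    simp only [Nat.cast_zero] at hcon
    linarith
  have hexp : 2 - γ / (1 + γ) = 1 + 1 / (1 + γ) := by
    field_simp
    ring
  rw [hexp] at hcon
  obtain ⟨G', V', Δ, hle, hne, hΔ, hsup, hmin, hbig⟩ :=
    hreg C (by linarith) V G hn hcon.le
  have hm1 : (1 : ℝ) ≤ V'.card := by exact_mod_cast card_pos.mpr hne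
  have hmα : (1 : ℝ) ≤ (V'.card : ℝ) ^ (1 / (1 + γ)) := Real.one_le_rpow hm1 hα0.le
  have hΔC : C / 2 ≤ Δ := by nlinarith
  have hΔ1 : (1 : ℝ) ≤ Δ := by linarith
  have hκ3 : κ ^ 3 ≤ κ := by
    have : κ ^ 2 ≤ 1 := pow_le_one₀ hκ0.le hκ1
    nlinarith
  have hd2 : 2 ≤ κ * Δ := by
    have e1 := mul_le_mul_of_nonneg_right hκ3 (by linarith : (0 : ℝ) ≤ C)
    have e2 := mul_le_mul_of_nonneg_left hΔC hκ0.le
    nlinarith
  obtain ⟨u, v, huv, hL⟩ := exists_link G' V' (κ * Δ) hne hsup hmin hd2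
  have hnum := Dens_num h0 h1 hC1 hκ0 hC2 hCκ hm1 hΔ1 hbig
  obtain ⟨L, hLdef⟩ : ∃ L : Finset (V × V),
      L = (nbr G' u ×ˢ nbr G' v).filter fun p => G'.Adj p.1 p.2 := ⟨_, rfl⟩
  rw [← hLdef] at hL
  have hLmem : ∀ p ∈ L, G'.Adj u p.1 ∧ G'.Adj v p.2 ∧ G'.Adj p.1 p.2 := by
    intro p hp
    rw [hLdef] at hp
    have e := mem_filter.mp hp
    have e' := mem_product.mp e.1
    exact ⟨mem_nbr.mp e'.1, mem_nbr.mp e'.2, e.2⟩
  obtain ⟨P, hPdef⟩ : ∃ P : Finset (V × V), P = L.filter fun p => p.1 ≠ v ∧ p.2 ≠ u := ⟨_, rfl⟩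
  have hLP : L.card ≤ P.card + 2 * Δ := by
    have hs : L ⊆ P ∪ (({v} : Finset V) ×ˢ nbr G' v ∪ nbr G' u ×ˢ ({u} : Finset V)) := by
      intro p hp
      have e := hLmem p hp
      by_cases a : p.1 = v
      · exact mem_union_right _ (mem_union_left _
          (mem_product.mpr ⟨mem_singleton.mpr a, mem_nbr.mpr e.2.1⟩))
      · by_cases b : p.2 = u
        · exact mem_union_right _ (mem_union_right _
            (mem_product.mpr ⟨mem_nbr.mpr e.1, mem_singleton.mpr b⟩))
        · refine mem_union_left _ ?_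
          rw [hPdef]
          exact mem_filter.mpr ⟨hp, a, b⟩
    have e1 := card_le_card hs
    have e2 := card_union_le P (({v} : Finset V) ×ˢ nbr G' v ∪ nbr G' u ×ˢ ({u} : Finset V))
    have e3 := card_union_le (({v} : Finset V) ×ˢ nbr G' v) (nbr G' u ×ˢ ({u} : Finset V))
    rw [card_product, card_product, card_singleton, card_singleton] at e3
    have e4 := hΔ u
    have e5 := hΔ v
    omega
  have hPL : ∀ p ∈ P, p ∈ L ∧ p.1 ≠ v ∧ p.2 ≠ u := by
    intro p hp
    rw [hPdef] at hp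
    exact mem_filter.mp hp
  obtain ⟨S, hS⟩ := exists_cut P fun p hp => (hLmem p (hPL p hp).1).2.2.ne
  obtain ⟨X, hX⟩ : ∃ X : Finset V, X = (nbr G' u).filter fun x => x ∈ S ∧ x ≠ v := ⟨_, rfl⟩
  obtain ⟨Y, hY⟩ : ∃ Y : Finset V, Y = (nbr G' v).filter fun y => y ∉ S ∧ y ≠ u := ⟨_, rfl⟩
  have hXm : ∀ x, x ∈ X ↔ G'.Adj u x ∧ x ∈ S ∧ x ≠ v := by
    intro x
    rw [hX, mem_filter, mem_nbr]
  have hYm : ∀ y, y ∈ Y ↔ G'.Adj v y ∧ y ∉ S ∧ y ≠ u := by
    intro y
    rw [hY, mem_filter, mem_nbr]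
  have hdisj : Disjoint X Y := Finset.disjoint_left.mpr fun x hx hy =>
    ((hYm x).mp hy).2.1 ((hXm x).mp hx).2.1
  have hXY : (X ∪ Y).card ≤ 2 * Δ := by
    have e1 := card_union_le X Y
    have e2 : X.card ≤ (nbr G' u).card :=
      card_le_card fun x hx => mem_nbr.mpr ((hXm x).mp hx).1
    have e3 : Y.card ≤ (nbr G' v).card :=
      card_le_card fun y hy => mem_nbr.mpr ((hYm y).mp hy).1
    have e4 := hΔ u
    have e5 := hΔ v
    omega
  have hcut : (P.filter fun p => p.1 ∈ S ∧ p.2 ∉ S).card ≤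
      ((X ×ˢ Y).filter fun p => G'.Adj p.1 p.2).card := by
    refine card_le_card fun p hp => ?_
    have e := mem_filter.mp hp
    have e1 := hPL p e.1
    have e2 := hLmem p e1.1
    exact mem_filter.mpr ⟨mem_product.mpr ⟨(hXm _).mpr ⟨e2.1, e.2.1, e1.2.1⟩,
      (hYm _).mpr ⟨e2.2.1, e.2.2, e1.2.2⟩⟩, e2.2.2⟩
  have hmany : C1 * ((X ∪ Y).card : ℝ) ^ (2 - γ) <
      (((X ×ˢ Y).filter fun p => G'.Adj p.1 p.2).card : ℝ) := by
    have e1 : ((X ∪ Y).card : ℝ) ≤ 2 * Δ := by exact_mod_cast hXY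
    have e2 : ((X ∪ Y).card : ℝ) ^ (2 - γ) ≤ (2 * (Δ : ℝ)) ^ (2 - γ) :=
      Real.rpow_le_rpow (by positivity) e1 (by linarith)
    have e3 := mul_le_mul_of_nonneg_left e2 hC1.le
    have e4 : L.card ≤ 4 * ((X ×ˢ Y).filter fun p => G'.Adj p.1 p.2).card + 2 * Δ := by omega
    have e5 : (L.card : ℝ) ≤
        4 * (((X ×ˢ Y).filter fun p => G'.Adj p.1 p.2).card : ℝ) + 2 * Δ := by exact_mod_cast e4
    linarith
  obtain ⟨f, s, hfi, hfa, hfs⟩ := bnd_sides hc col hcol hB G' X Y hdisj hmany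
  have hfu : ∀ w, f w ≠ u ∧ f w ≠ v := by
    intro w
    by_cases e : col w = s
    · have e1 := (hXm _).mp ((hfs w).1 e)
      exact ⟨e1.1.ne', e1.2.2⟩
    · have e1 := (hYm _).mp ((hfs w).2 e)
      exact ⟨e1.2.2, e1.1.ne'⟩
  apply hG
  let F : W ⊕ Bool → V := fun x => match x with
    | Sum.inl w => f w
    | Sum.inr t => if t = s then u else v
  have hF1 : ∀ w t, col w = t → G.Adj (F (Sum.inl w)) (F (Sum.inr t)) := by
    intro w t e
    by_cases e1 : t = s
    · have e2 := (hXm _).mp ((hfs w).1 (e.trans e1))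
      simp only [F, if_pos e1]
      exact (hle e2.1).symm
    · have e2 := (hYm _).mp ((hfs w).2 fun e3 => e1 (e.symm.trans e3))
      simp only [F, if_neg e1]
      exact (hle e2.1).symm
  have hFa : ∀ x y, (dens Γ col).Adj x y → G.Adj (F x) (F y) := by
    intro x y hxy
    rw [dens, SimpleGraph.fromRel_adj] at hxy
    rcases x with a | a <;> rcases y with b | b
    · rcases hxy.2 with e | e
      · exact hle (hfa a b e)
      · exact (hle (hfa b a e)).symm
    · rcases hxy.2 with e | e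
      · exact hF1 a b e
      · exact e.elim
    · rcases hxy.2 with e | e
      · exact e.elim
      · exact (hF1 b a e).symm
    · rcases hxy.2 with e | e <;> exact e.elim
  have hFi : Injective F := by
    intro x y hxy
    rcases x with a | a <;> rcases y with b | b
    · exact congrArg Sum.inl (hfi hxy)
    · exfalso
      simp only [F] at hxy
      split_ifs at hxy
      · exact (hfu a).1 hxy
      · exact (hfu a).2 hxy
    · exfalso
      simp only [F] at hxy
      split_ifs at hxy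
      · exact (hfu b).1 hxy.symm
      · exact (hfu b).2 hxy.symm
    · simp only [F] at hxy
      split_ifs at hxy with e1 e2 e2
      · rw [e1, e2]
      · exact (huv hxy).elim
      · exact (huv hxy.symm).elim
      · congr 1
        revert e1 e2
        cases a <;> cases b <;> cases s <;> simp
  exact ⟨⟨⟨F, fun {x y} hxy => hFa x y hxy⟩, hFi⟩⟩

end Pool.Agent.Work.MP_054302_co.X
end

-- merged part: Pool.Agent.Work.MP_054302_co.X.Dens2
section
namespace Pool.Agent.Work.MP_054302_co.X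

open Finset Function
open scoped Classical

lemma Dens2_adj_ll {W : Type} (Γ : SimpleGraph W) (col : W → Bool) (u v : W) :
    (dens Γ col).Adj (Sum.inl u) (Sum.inl v) ↔ Γ.Adj u v := by
  unfold dens
  rw [SimpleGraph.fromRel_adj]
  constructor
  · rintro ⟨_, h | h⟩
    · exact h
    · exact Γ.adj_symm h
  · intro h
    exact ⟨fun e => h.ne (Sum.inl_injective e), Or.inl h⟩

lemma Dens2_adj_lr {W : Type} (Γ : SimpleGraph W) (col : W → Bool) (u : W) (s : Bool) :
    (dens Γ col).Adj (Sum.inl u) (Sum.inr s) ↔ col u = s := by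
  unfold dens
  rw [SimpleGraph.fromRel_adj]
  constructor
  · rintro ⟨_, h | h⟩
    · exact h
    · exact h.elim
  · intro h
    exact ⟨Sum.inl_ne_inr, Or.inl h⟩

lemma Dens2_adj_rr {W : Type} (Γ : SimpleGraph W) (col : W → Bool) (s t : Bool) :
    ¬ (dens Γ col).Adj (Sum.inr s) (Sum.inr t) := by
  unfold dens
  rw [SimpleGraph.fromRel_adj]
  rintro ⟨_, h | h⟩
  · exact h.elim
  · exact h.elim

/-- The old graph sits inside the densified one. -/
def Dens2_hom {W : Type} (Γ : SimpleGraph W) (col : W → Bool) : Γ →g dens Γ col where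
  toFun := Sum.inl
  map_rel' := fun h => (Dens2_adj_ll Γ col _ _).2 h

lemma dens_conn {W : Type} [Fintype W] {Γ : SimpleGraph W} (hc : Γ.Connected)
    (h2 : 2 ≤ Fintype.card W) (col : W → Bool) (hcol : ∀ u v, Γ.Adj u v → col u ≠ col v) :
    (dens Γ col).Connected := by
  have : Nontrivial W := Fintype.one_lt_card_iff_nontrivial.1 (by omega)
  obtain ⟨u0⟩ := hc.nonempty
  obtain ⟨v0, h0⟩ := hc.preconnected.exists_adj_of_nontrivial u0
  have hne := hcol u0 v0 h0
  have hs : ∀ s : Bool, ∃ u, col u = s := by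
    intro s
    by_cases h : col u0 = s
    · exact ⟨u0, h⟩
    · refine ⟨v0, ?_⟩
      revert hne h
      cases col u0 <;> cases col v0 <;> cases s <;> simp
  have hr : ∀ x, (dens Γ col).Reachable (Sum.inl u0) x := by
    intro x
    cases x with
    | inl v => exact (hc.preconnected u0 v).map (Dens2_hom Γ col)
    | inr s =>
      obtain ⟨u, hu⟩ := hs s
      exact ((hc.preconnected u0 u).map (Dens2_hom Γ col)).trans
        ((Dens2_adj_lr Γ col u s).2 hu).reachable
  have : Nonempty (W ⊕ Bool) := ⟨Sum.inl u0⟩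
  exact ⟨fun x y => (hr x).symm.trans (hr y)⟩

lemma dens_col {W : Type} {Γ : SimpleGraph W} (col : W → Bool)
    (hcol : ∀ u v, Γ.Adj u v → col u ≠ col v) : (dens Γ col).Colorable 2 := by
  have C : (dens Γ col).Coloring Bool := by
    refine SimpleGraph.Coloring.mk (Sum.elim col fun s => !s) ?_
    intro x y h
    cases x with
    | inl u =>
      cases y with
      | inl v => exact hcol u v ((Dens2_adj_ll Γ col u v).1 h)
      | inr s =>
        have := (Dens2_adj_lr Γ col u s).1 h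
        simp [this]
    | inr s =>
      cases y with
      | inl v =>
        have := (Dens2_adj_lr Γ col v s).1 h.symm
        simp [this]
      | inr t => exact (Dens2_adj_rr Γ col s t h).elim
  simpa using C.colorable

lemma dens_edges {W : Type} [Fintype W] (Γ : SimpleGraph W) (col : W → Bool) :
    Γ.edgeSet.ncard + Fintype.card W ≤ (dens Γ col).edgeSet.ncard := by
  let A : Set (Sym2 (W ⊕ Bool)) := Sym2.map Sum.inl '' Γ.edgeSet
  let g : W → Sym2 (W ⊕ Bool) := fun w => s(Sum.inl w, Sum.inr (col w))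
  let B : Set (Sym2 (W ⊕ Bool)) := g '' Set.univ
  have hA : A.ncard = Γ.edgeSet.ncard :=
    Set.ncard_image_of_injective _ (Sym2.map.injective Sum.inl_injective)
  have hg : Injective g := by
    intro a b hab
    simp only [g, Sym2.eq_iff] at hab
    rcases hab with ⟨h, _⟩ | ⟨h, _⟩
    · exact Sum.inl_injective h
    · exact absurd h Sum.inl_ne_inr
  have hB : B.ncard = Fintype.card W := by
    rw [Set.ncard_image_of_injective _ hg, Set.ncard_univ, Nat.card_eq_fintype_card]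
  have hd : Disjoint A B := by
    rw [Set.disjoint_left]
    rintro e ⟨e', _, rfl⟩ ⟨w, _, hw⟩
    induction e' using Sym2.ind with
    | h a b =>
      simp only [g, Sym2.map_mk, Sym2.eq_iff] at hw
      rcases hw with ⟨_, h⟩ | ⟨_, h⟩
      · exact Sum.inr_ne_inl h
      · exact Sum.inr_ne_inl h
  have hsub : A ∪ B ⊆ (dens Γ col).edgeSet := by
    rintro e (⟨e', he', rfl⟩ | ⟨w, _, rfl⟩)
    · induction e' using Sym2.ind with
      | h a b =>
        rw [Sym2.map_mk, SimpleGraph.mem_edgeSet, Dens2_adj_ll]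
        exact he'
    · exact (Dens2_adj_lr Γ col w _).2 rfl
  rw [← hA, ← hB, ← Set.ncard_union_eq hd (Set.toFinite _) (Set.toFinite _)]
  exact Set.ncard_le_ncard hsub (Set.toFinite _)

theorem ok_dens {v e : ℕ} {γ : ℝ} (h0 : 0 < γ) (h1 : γ ≤ 1) (h : Ok v e γ) :
    Ok (v + 2) (e + v) (γ / (1 + γ)) := by
  obtain ⟨W, inst, Γ, hv, h2, he, hc, ⟨C⟩, hB⟩ := h
  let col : W → Bool := fun u => decide (C u = 0)
  have hcol : ∀ u v, Γ.Adj u v → col u ≠ col v := by
    intro a b hab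
    have := C.valid hab
    simp only [col]
    revert this
    generalize C a = x
    generalize C b = y
    revert x y
    decide
  refine ⟨W ⊕ Bool, inferInstance, dens Γ col, ?_, by omega, ?_, ?_, dens_col col hcol,
    bnd_dens h0 h1 hc col hcol hB⟩
  · rw [Fintype.card_sum, hv, Fintype.card_bool]
  · have := dens_edges Γ col
    omega
  · exact dens_conn hc (by omega) col hcol

lemma ok_mono {v e e' : ℕ} {γ : ℝ} (he : e' ≤ e) (h : Ok v e γ) : Ok v e' γ := by
  obtain ⟨W, inst, Γ, hv, h2, he', hc, hC, hB⟩ := h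
  exact ⟨W, inst, Γ, hv, h2, he.trans he', hc, hC, hB⟩

/-- Induction on `m` with `ok_dens`; `(B/A) / (1 + B/A) = B / (A + B)`. -/
theorem ok_iter (A B p w : ℕ) (hB : 1 ≤ B) (hA : B ≤ A)
    (h : Ok (p * B + w) (p * A) ((B : ℝ) / A)) (m : ℕ) :
    Ok (p * B + w + 2 * m) (p * (A + m * B)) ((B : ℝ) / (A + m * B : ℕ)) := by
  induction m with
  | zero => simpa using h
  | succ m ih =>
    have hBp : (0 : ℝ) < B := by exact_mod_cast hB
    have hle : B ≤ A + m * B := hA.trans (Nat.le_add_right _ _)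
    have hleR : (B : ℝ) ≤ ((A + m * B : ℕ) : ℝ) := by exact_mod_cast hle
    have hD : (0 : ℝ) < ((A + m * B : ℕ) : ℝ) := lt_of_lt_of_le hBp hleR
    have h1 := ok_dens (div_pos hBp hD) ((div_le_one hD).2 hleR) ih
    have e1 : (B : ℝ) / ((A + m * B : ℕ) : ℝ) / (1 + (B : ℝ) / ((A + m * B : ℕ) : ℝ)) =
        (B : ℝ) / ((A + (m + 1) * B : ℕ) : ℝ) := by
      have e2 : ((A + (m + 1) * B : ℕ) : ℝ) = ((A + m * B : ℕ) : ℝ) + B := by
        push_cast; ring
      rw [e2]
      generalize ((A + m * B : ℕ) : ℝ) = D at hD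
      field_simp
    rw [e1] at h1
    have e3 : p * B + w + 2 * (m + 1) = p * B + w + 2 * m + 2 := by ring
    rw [e3]
    refine ok_mono ?_ h1
    have e4 : p * (A + (m + 1) * B) = p * (A + m * B) + p * B := by ring
    omega

end Pool.Agent.Work.MP_054302_co.X
end

-- merged part: Pool.Agent.Work.MP_054302_co.X.Lower
section
namespace Pool.Agent.Work.MP_054302_co.X

open Finset Function Filter SimpleGraph Nd4bc9c34
open scoped Classical

theorem Lower_count {E : Type} [Fintype E] [DecidableEq E] {q : ℕ} (z : Fin q) (S : Finset E) :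
    q ^ S.card * (univ.filter fun χ : E → Fin q => ∀ e ∈ S, χ e = z).card =
      q ^ Fintype.card E := by
  have h : (univ.filter fun χ : E → Fin q => ∀ e ∈ S, χ e = z) =
      Fintype.piFinset fun e => if e ∈ S then {z} else univ := by
    ext χ
    simp only [mem_filter, mem_univ, true_and, Fintype.mem_piFinset]
    refine forall_congr' fun e => ?_
    by_cases he : e ∈ S <;> simp [he]
  have k : q ^ S.card = ∏ e : E, if e ∈ S then q else 1 := by
    rw [prod_ite_mem, univ_inter, prod_const]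
  rw [h, Fintype.card_piFinset, k, ← prod_mul_distrib, ← card_univ, ← prod_const]
  refine prod_congr rfl fun e _ => ?_
  by_cases he : e ∈ S <;> simp [he]

theorem Lower_kill {n k : ℕ} (F : SimpleGraph (Fin k)) (hF : F ≠ ⊥) (G : SimpleGraph (Fin n)) :
    G.edgeSet.ncard ≤ extremalNumber n F + G.labelledCopyCount F := by
  have h2 := card_edgeFinset_le_extremalNumber (free_killCopies (G := G) hF)
  rw [Fintype.card_fin, ← Set.ncard_coe_finset, coe_edgeFinset] at h2
  have h3 := le_card_edgeFinset_killCopies_add_copyCount (G := G) (H := F)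
  rw [← Set.ncard_coe_finset, ← Set.ncard_coe_finset, coe_edgeFinset, coe_edgeFinset] at h3
  exact h3.trans (add_le_add h2 copyCount_le_labelledCopyCount)

theorem Lower_one {n q k : ℕ} (F : SimpleGraph (Fin k)) (hF : F ≠ ⊥) (z : Fin q)
    (χ : Sym2 (Fin n) → Fin q) :
    ((⊤ : SimpleGraph (Fin n)).edgeFinset.filter fun e => χ e = z).card ≤ extremalNumber n F +
      ((univ.filter fun f : Fin k → Fin n => Injective f).filter fun f =>
        ∀ e ∈ F.edgeFinset.image (Sym2.map f), χ e = z).card := by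
  obtain ⟨G, hG⟩ : ∃ G : SimpleGraph (Fin n), G.edgeSet = {e | χ e = z} \ Sym2.diagSet :=
    ⟨fromEdgeSet _, edgeSet_fromEdgeSet _⟩
  refine le_trans ?_ ((Lower_kill F hF G).trans (Nat.add_le_add_left ?_ _))
  · rw [← Set.ncard_coe_finset]
    refine Set.ncard_le_ncard (fun e he => ?_) (Set.toFinite _)
    rw [mem_coe, mem_filter, mem_edgeFinset, edgeSet_top] at he
    rw [hG]
    exact ⟨he.2, he.1⟩
  rw [labelledCopyCount, ← @Nat.card_eq_fintype_card _ (_), ← Set.ncard_univ, ← Set.ncard_coe_finset]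
  refine Set.ncard_le_ncard_of_injOn (fun c : F.Copy G => (c : Fin k → Fin n)) (fun c _ => ?_)
    (fun c _ d _ e => DFunLike.coe_injective e) (Set.toFinite _)
  rw [mem_coe, mem_filter, mem_filter]
  refine ⟨⟨mem_univ _, c.injective⟩, fun e he => ?_⟩
  obtain ⟨e', he', rfl⟩ := mem_image.1 he
  have := c.toHom.map_mem_edgeSet (mem_edgeFinset.1 he')
  rw [hG] at this
  exact this.1

theorem Lower_ar {q Q l c N X A B : ℕ} (hq : 1 ≤ q) (Q0 : 0 < Q) (h : 2 * N ≤ q ^ l * c)
    (h1 : A ≤ Q * X + B) (h2 : q * A = c * Q) (h3 : q ^ (l + 1) * B ≤ N * Q) : c ≤ 2 * q * X := by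
  have h4 : 2 * q * B ≤ c * Q := by
    refine Nat.le_of_mul_le_mul_left (c := q ^ l) ?_ (pow_pos hq _)
    have := Nat.mul_le_mul_right Q h
    rw [pow_succ] at h3
    linarith
  refine Nat.le_of_mul_le_mul_left (c := Q) ?_ Q0
  have := Nat.mul_le_mul_left (2 * q) h1
  linarith

/-- Deletion method by averaging over all colourings `χ : Sym2 (Fin n) → Fin q`; `G χ` has the
non-diagonal pairs of colour `0` as edges. The mean number of edges is `choose n 2 / q`, the mean
number of injective maps `Fin k → Fin n` sending all `l` edges of `F` to colour `0` is at most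
`n^k / q^l`. Use `killCopies`, `le_card_edgeFinset_killCopies`, `free_killCopies`,
`copyCount_le_labelledCopyCount`, `card_edgeFinset_le_extremalNumber`. -/
theorem deletion (n q k l : ℕ) (F : SimpleGraph (Fin k)) (hF : F.edgeSet.ncard = l) (hl : 1 ≤ l)
    (hq : 1 ≤ q) (h : 2 * n ^ k ≤ q ^ (l - 1) * n.choose 2) :
    n.choose 2 ≤ 2 * q * extremalNumber n F := by
  have hb : F ≠ ⊥ := by
    rintro rfl
    rw [edgeSet_bot, Set.ncard_empty] at hF
    omega
  rw [← coe_edgeFinset, Set.ncard_coe_finset] at hF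
  let z : Fin q := ⟨0, hq⟩
  have h1 := sum_le_sum fun χ (_ : χ ∈ (univ : Finset (Sym2 (Fin n) → Fin q))) =>
    Lower_one F hb z χ
  rw [sum_add_distrib, sum_const, card_univ, Fintype.card_fun, Fintype.card_fin, smul_eq_mul] at h1
  simp only [card_filter] at h1
  rw [sum_comm, sum_comm (s := univ)] at h1
  simp only [← card_filter] at h1
  obtain ⟨Q, hQ⟩ : ∃ Q, Q = q ^ Fintype.card (Sym2 (Fin n)) := ⟨_, rfl⟩
  have Q0 : 0 < Q := hQ ▸ pow_pos hq _
  rw [← hQ] at h1
  have h2 : q * ∑ e ∈ (⊤ : SimpleGraph (Fin n)).edgeFinset,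
      (univ.filter fun χ : Sym2 (Fin n) → Fin q => χ e = z).card = n.choose 2 * Q := by
    rw [mul_sum, sum_congr rfl (g := fun _ => Q) fun e _ => by
      simpa [hQ] using Lower_count z {e}, sum_const, card_edgeFinset_top_eq_card_choose_two,
      Fintype.card_fin, smul_eq_mul]
  have h3 : q ^ l * ∑ f ∈ univ.filter fun f : Fin k → Fin n => Injective f,
      (univ.filter fun χ : Sym2 (Fin n) → Fin q =>
        ∀ e ∈ F.edgeFinset.image (Sym2.map f), χ e = z).card ≤ n ^ k * Q := by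
    rw [mul_sum, sum_congr rfl (g := fun _ => Q) fun f hf => by
      rw [hQ, ← Lower_count z (F.edgeFinset.image (Sym2.map f)),
        card_image_of_injective _ (Sym2.map.injective (mem_filter.1 hf).2), hF],
      sum_const, smul_eq_mul]
    refine Nat.mul_le_mul_right _ ((card_filter_le _ _).trans ?_)
    rw [card_univ, Fintype.card_fun, Fintype.card_fin, Fintype.card_fin]
  obtain ⟨l, rfl⟩ : ∃ m, l = m + 1 := ⟨l - 1, by omega⟩
  rw [Nat.add_sub_cancel] at h
  exact Lower_ar hq Q0 h h1 h2 h3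

/-- Choose `σ` with `(k-2)/(l-1) < σ < γ` and `q = ⌈n^σ⌉₊`. -/
theorem lower (k l : ℕ) (hk : 2 ≤ k) (hl : 2 ≤ l) (γ C : ℝ)
    (hγ : ((k : ℝ) - 2) / ((l : ℝ) - 1) < γ) :
    ∀ᶠ n : ℕ in atTop, ∀ F : SimpleGraph (Fin k), F.edgeSet.ncard = l →
      C * (n : ℝ) ^ (2 - γ) < extremalNumber n F := by
  obtain ⟨σ, s1, s2⟩ := exists_between hγ
  have k2 : (2 : ℝ) ≤ k := by exact_mod_cast hk
  have l2 : (2 : ℝ) ≤ l := by exact_mod_cast hl
  have s0 : 0 ≤ σ := (div_nonneg (by linarith) (by linarith)).trans s1.le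
  rw [div_lt_iff₀ (by linarith)] at s1
  have t : ∀ ε : ℝ, 0 < ε → ∀ D : ℝ, ∀ᶠ n : ℕ in atTop, D < (n : ℝ) ^ ε := fun ε h D =>
    ((tendsto_rpow_atTop h).comp tendsto_natCast_atTop_atTop).eventually_gt_atTop D
  filter_upwards [t (σ * (l - 1) - (k - 2)) (by linarith) 8, t (γ - σ) (by linarith) (16 * C),
    eventually_ge_atTop 2] with n h1 h2 hn F hF
  have n2 : (2 : ℝ) ≤ n := by exact_mod_cast hn
  have n0 : (0 : ℝ) < n := by linarith
  have p1 : (1 : ℝ) ≤ (n : ℝ) ^ σ := Real.one_le_rpow (by linarith) s0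
  have q1 : (n : ℝ) ^ σ ≤ (⌈(n : ℝ) ^ σ⌉₊ : ℝ) := Nat.le_ceil _
  have q2 : (⌈(n : ℝ) ^ σ⌉₊ : ℝ) ≤ 2 * (n : ℝ) ^ σ := by
    linarith [Nat.ceil_lt_add_one (zero_le_one.trans p1)]
  have c1 : (n : ℝ) ^ 2 ≤ 4 * (n.choose 2 : ℝ) := by
    rw [Nat.cast_choose_two]
    nlinarith
  have d := deletion n ⌈(n : ℝ) ^ σ⌉₊ k l F hF (by omega) (by exact_mod_cast p1.trans q1) (by
    have e1 : ((n : ℝ) ^ σ) ^ (l - 1) ≤ (⌈(n : ℝ) ^ σ⌉₊ : ℝ) ^ (l - 1) :=
      pow_le_pow_left₀ (zero_le_one.trans p1) q1 _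
    have e2 : ((n : ℝ) ^ σ) ^ (l - 1) * (n : ℝ) ^ 2 =
        (n : ℝ) ^ (σ * (l - 1) - (k - 2)) * (n : ℝ) ^ k := by
      rw [← Real.rpow_natCast, ← Real.rpow_natCast, ← Real.rpow_natCast, ← Real.rpow_mul n0.le,
        ← Real.rpow_add n0, ← Real.rpow_add n0, Nat.cast_sub (by omega)]
      congr 1
      push_cast
      ring
    have e3 := mul_le_mul e1 c1 (by positivity) (by positivity)
    have e4 := mul_le_mul_of_nonneg_right h1.le (pow_pos n0 k).le
    have : (2 : ℝ) * (n : ℝ) ^ k ≤ (⌈(n : ℝ) ^ σ⌉₊ : ℝ) ^ (l - 1) * (n.choose 2 : ℝ) := by linarith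
    exact_mod_cast this)
  have d' : (n.choose 2 : ℝ) ≤ 2 * (⌈(n : ℝ) ^ σ⌉₊ : ℝ) * extremalNumber n F := by exact_mod_cast d
  have e : (n : ℝ) ^ 2 = (n : ℝ) ^ σ * ((n : ℝ) ^ (γ - σ) * (n : ℝ) ^ (2 - γ)) := by
    rw [← Real.rpow_add n0, ← Real.rpow_add n0, ← Real.rpow_natCast]
    congr 1
    push_cast
    ring
  have e1 := mul_le_mul_of_nonneg_right q2 (Nat.cast_nonneg (α := ℝ) (extremalNumber n F))
  have e2 := mul_lt_mul_of_pos_right h2 (Real.rpow_pos_of_pos n0 (2 - γ))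
  have e3 : (n : ℝ) ^ (γ - σ) * (n : ℝ) ^ (2 - γ) ≤ 16 * extremalNumber n F :=
    le_of_mul_le_mul_left (a := (n : ℝ) ^ σ) (by linarith) (by linarith)
  linarith

end Pool.Agent.Work.MP_054302_co.X
end

-- merged part: Pool.Agent.Work.MP_054302_co.X.Pad
section
namespace Pool.Agent.Work.MP_054302_co.X

open Finset Function Filter SimpleGraph Nd4bc9c34
open scoped Classical

/-- Map `Γ` into `Fin k` along an embedding and keep `l` of its edges. A graph on `n ≥ k`
vertices containing `Γ` contains the result (extend the injection to `Fin k`). -/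
lemma exists_pad {W : Type} [Fintype W] (Γ : SimpleGraph W) (k l : ℕ) (hk : Fintype.card W ≤ k)
    (hl : l ≤ Γ.edgeSet.ncard) : ∃ F : SimpleGraph (Fin k), F.edgeSet.ncard = l ∧
      ∀ n, k ≤ n → ∀ G : SimpleGraph (Fin n), Γ.IsContained G → F.IsContained G := by
  obtain ⟨j⟩ : Nonempty (W ↪ Fin k) := Function.Embedding.nonempty_of_card_le (by simpa using hk)
  have e : (Γ.map j).edgeSet.ncard = Γ.edgeSet.ncard := by
    rw [edgeSet_map, Set.ncard_image_of_injective _ j.sym2Map.injective]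
  obtain ⟨T, hT, hc⟩ := Set.exists_subset_card_eq (hl.trans e.ge)
  have e2 : (fromEdgeSet T).edgeSet = T := by
    rw [edgeSet_fromEdgeSet, sdiff_eq_left, Set.disjoint_left]
    exact fun x hx => (Γ.map j).not_isDiag_of_mem_edgeSet (hT hx)
  refine ⟨fromEdgeSet T, by rw [e2, hc], fun n hn G ⟨f⟩ => ?_⟩
  obtain ⟨i⟩ : Nonempty (Fin k ↪ Fin n) :=
    Function.Embedding.nonempty_of_card_le (by simpa using hn)
  obtain ⟨σ, hσ⟩ := Equiv.Perm.exists_extending_pair _ _ (i.injective.comp j.injective) f.injective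
  refine ⟨⟨⟨fun x => σ (i x), fun {a b} hab => ?_⟩, σ.injective.comp i.injective⟩⟩
  have h1 : s(a, b) ∈ (Γ.map j).edgeSet := hT (e2 ▸ (mem_edgeSet _).2 hab)
  obtain ⟨u, v, huv, rfl, rfl⟩ := (map_adj _ _ _ _).1 ((mem_edgeSet _).1 h1)
  have h2 := f.toHom.map_adj huv
  rwa [show f.toHom u = σ (i (j u)) from (hσ u).symm,
    show f.toHom v = σ (i (j v)) from (hσ v).symm] at h2

/-- `extremalNumber_le_iff_of_nonneg` and `iInf₂_le`. -/
theorem min_le_of_ok {v e k l : ℕ} {γ : ℝ} (h : Ok v e γ) (hk : v ≤ k) (hl : l ≤ e) :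
    ∃ C : ℝ, ∀ n : ℕ, k ≤ n → ∃ x : ℕ, minExtremalNumber n k l ≤ x ∧
      (x : ℝ) ≤ C * (n : ℝ) ^ (2 - γ) := by
  obtain ⟨W, _, Γ, rfl, -, he, -, -, C, hC, hB⟩ := h
  obtain ⟨F, hF, h⟩ := exists_pad Γ k l hk (hl.trans he)
  refine ⟨C, fun n hn => ⟨extremalNumber n F, iInf₂_le F hF, ?_⟩⟩
  have := (extremalNumber_le_iff_of_nonneg (V := Fin n) F
    (m := C * (n : ℝ) ^ (2 - γ)) (by positivity)).2 fun G _ hG => by
      have h1 := hB (Fin n) G fun hc => hG (h n hn G hc)
      rwa [Fintype.card_fin, ← coe_edgeFinset, Set.ncard_coe_finset] at h1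
  rwa [Fintype.card_fin] at this

/-- The choice `B = sqrt k + 1`, `p = (k - B - 2 m) / B`, `A = ⌈l / p⌉`. The hypotheses force
`sqrt k ≥ 20 (m+1)`. -/
lemma choose_params (m k l l' : ℕ) (hm : 1 ≤ m) (hk : 1 ≤ k) (h1 : (2 * m + 1) * k ≤ 2 * l)
    (h2 : l' ≤ (m + 1) * k) (h3 : (l : ℝ) + 10 * (m + 1) * Real.sqrt k ≤ l') :
    ∃ A B p : ℕ, 1 ≤ p ∧ (2 * m + 1) * B ≤ 2 * A ∧ A < (m + 1) * B ∧ p * B + B + 2 * m ≤ k ∧
      l ≤ p * A ∧ 2 ≤ k ∧ 2 ≤ l' ∧ ((k : ℝ) - 2) / ((l' : ℝ) - 1) < (B : ℝ) / A := by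
  have r1 : ((Nat.sqrt k : ℕ) : ℝ) ≤ Real.sqrt k := Real.nat_sqrt_le_real_sqrt
  have r2 : (20 * (m + 1) : ℝ) ≤ Real.sqrt k := by
    have a1 : ((2 * m + 1) * k : ℝ) ≤ 2 * l := by exact_mod_cast h1
    have a2 : (l' : ℝ) ≤ (m + 1) * k := by exact_mod_cast h2
    have a3 : Real.sqrt k * Real.sqrt k = k := Real.mul_self_sqrt k.cast_nonneg
    have a4 : 0 < Real.sqrt k := Real.sqrt_pos.2 (by exact_mod_cast hk)
    exact le_of_mul_le_mul_right (by linarith) a4
  have n1 : 20 * (m + 1) ≤ Nat.sqrt k := by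
    rw [Nat.le_sqrt']
    have := (Real.le_sqrt (by positivity) k.cast_nonneg).1 r2
    exact_mod_cast this
  have n2 : l + 10 * ((m + 1) * Nat.sqrt k) ≤ l' := by
    have : (l : ℝ) + 10 * ((m + 1) * (Nat.sqrt k : ℕ)) ≤ l' := by
      have := mul_le_mul_of_nonneg_left r1 (by positivity : (0 : ℝ) ≤ m + 1)
      linarith
    exact_mod_cast this
  have n3 := Nat.sqrt_le k
  have n4 := Nat.lt_succ_sqrt k
  generalize Nat.sqrt k = s at n1 n2 n3 n4
  have n5 : 20 * s ≤ k := (Nat.mul_le_mul_right s (by omega)).trans n3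
  have d1 := Nat.div_mul_le_self (k - (s + 1) - 2 * m) (s + 1)
  have d2 := Nat.lt_div_mul_add (a := k - (s + 1) - 2 * m) s.succ_pos
  rw [Nat.succ_eq_add_one] at d2 n4
  generalize (k - (s + 1) - 2 * m) / (s + 1) = p at d1 d2
  have p1 : 1 ≤ p := by
    rcases p with _ | p
    · omega
    · omega
  have p2 : p < s + 1 := lt_of_mul_lt_mul_right (by omega) (s + 1).zero_le
  have c1 := Nat.div_mul_le_self (l + p - 1) p
  have c2 := Nat.lt_div_mul_add (a := l + p - 1) p1
  generalize (l + p - 1) / p = A at c1 c2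
  have t1 : s ≤ (m + 1) * s := Nat.le_mul_of_pos_left s m.succ_pos
  obtain ⟨L, rfl⟩ : ∃ L, l' = L + 1 := ⟨l' - 1, by omega⟩
  have k1 : k * L ≤ (p * (s + 1) + 3 * s) * L := Nat.mul_le_mul_right L (by omega)
  have k2 : 3 * s * L ≤ 3 * s * ((m + 1) * k) := Nat.mul_le_mul_left _ (by omega)
  have k3 : k * (A * p + 1 + 3 * ((m + 1) * s)) ≤ k * L := Nat.mul_le_mul_left _ (by omega)
  have k4 : A * k < (s + 1) * L := lt_of_mul_lt_mul_left (a := p) (by linarith) p.zero_le
  have k5 : (2 * m + 1) * (s + 1) ≤ 2 * A := by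
    have := Nat.mul_le_mul_left (2 * m + 1) (show p * (s + 1) ≤ k by omega)
    have a : l ≤ A * p := by omega
    exact le_of_mul_le_mul_left (a := p) (by linarith) p1
  have k6 : A < (m + 1) * (s + 1) := by
    have := Nat.mul_le_mul_left (s + 1) (show L ≤ (m + 1) * k by omega)
    exact lt_of_mul_lt_mul_right (a := k) (by linarith) k.zero_le
  have k7 : 0 < A := by
    have := Nat.mul_pos (2 * m).succ_pos s.succ_pos
    simp only [Nat.succ_eq_add_one] at this
    omega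
  refine ⟨A, s + 1, p, p1, k5, k6, by omega, by rw [mul_comm]; omega, by omega, by omega, ?_⟩
  have k8 : (0 : ℝ) < L := by exact_mod_cast (show 0 < L by omega)
  have k9 : (0 : ℝ) < A := by exact_mod_cast k7
  have k10 : (A : ℝ) * k < ((s + 1 : ℕ) : ℝ) * L := by exact_mod_cast k4
  rw [Nat.cast_succ L, add_sub_cancel_right, div_lt_div_iff₀ k8 k9]
  linarith

end Pool.Agent.Work.MP_054302_co.X
end

-- merged part: Pool.Agent.Work.MP_054302_co.Y.Final
section
namespace Pool.Agent.Work.MP_054302_co.Y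

open Finset Function Filter SimpleGraph Nd4bc9c34 Pool.Agent.Work.MP_054302_co.X
open scoped Classical

theorem ok_one (B ρ p : ℕ) (hB : 1 ≤ B) (hρ : ρ < B) (hp : 1 ≤ p) :
    Ok (p * B + (ρ + 1)) (p * (B + ρ)) ((B : ℝ) / (B + ρ : ℕ)) := by
  rcases Nat.eq_zero_or_pos ρ with rfl | h
  · have hB' : (B : ℝ) ≠ 0 := by exact_mod_cast (by omega : B ≠ 0)
    show Ok (p * B + 1) (p * B) ((B : ℝ) / B)
    rw [div_self hB']
    exact ok_star (p * B) (Nat.mul_pos hp hB)
  · have := ok_base (B + ρ) B p (by omega) (by omega) hp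
    rwa [show B + ρ + 1 - B = ρ + 1 by omega] at this

theorem all_ratios (A B p k l : ℕ) (hB : 1 ≤ B) (hA : B ≤ A) (hp : 1 ≤ p)
    (hk : p * B + A % B + 2 * (A / B) ≤ k + 1) (hl : l ≤ p * A) :
    ∃ C : ℝ, ∀ n : ℕ, k ≤ n → ∃ x : ℕ, minExtremalNumber n k l ≤ x ∧
      (x : ℝ) ≤ C * (n : ℝ) ^ (2 - (B : ℝ) / A) := by
  obtain ⟨j, hj⟩ : ∃ j, A / B = j + 1 := ⟨A / B - 1, by
    have := Nat.div_pos hA hB
    omega⟩
  have e : B + A % B + j * B = A := by
    have := Nat.div_add_mod A B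
    rw [hj, mul_add, mul_one, mul_comm B j] at this
    omega
  have h := ok_iter (B + A % B) B p (A % B + 1) hB (by omega)
    (ok_one B (A % B) p hB (Nat.mod_lt A hB) hp) j
  rw [e] at h
  exact min_le_of_ok h (by omega) hl

theorem gaps (k l l' : ℕ) (hk : 1 ≤ k) (h1 : k ≤ l)
    (h3 : (l : ℝ) + 6 * Real.sqrt l' + 16 * ((l' : ℝ) / k) ^ 2 ≤ l') :
    ∀ᶠ n : ℕ in atTop, minExtremalNumber n k l < minExtremalNumber n k l' := by
  obtain ⟨A, B, p, hp, g1, g2, g3, g4, g5, g6, g7⟩ := choose_all k l l' hk h1 h3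
  obtain ⟨C, hC⟩ := all_ratios A B p k l g1 g2 hp g3 g4
  filter_upwards [lower k l' g5 g6 _ C g7, eventually_ge_atTop k] with n hn hkn
  obtain ⟨x, hx1, hx2⟩ := hC n hkn
  have : ((x + 1 : ℕ) : ℕ∞) ≤ minExtremalNumber n k l' := by
    refine le_iInf₂ fun F hF => ?_
    have : (x : ℝ) < extremalNumber n F := hx2.trans_lt (hn F hF)
    have : x < extremalNumber n F := by exact_mod_cast this
    exact_mod_cast this
  refine hx1.trans_lt (lt_of_lt_of_le ?_ this)
  exact_mod_cast Nat.lt_succ_self x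

end Pool.Agent.Work.MP_054302_co.Y
end
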