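import Mathlib

-- merged part: Pool.Agent.Work.MP_054302_co.X.Defs
section
/-!
Definitions for the upper bound on Turan numbers of powers of subdivided caterpillars.
-/

namespace Pool.Agent.Work.MP_054302_co.X

open Finset Function
open scoped Classical

/-- Labels of the vertices of the caterpillar (also the dummy ones). -/
inductive Lb : Type
  | c (i : ℕ) : Lb
  | y (i : ℕ) : Lb
  | m (i : ℕ) : Lb
  | a (i j : ℕ) : Lb
  | z (i j : ℕ) : Lb
  deriving DecidableEq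

/-- Position on the doubled scale. -/
def pos : Lb → ℕ
  | .c i => 2 * i
  | .y i => 2 * i
  | .m i => 2 * i + 1
  | .a i _ => 2 * i
  | .z i _ => 2 * i

/-- The class of branch vertices and far roots. -/
def isX : Lb → Bool
  | .c _ => true
  | .z _ _ => true
  | _ => false

/-- Root labels. -/
def isRoot : Lb → Bool
  | .y _ => true
  | .z _ _ => true
  | _ => false

/-- Labels that are vertices of the tree. -/
def IsReal (N : ℕ) (r : ℕ → ℕ) : Lb → Prop
  | .c i => 1 ≤ i ∧ i ≤ N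
  | .y i => 1 ≤ i ∧ i ≤ N
  | .m i => 1 ≤ i ∧ i < N
  | .a i j => 1 ≤ i ∧ i ≤ N ∧ j < r i
  | .z i j => 1 ≤ i ∧ i ≤ N ∧ j < r i

/-- Oriented edges of the tree, first end in the class `isX`. -/
def Ed (N : ℕ) (r : ℕ → ℕ) : Lb → Lb → Prop
  | .c i, .y j => i = j ∧ 1 ≤ j ∧ j ≤ N
  | .c i, .m j => (i = j ∨ i = j + 1) ∧ 1 ≤ j ∧ j < N
  | .c i, .a j k => i = j ∧ 1 ≤ j ∧ j ≤ N ∧ k < r j
  | .z i l, .a j k => i = j ∧ l = k ∧ 1 ≤ j ∧ j ≤ N ∧ k < r j
  | _, _ => False

/-- Adjacency in the tree. -/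
def adj (N : ℕ) (r : ℕ → ℕ) (u v : Lb) : Prop := Ed N r u v ∨ Ed N r v u

/-- The vertex set of the tree. -/
def VT (N : ℕ) (r : ℕ → ℕ) : Finset Lb :=
  (Icc 1 N).image Lb.c ∪ (Icc 1 N).image Lb.y ∪ (Ico 1 N).image Lb.m ∪
    (Icc 1 N).biUnion (fun i => (range (r i)).image (Lb.a i)) ∪
    (Icc 1 N).biUnion (fun i => (range (r i)).image (Lb.z i))

lemma mem_VT {N : ℕ} {r : ℕ → ℕ} {v : Lb} : v ∈ VT N r ↔ IsReal N r v := by
  cases v <;> simp [VT, IsReal, and_assoc]

/-- Real vertices with position in a closed range. -/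
def Seg (N : ℕ) (r : ℕ → ℕ) (lo hi : ℕ) : Finset Lb :=
  (VT N r).filter fun v => lo ≤ pos v ∧ pos v ≤ hi

lemma mem_Seg {N : ℕ} {r : ℕ → ℕ} {lo hi : ℕ} {v : Lb} :
    v ∈ Seg N r lo hi ↔ IsReal N r v ∧ lo ≤ pos v ∧ pos v ≤ hi := by
  simp [Seg, mem_VT]

/-- Non-root part of the piece strictly between positions `a` and `b`. -/
def Nn (N : ℕ) (r : ℕ → ℕ) (a b : ℕ) : Finset Lb :=
  (VT N r).filter fun v => isRoot v = false ∧ 2 * a < pos v ∧ pos v < 2 * b

lemma mem_Nn {N : ℕ} {r : ℕ → ℕ} {a b : ℕ} {v : Lb} :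
    v ∈ Nn N r a b ↔ IsReal N r v ∧ isRoot v = false ∧ 2 * a < pos v ∧ pos v < 2 * b := by
  simp [Nn, mem_VT]

/-- Roots of the piece together with the two anchor labels. -/
def Lab (N : ℕ) (r : ℕ → ℕ) (a b : ℕ) : Finset Lb :=
  insert (Lb.y a) (insert (Lb.y b)
    ((VT N r).filter fun v => isRoot v = true ∧ 2 * a < pos v ∧ pos v < 2 * b))

lemma mem_Lab {N : ℕ} {r : ℕ → ℕ} {a b : ℕ} {v : Lb} :
    v ∈ Lab N r a b ↔ v = Lb.y a ∨ v = Lb.y b ∨
      (IsReal N r v ∧ isRoot v = true ∧ 2 * a < pos v ∧ pos v < 2 * b) := by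
  simp [Lab, mem_VT]

/-- All non-roots. -/
def NR (N : ℕ) (r : ℕ → ℕ) : Finset Lb := (VT N r).filter fun v => isRoot v = false

/-- All roots. -/
def RT (N : ℕ) (r : ℕ → ℕ) : Finset Lb := (VT N r).filter fun v => isRoot v = true

lemma mem_NR {N : ℕ} {r : ℕ → ℕ} {v : Lb} : v ∈ NR N r ↔ IsReal N r v ∧ isRoot v = false := by
  simp [NR, mem_VT]

lemma mem_RT {N : ℕ} {r : ℕ → ℕ} {v : Lb} : v ∈ RT N r ↔ IsReal N r v ∧ isRoot v = true := by
  simp [RT, mem_VT]

section general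

variable {L V : Type} [DecidableEq L] [Fintype V] [DecidableEq V]

/-- The set `S` of labels can be re-embedded avoiding any `B` vertices, the rest staying at `g`. -/
def Rob (A : L → L → Prop) (G : SimpleGraph V) (B : ℕ) (S : Finset L) (g : L → V) : Prop :=
  ∀ Z : Finset V, Z.card ≤ B → ∃ f : L → V, (∀ v, v ∉ S → f v = g v) ∧ Set.InjOn f S ∧
    (∀ v ∈ S, f v ∉ Z) ∧ ∀ u ∈ S, ∀ v, A u v → G.Adj (f u) (f v)

/-- `U` is connected for the relation `A`. -/
def Conn (A : L → L → Prop) (U : Finset L) : Prop :=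
  ∀ S : Finset L, S ⊆ U → S.Nonempty → S ≠ U → ∃ u ∈ S, ∃ v ∈ U, v ∉ S ∧ A u v

/-- Neighbourhood as a finset. -/
noncomputable def nbr (G : SimpleGraph V) (v : V) : Finset V := univ.filter fun w => G.Adj v w

lemma mem_nbr {G : SimpleGraph V} {v w : V} : w ∈ nbr G v ↔ G.Adj v w := by simp [nbr]

/-- Heavy pair: two different vertices with at least `Q` common neighbours. -/
def Jp (G : SimpleGraph V) (Q : ℕ) (x x' : V) : Prop :=
  x ≠ x' ∧ Q ≤ (nbr G x ∩ nbr G x').card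

/-- Ordered heavy pairs inside `U`. -/
noncomputable def jpairs (G : SimpleGraph V) (Q : ℕ) (U : Finset V) : Finset (V × V) :=
  (U ×ˢ U).filter fun p => Jp G Q p.1 p.2

lemma mem_jpairs {G : SimpleGraph V} {Q : ℕ} {U : Finset V} {p : V × V} :
    p ∈ jpairs G Q U ↔ p.1 ∈ U ∧ p.2 ∈ U ∧ Jp G Q p.1 p.2 := by
  simp [jpairs, and_assoc]

/-- First coordinates paired with `y` in the host. -/
def nbX (H : Finset (V × V)) (y : V) : Finset V := univ.filter fun x => (x, y) ∈ H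

/-- Second coordinates paired with `x` in the host. -/
def nbY (H : Finset (V × V)) (x : V) : Finset V := univ.filter fun y => (x, y) ∈ H

lemma mem_nbX {H : Finset (V × V)} {x y : V} : x ∈ nbX H y ↔ (x, y) ∈ H := by simp [nbX]

lemma mem_nbY {H : Finset (V × V)} {x y : V} : y ∈ nbY H x ↔ (x, y) ∈ H := by simp [nbY]

/-- A host: a nonempty set of ordered edges of `G` with all degrees at least `lam`. -/
structure Host (G : SimpleGraph V) (H : Finset (V × V)) (Xs Ys : Finset V) (lam : ℝ) : Prop where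
  ne : H.Nonempty
  sub : ∀ p ∈ H, G.Adj p.1 p.2 ∧ p.1 ∈ Xs ∧ p.2 ∈ Ys
  dX : ∀ x ∈ Xs, lam ≤ ((nbY H x).card : ℝ)
  dY : ∀ y ∈ Ys, lam ≤ ((nbX H y).card : ℝ)

/-- Maps that are constant `v0` off `U`. -/
noncomputable def Maps (U : Finset L) (v0 : V) : Finset (L → V) :=
  (U.pi fun _ => (univ : Finset V)).image fun g v => if h : v ∈ U then g v h else v0

lemma mem_Maps {U : Finset L} {v0 : V} {f : L → V} : f ∈ Maps U v0 ↔ ∀ v, v ∉ U → f v = v0 := by
  simp only [Maps, mem_image, mem_pi, mem_univ, implies_true, true_and]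
  constructor
  · rintro ⟨g, rfl⟩ v hv
    simp [hv]
  · intro h
    refine ⟨fun v _ => f v, ?_⟩
    funext v
    by_cases hv : v ∈ U
    · simp [hv]
    · simp [hv, h v hv]

/-- The sunflower constant. -/
def sunC (u Q : ℕ) : ℕ := (Q * u ^ 2 + 1) ^ u

/-- `f` is a petal of a sunflower with `Q` petals inside `F`, with a proper kernel in `U0`. -/
def IsPetal (U0 : Finset L) (Q : ℕ) (F : Finset (L → V)) (f : L → V) : Prop :=
  ∃ K : Finset L, K ⊆ U0 ∧ K ≠ U0 ∧ ∃ P : Finset (L → V), P ⊆ F ∧ f ∈ P ∧ Q ≤ P.card ∧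
    (∀ g ∈ P, ∀ v ∈ K, g v = f v) ∧
    ∀ g ∈ P, ∀ h ∈ P, g ≠ h → ∀ v ∈ U0, v ∉ K → ∀ w ∈ U0, w ∉ K → g v ≠ h w

/-- The light alternative of the homogeneity lemma. -/
def Lt {σ : Type} (H : Finset (V × V)) (Δ : ℕ) (θ : ℝ) (adm : V → σ → Prop)
    (supp : σ → Finset V) (own : V → Finset V) (wt : σ → V → ℕ) : Prop :=
  ∀ y s, adm y s → Disjoint (supp s) (own y) →
    (∑ x ∈ nbX H y, (wt s x : ℝ)) < θ * (Δ : ℝ) ^ 2

/-- Lists of admissible stems with disjoint supports that cover almost all edges. -/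
structure Lists {σ : Type} (H : Finset (V × V)) (Δ : ℕ) (θ : ℝ) (D : ℕ) (β : ℝ)
    (adm : V → σ → Prop) (supp : σ → Finset V) (wt : σ → V → ℕ) (Ls : V → Finset σ) : Prop where
  card_le : ∀ y, (Ls y).card ≤ D
  adm : ∀ y, ∀ s ∈ Ls y, adm y s
  disj : ∀ y, ∀ s ∈ Ls y, ∀ s' ∈ Ls y, s ≠ s' → Disjoint (supp s) (supp s')
  cov : ((H.filter fun p => (∑ s ∈ Ls p.2, (wt s p.1 : ℝ)) < θ / 2 * D * Δ).card : ℝ) ≤
    β * H.card

/-- Separated vertices. -/
def Sep (S : V → Finset V) (x x' : V) : Prop := x ≠ x' ∧ x ∉ S x' ∧ x' ∉ S x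

/-- `w` is pairwise separated on `A`. -/
def PSep (S : V → Finset V) (A : Finset L) (w : L → V) : Prop :=
  ∀ u ∈ A, ∀ v ∈ A, u ≠ v → Sep S (w u) (w v)

end general

section tree

variable {V : Type} [Fintype V] [DecidableEq V]

/-- An injective choice of the roots with robustly many copies of the tree on it. -/
def Full (N : ℕ) (r : ℕ → ℕ) (G : SimpleGraph V) (B : ℕ) : Prop :=
  ∃ w : Lb → V, Set.InjOn w (RT N r) ∧ Rob (adj N r) G B (NR N r) w

/-- Side respecting homomorphisms of `U` into the host. -/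
noncomputable def Hom (N : ℕ) (r : ℕ → ℕ) (H : Finset (V × V)) (Xs Ys : Finset V)
    (U : Finset Lb) (v0 : V) : Finset (Lb → V) :=
  (Maps U v0).filter fun f => (∀ v ∈ U, (isX v = true → f v ∈ Xs) ∧ (isX v = false → f v ∈ Ys)) ∧
    ∀ u ∈ U, ∀ v ∈ U, Ed N r u v → (f u, f v) ∈ H

lemma mem_Hom {N : ℕ} {r : ℕ → ℕ} {H : Finset (V × V)} {Xs Ys : Finset V} {U : Finset Lb}
    {v0 : V} {f : Lb → V} : f ∈ Hom N r H Xs Ys U v0 ↔ (∀ v, v ∉ U → f v = v0) ∧
      (∀ v ∈ U, (isX v = true → f v ∈ Xs) ∧ (isX v = false → f v ∈ Ys)) ∧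
      ∀ u ∈ U, ∀ v ∈ U, Ed N r u v → (f u, f v) ∈ H := by
  simp only [Hom, mem_filter, mem_Maps]

/-- The piece `(a,b)` is robust on the roots `w` with boundary vertices `cL`, `cR`. -/
def Good (N : ℕ) (r : ℕ → ℕ) (G : SimpleGraph V) (B a b : ℕ) (w : Lb → V) (cL cR : V) : Prop :=
  Rob (adj N r) G B (Nn N r a b) (update (update w (Lb.c a) cL) (Lb.c b) cR)

/-- The good boundary pairs of `w`. -/
noncomputable def gpairs (N : ℕ) (r : ℕ → ℕ) (G : SimpleGraph V) (H : Finset (V × V))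
    (B a b : ℕ) (w : Lb → V) : Finset (V × V) :=
  (nbX H (w (Lb.y a)) ×ˢ nbX H (w (Lb.y b))).filter fun p => Good N r G B a b w p.1 p.2

lemma mem_gpairs {N : ℕ} {r : ℕ → ℕ} {G : SimpleGraph V} {H : Finset (V × V)} {B a b : ℕ}
    {w : Lb → V} {p : V × V} : p ∈ gpairs N r G H B a b w ↔
      (p.1, w (Lb.y a)) ∈ H ∧ (p.2, w (Lb.y b)) ∈ H ∧ Good N r G B a b w p.1 p.2 := by
  simp [gpairs, mem_nbX, and_assoc]

/-- A separated labelling of the piece with many good boundary pairs. -/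
def Heavy (N : ℕ) (r : ℕ → ℕ) (G : SimpleGraph V) (H : Finset (V × V)) (S : V → Finset V)
    (B : ℕ) (thr : ℝ) (a b : ℕ) : Prop :=
  ∃ w : Lb → V, PSep S (Lab N r a b) w ∧ thr ≤ ((gpairs N r G H B a b w).card : ℝ)

/-- Weight in the right view. -/
noncomputable def wtR (N : ℕ) (r : ℕ → ℕ) (G : SimpleGraph V) (H : Finset (V × V))
    (B a b : ℕ) (w : Lb → V) (x : V) : ℕ :=
  ((nbX H (w (Lb.y a))).filter fun cL => Good N r G B a b w cL x).card

/-- Weight in the left view. -/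
noncomputable def wtL (N : ℕ) (r : ℕ → ℕ) (G : SimpleGraph V) (H : Finset (V × V))
    (B a b : ℕ) (w : Lb → V) (x : V) : ℕ :=
  ((nbX H (w (Lb.y b))).filter fun cR => Good N r G B a b w x cR).card

/-- Admissible stems in the right view. -/
def admR (N : ℕ) (r : ℕ → ℕ) (S : V → Finset V) (a b : ℕ) (y : V) (w : Lb → V) : Prop :=
  w (Lb.y b) = y ∧ PSep S (Lab N r a b) w

/-- Admissible stems in the left view. -/
def admL (N : ℕ) (r : ℕ → ℕ) (S : V → Finset V) (a b : ℕ) (y : V) (w : Lb → V) : Prop :=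
  w (Lb.y a) = y ∧ PSep S (Lab N r a b) w

/-- Support in the right view. -/
def suppR (N : ℕ) (r : ℕ → ℕ) (a b : ℕ) (w : Lb → V) : Finset V :=
  ((Lab N r a b).erase (Lb.y b)).image w

/-- Support in the left view. -/
def suppL (N : ℕ) (r : ℕ → ℕ) (a b : ℕ) (w : Lb → V) : Finset V :=
  ((Lab N r a b).erase (Lb.y a)).image w

end tree

/-- The factor condition on the word. -/
def Slack (N : ℕ) (r : ℕ → ℕ) (α : ℝ) : Prop :=
  ∀ b b' : ℕ, 1 ≤ b → b ≤ b' → b' ≤ N →
    ((b' + 1 - b : ℕ) : ℝ) + (∑ i ∈ Icc b b', r i : ℕ) - 1 ≤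
      α * (3 * ((b' + 1 - b : ℕ) : ℝ) - 2 + 2 * (∑ i ∈ Icc b b', r i : ℕ))

/-- Vertices of the power of the tree. -/
def TpS (N : ℕ) (r : ℕ → ℕ) (p : ℕ) : Finset (Lb × ℕ) :=
  (VT N r ×ˢ range p).filter fun x => isRoot x.1 = true → x.2 = 0

/-- The `p`-th power of the rooted tree. -/
def Tp (N : ℕ) (r : ℕ → ℕ) (p : ℕ) : SimpleGraph (TpS N r p) :=
  SimpleGraph.fromRel fun x x' => adj N r x.1.1 x'.1.1 ∧
    (x.1.2 = x'.1.2 ∨ isRoot x.1.1 = true ∨ isRoot x'.1.1 = true)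

/-- Graphs without a copy of `Γ` have `O(n^(2-γ))` edges. -/
def Bnd {W : Type} (Γ : SimpleGraph W) (γ : ℝ) : Prop :=
  ∃ C : ℝ, 0 < C ∧ ∀ (V : Type) [Fintype V] (G : SimpleGraph V), ¬ Γ.IsContained G →
    (G.edgeSet.ncard : ℝ) ≤ C * (Fintype.card V : ℝ) ^ (2 - γ)

/-- A connected bipartite graph with `v` vertices, at least `e` edges and exponent `2-γ`. -/
def Ok (v e : ℕ) (γ : ℝ) : Prop :=
  ∃ (W : Type) (_ : Fintype W) (Γ : SimpleGraph W), Fintype.card W = v ∧ 2 ≤ v ∧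
    e ≤ Γ.edgeSet.ncard ∧ Γ.Connected ∧ Γ.Colorable 2 ∧ Bnd Γ γ

end Pool.Agent.Work.MP_054302_co.X
end

-- merged part: Pool.Agent.Work.MP_054302_co.X.Count
section
namespace Pool.Agent.Work.MP_054302_co.X

open Finset Function
open scoped Classical

variable {L V : Type} [DecidableEq L] [Fintype V] [DecidableEq V]
  {A : L → L → Prop} {G : SimpleGraph V} {Δ : ℕ}

/-- Induction on `U.card - S.card`: pick an edge `u v` from `S` to `U \ S`, the value at `v`
lies in the neighbourhood of the common value at `u`; split `F` by that value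
(`card_le_mul_card_image`). If `S = U` all members of `F` coincide. -/
lemma ext_ub (hdeg : ∀ v, (nbr G v).card ≤ Δ) {U S : Finset L} (hc : Conn A U) (hS : S ⊆ U)
    (hne : S.Nonempty) (F : Finset (L → V))
    (hadj : ∀ f ∈ F, ∀ u ∈ U, ∀ v ∈ U, A u v → G.Adj (f u) (f v))
    (hag : ∀ f ∈ F, ∀ g ∈ F, ∀ v, (v ∈ S ∨ v ∉ U) → f v = g v) :
    F.card ≤ Δ ^ (U.card - S.card) := by
  induction hk : U.card - S.card generalizing S F with
  | zero =>
    have e : S = U := eq_of_subset_of_card_le hS (by omega)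
    rw [pow_zero]
    refine card_le_one.2 fun f hf g hg => funext fun v => hag f hf g hg v ?_
    rw [e]
    exact em _
  | succ k ih =>
    have e : S ≠ U := fun e => by rw [e] at hk; omega
    obtain ⟨u, hu, v, hv, hvS, huv⟩ := hc S hS hne e
    rcases F.eq_empty_or_nonempty with rfl | ⟨f0, hf0⟩
    · simp
    have h1 : (F.image fun f => f v).card ≤ Δ := by
      refine (card_le_card fun x hx => ?_).trans (hdeg (f0 u))
      obtain ⟨f, hf, rfl⟩ := mem_image.1 hx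
      rw [mem_nbr, hag f0 hf0 f hf u (Or.inl hu)]
      exact hadj f hf u (hS hu) v hv huv
    have h2 : F.card ≤ Δ ^ k * (F.image fun f => f v).card := by
      refine card_le_mul_card_image F _ fun x _ => ?_
      refine ih (insert_subset hv hS) (insert_nonempty v S) _
        (fun f hf => hadj f (mem_filter.1 hf).1) (fun f hf g hg w hw => ?_) ?_
      · rcases hw with hw | hw
        · rcases mem_insert.1 hw with rfl | hw
          · rw [(mem_filter.1 hf).2, (mem_filter.1 hg).2]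
          · exact hag f (mem_filter.1 hf).1 g (mem_filter.1 hg).1 w (Or.inl hw)
        · exact hag f (mem_filter.1 hf).1 g (mem_filter.1 hg).1 w (Or.inr hw)
      · rw [card_insert_of_notMem hvS]
        omega
    rw [pow_succ]
    exact h2.trans (Nat.mul_le_mul_left _ h1)

/-- Fibres of `π` are bounded by `ext_ub`. -/
lemma ext_ub' {β : Type} (hdeg : ∀ v, (nbr G v).card ≤ Δ) {U S : Finset L} (hc : Conn A U)
    (hS : S ⊆ U) (hne : S.Nonempty) (F : Finset (L → V))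
    (hadj : ∀ f ∈ F, ∀ u ∈ U, ∀ v ∈ U, A u v → G.Adj (f u) (f v))
    (hoff : ∀ f ∈ F, ∀ g ∈ F, ∀ v, v ∉ U → f v = g v)
    (π : (L → V) → β) (T : Finset β) (hT : ∀ f ∈ F, π f ∈ T)
    (hπ : ∀ f ∈ F, ∀ g ∈ F, π f = π g → ∀ v ∈ S, f v = g v) :
    F.card ≤ T.card * Δ ^ (U.card - S.card) := by
  rw [mul_comm]
  refine card_le_mul_card_image_of_maps_to hT _ fun b _ => ?_
  refine ext_ub hdeg hc hS hne _ (fun f hf => hadj f (mem_filter.1 hf).1) fun f hf g hg v hv => ?_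
  rw [mem_filter] at hf hg
  rcases hv with hv | hv
  · exact hπ f hf.1 g hg.1 (hf.2.trans hg.2.symm) v hv
  · exact hoff f hf.1 g hg.1 v hv

/-- Inject `F` into `U.pi fun _ => Z`. -/
lemma card_maps_le (U : Finset L) (Z : Finset V) (F : Finset (L → V))
    (hZ : ∀ f ∈ F, ∀ v ∈ U, f v ∈ Z) (hoff : ∀ f ∈ F, ∀ g ∈ F, ∀ v, v ∉ U → f v = g v) :
    F.card ≤ Z.card ^ U.card := by
  have e : (U.pi fun _ => Z).card = Z.card ^ U.card := by rw [card_pi, prod_const]
  rw [← e]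
  refine card_le_card_of_injOn (fun f v _ => f v) (fun f hf => ?_) fun f hf g hg h => ?_
  · exact mem_coe.2 (mem_pi.2 fun v hv => hZ f hf v hv)
  · funext v
    by_cases hv : v ∈ U
    · exact congrFun (congrFun h v) hv
    · exact hoff f hf g hg v hv

/-- Two vertices separated from each other (count ordered pairs). -/
lemma exists_sep (S : V → Finset V) (s : ℕ) (hS : ∀ y, (S y).card ≤ s) (Y : Finset V)
    (hY : 2 * s + 1 < Y.card) : ∃ y ∈ Y, ∃ y' ∈ Y, Sep S y y' := by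
  by_contra hc
  push Not at hc
  have h1 : Y ×ˢ Y ⊆ (Y.biUnion fun y => {y} ×ˢ insert y (S y)) ∪
      Y.biUnion fun y => S y ×ˢ {y} := by
    rintro ⟨a, b⟩ hab
    rw [mem_product] at hab
    have := hc a hab.1 b hab.2
    simp only [mem_union, mem_biUnion, mem_product, mem_singleton, mem_insert]
    by_cases e : a = b
    · exact Or.inl ⟨a, hab.1, rfl, Or.inl e.symm⟩
    by_cases e' : a ∈ S b
    · exact Or.inr ⟨b, hab.2, e', rfl⟩
    by_cases e'' : b ∈ S a
    · exact Or.inl ⟨a, hab.1, rfl, Or.inr e''⟩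
    exact absurd ⟨e, e', e''⟩ this
  have h2 : (Y.biUnion fun y => {y} ×ˢ insert y (S y)).card ≤ Y.card * (s + 1) :=
    card_biUnion_le_card_mul _ _ _ fun y _ => by
      rw [card_product, card_singleton, one_mul]
      exact (card_insert_le _ _).trans (Nat.succ_le_succ (hS y))
  have h3 : (Y.biUnion fun y => S y ×ˢ {y}).card ≤ Y.card * s :=
    card_biUnion_le_card_mul _ _ _ fun y _ => by
      rw [card_product, card_singleton, mul_one]
      exact hS y
  have h4 := (card_le_card h1).trans (card_union_le _ _)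
  rw [card_product] at h4
  have h5 : Y.card * (2 * s + 1) < Y.card * Y.card := Nat.mul_lt_mul_of_pos_left hY (by omega)
  nlinarith

/-- Among sets with pairwise disjoint supports at most `Z.card` meet `Z`. -/
lemma card_meet_le {σ : Type} (Ls : Finset σ) (supp : σ → Finset V)
    (hd : ∀ s ∈ Ls, ∀ s' ∈ Ls, s ≠ s' → Disjoint (supp s) (supp s')) (Z : Finset V) :
    (Ls.filter fun s => ¬ Disjoint (supp s) Z).card ≤ Z.card := by
  have k : ∀ s : σ, ∃ z : Option V, ¬ Disjoint (supp s) Z → ∃ x ∈ supp s, x ∈ Z ∧ z = some x :=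
    fun s => by
      by_cases h : Disjoint (supp s) Z
      · exact ⟨none, fun c => absurd h c⟩
      · obtain ⟨x, h1, h2⟩ := not_disjoint_iff.1 h
        exact ⟨some x, fun _ => ⟨x, h1, h2, rfl⟩⟩
  choose z hz using k
  rw [← card_image_of_injective Z (Option.some_injective V)]
  refine card_le_card_of_injOn z (fun s hs => ?_) fun s hs s' hs' e => ?_
  · obtain ⟨x, -, h2, h3⟩ := hz s (mem_filter.1 hs).2
    exact mem_coe.2 (mem_image.2 ⟨x, h2, h3.symm⟩)
  · by_contra c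
    obtain ⟨x, h1, -, h3⟩ := hz s (mem_filter.1 hs).2
    obtain ⟨x', h1', -, h3'⟩ := hz s' (mem_filter.1 hs').2
    obtain rfl : x = x' := Option.some_injective V (h3.symm.trans (e.trans h3'))
    exact disjoint_left.1 (hd s (mem_filter.1 hs).1 s' (mem_filter.1 hs').1 c) h1 h1'

/-- Double pigeonhole. -/
lemma key_pigeon {Ω κ π : Type} (C : Finset Ω) (key : Ω → κ) (pt : Ω → π) (A1 A2 : ℕ) (thr : ℝ)
    (hne : C.Nonempty) (h1 : (C.image key).card ≤ A1)
    (h2 : ∀ ω ∈ C, (C.filter fun ω' => key ω' = key ω ∧ pt ω' = pt ω).card ≤ A2)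
    (hthr : thr * ((A1 : ℝ) * A2) ≤ C.card) :
    ∃ ω ∈ C, thr ≤ (((C.filter fun ω' => key ω' = key ω).image pt).card : ℝ) := by
  obtain ⟨ω, hω, hm⟩ := C.exists_max_image
    (fun ω => ((C.filter fun ω' => key ω' = key ω).image pt).card) hne
  refine ⟨ω, hω, ?_⟩
  set M := ((C.filter fun ω' => key ω' = key ω).image pt).card
  have h3 : C.card ≤ A2 * M * (C.image key).card := by
    refine card_le_mul_card_image C _ fun k hk => ?_
    obtain ⟨w, hw, rfl⟩ := mem_image.1 hk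
    refine le_trans (card_le_mul_card_image (f := pt) _ A2 fun x hx => ?_)
      (Nat.mul_le_mul_left _ (hm w hw))
    obtain ⟨w', hw', rfl⟩ := mem_image.1 hx
    rw [mem_filter] at hw'
    refine le_trans (card_le_card fun y hy => ?_) (h2 w' hw'.1)
    simp only [mem_filter] at hy ⊢
    exact ⟨hy.1.1, hy.1.2.trans hw'.2.symm, hy.2⟩
  have h4 : C.card ≤ M * (A1 * A2) := by
    refine h3.trans ((Nat.mul_le_mul_left _ h1).trans (le_of_eq ?_))
    ring
  have h5 : 0 < A1 * A2 := Nat.pos_of_ne_zero fun e => by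
    rw [e, mul_zero] at h4
    exact absurd hne.card_pos (by omega)
  have h6 : (0 : ℝ) < (A1 : ℝ) * A2 := by exact_mod_cast h5
  have h7 : (C.card : ℝ) ≤ M * ((A1 : ℝ) * A2) := by exact_mod_cast h4
  exact le_of_mul_le_mul_right (hthr.trans h7) h6

lemma host_deg_le (hdeg : ∀ v, (nbr G v).card ≤ Δ) {H : Finset (V × V)}
    (hH : ∀ p ∈ H, G.Adj p.1 p.2) (v : V) : (nbX H v).card ≤ Δ ∧ (nbY H v).card ≤ Δ := by
  refine ⟨(card_le_card fun x hx => ?_).trans (hdeg v), (card_le_card fun x hx => ?_).trans (hdeg v)⟩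
  · exact mem_nbr.2 (hH _ (mem_nbX.1 hx)).symm
  · exact mem_nbr.2 (hH _ (mem_nbY.1 hx))

/-- Double counting: `H.card` is the sum of the degrees on either side. -/
lemma host_card (hdeg : ∀ v, (nbr G v).card ≤ Δ) {H : Finset (V × V)} {Xs Ys : Finset V}
    {lam : ℝ} (hH : Host G H Xs Ys lam) :
    lam * Xs.card ≤ H.card ∧ lam * Ys.card ≤ H.card ∧ H.card ≤ Xs.card * Δ ∧
      H.card ≤ Ys.card * Δ ∧ Xs.Nonempty ∧ Ys.Nonempty ∧ lam ≤ Xs.card ∧ lam ≤ Ys.card := by
  have d := host_deg_le hdeg fun p hp => (hH.sub p hp).1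
  have eX : H.card = ∑ x ∈ Xs, (nbY H x).card := by
    rw [card_eq_sum_card_fiberwise (f := Prod.fst) (t := Xs) fun p hp => (hH.sub p hp).2.1]
    refine sum_congr rfl fun x _ => card_bij (fun p _ => p.2) (fun p hp => ?_)
      (fun p hp q hq e => ?_) fun y hy => ⟨(x, y), mem_filter.2 ⟨mem_nbY.1 hy, rfl⟩, rfl⟩
    · rw [mem_nbY, ← (mem_filter.1 hp).2]
      exact (mem_filter.1 hp).1
    · exact Prod.ext ((mem_filter.1 hp).2.trans (mem_filter.1 hq).2.symm) e
  have eY : H.card = ∑ y ∈ Ys, (nbX H y).card := by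
    rw [card_eq_sum_card_fiberwise (f := Prod.snd) (t := Ys) fun p hp => (hH.sub p hp).2.2]
    refine sum_congr rfl fun y _ => card_bij (fun p _ => p.1) (fun p hp => ?_)
      (fun p hp q hq e => ?_) fun x hx => ⟨(x, y), mem_filter.2 ⟨mem_nbX.1 hx, rfl⟩, rfl⟩
    · rw [mem_nbX, ← (mem_filter.1 hp).2]
      exact (mem_filter.1 hp).1
    · exact Prod.ext e ((mem_filter.1 hp).2.trans (mem_filter.1 hq).2.symm)
  obtain ⟨p, hp⟩ := hH.ne
  have hp' := hH.sub p hp
  refine ⟨?_, ?_, ?_, ?_, ⟨_, hp'.2.1⟩, ⟨_, hp'.2.2⟩, ?_, ?_⟩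
  · rw [eX, Nat.cast_sum, mul_comm, ← nsmul_eq_mul]
    exact card_nsmul_le_sum _ _ _ hH.dX
  · rw [eY, Nat.cast_sum, mul_comm, ← nsmul_eq_mul]
    exact card_nsmul_le_sum _ _ _ hH.dY
  · rw [eX]
    exact sum_le_card_nsmul _ _ _ fun x _ => (d x).2
  · rw [eY]
    exact sum_le_card_nsmul _ _ _ fun x _ => (d x).1
  · exact (hH.dY _ hp'.2.2).trans (Nat.cast_le.2 (card_le_card fun x hx =>
      (hH.sub _ (mem_nbX.1 hx)).2.1))
  · exact (hH.dX _ hp'.2.1).trans (Nat.cast_le.2 (card_le_card fun x hx =>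
      (hH.sub _ (mem_nbY.1 hx)).2.2))

end Pool.Agent.Work.MP_054302_co.X
end

-- merged part: Pool.Agent.Work.MP_054302_co.X.RobL
section
namespace Pool.Agent.Work.MP_054302_co.X

open Finset Function
open scoped Classical

variable {L V : Type} [DecidableEq L] [Fintype V] [DecidableEq V]
  {A : L → L → Prop} {G : SimpleGraph V}

lemma rob_mono {B B' : ℕ} {S : Finset L} {g : L → V} (h : B ≤ B') (hR : Rob A G B' S g) :
    Rob A G B S g := fun Z hZ => hR Z (hZ.trans h)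

lemma rob_empty (B : ℕ) (g : L → V) : Rob A G B ∅ g := fun _ _ =>
  ⟨g, fun _ _ => rfl, by simp, by simp, by simp⟩

/-- Only the values on the boundary of `S` matter: take `f` on `S` and `g'` off `S`. -/
lemma rob_congr {B : ℕ} {S : Finset L} {g g' : L → V}
    (h : ∀ u ∈ S, ∀ v, v ∉ S → A u v → g v = g' v) (hR : Rob A G B S g) : Rob A G B S g' := by
  intro Z hZ
  obtain ⟨f, h1, h2, h3, h4⟩ := hR Z hZ
  refine ⟨fun v => if v ∈ S then f v else g' v, fun v hv => if_neg hv, fun u hu v hv e => ?_,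
    fun v hv => ?_, fun u hu v e => ?_⟩
  · have hu' : u ∈ S := hu
    have hv' : v ∈ S := hv
    simp only [if_pos hu', if_pos hv'] at e
    exact h2 hu hv e
  · simp only [if_pos hv]
    exact h3 v hv
  · simp only [if_pos hu]
    by_cases hv : v ∈ S
    · simp only [if_pos hv]
      exact h4 u hu v e
    · simp only [if_neg hv]
      rw [← h u hu v hv e, ← h1 v hv]
      exact h4 u hu v e

/-- Gluing: `f1` is a choice on `J`, and `f` a choice on `S` over `f1` avoiding the image of `J`. -/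
lemma RobL_glue {S J : Finset L} {Z : Finset V} {g f1 f : L → V} (hd : Disjoint S J)
    (a1 : ∀ v, v ∉ J → f1 v = g v) (a2 : Set.InjOn f1 J) (a3 : ∀ v ∈ J, f1 v ∉ Z)
    (b1 : ∀ v, v ∉ S → f v = f1 v) (b2 : Set.InjOn f S) (b3 : ∀ v ∈ S, f v ∉ Z ∪ J.image f1) :
    (∀ v, v ∉ S ∪ J → f v = g v) ∧ Set.InjOn f (S ∪ J : Finset L) ∧ ∀ v ∈ S ∪ J, f v ∉ Z := by
  have hJ : ∀ v ∈ J, f v = f1 v := fun v hv => b1 v (disjoint_right.1 hd hv)
  have hx : ∀ u ∈ S, ∀ v ∈ J, f u ≠ f v := fun u hu v hv e =>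
    b3 u hu (mem_union_right _ (mem_image.2 ⟨v, hv, by rw [e, hJ v hv]⟩))
  refine ⟨fun v hv => ?_, fun u hu v hv e => ?_, fun v hv => ?_⟩
  · rw [mem_union, not_or] at hv
    rw [b1 v hv.1, a1 v hv.2]
  · rcases mem_union.1 (mem_coe.1 hu) with hu | hu <;>
      rcases mem_union.1 (mem_coe.1 hv) with hv | hv
    · exact b2 hu hv e
    · exact absurd e (hx u hu v hv)
    · exact absurd e.symm (hx v hv u hu)
    · exact a2 hu hv (by rw [← hJ u hu, ← hJ v hv, e])
  · rcases mem_union.1 hv with hv | hv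
    · exact fun k => b3 v hv (mem_union_left _ k)
    · rw [hJ v hv]
      exact a3 v hv

lemma RobL_card {B : ℕ} {Z : Finset V} (J : Finset L) (f : L → V) (hZ : Z.card ≤ B) :
    (Z ∪ J.image f).card ≤ B + J.card :=
  (card_union_le _ _).trans (Nat.add_le_add hZ card_image_le)

/-- Take `f1` for `Z`, then `f2` for `Z` together with the image of `S1` under `f1`. -/
lemma rob_union {B : ℕ} {S1 S2 : Finset L} {g : L → V} (hd : Disjoint S1 S2)
    (hn : ∀ u ∈ S1, ∀ v ∈ S2, ¬ A u v ∧ ¬ A v u) (h1 : Rob A G B S1 g)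
    (h2 : Rob A G (B + S1.card) S2 g) : Rob A G B (S1 ∪ S2) g := by
  intro Z hZ
  obtain ⟨f1, a1, a2, a3, a4⟩ := h1 Z hZ
  have h3 : Rob A G (B + S1.card) S2 f1 := rob_congr (fun u hu v _ e =>
    (a1 v fun k => (hn v k u hu).2 e).symm) h2
  obtain ⟨f, b1, b2, b3, b4⟩ := h3 _ (RobL_card S1 f1 hZ)
  obtain ⟨c1, c2, c3⟩ := RobL_glue hd.symm a1 a2 a3 b1 b2 b3
  rw [union_comm S2 S1] at c1 c2 c3
  refine ⟨f, c1, c2, c3, fun u hu v e => ?_⟩
  rcases mem_union.1 hu with hu | hu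
  · rw [b1 u (disjoint_left.1 hd hu), b1 v fun k => (hn u hu v k).1 e]
    exact a4 u hu v e
  · exact b4 u hu v e

/-- Take `g'` for `Z`, then the copy of `S` over `g'` avoiding `Z` and the image of `J`.
Edges from `J` to `S` are read from the side of `S` by symmetry. -/
lemma rob_ext {B : ℕ} {S J : Finset L} {g : L → V} (hs : ∀ u v, A u v → A v u)
    (hd : Disjoint S J)
    (h : ∀ Z : Finset V, Z.card ≤ B → ∃ g' : L → V, (∀ v, v ∉ J → g' v = g v) ∧ Set.InjOn g' J ∧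
      (∀ v ∈ J, g' v ∉ Z) ∧ (∀ u ∈ J, ∀ v, v ∉ S → A u v → G.Adj (g' u) (g' v)) ∧
      Rob A G (B + J.card) S g') : Rob A G B (S ∪ J) g := by
  intro Z hZ
  obtain ⟨f1, a1, a2, a3, a4, h3⟩ := h Z hZ
  obtain ⟨f, b1, b2, b3, b4⟩ := h3 _ (RobL_card J f1 hZ)
  obtain ⟨c1, c2, c3⟩ := RobL_glue hd a1 a2 a3 b1 b2 b3
  refine ⟨f, c1, c2, c3, fun u hu v e => ?_⟩
  rcases mem_union.1 hu with hu | hu
  · exact b4 u hu v e
  · by_cases hv : v ∈ S
    · exact (b4 v hv u (hs u v e)).symm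
    · rw [b1 u (disjoint_right.1 hd hu), b1 v hv]
      exact a4 u hu v hv e

/-- Greedy system of distinct representatives avoiding `Z` (induction on `S`, generalizing `Z`). -/
lemma sdr (S : Finset L) (cand : L → Finset V) (Z : Finset V) (g : L → V)
    (h : ∀ u ∈ S, Z.card + S.card ≤ (cand u).card) :
    ∃ f : L → V, (∀ v, v ∉ S → f v = g v) ∧ Set.InjOn f S ∧ ∀ u ∈ S, f u ∈ cand u ∧ f u ∉ Z := by
  induction S using Finset.induction_on generalizing Z g with
  | empty => exact ⟨g, fun _ _ => rfl, by simp, by simp⟩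
  | insert a S ha ih =>
    rw [card_insert_of_notMem ha] at h
    obtain ⟨x, hx, hxZ⟩ : ∃ x ∈ cand a, x ∉ Z := exists_mem_notMem_of_card_lt_card
      (lt_of_lt_of_le (by omega) (h a (mem_insert_self _ _)))
    obtain ⟨f, b1, b2, b3⟩ := ih (insert x Z) (update g a x) fun u hu =>
      le_trans (by have := card_insert_le x Z; omega) (h u (mem_insert_of_mem hu))
    have fa : f a = x := by rw [b1 a ha, update_self]
    have hx' : ∀ u ∈ S, f u ≠ f a := fun u hu e =>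
      (b3 u hu).2 (by rw [e, fa]; exact mem_insert_self _ _)
    refine ⟨f, fun v hv => ?_, fun u hu v hv e => ?_, fun u hu => ?_⟩
    · rw [mem_insert, not_or] at hv
      rw [b1 v hv.2, update_of_ne hv.1]
    · rcases mem_insert.1 (mem_coe.1 hu) with k | k <;>
        rcases mem_insert.1 (mem_coe.1 hv) with l | l
      · rw [k, l]
      · exact absurd (k ▸ e.symm) (hx' v l)
      · exact absurd (l ▸ e) (hx' u k)
      · exact b2 k l e
    · rcases mem_insert.1 hu with rfl | hu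
      · rw [fa]
        exact ⟨hx, hxZ⟩
      · exact ⟨(b3 u hu).1, fun k => (b3 u hu).2 (mem_insert_of_mem k)⟩

/-- An independent set with many candidates for each member is robust (use `sdr`). -/
lemma rob_indep {B : ℕ} {S : Finset L} {g : L → V} (cand : L → Finset V)
    (hi : ∀ u ∈ S, ∀ v ∈ S, ¬ A u v) (hc : ∀ u ∈ S, B + S.card ≤ (cand u).card)
    (ha : ∀ u ∈ S, ∀ x ∈ cand u, ∀ v, A u v → G.Adj x (g v)) : Rob A G B S g := by
  intro Z hZ
  obtain ⟨f, b1, b2, b3⟩ := sdr S cand Z g fun u hu =>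
    le_trans (Nat.add_le_add_right hZ _) (hc u hu)
  refine ⟨f, b1, b2, fun v hv => (b3 v hv).2, fun u hu v e => ?_⟩
  rw [b1 v fun k => hi u hu v k e]
  exact ha u hu _ (b3 u hu).1 v e

end Pool.Agent.Work.MP_054302_co.X
end

-- merged part: Pool.Agent.Work.MP_054302_co.X.Tree
section
namespace Pool.Agent.Work.MP_054302_co.X

open Finset Function
open scoped Classical

variable {N : ℕ} {r : ℕ → ℕ}

lemma adj_symm (u v : Lb) (h : adj N r u v) : adj N r v u := by
  exact Or.symm h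

lemma adj_irrefl (u : Lb) : ¬ adj N r u u := by
  cases u <;> simp [adj, Ed]

lemma adj_real {u v : Lb} (h : adj N r u v) : IsReal N r u ∧ IsReal N r v := by
  have key : ∀ {u v : Lb}, Ed N r u v → IsReal N r u ∧ IsReal N r v := by
    intro u v h
    cases u <;> cases v <;> simp only [Ed, IsReal] at h ⊢
    · omega
    · omega
    · omega
    · obtain ⟨rfl, rfl, h⟩ := h
      exact ⟨h, h⟩
  rcases h with h | h
  · exact key h
  · exact (key h).symm

lemma ed_side {u v : Lb} (h : Ed N r u v) : isX u = true ∧ isX v = false := by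
  cases u <;> cases v <;> simp only [Ed] at h <;> simp [isX]

lemma adj_pos {u v : Lb} (h : adj N r u v) : pos u ≤ pos v + 1 ∧ pos v ≤ pos u + 1 := by
  have key : ∀ {u v : Lb}, Ed N r u v → pos u ≤ pos v + 1 ∧ pos v ≤ pos u + 1 := by
    intro u v h
    cases u <;> cases v <;> simp only [Ed, pos] at h ⊢ <;> omega
  rcases h with h | h
  · exact key h
  · exact (key h).symm

/-- General criterion: a parent map with decreasing rank gives connectivity. If the root is in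
`S` take a vertex outside `S` of least rank, otherwise a vertex of `S` of least rank. -/
lemma conn_of_par {L : Type} [DecidableEq L] {A : L → L → Prop} (hs : ∀ u v, A u v → A v u)
    (U : Finset L) (ρ : L) (par : L → L) (rk : L → ℕ)
    (h : ∀ v ∈ U, v ≠ ρ → par v ∈ U ∧ A v (par v) ∧ rk (par v) < rk v) (hρ : ρ ∈ U) :
    Conn A U := by
  intro S hSU hne hS
  by_cases hr : ρ ∈ S
  · have hne' : (U \ S).Nonempty := by
      rw [Finset.sdiff_nonempty]
      intro hUS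
      exact hS (Finset.Subset.antisymm hSU hUS)
    obtain ⟨v, hv, hmin⟩ := Finset.exists_min_image (U \ S) rk hne'
    rw [Finset.mem_sdiff] at hv
    have hvr : v ≠ ρ := fun e => hv.2 (e ▸ hr)
    obtain ⟨h1, h2, h3⟩ := h v hv.1 hvr
    have hp : par v ∈ S := by
      by_contra hp
      have := hmin (par v) (Finset.mem_sdiff.2 ⟨h1, hp⟩)
      omega
    exact ⟨par v, hp, v, hv.1, hv.2, hs _ _ h2⟩
  · obtain ⟨v, hv, hmin⟩ := Finset.exists_min_image S rk hne
    have hvr : v ≠ ρ := fun e => hr (e ▸ hv)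
    obtain ⟨h1, h2, h3⟩ := h v (hSU hv) hvr
    have hp : par v ∉ S := by
      intro hp
      have := hmin (par v) hp
      omega
    exact ⟨v, hv, par v, h1, hp, h2⟩

/-- Parent map towards the branch vertex number `s`. -/
def Tree_par (s : ℕ) : Lb → Lb
  | .c i => .m (i - 1)
  | .y i => .c i
  | .m i => if i < s then .c s else .c i
  | .a i _ => .c i
  | .z i j => .a i j

/-- Rank for the parent map. -/
def Tree_rk (s : ℕ) : Lb → ℕ
  | .c i => 2 * (i - s)
  | .y i => 2 * (i - s) + 1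
  | .m i => 2 * (i - s) + 1
  | .a i _ => 2 * (i - s) + 1
  | .z i _ => 2 * (i - s) + 2

/-- Parent map towards `c s`: `c i` goes to `m (i-1)`, `m i` to `c i` for `s ≤ i` and to `c s`
for `i < s`, `y i` and `a i j` to `c i`, `z i j` to `a i j`. -/
lemma conn_seg {s t lo hi : ℕ} (hs : 1 ≤ s) (hst : s ≤ t) (ht : t ≤ N)
    (hlo : lo = 2 * s ∨ lo + 1 = 2 * s) (hhi : hi = 2 * t ∨ hi = 2 * t + 1) :
    Conn (adj N r) (Seg N r lo hi) := by
  refine conn_of_par adj_symm _ (Lb.c s) (Tree_par s) (Tree_rk s) ?_ ?_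
  · intro v hv hne
    rw [mem_Seg] at hv
    rw [mem_Seg]
    cases v with
    | c i =>
      have hi : i ≠ s := fun e => hne (by rw [e])
      simp only [IsReal, pos] at hv
      simp only [Tree_par, Tree_rk, IsReal, pos, adj, Ed, or_false]
      omega
    | y i =>
      simp only [IsReal, pos] at hv
      simp only [Tree_par, Tree_rk, IsReal, pos, adj, Ed, false_or, true_and]
      omega
    | m i =>
      simp only [IsReal, pos] at hv
      by_cases h1 : i < s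
      · simp only [Tree_par, Tree_rk, IsReal, pos, adj, Ed, h1, if_true, false_or]
        omega
      · simp only [Tree_par, Tree_rk, IsReal, pos, adj, Ed, h1, if_false, false_or, true_or, true_and]
        omega
    | a i j =>
      simp only [IsReal, pos] at hv
      simp only [Tree_par, Tree_rk, IsReal, pos, adj, Ed, false_or, true_and]
      omega
    | z i j =>
      simp only [IsReal, pos] at hv
      simp only [Tree_par, Tree_rk, IsReal, pos, adj, Ed, or_false, true_and]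
      omega
  · rw [mem_Seg]
    simp only [IsReal, pos]
    omega

lemma Tree_card_a (I : Finset ℕ) :
    (I.biUnion (fun i => (range (r i)).image (Lb.a i))).card = ∑ i ∈ I, r i := by
  rw [card_biUnion]
  · refine sum_congr rfl fun i _ => ?_
    rw [card_image_of_injective _ (fun _ _ h => (Lb.a.inj h).2), card_range]
  · intro i _ j _ hij
    rw [Function.onFun, Finset.disjoint_left]
    intro v hv hv'
    simp only [mem_image, mem_range] at hv hv'
    obtain ⟨k, _, rfl⟩ := hv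
    obtain ⟨l, _, e⟩ := hv'
    exact hij (Lb.a.inj e).1.symm

lemma Tree_card_z (I : Finset ℕ) :
    (I.biUnion (fun i => (range (r i)).image (Lb.z i))).card = ∑ i ∈ I, r i := by
  rw [card_biUnion]
  · refine sum_congr rfl fun i _ => ?_
    rw [card_image_of_injective _ (fun _ _ h => (Lb.z.inj h).2), card_range]
  · intro i _ j _ hij
    rw [Function.onFun, Finset.disjoint_left]
    intro v hv hv'
    simp only [mem_image, mem_range] at hv hv'
    obtain ⟨k, _, rfl⟩ := hv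
    obtain ⟨l, _, e⟩ := hv'
    exact hij (Lb.z.inj e).1.symm

lemma Tree_seg_all : Seg N r (2 * 1) (2 * N) = VT N r := by
  ext v
  rw [mem_Seg, mem_VT]
  cases v <;> simp only [IsReal, pos] <;> omega

lemma card_seg {b b' : ℕ} (hb : 1 ≤ b) (hbb : b ≤ b') (hb' : b' ≤ N) :
    (Seg N r (2 * b) (2 * b')).card + 1 = 3 * (b' + 1 - b) + 2 * ∑ i ∈ Icc b b', r i := by
  have e : Seg N r (2 * b) (2 * b') = (Icc b b').image Lb.c ∪ (Icc b b').image Lb.y ∪
      (Ico b b').image Lb.m ∪ (Icc b b').biUnion (fun i => (range (r i)).image (Lb.a i)) ∪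
      (Icc b b').biUnion (fun i => (range (r i)).image (Lb.z i)) := by
    ext v
    rw [mem_Seg]
    cases v <;> simp [IsReal, pos] <;> omega
  rw [e, card_union_of_disjoint, card_union_of_disjoint, card_union_of_disjoint,
    card_union_of_disjoint, Tree_card_a, Tree_card_z,
    card_image_of_injective _ (fun _ _ h => Lb.c.inj h),
    card_image_of_injective _ (fun _ _ h => Lb.y.inj h),
    card_image_of_injective _ (fun _ _ h => Lb.m.inj h), Nat.card_Icc, Nat.card_Ico]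
  · omega
  all_goals
    rw [Finset.disjoint_left]
    intro v hv
    cases v <;> simp at hv ⊢

lemma card_seg_root {b b' : ℕ} (hb : 1 ≤ b) (hbb : b ≤ b') (hb' : b' ≤ N) :
    ((Seg N r (2 * b) (2 * b')).filter fun v => isRoot v = true).card =
      (b' + 1 - b) + ∑ i ∈ Icc b b', r i := by
  have e : ((Seg N r (2 * b) (2 * b')).filter fun v => isRoot v = true) =
      (Icc b b').image Lb.y ∪ (Icc b b').biUnion (fun i => (range (r i)).image (Lb.z i)) := by
    ext v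
    rw [mem_filter, mem_Seg]
    cases v <;> simp [IsReal, pos, isRoot] <;> omega
  rw [e, card_union_of_disjoint, Tree_card_z,
    card_image_of_injective _ (fun _ _ h => Lb.y.inj h), Nat.card_Icc]
  rw [Finset.disjoint_left]
  intro v hv
  cases v <;> simp at hv ⊢

lemma card_VT (hN : 1 ≤ N) : (VT N r).card + 1 = 3 * N + 2 * ∑ i ∈ Icc 1 N, r i := by
  have h := card_seg (N := N) (r := r) (b := 1) (b' := N) le_rfl hN le_rfl
  rw [Tree_seg_all] at h
  simpa using h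

lemma card_RT (hN : 1 ≤ N) : (RT N r).card = N + ∑ i ∈ Icc 1 N, r i := by
  have h := card_seg_root (N := N) (r := r) (b := 1) (b' := N) le_rfl hN le_rfl
  rw [Tree_seg_all] at h
  simpa [RT] using h

lemma card_NR (hN : 1 ≤ N) : (NR N r).card + 1 = 2 * N + ∑ i ∈ Icc 1 N, r i := by
  have h1 := card_VT (N := N) (r := r) hN
  have h2 := card_RT (N := N) (r := r) hN
  have h3 := Finset.card_filter_add_card_filter_not (s := VT N r) (fun v => isRoot v = true)
  have h4 : (VT N r).filter (fun v => ¬ isRoot v = true) = NR N r := by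
    simp [NR]
  rw [h4] at h3
  unfold RT at h2
  omega

lemma card_Lab (a b : ℕ) : (Lab N r a b).card ≤ (VT N r).card + 2 := by
  unfold Lab
  refine (card_insert_le _ _).trans ?_
  refine (Nat.succ_le_succ (card_insert_le _ _)).trans ?_
  exact Nat.succ_le_succ (Nat.succ_le_succ (card_filter_le _ _))

lemma nn_zero : Nn N r 0 (N + 1) = NR N r := by
  ext v
  rw [mem_Nn, mem_NR]
  cases v <;> simp [IsReal, pos, isRoot] <;> omega

lemma rt_sub_lab : RT N r ⊆ Lab N r 0 (N + 1) := by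
  intro v hv
  rw [mem_RT] at hv
  rw [mem_Lab]
  refine Or.inr (Or.inr ⟨hv.1, hv.2, ?_⟩)
  have h := hv.1
  cases v <;> simp only [IsReal, pos] at h ⊢ <;> omega

lemma nn_first : Nn N r 0 1 = ∅ := by
  ext v
  rw [mem_Nn]
  cases v <;> simp [IsReal, pos, isRoot] <;> omega

lemma nn_last : Nn N r N (N + 1) = ∅ := by
  ext v
  rw [mem_Nn]
  cases v <;> simp [IsReal, pos, isRoot] <;> omega

lemma lab_succ (a : ℕ) : Lab N r a (a + 1) = {Lb.y a, Lb.y (a + 1)} := by
  ext v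
  rw [mem_Lab]
  cases v <;> simp [IsReal, pos, isRoot] <;> omega

/-- The boundary of a piece. -/
lemma nn_boundary {a b : ℕ} {u v : Lb} (hu : u ∈ Nn N r a b) (hv : v ∉ Nn N r a b)
    (h : adj N r u v) : v = Lb.c a ∨ v = Lb.c b ∨
      (IsReal N r v ∧ isRoot v = true ∧ 2 * a < pos v ∧ pos v < 2 * b) := by
  rw [mem_Nn] at hu hv
  have hr := (adj_real h).2
  cases u <;> cases v <;>
    simp [adj, Ed, IsReal, pos, isRoot] at hu hv h hr ⊢ <;> omega

variable {V : Type} [Fintype V] [DecidableEq V] {G : SimpleGraph V}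

/-- Use `rob_congr` and `nn_boundary`. -/
lemma good_congr {B a b : ℕ} {w w' : Lb → V} {cL cR : V}
    (h : ∀ v ∈ Lab N r a b, w v = w' v) (hg : Good N r G B a b w cL cR) :
    Good N r G B a b w' cL cR := by
  refine rob_congr ?_ hg
  intro u hu v hv huv
  rcases nn_boundary hu hv huv with e | e | e
  · subst e
    by_cases hab : Lb.c a = Lb.c b
    · rw [hab]; simp
    · simp [update_of_ne hab]
  · subst e
    simp
  · have h1 : ∀ i, v ≠ Lb.c i := by
      rintro i rfl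
      simp [isRoot] at e
    rw [update_of_ne (h1 b), update_of_ne (h1 a), update_of_ne (h1 b), update_of_ne (h1 a)]
    exact h v (mem_Lab.2 (Or.inr (Or.inr e)))

/-- A good labelling of the whole tree (use `nn_zero`, `rt_sub_lab`). -/
lemma full_of_good {B : ℕ} {S : V → Finset V} {w : Lb → V} {cL cR : V}
    (hp : PSep S (Lab N r 0 (N + 1)) w) (hg : Good N r G B 0 (N + 1) w cL cR) :
    Full N r G B := by
  refine ⟨update (update w (Lb.c 0) cL) (Lb.c (N + 1)) cR, ?_, ?_⟩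
  · have h1 : ∀ v ∈ RT N r, update (update w (Lb.c 0) cL) (Lb.c (N + 1)) cR v = w v := by
      intro v hv
      have h2 : ∀ i, v ≠ Lb.c i := by
        rintro i rfl
        simp [mem_RT, isRoot] at hv
      rw [update_of_ne (h2 _), update_of_ne (h2 _)]
    intro u hu v hv e
    rw [h1 u hu, h1 v hv] at e
    by_contra hne
    exact (hp u (rt_sub_lab hu) v (rt_sub_lab hv) hne).1 e
  · rw [← nn_zero]
    exact hg

end Pool.Agent.Work.MP_054302_co.X
end

-- merged part: Pool.Agent.Work.MP_054302_co.X.Items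
section
namespace Pool.Agent.Work.MP_054302_co.X

open Finset Function
open scoped Classical

/-- Induction on the length of the stretch, section 6: prove for all `ℓ` that `P a b k`,
`P b' c k`, `b' + 1 - b ≤ ℓ`, `k + (b' + 1 - b) ≤ N` give `P a c (k + (b' + 1 - b))`. -/
lemma merge_ind (N : ℕ) (hN : 1 ≤ N) (P : ℕ → ℕ → ℕ → Prop)
    (mono : ∀ a b k k', k ≤ k' → P a b k → P a b k')
    (step : ∀ a b b' c k, a < b → 1 ≤ b → b ≤ b' → b' ≤ N → b' < c → c ≤ N + 1 → k < N →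
      P a b k → P b' c k → ∃ s t, b ≤ s ∧ s ≤ t ∧ t ≤ b' ∧
        P (if s = b then a else s - 1) (if t = b' then c else t + 1) (k + 1))
    (h0 : P 0 1 0) (h1 : P N (N + 1) 0) : P 0 (N + 1) N := by
  have key : ∀ ℓ a b b' c k, a < b → 1 ≤ b → b ≤ b' → b' ≤ N → b' < c → c ≤ N + 1 →
      b' + 1 - b ≤ ℓ → k + (b' + 1 - b) ≤ N → P a b k → P b' c k → P a c (k + (b' + 1 - b)) := by
    intro ℓ
    induction ℓ with
    | zero => intro a b b' c k _ _ _ _ _ _ _; omega
    | succ ℓ ih =>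
      intro a b b' c k h1 h2 h3 h4 h5 h6 h7 h8 p1 p2
      obtain ⟨s, t, a1, a2, a3, p3⟩ := step a b b' c k h1 h2 h3 h4 h5 h6 (by omega) p1 p2
      have p4 : P a (if t = b' then c else t + 1) (k + 1 + (s - b)) := by
        by_cases e : s = b
        · rw [if_pos e] at p3
          exact mono _ _ _ _ (by omega) p3
        · rw [if_neg e] at p3
          exact mono _ _ _ _ (by omega) (ih a b (s - 1) _ (k + 1) h1 h2 (by omega) (by omega)
            (by split_ifs <;> omega) (by split_ifs <;> omega) (by omega) (by omega)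
            (mono _ _ _ _ k.le_succ p1) p3)
      by_cases e : t = b'
      · rw [if_pos e] at p4
        exact mono _ _ _ _ (by omega) p4
      · rw [if_neg e] at p4
        exact mono _ _ _ _ (by omega) (ih a (t + 1) b' c _ (by omega) (by omega) (by omega) h4 h5 h6
          (by omega) (by omega) p4 (mono _ _ _ _ (by omega) p2))
  exact mono _ _ _ _ (by omega) (key N 0 1 N (N + 1) 0 one_pos le_rfl hN le_rfl N.lt_succ_self
    le_rfl (by omega) (by omega) h0 h1)

/-- The constants: `κ (t+1) = κ t ^ (u+2) / 40`, `β t = κ t ^ (u+1) / 20`, `th 0 = κ M ^ 2`,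
`th (k+1) = κ M ^ (u+1) th k ^ 2 / (64 N^2)`, `Dk k = D ^ (N + 1 - k)` with `D` large in terms of
`th N`. -/
lemma params (N u M : ℕ) (κ0 : ℝ) (h0 : 0 < κ0) (h1 : κ0 ≤ 1) (hN : 1 ≤ N) :
    ∃ (κ β th : ℕ → ℝ) (Dk : ℕ → ℕ), κ 0 = κ0 ∧
      (∀ t, 0 < κ t ∧ κ t ≤ 1 ∧ 0 < β t ∧ κ (t + 1) ≤ β t * κ t / 2 ∧ β t ≤ κ t ^ (u + 1) / 20) ∧
      Antitone κ ∧ th 0 ≤ κ M ^ 2 ∧ (∀ k, 0 < th k) ∧ Antitone th ∧
      (∀ k, th (k + 1) ≤ κ M ^ (u + 1) * th k ^ 2 / (64 * (N : ℝ) ^ 2)) ∧ Antitone Dk ∧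
      (∀ k ≤ N, 2 ≤ th k * Dk k) ∧
      ∀ k < N, 16 * ((u : ℝ) * (M * ((u + 2) * Dk (k + 1)) : ℕ) +
        (u + 2) * (1 + (M * ((u + 2) * Dk (k + 1)) : ℕ))) ≤ th k ^ 2 * Dk k := by
  let κ : ℕ → ℝ := fun t => Nat.rec κ0 (fun _ x => x ^ (u + 2) / 40) t
  have κs : ∀ t, κ (t + 1) = κ t ^ (u + 2) / 40 := fun _ => rfl
  have κb : ∀ t, 0 < κ t ∧ κ t ≤ 1 := fun t => by
    induction t with
    | zero => exact ⟨h0, h1⟩
    | succ t ih =>
      rw [κs]
      have := pow_le_one₀ ih.1.le ih.2 (n := u + 2)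
      have := ih.1
      exact ⟨by positivity, by linarith⟩
  have κa : Antitone κ := antitone_nat_of_succ_le fun t => by
    rw [κs]
    have : κ t ^ (u + 2) ≤ κ t := pow_le_of_le_one (κb t).1.le (κb t).2 (by omega)
    linarith [(κb t).1]
  let th : ℕ → ℝ := fun k => Nat.rec (κ M ^ 2)
    (fun _ x => κ M ^ (u + 1) * x ^ 2 / (64 * (N : ℝ) ^ 2)) k
  have ts : ∀ k, th (k + 1) = κ M ^ (u + 1) * th k ^ 2 / (64 * (N : ℝ) ^ 2) := fun _ => rfl
  have N1 : (1 : ℝ) ≤ 64 * (N : ℝ) ^ 2 := by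
    have : (1 : ℝ) ≤ N := by exact_mod_cast hN
    nlinarith
  have tl : ∀ k, 0 < th k → th k ≤ 1 → th (k + 1) ≤ th k := fun k a b => by
    rw [ts]
    refine (div_le_self (by have := (κb M).1; positivity) N1).trans ?_
    exact (mul_le_of_le_one_left (by positivity) (pow_le_one₀ (κb M).1.le (κb M).2)).trans
      (pow_le_of_le_one a.le b two_ne_zero)
  have tb : ∀ k, 0 < th k ∧ th k ≤ 1 := fun k => by
    induction k with
    | zero => exact ⟨pow_pos (κb M).1 2, pow_le_one₀ (κb M).1.le (κb M).2⟩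
    | succ k ih =>
      refine ⟨?_, (tl k ih.1 ih.2).trans ih.2⟩
      rw [ts]
      exact div_pos (mul_pos (pow_pos (κb M).1 _) (pow_pos ih.1 _)) (by linarith)
  have ta : Antitone th := antitone_nat_of_succ_le fun k => tl k (tb k).1 (tb k).2
  obtain ⟨K, hK⟩ : ∃ K : ℝ, K = 16 * ((u : ℝ) * (M * (u + 2)) + (u + 2) * (1 + M * (u + 2))) :=
    ⟨_, rfl⟩
  have K0 : 0 ≤ K := by rw [hK]; positivity
  have tN := (tb N).1
  obtain ⟨D, hD⟩ := exists_nat_ge (K / th N ^ 2 + 2 / th N + 1)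
  have q1 : 0 ≤ K / th N ^ 2 := by positivity
  have q2 : 0 ≤ 2 / th N := by positivity
  have D1 : (1 : ℝ) ≤ D := by linarith
  have D1' : 1 ≤ D := by exact_mod_cast D1
  have D2 : 2 ≤ th N * D := (div_le_iff₀' tN).1 (by linarith)
  have D3 : K ≤ th N ^ 2 * D := (div_le_iff₀' (pow_pos tN 2)).1 (by linarith)
  refine ⟨κ, fun t => κ t ^ (u + 1) / 20, th, fun k => D ^ (N + 1 - k), rfl, fun t =>
    ⟨(κb t).1, (κb t).2, div_pos (pow_pos (κb t).1 _) (by norm_num), le_of_eq ?_, le_rfl⟩, κa,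
    le_rfl, fun k => (tb k).1, ta, fun k => (ts k).le,
    fun a b e => Nat.pow_le_pow_right D1' (by omega), fun k hk => ?_, fun k hk => ?_⟩
  · rw [κs]
    ring
  · refine D2.trans (mul_le_mul (ta hk) ?_ (by positivity) (tb k).1.le)
    exact_mod_cast Nat.le_self_pow (by omega) D
  · obtain ⟨E, hE, E1⟩ : ∃ E : ℕ, D ^ (N + 1 - (k + 1)) = E ∧ (1 : ℝ) ≤ E :=
      ⟨_, rfl, by exact_mod_cast Nat.one_le_pow _ _ D1'⟩
    have e : D ^ (N + 1 - k) = D * E := by
      rw [← hE, ← pow_succ']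
      congr 1
      omega
    simp only [hE, e]
    push_cast
    have h3 : th N ^ 2 ≤ th k ^ 2 := pow_le_pow_left₀ tN.le (ta hk.le) 2
    have h4 : K * E ≤ th k ^ 2 * D * E := mul_le_mul_of_nonneg_right
      (D3.trans (mul_le_mul_of_nonneg_right h3 (by positivity))) (by positivity)
    have h5 : ((u : ℝ) + 2) * 1 ≤ (u + 2) * E := mul_le_mul_of_nonneg_left E1 (by positivity)
    rw [hK] at h4
    linarith

/-- `Δ^e ≥ C^e m^(α e) ≥ C m^ρ ≥ K (2 m)^ρ`. -/
lemma slack_pow {α C K : ℝ} {e ρ u m n Δ : ℕ} (hα : 0 < α) (he : 1 ≤ e) (hρ : ρ ≤ u)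
    (hs : (ρ : ℝ) ≤ α * e) (hm : 1 ≤ m) (hn : n ≤ 2 * m) (hK : 0 ≤ K) (hC1 : 1 ≤ C)
    (hC : K * 2 ^ u ≤ C) (hΔ : C * (m : ℝ) ^ α ≤ Δ) : K * (n : ℝ) ^ ρ ≤ (Δ : ℝ) ^ e := by
  have m1 : (1 : ℝ) ≤ m := by exact_mod_cast hm
  have h1 : (n : ℝ) ^ ρ ≤ 2 ^ u * (m : ℝ) ^ ρ := by
    have h0 : (n : ℝ) ≤ 2 * m := by exact_mod_cast hn
    refine (pow_le_pow_left₀ n.cast_nonneg h0 ρ).trans ?_
    rw [mul_pow]
    exact mul_le_mul_of_nonneg_right (pow_le_pow_right₀ one_le_two hρ) (by positivity)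
  have h2 : (m : ℝ) ^ ρ ≤ ((m : ℝ) ^ α) ^ e := by
    rw [← Real.rpow_natCast, ← Real.rpow_natCast, ← Real.rpow_mul m.cast_nonneg]
    exact Real.rpow_le_rpow_of_exponent_le m1 hs
  have h3 : C ≤ C ^ e := le_self_pow₀ hC1 (by omega)
  calc K * (n : ℝ) ^ ρ ≤ K * (2 ^ u * (m : ℝ) ^ ρ) := mul_le_mul_of_nonneg_left h1 hK
    _ = K * 2 ^ u * (m : ℝ) ^ ρ := (mul_assoc _ _ _).symm
    _ ≤ C ^ e * ((m : ℝ) ^ α) ^ e := mul_le_mul (hC.trans h3) h2 (by positivity) (by positivity)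
    _ = (C * (m : ℝ) ^ α) ^ e := (mul_pow _ _ _).symm
    _ ≤ _ := pow_le_pow_left₀ (by positivity) hΔ e

variable {V : Type} [Fintype V] [DecidableEq V] {G : SimpleGraph V} {N : ℕ} {r : ℕ → ℕ}
  {H : Finset (V × V)}

lemma psep_mono {L : Type} [DecidableEq L] {S S' : V → Finset V} (h : ∀ y, S y ⊆ S' y)
    {A : Finset L} {w : L → V} (hp : PSep S' A w) : PSep S A w := by
  intro u hu v hv e
  obtain ⟨a, b, c⟩ := hp u hu v hv e
  exact ⟨a, fun k => b (h _ k), fun k => c (h _ k)⟩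

lemma lists_mono {σ : Type} {Δ D : ℕ} {θ β : ℝ} {adm adm' : V → σ → Prop} {supp : σ → Finset V}
    {wt : σ → V → ℕ} {Ls : V → Finset σ} (h : ∀ y s, adm y s → adm' y s)
    (hL : Lists H Δ θ D β adm supp wt Ls) : Lists H Δ θ D β adm' supp wt Ls := by
  exact ⟨hL.card_le, fun y s hs => h y s (hL.adm y s hs), hL.disj, hL.cov⟩

lemma sum_wtR (B a b : ℕ) (w : Lb → V) :
    ∑ x ∈ nbX H (w (Lb.y b)), wtR N r G H B a b w x = (gpairs N r G H B a b w).card := by
  simp only [wtR, gpairs, card_filter]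
  rw [sum_product_right]

lemma sum_wtL (B a b : ℕ) (w : Lb → V) :
    ∑ x ∈ nbX H (w (Lb.y a)), wtL N r G H B a b w x = (gpairs N r G H B a b w).card := by
  simp only [wtL, gpairs, card_filter]
  rw [sum_product]

lemma wt_mono {H' : Finset (V × V)} (h : H' ⊆ H) (B a b : ℕ) (w : Lb → V) (x : V) :
    wtR N r G H' B a b w x ≤ wtR N r G H B a b w x ∧
      wtL N r G H' B a b w x ≤ wtL N r G H B a b w x := by
  have k : ∀ y, nbX H' y ⊆ nbX H y := fun y x hx => mem_nbX.2 (h (mem_nbX.1 hx))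
  exact ⟨card_le_card (filter_subset_filter _ (k _)), card_le_card (filter_subset_filter _ (k _))⟩

lemma wt_le {Δ : ℕ} (hdeg : ∀ v, (nbr G v).card ≤ Δ) (hH : ∀ p ∈ H, G.Adj p.1 p.2) (B a b : ℕ)
    (w : Lb → V) (x : V) : wtR N r G H B a b w x ≤ Δ ∧ wtL N r G H B a b w x ≤ Δ := by
  exact ⟨(card_filter_le _ _).trans (host_deg_le hdeg hH _).1,
    (card_filter_le _ _).trans (host_deg_le hdeg hH _).1⟩

lemma supp_card {a b : ℕ} (hab : a < b) (w : Lb → V) :
    (suppR N r a b w).Nonempty ∧ (suppR N r a b w).card ≤ (VT N r).card + 2 ∧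
      (suppL N r a b w).Nonempty ∧ (suppL N r a b w).card ≤ (VT N r).card + 2 := by
  have e : Lb.y a ≠ Lb.y b := fun k => hab.ne (Lb.y.inj k)
  exact ⟨⟨_, mem_image_of_mem w (mem_erase.2 ⟨e, mem_Lab.2 (Or.inl rfl)⟩)⟩,
    card_image_le.trans ((card_erase_le).trans (card_Lab a b)),
    ⟨_, mem_image_of_mem w (mem_erase.2 ⟨e.symm, mem_Lab.2 (Or.inr (Or.inl rfl))⟩)⟩,
    card_image_le.trans ((card_erase_le).trans (card_Lab a b))⟩

/-- Test `Lt` at `y = w (y b)` with the stem `w`. -/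
lemma not_lt_R {S S' own : V → Finset V} {B a b Δ : ℕ} {θ : ℝ} (hS : ∀ y, S' y ⊆ S y)
    (ho : ∀ y, own y ⊆ S y) (hH : Heavy N r G H S B (θ * (Δ : ℝ) ^ 2) a b) :
    ¬ Lt H Δ θ (admR N r S' a b) (suppR N r a b) own (wtR N r G H B a b) := by
  obtain ⟨w, hp, hc⟩ := hH
  intro k
  have := k (w (Lb.y b)) w ⟨rfl, psep_mono hS hp⟩ (disjoint_left.2 fun x hx hx' => by
    obtain ⟨v, hv, rfl⟩ := mem_image.1 hx
    exact (hp v (mem_erase.1 hv).2 _ (mem_Lab.2 (Or.inr (Or.inl rfl))) (mem_erase.1 hv).1).2.1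
      (ho _ hx'))
  rw [← Nat.cast_sum, sum_wtR] at this
  exact absurd hc this.not_ge

lemma not_lt_L {S S' own : V → Finset V} {B a b Δ : ℕ} {θ : ℝ} (hS : ∀ y, S' y ⊆ S y)
    (ho : ∀ y, own y ⊆ S y) (hH : Heavy N r G H S B (θ * (Δ : ℝ) ^ 2) a b) :
    ¬ Lt H Δ θ (admL N r S' a b) (suppL N r a b) own (wtL N r G H B a b) := by
  obtain ⟨w, hp, hc⟩ := hH
  intro k
  have := k (w (Lb.y a)) w ⟨rfl, psep_mono hS hp⟩ (disjoint_left.2 fun x hx hx' => by
    obtain ⟨v, hv, rfl⟩ := mem_image.1 hx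
    exact (hp v (mem_erase.1 hv).2 _ (mem_Lab.2 (Or.inl rfl)) (mem_erase.1 hv).1).2.1
      (ho _ hx'))
  rw [← Nat.cast_sum, sum_wtL] at this
  exact absurd hc this.not_ge

/-- An empty piece is heavy: `exists_sep` in `Ys`, `lab_succ`, `rob_empty`, `host_card`. -/
lemma heavy_base {Δ : ℕ} (hdeg : ∀ v, (nbr G v).card ≤ Δ) {Xs Ys : Finset V} {lam thr : ℝ}
    (hH : Host G H Xs Ys lam) (hlam : 0 ≤ lam) (S : V → Finset V) (s : ℕ)
    (hS : ∀ y, (S y).card ≤ s) (hs : 2 * (s : ℝ) + 1 < lam) (B a : ℕ)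
    (ha : Nn N r a (a + 1) = ∅) (hthr : thr ≤ lam ^ 2) : Heavy N r G H S B thr a (a + 1) := by
  obtain ⟨y, hy, y', hy', hsep⟩ := exists_sep S s hS Ys (by
    exact_mod_cast hs.trans_le (host_card hdeg hH).2.2.2.2.2.2.2)
  let w : Lb → V := fun v => if v = Lb.y a then y else y'
  have e1 : w (Lb.y a) = y := if_pos rfl
  have e2 : w (Lb.y (a + 1)) = y' := if_neg fun k => a.succ_ne_self (Lb.y.inj k)
  refine ⟨w, fun u hu v hv e => ?_, hthr.trans ?_⟩
  · rw [lab_succ, mem_insert, mem_singleton] at hu hv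
    rcases hu with rfl | rfl <;> rcases hv with rfl | rfl
    · exact absurd rfl e
    · rwa [e1, e2]
    · rw [e1, e2]
      exact ⟨hsep.1.symm, hsep.2.2, hsep.2.1⟩
    · exact absurd rfl e
  · rw [gpairs, filter_true_of_mem fun p _ => by rw [Good, ha]; exact rob_empty _ _, card_product,
      e1, e2, sq, Nat.cast_mul]
    exact mul_le_mul (hH.dY y hy) (hH.dY y' hy') hlam (Nat.cast_nonneg _)

lemma heavy_mono {S : V → Finset V} {B a b : ℕ} {thr thr' : ℝ} (h : thr ≤ thr')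
    (hH : Heavy N r G H S B thr' a b) : Heavy N r G H S B thr a b := by
  exact hH.imp fun w k => ⟨k.1, h.trans k.2⟩

lemma full_of_heavy {S : V → Finset V} {B B' : ℕ} {thr : ℝ} (h : 0 < thr) (hB : B ≤ B')
    (hH : Heavy N r G H S B' thr 0 (N + 1)) : Full N r G B := by
  obtain ⟨w, hp, hc⟩ := hH
  obtain ⟨p, hp'⟩ := card_pos.1 (Nat.cast_pos.1 (h.trans_le hc))
  exact full_of_good hp (rob_mono hB (mem_gpairs.1 hp').2.2)

end Pool.Agent.Work.MP_054302_co.X
end

-- merged part: Pool.Agent.Work.MP_054302_co.Y.PDefs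
section
/-!
Label free definitions: oriented hosts, robustly joined pairs, heavy walks.
-/

namespace Pool.Agent.Work.MP_054302_co.Y

open Finset Function Pool.Agent.Work.MP_054302_co.X
open scoped Classical

variable {V : Type} [Fintype V] [DecidableEq V]

/-- The host read in the orientation given by the parity of `o`. -/
def Ho (o : ℕ) (H : Finset (V × V)) : Finset (V × V) :=
  if o % 2 = 0 then H else H.image Prod.swap

/-- The side given by the parity of `o`. -/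
def Sd (o : ℕ) (Xs Ys : Finset V) : Finset V := if o % 2 = 0 then Xs else Ys

omit [Fintype V] in
lemma mem_Ho {o : ℕ} {H : Finset (V × V)} {x y : V} :
    (x, y) ∈ Ho o H ↔ (o % 2 = 0 ∧ (x, y) ∈ H) ∨ (o % 2 = 1 ∧ (y, x) ∈ H) := by
  unfold Ho
  split_ifs with h
  · simp [h]
  · have h1 : o % 2 = 1 := by omega
    simp only [h1, one_ne_zero, false_and, true_and, false_or, mem_image]
    constructor
    · rintro ⟨⟨a, b⟩, h2, h3⟩
      simp only [Prod.swap_prod_mk, Prod.mk.injEq] at h3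
      rw [← h3.1, ← h3.2]; exact h2
    · intro h2
      exact ⟨(y, x), h2, rfl⟩

omit [Fintype V] in
lemma mem_Ho_succ {o : ℕ} {H : Finset (V × V)} {x y : V} :
    (x, y) ∈ Ho (o + 1) H ↔ (y, x) ∈ Ho o H := by
  rw [mem_Ho, mem_Ho]
  rcases Nat.mod_two_eq_zero_or_one o with h | h
  · have : (o + 1) % 2 = 1 := by omega
    simp [h, this]
  · have : (o + 1) % 2 = 0 := by omega
    simp [h, this]

omit [Fintype V] in
lemma Ho_congr {o o' : ℕ} (h : o % 2 = o' % 2) (H : Finset (V × V)) : Ho o H = Ho o' H := by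
  unfold Ho; rw [h]

omit [Fintype V] [DecidableEq V] in
lemma Sd_congr {o o' : ℕ} (h : o % 2 = o' % 2) (Xs Ys : Finset V) : Sd o Xs Ys = Sd o' Xs Ys := by
  unfold Sd; rw [h]

omit [Fintype V] in
lemma card_Ho (o : ℕ) (H : Finset (V × V)) : (Ho o H).card = H.card := by
  unfold Ho
  split_ifs
  · rfl
  · exact card_image_of_injective _ Prod.swap_injective

omit [Fintype V] in
lemma Ho_mono {o : ℕ} {H H' : Finset (V × V)} (h : H' ⊆ H) : Ho o H' ⊆ Ho o H := by
  rintro ⟨x, y⟩ hp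
  rw [mem_Ho] at hp ⊢
  exact hp.imp (fun k => ⟨k.1, h k.2⟩) fun k => ⟨k.1, h k.2⟩

omit [Fintype V] in
lemma Ho_Ho (o : ℕ) (H : Finset (V × V)) : Ho o (Ho o H) = H := by
  ext ⟨x, y⟩
  rw [mem_Ho, mem_Ho, mem_Ho]
  rcases Nat.mod_two_eq_zero_or_one o with h | h <;> simp [h]

omit [Fintype V] in
lemma Ho_adj {G : SimpleGraph V} {H : Finset (V × V)} (hH : ∀ p ∈ H, G.Adj p.1 p.2) (o : ℕ) :
    ∀ p ∈ Ho o H, G.Adj p.1 p.2 := by
  rintro ⟨x, y⟩ hp
  rcases mem_Ho.1 hp with h | h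
  · exact hH _ h.2
  · exact (hH _ h.2).symm

omit [Fintype V] in
lemma Sd_sub (o : ℕ) (Xs Ys : Finset V) : Sd o Xs Ys ⊆ Xs ∪ Ys := by
  unfold Sd
  split_ifs
  · exact subset_union_left
  · exact subset_union_right

lemma host_Ho {G : SimpleGraph V} {H : Finset (V × V)} {Xs Ys : Finset V} {lam : ℝ}
    (h : Host G H Xs Ys lam) (o : ℕ) : Host G (Ho o H) (Sd o Xs Ys) (Sd (o + 1) Xs Ys) lam := by
  rcases Nat.mod_two_eq_zero_or_one o with e | e
  · have e' : ¬ (o + 1) % 2 = 0 := by omega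
    rw [Ho, Sd, Sd, if_pos e, if_pos e, if_neg e']
    exact h
  · have e1 : ¬ o % 2 = 0 := by omega
    have e' : (o + 1) % 2 = 0 := by omega
    have hm : ∀ x y, (x, y) ∈ Ho o H ↔ (y, x) ∈ H := fun x y => by simp [mem_Ho, e]
    rw [Sd, Sd, if_neg e1, if_pos e']
    refine ⟨?_, ?_, ?_, ?_⟩
    · obtain ⟨⟨x, y⟩, hp⟩ := h.ne
      exact ⟨(y, x), (hm _ _).2 hp⟩
    · rintro ⟨x, y⟩ hp
      have := h.sub _ ((hm _ _).1 hp)
      exact ⟨this.1.symm, this.2.2, this.2.1⟩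
    · intro x hx
      have : nbY (Ho o H) x = nbX H x := by
        ext y; rw [mem_nbY, mem_nbX, hm]
      rw [this]; exact h.dY x hx
    · intro x hx
      have : nbX (Ho o H) x = nbY H x := by
        ext y; rw [mem_nbY, mem_nbX, hm]
      rw [this]; exact h.dX x hx

lemma host_mono {G : SimpleGraph V} {H : Finset (V × V)} {Xs Ys : Finset V} {lam lam' : ℝ}
    (hl : lam' ≤ lam) (h : Host G H Xs Ys lam) : Host G H Xs Ys lam' :=
  ⟨h.ne, h.sub, fun x hx => hl.trans (h.dX x hx), fun y hy => hl.trans (h.dY y hy)⟩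

/-- `p` is a walk of length `j`. -/
def Wk (G : SimpleGraph V) (j : ℕ) (p : ℕ → V) : Prop := ∀ i < j, G.Adj (p i) (p (i + 1))

/-- Robustly joined by walks of length `j` with injective interior. -/
def RP (G : SimpleGraph V) (B j : ℕ) (x x' : V) : Prop :=
  ∀ Z : Finset V, Z.card ≤ B → ∃ p : ℕ → V, p 0 = x ∧ p j = x' ∧ Wk G j p ∧
    (∀ i i', 0 < i → i < j → 0 < i' → i' < j → p i = p i' → i = i') ∧
    ∀ i, 0 < i → i < j → p i ∉ Z

/-- Walks of length `j` inside `W`, constant after the end. -/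
noncomputable def WK (G : SimpleGraph V) (W : Finset V) (j : ℕ) (v0 : V) : Finset (ℕ → V) :=
  (Maps (range (j + 1)) v0).filter fun p => (∀ i ≤ j, p i ∈ W) ∧ Wk G j p

lemma mem_WK {G : SimpleGraph V} {W : Finset V} {j : ℕ} {v0 : V} {p : ℕ → V} :
    p ∈ WK G W j v0 ↔ (∀ i, j < i → p i = v0) ∧ (∀ i ≤ j, p i ∈ W) ∧ Wk G j p := by
  simp only [WK, mem_filter, mem_Maps, mem_range, not_lt, Nat.add_one_le_iff]

/-- Injective walks with heavy ends and no heavy proper subwalk. -/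
noncomputable def HA (G : SimpleGraph V) (Q : ℕ → ℕ) (W : Finset V) (j : ℕ) (v0 : V) :
    Finset (ℕ → V) :=
  (WK G W j v0).filter fun p => (∀ i ≤ j, ∀ i' ≤ j, p i = p i' → i = i') ∧
    RP G (Q j) j (p 0) (p j) ∧
    ∀ a e, 2 ≤ e → e < j → a + e ≤ j → ¬ RP G (Q e) e (p a) (p (a + e))

lemma mem_HA {G : SimpleGraph V} {Q : ℕ → ℕ} {W : Finset V} {j : ℕ} {v0 : V} {p : ℕ → V} :
    p ∈ HA G Q W j v0 ↔ p ∈ WK G W j v0 ∧ (∀ i ≤ j, ∀ i' ≤ j, p i = p i' → i = i') ∧
      RP G (Q j) j (p 0) (p j) ∧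
      ∀ a e, 2 ≤ e → e < j → a + e ≤ j → ¬ RP G (Q e) e (p a) (p (a + e)) := by
  simp only [HA, mem_filter]

/-- The walk alternates in the host, starting in orientation `o`. -/
def Alt (H : Finset (V × V)) (o j : ℕ) (p : ℕ → V) : Prop :=
  ∀ i < j, (p i, p (i + 1)) ∈ Ho (o + i) H

/-- The chain of relations built on heavy pairs. -/
def CR (G : SimpleGraph V) (Q j : ℕ) (tE : ℝ) (P : ℕ) : ℕ → V → V → Prop
  | 0 => RP G Q j
  | i + 1 => fun w x => (if i % 2 = 0 then tE else (P : ℝ)) ≤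
      (((nbr G w).filter fun u => CR G Q j tE P i u x).card : ℝ)

/-- Quadruples `(y, c, w, c')` for heavy walks of length three. -/
noncomputable def Qd (G : SimpleGraph V) (Q2 Q3 : ℕ) (T : V → V → Prop) (H : Finset (V × V)) :
    Finset (V × V × V × V) :=
  univ.filter fun q => (q.2.1, q.1) ∈ H ∧ (q.2.1, q.2.2.1) ∈ H ∧ (q.2.2.2, q.2.2.1) ∈ H ∧
    ¬ RP G Q2 2 q.2.1 q.2.2.2 ∧ RP G Q3 3 q.1 q.2.2.2 ∧ T q.2.1 q.2.2.2

lemma mem_Qd {G : SimpleGraph V} {Q2 Q3 : ℕ} {T : V → V → Prop} {H : Finset (V × V)}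
    {y c w c' : V} : (y, c, w, c') ∈ Qd G Q2 Q3 T H ↔ (c, y) ∈ H ∧ (c, w) ∈ H ∧ (c', w) ∈ H ∧
      ¬ RP G Q2 2 c c' ∧ RP G Q3 3 y c' ∧ T c c' := by
  simp only [Qd, mem_filter, mem_univ, true_and]

/-- A sweeping strategy with `u` steps for the relation `T`. -/
structure Sweep (G : SimpleGraph V) (T : V → V → Prop) (u p : ℕ)
    (St : ℕ → V → Finset V → Prop) : Prop where
  start : ∃ y A, St 0 y A
  size : ∀ n y A, n ≤ u → St n y A → A ⊆ nbr G y ∧ p ≤ A.card
  leg : ∀ n y A (F : Finset V), n < u → St n y A → F.card ≤ u →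
    ∃ z, z ∉ F ∧ ∃ A', A' ⊆ A ∧ St (n + 1) y A' ∧ ∀ c ∈ A', T c z
  gap : ∀ n y A (F : Finset V), n < u → St n y A → F.card ≤ u →
    ∃ y', y' ∉ F ∧ ∃ A', St (n + 1) y' A' ∧ ∀ c' ∈ A', p ≤ (A.filter fun c => T c c').card

/-- Some sweeping strategy exists. -/
def CanSweep (G : SimpleGraph V) (T : V → V → Prop) (u p : ℕ) : Prop :=
  ∃ St : ℕ → V → Finset V → Prop, Sweep G T u p St

end Pool.Agent.Work.MP_054302_co.Y
end

-- merged part: Pool.Agent.Work.MP_054302_co.Y.Defs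
section
/-!
Definitions for the upper bound on Turan numbers of powers of subdivided caterpillars.
-/

namespace Pool.Agent.Work.MP_054302_co.Y

open Finset Function Pool.Agent.Work.MP_054302_co.X
open scoped Classical

/-- Labels of the vertices of the caterpillar (also the dummy ones). -/
inductive Lb : Type
  | c (i : ℕ) : Lb
  | y (i : ℕ) : Lb
  | m (i t : ℕ) : Lb
  | a (i j t : ℕ) : Lb
  | z (i j : ℕ) : Lb
  deriving DecidableEq

/-- Position on the doubled scale. -/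
def pos : Lb → ℕ
  | .c i => 2 * i
  | .y i => 2 * i
  | .m i _ => 2 * i + 1
  | .a i _ _ => 2 * i
  | .z i _ => 2 * i

/-- Distance from the left end; it grows by one along every oriented edge. -/
def rk (d : ℕ) : Lb → ℕ
  | .c i => i * (d + 2)
  | .y i => i * (d + 2) + 1
  | .m i t => i * (d + 2) + t + 1
  | .a i _ t => i * (d + 2) + t + 1
  | .z i _ => i * (d + 2) + d + 2

/-- Root labels. -/
def isRoot : Lb → Bool
  | .y _ => true
  | .z _ _ => true
  | _ => false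

/-- Labels that are vertices of the tree. -/
def IsReal (d N : ℕ) (r : ℕ → ℕ) : Lb → Prop
  | .c i => 1 ≤ i ∧ i ≤ N
  | .y i => 1 ≤ i ∧ i ≤ N
  | .m i t => 1 ≤ i ∧ i < N ∧ t ≤ d
  | .a i j t => 1 ≤ i ∧ i ≤ N ∧ j < r i ∧ t ≤ d
  | .z i j => 1 ≤ i ∧ i ≤ N ∧ j < r i

/-- Oriented edges of the tree, from parent to child. Gaps and legs have length `d + 2`. -/
def Ed (d N : ℕ) (r : ℕ → ℕ) : Lb → Lb → Prop
  | .c i, .y j => i = j ∧ 1 ≤ j ∧ j ≤ N
  | .c i, .m j t => i = j ∧ t = 0 ∧ 1 ≤ j ∧ j < N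
  | .m i s, .m j t => i = j ∧ t = s + 1 ∧ t ≤ d ∧ 1 ≤ j ∧ j < N
  | .m i s, .c j => j = i + 1 ∧ s = d ∧ 1 ≤ i ∧ i < N
  | .c i, .a j k t => i = j ∧ t = 0 ∧ 1 ≤ j ∧ j ≤ N ∧ k < r j
  | .a i l s, .a j k t => i = j ∧ l = k ∧ t = s + 1 ∧ t ≤ d ∧ 1 ≤ j ∧ j ≤ N ∧ k < r j
  | .a i l s, .z j k => i = j ∧ l = k ∧ s = d ∧ 1 ≤ j ∧ j ≤ N ∧ k < r j
  | _, _ => False

/-- Adjacency in the tree. -/
def adj (d N : ℕ) (r : ℕ → ℕ) (u v : Lb) : Prop := Ed d N r u v ∨ Ed d N r v u

/-- The vertex set of the tree. -/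
def VT (d N : ℕ) (r : ℕ → ℕ) : Finset Lb :=
  (Icc 1 N).image Lb.c ∪ (Icc 1 N).image Lb.y ∪
    (Ico 1 N).biUnion (fun i => (range (d + 1)).image (Lb.m i)) ∪
    (Icc 1 N).biUnion (fun i => (range (r i)).biUnion fun j => (range (d + 1)).image (Lb.a i j)) ∪
    (Icc 1 N).biUnion (fun i => (range (r i)).image (Lb.z i))

lemma mem_VT {d N : ℕ} {r : ℕ → ℕ} {v : Lb} : v ∈ VT d N r ↔ IsReal d N r v := by
  cases v <;> simp [VT, IsReal, and_assoc]

/-- The gap between `c i` and `c (i + 1)` as a path of length `d + 2`. -/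
def gl (d i t : ℕ) : Lb := if t = 0 then .c i else if t ≤ d + 1 then .m i (t - 1) else .c (i + 1)

/-- The leg from `c i` to `z i j` as a path of length `d + 2`. -/
def ll (d i j t : ℕ) : Lb := if t = 0 then .c i else if t ≤ d + 1 then .a i j (t - 1) else .z i j

/-- `q` is a path of length `j` of the tree inside `U`. -/
def TP (d N : ℕ) (r : ℕ → ℕ) (U : Finset Lb) (j : ℕ) (q : ℕ → Lb) : Prop :=
  (∀ i ≤ j, q i ∈ U) ∧ (∀ i < j, adj d N r (q i) (q (i + 1))) ∧
    ∀ i ≤ j, ∀ i' ≤ j, q i = q i' → i = i'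

/-- The host oriented for the anchor edge number `i`. -/
def Hi {V : Type} [DecidableEq V] (d : ℕ) (H : Finset (V × V)) (i : ℕ) : Finset (V × V) :=
  Ho (i * (d + 2)) H

/-- Real vertices with position in a closed range. -/
def Seg (d N : ℕ) (r : ℕ → ℕ) (lo hi : ℕ) : Finset Lb :=
  (VT d N r).filter fun v => lo ≤ pos v ∧ pos v ≤ hi

lemma mem_Seg {d N : ℕ} {r : ℕ → ℕ} {lo hi : ℕ} {v : Lb} :
    v ∈ Seg d N r lo hi ↔ IsReal d N r v ∧ lo ≤ pos v ∧ pos v ≤ hi := by
  simp [Seg, mem_VT]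

/-- Non-root part of the piece strictly between positions `a` and `b`. -/
def Nn (d N : ℕ) (r : ℕ → ℕ) (a b : ℕ) : Finset Lb :=
  (VT d N r).filter fun v => isRoot v = false ∧ 2 * a < pos v ∧ pos v < 2 * b

lemma mem_Nn {d N : ℕ} {r : ℕ → ℕ} {a b : ℕ} {v : Lb} :
    v ∈ Nn d N r a b ↔ IsReal d N r v ∧ isRoot v = false ∧ 2 * a < pos v ∧ pos v < 2 * b := by
  simp [Nn, mem_VT]

/-- Roots of the piece together with the two anchor labels. -/
def Lab (d N : ℕ) (r : ℕ → ℕ) (a b : ℕ) : Finset Lb :=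
  insert (Lb.y a) (insert (Lb.y b)
    ((VT d N r).filter fun v => isRoot v = true ∧ 2 * a < pos v ∧ pos v < 2 * b))

lemma mem_Lab {d N : ℕ} {r : ℕ → ℕ} {a b : ℕ} {v : Lb} :
    v ∈ Lab d N r a b ↔ v = Lb.y a ∨ v = Lb.y b ∨
      (IsReal d N r v ∧ isRoot v = true ∧ 2 * a < pos v ∧ pos v < 2 * b) := by
  simp [Lab, mem_VT]

/-- All non-roots. -/
def NR (d N : ℕ) (r : ℕ → ℕ) : Finset Lb := (VT d N r).filter fun v => isRoot v = false

/-- All roots. -/
def RT (d N : ℕ) (r : ℕ → ℕ) : Finset Lb := (VT d N r).filter fun v => isRoot v = true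

lemma mem_NR {d N : ℕ} {r : ℕ → ℕ} {v : Lb} : v ∈ NR d N r ↔ IsReal d N r v ∧ isRoot v = false := by
  simp [NR, mem_VT]

lemma mem_RT {d N : ℕ} {r : ℕ → ℕ} {v : Lb} : v ∈ RT d N r ↔ IsReal d N r v ∧ isRoot v = true := by
  simp [RT, mem_VT]

section tree

variable {V : Type} [Fintype V] [DecidableEq V]

/-- An injective choice of the roots with robustly many copies of the tree on it. -/
def Full (d N : ℕ) (r : ℕ → ℕ) (G : SimpleGraph V) (B : ℕ) : Prop :=
  ∃ w : Lb → V, Set.InjOn w (RT d N r) ∧ Rob (adj d N r) G B (NR d N r) w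

/-- Side respecting homomorphisms of `U` into the host. -/
noncomputable def Hom (d N : ℕ) (r : ℕ → ℕ) (H : Finset (V × V)) (Xs Ys : Finset V)
    (U : Finset Lb) (v0 : V) : Finset (Lb → V) :=
  (Maps U v0).filter fun f => (∀ v ∈ U, f v ∈ Sd (rk d v) Xs Ys) ∧
    ∀ u ∈ U, ∀ v ∈ U, Ed d N r u v → (f u, f v) ∈ Ho (rk d u) H

lemma mem_Hom {d N : ℕ} {r : ℕ → ℕ} {H : Finset (V × V)} {Xs Ys : Finset V} {U : Finset Lb}
    {v0 : V} {f : Lb → V} : f ∈ Hom d N r H Xs Ys U v0 ↔ (∀ v, v ∉ U → f v = v0) ∧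
      (∀ v ∈ U, f v ∈ Sd (rk d v) Xs Ys) ∧
      ∀ u ∈ U, ∀ v ∈ U, Ed d N r u v → (f u, f v) ∈ Ho (rk d u) H := by
  simp only [Hom, mem_filter, mem_Maps]

/-- The piece `(a,b)` is robust on the roots `w` with boundary vertices `cL`, `cR`. -/
def Good (d N : ℕ) (r : ℕ → ℕ) (G : SimpleGraph V) (B a b : ℕ) (w : Lb → V) (cL cR : V) : Prop :=
  Rob (adj d N r) G B (Nn d N r a b) (update (update w (Lb.c a) cL) (Lb.c b) cR)

/-- The good boundary pairs of `w`. -/
noncomputable def gpairs (d N : ℕ) (r : ℕ → ℕ) (G : SimpleGraph V) (H : Finset (V × V))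
    (B a b : ℕ) (w : Lb → V) : Finset (V × V) :=
  (nbX (Hi d H a) (w (Lb.y a)) ×ˢ nbX (Hi d H b) (w (Lb.y b))).filter fun p =>
    Good d N r G B a b w p.1 p.2

lemma mem_gpairs {d N : ℕ} {r : ℕ → ℕ} {G : SimpleGraph V} {H : Finset (V × V)} {B a b : ℕ}
    {w : Lb → V} {p : V × V} : p ∈ gpairs d N r G H B a b w ↔
      (p.1, w (Lb.y a)) ∈ Hi d H a ∧ (p.2, w (Lb.y b)) ∈ Hi d H b ∧
      Good d N r G B a b w p.1 p.2 := by
  simp [gpairs, mem_nbX, and_assoc]

/-- A separated labelling of the piece with many good boundary pairs. -/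
def Heavy (d N : ℕ) (r : ℕ → ℕ) (G : SimpleGraph V) (H : Finset (V × V)) (S : V → Finset V)
    (B : ℕ) (thr : ℝ) (a b : ℕ) : Prop :=
  ∃ w : Lb → V, PSep S (Lab d N r a b) w ∧ thr ≤ ((gpairs d N r G H B a b w).card : ℝ)

/-- Weight in the right view. -/
noncomputable def wtR (d N : ℕ) (r : ℕ → ℕ) (G : SimpleGraph V) (H : Finset (V × V))
    (B a b : ℕ) (w : Lb → V) (x : V) : ℕ :=
  ((nbX (Hi d H a) (w (Lb.y a))).filter fun cL => Good d N r G B a b w cL x).card

/-- Weight in the left view. -/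
noncomputable def wtL (d N : ℕ) (r : ℕ → ℕ) (G : SimpleGraph V) (H : Finset (V × V))
    (B a b : ℕ) (w : Lb → V) (x : V) : ℕ :=
  ((nbX (Hi d H b) (w (Lb.y b))).filter fun cR => Good d N r G B a b w x cR).card

/-- Admissible stems in the right view. -/
def admR (d N : ℕ) (r : ℕ → ℕ) (S : V → Finset V) (a b : ℕ) (y : V) (w : Lb → V) : Prop :=
  w (Lb.y b) = y ∧ PSep S (Lab d N r a b) w

/-- Admissible stems in the left view. -/
def admL (d N : ℕ) (r : ℕ → ℕ) (S : V → Finset V) (a b : ℕ) (y : V) (w : Lb → V) : Prop :=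
  w (Lb.y a) = y ∧ PSep S (Lab d N r a b) w

/-- Support in the right view. -/
def suppR (d N : ℕ) (r : ℕ → ℕ) (a b : ℕ) (w : Lb → V) : Finset V :=
  ((Lab d N r a b).erase (Lb.y b)).image w

/-- Support in the left view. -/
def suppL (d N : ℕ) (r : ℕ → ℕ) (a b : ℕ) (w : Lb → V) : Finset V :=
  ((Lab d N r a b).erase (Lb.y a)).image w

end tree

/-- The factor condition on the word. -/
def Slack (d N : ℕ) (r : ℕ → ℕ) (α : ℝ) : Prop :=
  ∀ b b' : ℕ, 1 ≤ b → b ≤ b' → b' ≤ N →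
    ((b' + 1 - b : ℕ) : ℝ) + (∑ i ∈ Icc b b', r i : ℕ) - 1 ≤
      α * (((b' + 1 - b : ℕ) : ℝ) +
        ((d : ℝ) + 2) * (((b' + 1 - b : ℕ) : ℝ) - 1 + (∑ i ∈ Icc b b', r i : ℕ)))

/-- Vertices of the power of the tree. -/
def TpS (d N : ℕ) (r : ℕ → ℕ) (p : ℕ) : Finset (Lb × ℕ) :=
  (VT d N r ×ˢ range p).filter fun x => isRoot x.1 = true → x.2 = 0

/-- The `p`-th power of the rooted tree. -/
def Tp (d N : ℕ) (r : ℕ → ℕ) (p : ℕ) : SimpleGraph (TpS d N r p) :=
  SimpleGraph.fromRel fun x x' => adj d N r x.1.1 x'.1.1 ∧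
    (x.1.2 = x'.1.2 ∨ isRoot x.1.1 = true ∨ isRoot x'.1.1 = true)

end Pool.Agent.Work.MP_054302_co.Y
end

-- merged part: Pool.Agent.Work.MP_054302_co.Y.Tree
section
namespace Pool.Agent.Work.MP_054302_co.Y

open Finset Function Pool.Agent.Work.MP_054302_co.X
open scoped Classical

variable {d N : ℕ} {r : ℕ → ℕ}

lemma adj_symm (u v : Lb) (h : adj d N r u v) : adj d N r v u := by
  exact Or.symm h

lemma adj_irrefl (u : Lb) : ¬ adj d N r u u := by
  cases u <;> simp [adj, Ed]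

lemma adj_real {u v : Lb} (h : adj d N r u v) : IsReal d N r u ∧ IsReal d N r v := by
  have key : ∀ {u v : Lb}, Ed d N r u v → IsReal d N r u ∧ IsReal d N r v := by
    intro u v h
    cases u <;> cases v <;> simp only [Ed, IsReal] at h ⊢
    · omega
    · omega
    · omega
    · omega
    · omega
    · obtain ⟨rfl, rfl, h⟩ := h
      omega
    · obtain ⟨rfl, rfl, h⟩ := h
      omega
  rcases h with h | h
  · exact key h
  · exact (key h).symm

lemma ed_rk {u v : Lb} (h : Ed d N r u v) : rk d v = rk d u + 1 := by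
  cases u <;> cases v <;> simp only [Ed] at h <;> simp only [rk]
  · rw [h.1]
  · rw [h.1, h.2.1]
  · rw [h.1, h.2.1]
  · rw [h.1, h.2.1]; ring
  · rw [h.1, h.2.1]; ring
  · rw [h.1, h.2.2.1]; ring
  · rw [h.1, h.2.2.1]

lemma adj_rk {u v : Lb} (h : adj d N r u v) : rk d v % 2 = (rk d u + 1) % 2 := by
  rcases h with h | h <;> have := ed_rk h <;> omega

lemma adj_pos {u v : Lb} (h : adj d N r u v) : pos u ≤ pos v + 1 ∧ pos v ≤ pos u + 1 := by
  have key : ∀ {u v : Lb}, Ed d N r u v → pos u ≤ pos v + 1 ∧ pos v ≤ pos u + 1 := by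
    intro u v h
    cases u <;> cases v <;> simp only [Ed, pos] at h ⊢ <;> omega
  rcases h with h | h
  · exact key h
  · exact (key h).symm

/-- Parent map towards the branch vertex number `s`. -/
def Tree_par (d s : ℕ) : Lb → Lb
  | .c i => .m (i - 1) d
  | .y i => .c i
  | .m i t => if i < s then (if t = d then .c s else .m i (t + 1))
      else if t = 0 then .c i else .m i (t - 1)
  | .a i j t => if t = 0 then .c i else .a i j (t - 1)
  | .z i j => .a i j d

/-- Rank for the parent map. -/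
def Tree_rk (d s : ℕ) : Lb → ℕ
  | .c i => (i - s) * (d + 2)
  | .y i => (i - s) * (d + 2) + 1
  | .m i t => if i < s then d + 1 - t else (i - s) * (d + 2) + t + 1
  | .a i _ t => (i - s) * (d + 2) + t + 1
  | .z i _ => (i - s) * (d + 2) + d + 2

lemma conn_seg {s t lo hi : ℕ} (hs : 1 ≤ s) (hst : s ≤ t) (ht : t ≤ N)
    (hlo : lo = 2 * s ∨ lo + 1 = 2 * s) (hhi : hi = 2 * t ∨ hi = 2 * t + 1) :
    Conn (adj d N r) (Seg d N r lo hi) := by
  refine conn_of_par adj_symm _ (Lb.c s) (Tree_par d s) (Tree_rk d s) ?_ ?_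
  · intro v hv hne
    rw [mem_Seg] at hv
    rw [mem_Seg]
    cases v with
    | c i =>
      have hi : i ≠ s := fun e => hne (by rw [e])
      simp only [IsReal, pos] at hv
      have h1 : ¬ i - 1 < s := by omega
      have h2 : (i - s) * (d + 2) = (i - 1 - s) * (d + 2) + (d + 2) := by
        rw [← Nat.succ_mul]; congr 1; omega
      simp only [Tree_par, Tree_rk, IsReal, pos, adj, Ed, h1, if_false,
          true_and, and_true, false_or, or_false]
      omega
    | y i =>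
      simp only [IsReal, pos] at hv
      simp only [Tree_par, Tree_rk, IsReal, pos, adj, Ed,
          true_and, and_true, false_or, or_false]
      omega
    | m i k =>
      simp only [IsReal, pos] at hv
      by_cases h1 : i < s
      · by_cases h2 : k = d
        · simp only [Tree_par, Tree_rk, IsReal, pos, adj, Ed, h1, h2, if_true, Nat.sub_self,
          true_and, and_true, false_or, or_false]
          omega
        · simp only [Tree_par, Tree_rk, IsReal, pos, adj, Ed, h1, h2, if_true, if_false,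
          true_and, and_true, false_or, or_false]
          omega
      · by_cases h2 : k = 0
        · simp only [Tree_par, Tree_rk, IsReal, pos, adj, Ed, h1, h2, if_true, if_false,
          true_and, and_true, false_or, or_false]
          omega
        · simp only [Tree_par, Tree_rk, IsReal, pos, adj, Ed, h1, h2, if_false,
          true_and, and_true, false_or, or_false]
          omega
    | a i j k =>
      simp only [IsReal, pos] at hv
      by_cases h2 : k = 0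
      · simp only [Tree_par, Tree_rk, IsReal, pos, adj, Ed, h2, if_true,
          true_and, and_true, false_or, or_false]
        omega
      · simp only [Tree_par, Tree_rk, IsReal, pos, adj, Ed, h2, if_false,
          true_and, and_true, false_or, or_false]
        omega
    | z i j =>
      simp only [IsReal, pos] at hv
      simp only [Tree_par, Tree_rk, IsReal, pos, adj, Ed,
          true_and, and_true, false_or, or_false]
      omega
  · rw [mem_Seg]
    simp only [IsReal, pos]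
    omega

lemma Tree_card_m (I : Finset ℕ) :
    (I.biUnion (fun i => (range (d + 1)).image (Lb.m i))).card = I.card * (d + 1) := by
  rw [card_biUnion, sum_const_nat]
  · intro i _
    rw [card_image_of_injective _ (fun _ _ h => (Lb.m.inj h).2), card_range]
  · intro i _ j _ hij
    rw [Function.onFun, Finset.disjoint_left]
    intro v hv hv'
    simp only [mem_image, mem_range] at hv hv'
    obtain ⟨k, _, rfl⟩ := hv
    obtain ⟨l, _, e⟩ := hv'
    exact hij (Lb.m.inj e).1.symm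

lemma Tree_card_a (I : Finset ℕ) :
    (I.biUnion (fun i => (range (r i)).biUnion fun j =>
      (range (d + 1)).image (Lb.a i j))).card = (∑ i ∈ I, r i) * (d + 1) := by
  rw [card_biUnion, sum_mul]
  · refine sum_congr rfl fun i _ => ?_
    rw [card_biUnion, sum_const_nat (m := d + 1), card_range]
    · intro j _
      rw [card_image_of_injective _ (fun _ _ h => (Lb.a.inj h).2.2), card_range]
    · intro k _ j _ hij
      rw [Function.onFun, Finset.disjoint_left]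
      intro v hv hv'
      simp only [mem_image, mem_range] at hv hv'
      obtain ⟨k, _, rfl⟩ := hv
      obtain ⟨l, _, e⟩ := hv'
      exact hij (Lb.a.inj e).2.1.symm
  · intro i _ j _ hij
    rw [Function.onFun, Finset.disjoint_left]
    intro v hv hv'
    simp only [mem_biUnion, mem_image, mem_range] at hv hv'
    obtain ⟨k, _, k', _, rfl⟩ := hv
    obtain ⟨l, _, l', _, e⟩ := hv'
    exact hij (Lb.a.inj e).1.symm

lemma Tree_card_z (I : Finset ℕ) :
    (I.biUnion (fun i => (range (r i)).image (Lb.z i))).card = ∑ i ∈ I, r i := by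
  rw [card_biUnion]
  · refine sum_congr rfl fun i _ => ?_
    rw [card_image_of_injective _ (fun _ _ h => (Lb.z.inj h).2), card_range]
  · intro i _ j _ hij
    rw [Function.onFun, Finset.disjoint_left]
    intro v hv hv'
    simp only [mem_image, mem_range] at hv hv'
    obtain ⟨k, _, rfl⟩ := hv
    obtain ⟨l, _, e⟩ := hv'
    exact hij (Lb.z.inj e).1.symm

lemma Tree_seg_all : Seg d N r (2 * 1) (2 * N) = VT d N r := by
  ext v
  rw [mem_Seg, mem_VT]
  cases v <;> simp only [IsReal, pos] <;> omega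

lemma card_seg {b b' : ℕ} (hb : 1 ≤ b) (hbb : b ≤ b') (hb' : b' ≤ N) :
    (Seg d N r (2 * b) (2 * b')).card =
      (b' + 1 - b) + 1 + (d + 2) * ((b' - b) + ∑ i ∈ Icc b b', r i) := by
  have e : Seg d N r (2 * b) (2 * b') = (Icc b b').image Lb.c ∪ (Icc b b').image Lb.y ∪
      (Ico b b').biUnion (fun i => (range (d + 1)).image (Lb.m i)) ∪
      (Icc b b').biUnion (fun i => (range (r i)).biUnion fun j =>
        (range (d + 1)).image (Lb.a i j)) ∪
      (Icc b b').biUnion (fun i => (range (r i)).image (Lb.z i)) := by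
    ext v
    rw [mem_Seg]
    cases v <;> simp [IsReal, pos] <;> omega
  rw [e, card_union_of_disjoint, card_union_of_disjoint, card_union_of_disjoint,
    card_union_of_disjoint, Tree_card_a, Tree_card_z, Tree_card_m,
    card_image_of_injective _ (fun _ _ h => Lb.c.inj h),
    card_image_of_injective _ (fun _ _ h => Lb.y.inj h), Nat.card_Icc, Nat.card_Ico]
  · obtain ⟨k, rfl⟩ := Nat.exists_eq_add_of_le hbb
    have e1 : b + k + 1 - b = k + 1 := by omega
    have e2 : b + k - b = k := by omega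
    rw [e1, e2]
    ring
  all_goals
    rw [Finset.disjoint_left]
    intro v hv
    cases v <;> simp at hv ⊢

lemma card_seg_root {b b' : ℕ} (hb : 1 ≤ b) (hbb : b ≤ b') (hb' : b' ≤ N) :
    ((Seg d N r (2 * b) (2 * b')).filter fun v => isRoot v = true).card =
      (b' + 1 - b) + ∑ i ∈ Icc b b', r i := by
  have e : ((Seg d N r (2 * b) (2 * b')).filter fun v => isRoot v = true) =
      (Icc b b').image Lb.y ∪ (Icc b b').biUnion (fun i => (range (r i)).image (Lb.z i)) := by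
    ext v
    rw [mem_filter, mem_Seg]
    cases v <;> simp [IsReal, pos, isRoot] <;> omega
  rw [e, card_union_of_disjoint, Tree_card_z,
    card_image_of_injective _ (fun _ _ h => Lb.y.inj h), Nat.card_Icc]
  rw [Finset.disjoint_left]
  intro v hv
  cases v <;> simp at hv ⊢

lemma card_VT (hN : 1 ≤ N) :
    (VT d N r).card = N + 1 + (d + 2) * ((N - 1) + ∑ i ∈ Icc 1 N, r i) := by
  have h := card_seg (N := N) (d := d) (r := r) (b := 1) (b' := N) le_rfl hN le_rfl
  rw [Tree_seg_all] at h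
  simpa using h

lemma card_RT (hN : 1 ≤ N) : (RT d N r).card = N + ∑ i ∈ Icc 1 N, r i := by
  have h := card_seg_root (N := N) (d := d) (r := r) (b := 1) (b' := N) le_rfl hN le_rfl
  rw [Tree_seg_all] at h
  simpa [RT] using h

lemma card_NR (hN : 1 ≤ N) :
    (NR d N r).card = N + (d + 1) * ((N - 1) + ∑ i ∈ Icc 1 N, r i) := by
  have h1 := card_VT (N := N) (d := d) (r := r) hN
  have h2 := card_RT (N := N) (d := d) (r := r) hN
  have h3 := Finset.card_filter_add_card_filter_not (s := VT d N r) (fun v => isRoot v = true)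
  have h4 : (VT d N r).filter (fun v => ¬ isRoot v = true) = NR d N r := by
    simp [NR]
  rw [h4] at h3
  unfold RT at h2
  have h5 : (d + 2) * ((N - 1) + ∑ i ∈ Icc 1 N, r i) =
      (d + 1) * ((N - 1) + ∑ i ∈ Icc 1 N, r i) + ((N - 1) + ∑ i ∈ Icc 1 N, r i) := by ring
  omega

lemma card_Lab (a b : ℕ) : (Lab d N r a b).card ≤ (VT d N r).card + 2 := by
  unfold Lab
  refine (card_insert_le _ _).trans ?_
  refine (Nat.succ_le_succ (card_insert_le _ _)).trans ?_
  exact Nat.succ_le_succ (Nat.succ_le_succ (card_filter_le _ _))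

lemma nn_zero : Nn d N r 0 (N + 1) = NR d N r := by
  ext v
  rw [mem_Nn, mem_NR]
  cases v <;> simp [IsReal, pos, isRoot] <;> omega

lemma rt_sub_lab : RT d N r ⊆ Lab d N r 0 (N + 1) := by
  intro v hv
  rw [mem_RT] at hv
  rw [mem_Lab]
  refine Or.inr (Or.inr ⟨hv.1, hv.2, ?_⟩)
  have h := hv.1
  cases v <;> simp only [IsReal, pos] at h ⊢ <;> omega

lemma nn_first : Nn d N r 0 1 = ∅ := by
  ext v
  rw [mem_Nn]
  cases v <;> simp [IsReal, pos, isRoot] <;> omega

lemma nn_last : Nn d N r N (N + 1) = ∅ := by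
  ext v
  rw [mem_Nn]
  cases v <;> simp [IsReal, pos, isRoot] <;> omega

lemma lab_succ (a : ℕ) : Lab d N r a (a + 1) = {Lb.y a, Lb.y (a + 1)} := by
  ext v
  rw [mem_Lab]
  cases v <;> simp [IsReal, pos, isRoot] <;> omega

/-- The boundary of a piece. -/
lemma nn_boundary {a b : ℕ} {u v : Lb} (hu : u ∈ Nn d N r a b) (hv : v ∉ Nn d N r a b)
    (h : adj d N r u v) : v = Lb.c a ∨ v = Lb.c b ∨
      (IsReal d N r v ∧ isRoot v = true ∧ 2 * a < pos v ∧ pos v < 2 * b) := by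
  rw [mem_Nn] at hu hv
  have hr := (adj_real h).2
  cases u <;> cases v <;>
    simp [adj, Ed, IsReal, pos, isRoot] at hu hv h hr ⊢ <;> omega

lemma gl_adj {i t : ℕ} (h1 : 1 ≤ i) (h2 : i < N) (ht : t < d + 2) :
    adj d N r (gl d i t) (gl d i (t + 1)) := by
  left
  unfold gl
  split_ifs <;> first | contradiction | (simp only [Ed, true_and]; omega) | (simp only [Ed]; omega)

lemma ll_adj {i j t : ℕ} (h1 : 1 ≤ i) (h2 : i ≤ N) (hj : j < r i) (ht : t < d + 2) :
    adj d N r (ll d i j t) (ll d i j (t + 1)) := by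
  left
  unfold ll
  split_ifs <;> first | contradiction | (simp only [Ed, true_and]; omega) | (simp only [Ed]; omega)

lemma gl_inj {i t t' : ℕ} (ht : t ≤ d + 2) (ht' : t' ≤ d + 2) (h : gl d i t = gl d i t') :
    t = t' := by
  unfold gl at h
  split_ifs at h <;> simp at h <;> omega

lemma ll_inj {i j t t' : ℕ} (ht : t ≤ d + 2) (ht' : t' ≤ d + 2)
    (h : ll d i j t = ll d i j t') : t = t' := by
  unfold ll at h
  split_ifs at h <;> simp at h <;> omega

variable {V : Type} [Fintype V] [DecidableEq V] {G : SimpleGraph V}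

/-- Use `rob_congr` and `nn_boundary`. -/
lemma good_congr {B a b : ℕ} {w w' : Lb → V} {cL cR : V}
    (h : ∀ v ∈ Lab d N r a b, w v = w' v) (hg : Good d N r G B a b w cL cR) :
    Good d N r G B a b w' cL cR := by
  refine rob_congr ?_ hg
  intro u hu v hv huv
  rcases nn_boundary hu hv huv with e | e | e
  · subst e
    by_cases hab : Lb.c a = Lb.c b
    · rw [hab]; simp
    · simp [update_of_ne hab]
  · subst e
    simp
  · have h1 : ∀ i, v ≠ Lb.c i := by
      rintro i rfl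
      simp [isRoot] at e
    rw [update_of_ne (h1 b), update_of_ne (h1 a), update_of_ne (h1 b), update_of_ne (h1 a)]
    exact h v (mem_Lab.2 (Or.inr (Or.inr e)))

/-- A good labelling of the whole tree (use `nn_zero`, `rt_sub_lab`). -/
lemma full_of_good {B : ℕ} {S : V → Finset V} {w : Lb → V} {cL cR : V}
    (hp : PSep S (Lab d N r 0 (N + 1)) w) (hg : Good d N r G B 0 (N + 1) w cL cR) :
    Full d N r G B := by
  refine ⟨update (update w (Lb.c 0) cL) (Lb.c (N + 1)) cR, ?_, ?_⟩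
  · have h1 : ∀ v ∈ RT d N r, update (update w (Lb.c 0) cL) (Lb.c (N + 1)) cR v = w v := by
      intro v hv
      have h2 : ∀ i, v ≠ Lb.c i := by
        rintro i rfl
        simp [mem_RT, isRoot] at hv
      rw [update_of_ne (h2 _), update_of_ne (h2 _)]
    intro u hu v hv e
    rw [h1 u hu, h1 v hv] at e
    by_contra hne
    exact (hp u (rt_sub_lab hu) v (rt_sub_lab hv) hne).1 e
  · rw [← nn_zero]
    exact hg

end Pool.Agent.Work.MP_054302_co.Y
end

-- merged part: Pool.Agent.Work.MP_054302_co.Y.Items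
section
namespace Pool.Agent.Work.MP_054302_co.Y

open Finset Function Pool.Agent.Work.MP_054302_co.X
open scoped Classical

variable {V : Type} [Fintype V] [DecidableEq V] {G : SimpleGraph V} {d N : ℕ} {r : ℕ → ℕ}
  {H : Finset (V × V)}

/-- Two separated vertices in two given sets (count ordered pairs). -/
lemma exists_sep2 (S : V → Finset V) (s : ℕ) (hS : ∀ y, (S y).card ≤ s) (Y Y' : Finset V)
    (hY : 2 * s + 1 < Y.card) (hY' : 2 * s + 1 < Y'.card) : ∃ y ∈ Y, ∃ y' ∈ Y', Sep S y y' := by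
  obtain ⟨A, hA, cA⟩ := exists_subset_card_eq hY
  obtain ⟨A', hA', cA'⟩ := exists_subset_card_eq hY'
  by_contra hc
  push Not at hc
  have h1 : A ×ˢ A' ⊆ (A.biUnion fun y => {y} ×ˢ insert y (S y)) ∪
      A'.biUnion fun y => S y ×ˢ {y} := by
    rintro ⟨a, b⟩ hab
    rw [mem_product] at hab
    have := hc a (hA hab.1) b (hA' hab.2)
    simp only [mem_union, mem_biUnion, mem_product, mem_singleton, mem_insert]
    by_cases e : a = b
    · exact Or.inl ⟨a, hab.1, rfl, Or.inl e.symm⟩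
    by_cases e' : a ∈ S b
    · exact Or.inr ⟨b, hab.2, e', rfl⟩
    by_cases e'' : b ∈ S a
    · exact Or.inl ⟨a, hab.1, rfl, Or.inr e''⟩
    exact absurd ⟨e, e', e''⟩ this
  have h2 : (A.biUnion fun y => {y} ×ˢ insert y (S y)).card ≤ A.card * (s + 1) :=
    card_biUnion_le_card_mul _ _ _ fun y _ => by
      rw [card_product, card_singleton, one_mul]
      exact (card_insert_le _ _).trans (Nat.succ_le_succ (hS y))
  have h3 : (A'.biUnion fun y => S y ×ˢ {y}).card ≤ A'.card * s :=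
    card_biUnion_le_card_mul _ _ _ fun y _ => by
      rw [card_product, card_singleton, mul_one]
      exact hS y
  have h4 := (card_le_card h1).trans (card_union_le _ _)
  rw [card_product] at h4
  rw [cA] at h2 h4
  rw [cA'] at h3 h4
  simp only [Nat.succ_eq_add_one] at h2 h3 h4
  nlinarith

lemma sum_wtR (B a b : ℕ) (w : Lb → V) :
    ∑ x ∈ nbX (Hi d H b) (w (Lb.y b)), wtR d N r G H B a b w x =
      (gpairs d N r G H B a b w).card := by
  simp only [wtR, gpairs, card_filter]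
  rw [sum_product_right]

lemma sum_wtL (B a b : ℕ) (w : Lb → V) :
    ∑ x ∈ nbX (Hi d H a) (w (Lb.y a)), wtL d N r G H B a b w x =
      (gpairs d N r G H B a b w).card := by
  simp only [wtL, gpairs, card_filter]
  rw [sum_product]

lemma wt_mono {H' : Finset (V × V)} (h : H' ⊆ H) (B a b : ℕ) (w : Lb → V) (x : V) :
    wtR d N r G H' B a b w x ≤ wtR d N r G H B a b w x ∧
      wtL d N r G H' B a b w x ≤ wtL d N r G H B a b w x := by
  have k : ∀ i y, nbX (Hi d H' i) y ⊆ nbX (Hi d H i) y := fun i y x hx =>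
    mem_nbX.2 (Ho_mono h (mem_nbX.1 hx))
  exact ⟨card_le_card (filter_subset_filter _ (k _ _)),
    card_le_card (filter_subset_filter _ (k _ _))⟩

lemma wt_le {Δ : ℕ} (hdeg : ∀ v, (nbr G v).card ≤ Δ) (hH : ∀ p ∈ H, G.Adj p.1 p.2) (B a b : ℕ)
    (w : Lb → V) (x : V) : wtR d N r G H B a b w x ≤ Δ ∧ wtL d N r G H B a b w x ≤ Δ := by
  exact ⟨(card_filter_le _ _).trans (host_deg_le hdeg (Ho_adj hH _) _).1,
    (card_filter_le _ _).trans (host_deg_le hdeg (Ho_adj hH _) _).1⟩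

lemma supp_card {a b : ℕ} (hab : a < b) (w : Lb → V) :
    (suppR d N r a b w).Nonempty ∧ (suppR d N r a b w).card ≤ (VT d N r).card + 2 ∧
      (suppL d N r a b w).Nonempty ∧ (suppL d N r a b w).card ≤ (VT d N r).card + 2 := by
  have e : Lb.y a ≠ Lb.y b := fun k => hab.ne (Lb.y.inj k)
  exact ⟨⟨_, mem_image_of_mem w (mem_erase.2 ⟨e, mem_Lab.2 (Or.inl rfl)⟩)⟩,
    card_image_le.trans ((card_erase_le).trans (card_Lab a b)),
    ⟨_, mem_image_of_mem w (mem_erase.2 ⟨e.symm, mem_Lab.2 (Or.inr (Or.inl rfl))⟩)⟩,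
    card_image_le.trans ((card_erase_le).trans (card_Lab a b))⟩

/-- Test `Lt` at `y = w (y b)` with the stem `w`. -/
lemma not_lt_R {S S' own : V → Finset V} {B a b Δ : ℕ} {θ : ℝ} (hS : ∀ y, S' y ⊆ S y)
    (ho : ∀ y, own y ⊆ S y) (hH : Heavy d N r G H S B (θ * (Δ : ℝ) ^ 2) a b) :
    ¬ Lt (Hi d H b) Δ θ (admR d N r S' a b) (suppR d N r a b) own (wtR d N r G H B a b) := by
  obtain ⟨w, hp, hc⟩ := hH
  intro k
  have := k (w (Lb.y b)) w ⟨rfl, psep_mono hS hp⟩ (disjoint_left.2 fun x hx hx' => by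
    obtain ⟨v, hv, rfl⟩ := mem_image.1 hx
    exact (hp v (mem_erase.1 hv).2 _ (mem_Lab.2 (Or.inr (Or.inl rfl))) (mem_erase.1 hv).1).2.1
      (ho _ hx'))
  rw [← Nat.cast_sum, sum_wtR] at this
  exact absurd hc this.not_ge

lemma not_lt_L {S S' own : V → Finset V} {B a b Δ : ℕ} {θ : ℝ} (hS : ∀ y, S' y ⊆ S y)
    (ho : ∀ y, own y ⊆ S y) (hH : Heavy d N r G H S B (θ * (Δ : ℝ) ^ 2) a b) :
    ¬ Lt (Hi d H a) Δ θ (admL d N r S' a b) (suppL d N r a b) own (wtL d N r G H B a b) := by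
  obtain ⟨w, hp, hc⟩ := hH
  intro k
  have := k (w (Lb.y a)) w ⟨rfl, psep_mono hS hp⟩ (disjoint_left.2 fun x hx hx' => by
    obtain ⟨v, hv, rfl⟩ := mem_image.1 hx
    exact (hp v (mem_erase.1 hv).2 _ (mem_Lab.2 (Or.inl rfl)) (mem_erase.1 hv).1).2.1
      (ho _ hx'))
  rw [← Nat.cast_sum, sum_wtL] at this
  exact absurd hc this.not_ge

/-- An empty piece is heavy: `exists_sep` in `Ys`, `lab_succ`, `rob_empty`, `host_card`. -/
lemma heavy_base {Δ : ℕ} (hdeg : ∀ v, (nbr G v).card ≤ Δ) {Xs Ys : Finset V} {lam thr : ℝ}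
    (hH : Host G H Xs Ys lam) (hlam : 0 ≤ lam) (S : V → Finset V) (s : ℕ)
    (hS : ∀ y, (S y).card ≤ s) (hs : 2 * (s : ℝ) + 1 < lam) (B a : ℕ)
    (ha : Nn d N r a (a + 1) = ∅) (hthr : thr ≤ lam ^ 2) : Heavy d N r G H S B thr a (a + 1) := by
  have g1 := host_Ho hH (a * (d + 2))
  have g2 := host_Ho hH ((a + 1) * (d + 2))
  obtain ⟨y, hy, y', hy', hsep⟩ := exists_sep2 S s hS _ _
    (by exact_mod_cast hs.trans_le (host_card hdeg g1).2.2.2.2.2.2.2)
    (by exact_mod_cast hs.trans_le (host_card hdeg g2).2.2.2.2.2.2.2)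
  let w : Lb → V := fun v => if v = Lb.y a then y else y'
  have e1 : w (Lb.y a) = y := if_pos rfl
  have e2 : w (Lb.y (a + 1)) = y' := if_neg fun k => a.succ_ne_self (Lb.y.inj k)
  refine ⟨w, fun u hu v hv e => ?_, hthr.trans ?_⟩
  · rw [lab_succ, mem_insert, mem_singleton] at hu hv
    rcases hu with rfl | rfl <;> rcases hv with rfl | rfl
    · exact absurd rfl e
    · rwa [e1, e2]
    · rw [e1, e2]
      exact ⟨hsep.1.symm, hsep.2.2, hsep.2.1⟩
    · exact absurd rfl e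
  · rw [gpairs, filter_true_of_mem fun p _ => by rw [Good, ha]; exact rob_empty _ _, card_product,
      e1, e2, sq, Nat.cast_mul]
    exact mul_le_mul (g1.dY y hy) (g2.dY y' hy') hlam (Nat.cast_nonneg _)

lemma heavy_mono {S : V → Finset V} {B a b : ℕ} {thr thr' : ℝ} (h : thr ≤ thr')
    (hH : Heavy d N r G H S B thr' a b) : Heavy d N r G H S B thr a b := by
  exact hH.imp fun w k => ⟨k.1, h.trans k.2⟩

lemma full_of_heavy {S : V → Finset V} {B B' : ℕ} {thr : ℝ} (h : 0 < thr) (hB : B ≤ B')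
    (hH : Heavy d N r G H S B' thr 0 (N + 1)) : Full d N r G B := by
  obtain ⟨w, hp, hc⟩ := hH
  obtain ⟨p, hp'⟩ := card_pos.1 (Nat.cast_pos.1 (h.trans_le hc))
  exact full_of_good hp (rob_mono hB (mem_gpairs.1 hp').2.2)

end Pool.Agent.Work.MP_054302_co.Y
end

-- merged part: Pool.Agent.Work.MP_054302_co.X.Clean
section
namespace Pool.Agent.Work.MP_054302_co.X

open Finset Function
open scoped Classical

variable {V : Type} [Fintype V] [DecidableEq V]

/-- Take `X' ⊆ Xs`, `Y' ⊆ Ys` with `0 < X'.card + Y'.card` minimal subject to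
`lam (X'.card + Y'.card) ≤` number of pairs of `Bd` in `X' × Y'`; removing one vertex shows the
degree bound. -/
lemma clean {G : SimpleGraph V} {Xs Ys : Finset V} (Bd : Finset (V × V)) {lam : ℝ}
    (hlam : 0 < lam) (hsub : ∀ p ∈ Bd, G.Adj p.1 p.2 ∧ p.1 ∈ Xs ∧ p.2 ∈ Ys) (hne : Bd.Nonempty)
    (hB : lam * ((Xs.card : ℝ) + Ys.card) ≤ Bd.card) :
    ∃ (H' : Finset (V × V)) (X' Y' : Finset V), H' ⊆ Bd ∧ X' ⊆ Xs ∧ Y' ⊆ Ys ∧
      Host G H' X' Y' lam := by
  induction hn : Xs.card + Ys.card using Nat.strong_induction_on generalizing Bd Xs Ys with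
  | _ n ih =>
  by_cases hx : ∀ x ∈ Xs, lam ≤ ((nbY Bd x).card : ℝ)
  · by_cases hy : ∀ y ∈ Ys, lam ≤ ((nbX Bd y).card : ℝ)
    · exact ⟨Bd, Xs, Ys, subset_rfl, subset_rfl, subset_rfl, hne, hsub, hx, hy⟩
    · push Not at hy
      obtain ⟨y, hy, hd⟩ := hy
      have h1 : Bd ⊆ Bd.filter (fun p => p.2 ≠ y) ∪ (nbX Bd y).image fun x => (x, y) := by
        rintro ⟨u, v⟩ hp
        by_cases e : v = y
        · subst e
          exact mem_union_right _ (mem_image.2 ⟨u, mem_nbX.2 hp, rfl⟩)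
        · exact mem_union_left _ (mem_filter.2 ⟨hp, e⟩)
      have h2 : (Bd.card : ℝ) ≤ (Bd.filter fun p => p.2 ≠ y).card + (nbX Bd y).card := by
        exact_mod_cast (card_le_card h1).trans
          ((card_union_le _ _).trans (Nat.add_le_add_left card_image_le _))
      have h3 : (Ys.erase y).card + 1 = Ys.card := card_erase_add_one hy
      have h4 : ((Ys.erase y).card : ℝ) + 1 = Ys.card := by exact_mod_cast h3
      have h5 : lam * ((Xs.card : ℝ) + (Ys.erase y).card) < (Bd.filter fun p => p.2 ≠ y).card := by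
        rw [← h4] at hB
        linarith
      have h6 : (0 : ℝ) < (Bd.filter fun p => p.2 ≠ y).card := lt_of_le_of_lt (by positivity) h5
      obtain ⟨H', X', Y', a1, a2, a3, a4⟩ := ih _ (by omega) (Xs := Xs) (Ys := Ys.erase y)
        (Bd.filter fun p => p.2 ≠ y)
        (fun p hp => by
          obtain ⟨hp, e⟩ := mem_filter.1 hp
          exact ⟨(hsub p hp).1, (hsub p hp).2.1, mem_erase.2 ⟨e, (hsub p hp).2.2⟩⟩)
        (card_pos.1 (by exact_mod_cast h6)) h5.le rfl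
      exact ⟨H', X', Y', a1.trans (filter_subset _ _), a2, a3.trans (erase_subset _ _), a4⟩
  · push Not at hx
    obtain ⟨x, hx, hd⟩ := hx
    have h1 : Bd ⊆ Bd.filter (fun p => p.1 ≠ x) ∪ (nbY Bd x).image fun y => (x, y) := by
      rintro ⟨u, v⟩ hp
      by_cases e : u = x
      · subst e
        exact mem_union_right _ (mem_image.2 ⟨v, mem_nbY.2 hp, rfl⟩)
      · exact mem_union_left _ (mem_filter.2 ⟨hp, e⟩)
    have h2 : (Bd.card : ℝ) ≤ (Bd.filter fun p => p.1 ≠ x).card + (nbY Bd x).card := by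
      exact_mod_cast (card_le_card h1).trans
        ((card_union_le _ _).trans (Nat.add_le_add_left card_image_le _))
    have h3 : (Xs.erase x).card + 1 = Xs.card := card_erase_add_one hx
    have h4 : ((Xs.erase x).card : ℝ) + 1 = Xs.card := by exact_mod_cast h3
    have h5 : lam * (((Xs.erase x).card : ℝ) + Ys.card) < (Bd.filter fun p => p.1 ≠ x).card := by
      rw [← h4] at hB
      linarith
    have h6 : (0 : ℝ) < (Bd.filter fun p => p.1 ≠ x).card := lt_of_le_of_lt (by positivity) h5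
    obtain ⟨H', X', Y', a1, a2, a3, a4⟩ := ih _ (by omega) (Xs := Xs.erase x) (Ys := Ys)
      (Bd.filter fun p => p.1 ≠ x)
      (fun p hp => by
        obtain ⟨hp, e⟩ := mem_filter.1 hp
        exact ⟨(hsub p hp).1, mem_erase.2 ⟨e, (hsub p hp).2.1⟩, (hsub p hp).2.2⟩)
      (card_pos.1 (by exact_mod_cast h6)) h5.le rfl
    exact ⟨H', X', Y', a1.trans (filter_subset _ _), a2.trans (erase_subset _ _), a3, a4⟩

/-- Symmetric version: a minimal nonempty subset with at least `2 lam card` ordered pairs. -/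
lemma clean_sym (R : V → V → Prop) (hs : ∀ x x', R x x' → R x' x) (hi : ∀ x, ¬ R x x)
    (U : Finset V) (hU : U.Nonempty) {lam : ℝ} (hlam : 0 < lam)
    (h : 2 * lam * U.card ≤ (((U ×ˢ U).filter fun p => R p.1 p.2).card : ℝ)) :
    ∃ U0 : Finset V, U0 ⊆ U ∧ U0.Nonempty ∧
      ∀ x ∈ U0, lam ≤ ((U0.filter fun x' => R x x').card : ℝ) := by
  have _ := hi
  induction hn : U.card using Nat.strong_induction_on generalizing U with
  | _ n ih =>
  by_cases hx : ∀ x ∈ U, lam ≤ ((U.filter fun x' => R x x').card : ℝ)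
  · exact ⟨U, subset_rfl, hU, hx⟩
  push Not at hx
  obtain ⟨x, hx, hd⟩ := hx
  have h1 : ((U ×ˢ U).filter fun p => R p.1 p.2) ⊆
      ((U.erase x ×ˢ U.erase x).filter fun p => R p.1 p.2) ∪
        ((U.filter fun x' => R x x').image (fun y => (x, y)) ∪
          (U.filter fun x' => R x x').image fun y => (y, x)) := by
    rintro ⟨u, v⟩ hp
    obtain ⟨hp, hr⟩ := mem_filter.1 hp
    obtain ⟨hu, hv⟩ := mem_product.1 hp
    by_cases e : u = x
    · subst e
      exact mem_union_right _ (mem_union_left _ (mem_image.2 ⟨v, mem_filter.2 ⟨hv, hr⟩, rfl⟩))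
    by_cases e' : v = x
    · subst e'
      exact mem_union_right _
        (mem_union_right _ (mem_image.2 ⟨u, mem_filter.2 ⟨hu, hs _ _ hr⟩, rfl⟩))
    exact mem_union_left _
      (mem_filter.2 ⟨mem_product.2 ⟨mem_erase.2 ⟨e, hu⟩, mem_erase.2 ⟨e', hv⟩⟩, hr⟩)
  have h2 : (((U ×ˢ U).filter fun p => R p.1 p.2).card : ℝ) ≤
      ((U.erase x ×ˢ U.erase x).filter fun p => R p.1 p.2).card +
        ((U.filter fun x' => R x x').card + (U.filter fun x' => R x x').card) := by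
    exact_mod_cast (card_le_card h1).trans ((card_union_le _ _).trans (Nat.add_le_add_left
      ((card_union_le _ _).trans (Nat.add_le_add card_image_le card_image_le)) _))
  have h3 : (U.erase x).card + 1 = U.card := card_erase_add_one hx
  have h4 : ((U.erase x).card : ℝ) + 1 = U.card := by exact_mod_cast h3
  have h5 : 2 * lam * (U.erase x).card <
      (((U.erase x ×ˢ U.erase x).filter fun p => R p.1 p.2).card : ℝ) := by
    rw [← h4] at h
    linarith
  have h6 : (0 : ℝ) < ((U.erase x ×ˢ U.erase x).filter fun p => R p.1 p.2).card :=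
    lt_of_le_of_lt (by positivity) h5
  obtain ⟨p, hp⟩ : ((U.erase x ×ˢ U.erase x).filter fun p => R p.1 p.2).Nonempty :=
    card_pos.1 (by exact_mod_cast h6)
  obtain ⟨U0, a1, a2, a3⟩ := ih _ (by omega) (U.erase x)
    ⟨p.1, (mem_product.1 (mem_filter.1 hp).1).1⟩ h5.le rfl
  exact ⟨U0, a1.trans (erase_subset _ _), a2, a3⟩

/-- Greedy list at one vertex. Among the lists `Ls` (admissible, disjoint supports) with
`Ls.card * θ Δ^2 ≤ Ψ Ls := ∑ x ∈ Nb, min (cnt x) ((θ D / 2 + 1) Δ)`, `cnt x = ∑ s ∈ Ls, wt s x`,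
take one of maximal size; `Ψ ≤ θ D Δ^2` bounds the size by `D`; a further stem disjoint from the
union of supports is new because its support is nonempty, and raises `Ψ` by its weight on the
set where `cnt x < θ D Δ / 2`. -/
lemma greedy {σ : Type} (Nb : Finset V) (Δ D : ℕ) (θ : ℝ) (adm : σ → Prop) (supp : σ → Finset V)
    (wt : σ → V → ℕ) (hΔ : 0 < Δ) (hθ : 0 < θ) (hD : 2 ≤ θ * D) (hN : Nb.card ≤ Δ)
    (hwt : ∀ s x, wt s x ≤ Δ) (hne : ∀ s, adm s → (supp s).Nonempty) :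
    ∃ Ls : Finset σ, Ls.card ≤ D ∧ (∀ s ∈ Ls, adm s) ∧
      (∀ s ∈ Ls, ∀ s' ∈ Ls, s ≠ s' → Disjoint (supp s) (supp s')) ∧
      ∀ s, adm s → Disjoint (supp s) (Ls.biUnion supp) →
        (∑ x ∈ Nb.filter (fun x => (∑ s' ∈ Ls, (wt s' x : ℝ)) < θ / 2 * D * Δ), (wt s x : ℝ)) <
          θ * (Δ : ℝ) ^ 2 := by
  by_contra hc
  have hΔ' : (0 : ℝ) < Δ := Nat.cast_pos.2 hΔ
  have hpos : 0 < θ * (Δ : ℝ) ^ 2 := by positivity
  have hcard : ∀ Ls : Finset σ, Ls.card * (θ * (Δ : ℝ) ^ 2) ≤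
      ∑ x ∈ Nb, min (∑ s ∈ Ls, (wt s x : ℝ)) (θ / 2 * D * Δ + Δ) → Ls.card ≤ D := by
    intro Ls h
    have h1 : ∑ x ∈ Nb, min (∑ s ∈ Ls, (wt s x : ℝ)) (θ / 2 * D * Δ + Δ) ≤
        Nb.card • (θ / 2 * D * Δ + Δ) := sum_le_card_nsmul _ _ _ fun x _ => min_le_right _ _
    rw [nsmul_eq_mul] at h1
    have h2 : (Nb.card : ℝ) ≤ Δ := Nat.cast_le.2 hN
    have h3 := mul_le_mul_of_nonneg_right h2 (by positivity : (0 : ℝ) ≤ θ / 2 * D * Δ + Δ)
    have h4 := mul_le_mul_of_nonneg_right hD (by positivity : (0 : ℝ) ≤ (Δ : ℝ) ^ 2)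
    have h5 : Ls.card * (θ * (Δ : ℝ) ^ 2) ≤ D * (θ * (Δ : ℝ) ^ 2) := by linarith
    exact Nat.cast_le.1 (le_of_mul_le_mul_right h5 hpos)
  have key : ∀ k : ℕ, ∃ Ls : Finset σ, Ls.card = k ∧ (∀ s ∈ Ls, adm s) ∧
      (∀ s ∈ Ls, ∀ s' ∈ Ls, s ≠ s' → Disjoint (supp s) (supp s')) ∧
      Ls.card * (θ * (Δ : ℝ) ^ 2) ≤
        ∑ x ∈ Nb, min (∑ s ∈ Ls, (wt s x : ℝ)) (θ / 2 * D * Δ + Δ) := by
    intro k
    induction k with
    | zero =>
      refine ⟨∅, rfl, by simp, by simp, ?_⟩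
      rw [card_empty, Nat.cast_zero, zero_mul]
      exact sum_nonneg fun x _ => le_min (by simp) (by positivity)
    | succ k ih =>
      obtain ⟨Ls, h1, h2, h3, h4⟩ := ih
      have h5 : ∃ s, adm s ∧ Disjoint (supp s) (Ls.biUnion supp) ∧ θ * (Δ : ℝ) ^ 2 ≤
          ∑ x ∈ Nb.filter (fun x => (∑ s' ∈ Ls, (wt s' x : ℝ)) < θ / 2 * D * Δ), (wt s x : ℝ) := by
        by_contra h6
        refine hc ⟨Ls, hcard Ls h4, h2, h3, fun s a1 a2 => ?_⟩
        exact not_le.1 fun a3 => h6 ⟨s, a1, a2, a3⟩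
      obtain ⟨s, a1, a2, a3⟩ := h5
      have a4 : ∀ s' ∈ Ls, Disjoint (supp s) (supp s') := (disjoint_biUnion_right _ _ _).1 a2
      have a5 : s ∉ Ls := fun h => (hne s a1).ne_empty (disjoint_self.1 (a4 s h))
      refine ⟨insert s Ls, by rw [card_insert_of_notMem a5, h1], ?_, ?_, ?_⟩
      · intro t ht
        rcases mem_insert.1 ht with rfl | ht
        · exact a1
        · exact h2 t ht
      · intro t ht t' ht' hn
        rcases mem_insert.1 ht with e | e <;> rcases mem_insert.1 ht' with e' | e'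
        · exact absurd (e.trans e'.symm) hn
        · exact e ▸ a4 t' e'
        · exact e' ▸ (a4 t e).symm
        · exact h3 t e t' e' hn
      · rw [card_insert_of_notMem a5, Nat.cast_succ, add_one_mul]
        refine (add_le_add h4 a3).trans ?_
        rw [sum_filter, ← sum_add_distrib]
        refine sum_le_sum fun x _ => ?_
        rw [sum_insert a5]
        have b1 : (wt s x : ℝ) ≤ Δ := Nat.cast_le.2 (hwt s x)
        have b2 : (0 : ℝ) ≤ wt s x := Nat.cast_nonneg _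
        have b3 := min_le_left (∑ s' ∈ Ls, (wt s' x : ℝ)) (θ / 2 * D * Δ + Δ)
        have b4 := min_le_right (∑ s' ∈ Ls, (wt s' x : ℝ)) (θ / 2 * D * Δ + Δ)
        split_ifs with b5
        · exact le_min (by linarith) (by linarith)
        · exact le_min (by linarith) (by linarith)
  obtain ⟨Ls, h1, -, -, h4⟩ := key (D + 1)
  have := hcard Ls h4
  omega

end Pool.Agent.Work.MP_054302_co.X
end

-- merged part: Pool.Agent.Work.MP_054302_co.Y.P1
section
namespace Pool.Agent.Work.MP_054302_co.Y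

open Finset Function Pool.Agent.Work.MP_054302_co.X
open scoped Classical

variable {V : Type} [Fintype V] [DecidableEq V] {G : SimpleGraph V}

lemma rp_mono {B B' j : ℕ} {x x' : V} (h : B ≤ B') (hR : RP G B' j x x') : RP G B j x x' :=
  fun Z hZ => hR Z (hZ.trans h)

/-- Reverse the walk: `fun i => p (j - i)`. -/
lemma rp_symm {B j : ℕ} {x x' : V} (h : RP G B j x x') : RP G B j x' x := by
  intro Z hZ
  obtain ⟨p, h0, hj, hw, hi, hz⟩ := h Z hZ
  refine ⟨fun i => p (j - i), by simpa using hj, by simpa using h0, ?_, ?_, ?_⟩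
  · intro i hij
    have h1 := hw (j - (i + 1)) (by omega)
    have e : j - (i + 1) + 1 = j - i := by omega
    rw [e] at h1
    exact h1.symm
  · intro i i' a1 a2 a3 a4 e
    have := hi (j - i) (j - i') (by omega) (by omega) (by omega) (by omega) e
    omega
  · intro i a1 a2
    exact hz (j - i) (by omega) (by omega)

/-- Given `Z` choose a good neighbour `u` outside `Z`, a walk from `u` avoiding `insert u Z`, and
put `w` in front. -/
lemma rp_ext {B j : ℕ} {w x : V} (hj : 1 ≤ j)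
    (h : B + 1 ≤ ((nbr G w).filter fun u => RP G (B + 1) j u x).card) : RP G B (j + 1) w x := by
  intro Z hZ
  obtain ⟨u, hu, huZ⟩ := exists_mem_notMem_of_card_lt_card
    (s := Z) (t := (nbr G w).filter fun u => RP G (B + 1) j u x) (by omega)
  rw [mem_filter, mem_nbr] at hu
  obtain ⟨p, h0, hj', hw, hi, hz⟩ := hu.2 (insert u Z) ((card_insert_le u Z).trans (by omega))
  have hne : ∀ i, 0 < i → i < j → p i ≠ p 0 := by
    intro i a1 a2 e
    apply hz i a1 a2
    rw [e, h0]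
    exact mem_insert_self _ _
  refine ⟨fun i => if i = 0 then w else p (i - 1), by simp, ?_, ?_, ?_, ?_⟩
  · have e : j + 1 ≠ 0 := by omega
    simp only [if_neg e, Nat.add_sub_cancel]
    exact hj'
  · intro i hij
    have e1 : i + 1 ≠ 0 := by omega
    simp only [if_neg e1, Nat.add_sub_cancel]
    by_cases e : i = 0
    · subst e
      simp only [if_true]
      rw [h0]
      exact hu.1
    · simp only [if_neg e]
      have h1 := hw (i - 1) (by omega)
      have e2 : i - 1 + 1 = i := by omega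
      rw [e2] at h1
      exact h1
  · intro i i' a1 a2 a3 a4 e
    have e1 : i ≠ 0 := by omega
    have e2 : i' ≠ 0 := by omega
    simp only [if_neg e1, if_neg e2] at e
    by_cases c1 : i = 1
    · by_cases c2 : i' = 1
      · omega
      · exfalso
        subst c1
        exact hne (i' - 1) (by omega) (by omega) e.symm
    · by_cases c2 : i' = 1
      · exfalso
        subst c2
        exact hne (i - 1) (by omega) (by omega) e
      · have := hi (i - 1) (i' - 1) (by omega) (by omega) (by omega) (by omega) e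
        omega
  · intro i a1 a2
    have e1 : i ≠ 0 := by omega
    simp only [if_neg e1]
    by_cases c1 : i = 1
    · subst c1
      simp only [Nat.sub_self]
      rw [h0]
      exact huZ
    · intro hm
      exact hz (i - 1) (by omega) (by omega) (mem_insert_of_mem hm)

/-- Otherwise take `Z` to be the set of common neighbours. -/
lemma rp_two_card {Q : ℕ} {x x' : V} (h : RP G Q 2 x x') :
    Q + 1 ≤ (nbr G x ∩ nbr G x').card := by
  by_contra hc
  obtain ⟨p, h0, h2, hw, -, hz⟩ := h (nbr G x ∩ nbr G x') (by omega)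
  apply hz 1 (by omega) (by omega)
  rw [mem_inter, mem_nbr, mem_nbr, ← h0, ← h2]
  exact ⟨hw 0 (by omega), (hw 1 (by omega)).symm⟩

lemma rp_two_of {Q : ℕ} {x x' : V} (h : Q + 1 ≤ (nbr G x ∩ nbr G x').card) : RP G Q 2 x x' := by
  intro Z hZ
  obtain ⟨u, hu, huZ⟩ := exists_mem_notMem_of_card_lt_card
    (s := Z) (t := nbr G x ∩ nbr G x') (by omega)
  rw [mem_inter, mem_nbr, mem_nbr] at hu
  refine ⟨fun i => if i = 0 then x else if i = 1 then u else x', by simp, by simp, ?_, ?_, ?_⟩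
  · intro i hi
    have hc : i = 0 ∨ i = 1 := by omega
    rcases hc with rfl | rfl
    · simpa using hu.1
    · simpa using hu.2.symm
  · intro i i' a1 a2 a3 a4 _
    omega
  · intro i a1 a2
    have hc : i = 1 := by omega
    subst hc
    simpa using huZ

/-- Induction on `i` generalizing `B w`, with `rp_ext`. -/
lemma cr_rp {Q j P : ℕ} {tE : ℝ} (hj : 1 ≤ j) (i B : ℕ) (w x : V) (h1 : B + i ≤ Q)
    (h2 : ((B + i : ℕ) : ℝ) ≤ tE) (h3 : B + i ≤ P) (h : CR G Q j tE P i w x) :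
    RP G B (j + i) w x := by
  induction i generalizing B w with
  | zero => exact rp_mono (by omega) h
  | succ i ih =>
    have e : B + 1 + i = B + (i + 1) := by omega
    have hsub : ((nbr G w).filter fun u => CR G Q j tE P i u x) ⊆
        (nbr G w).filter fun u => RP G (B + 1) (j + i) u x := by
      intro u hu
      rw [mem_filter] at hu ⊢
      exact ⟨hu.1, ih (B + 1) u (by omega) (by rw [e]; exact h2) (by omega) hu.2⟩
    have hc := card_le_card hsub
    have h' : (if i % 2 = 0 then tE else (P : ℝ)) ≤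
        (((nbr G w).filter fun u => CR G Q j tE P i u x).card : ℝ) := h
    have hB : ((B + (i + 1) : ℕ) : ℝ) ≤
        (((nbr G w).filter fun u => CR G Q j tE P i u x).card : ℝ) := by
      refine le_trans ?_ h'
      split_ifs
      · exact h2
      · exact_mod_cast h3
    have hB' : B + (i + 1) ≤ ((nbr G w).filter fun u => CR G Q j tE P i u x).card := by
      exact_mod_cast hB
    exact rp_ext (j := j + i) (by omega) (by omega)

/-- Let `a` be the largest fixed index below `k` and `a + e` the least fixed index above `k`.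
Every member of `Z` meets the open run of at most one walk of the family. -/
lemma run_rp {ι : Type} (P : Finset ι) (g : ι → ℕ → V) (f : ℕ → V) (Fx : ℕ → Prop) {l Q k : ℕ}
    (h0 : Fx 0) (hl : Fx l) (hk : k ≤ l) (hkF : ¬ Fx k)
    (hfix : ∀ ψ ∈ P, ∀ i ≤ l, Fx i → g ψ i = f i)
    (hdis : ∀ ψ ∈ P, ∀ ψ' ∈ P, ψ ≠ ψ' → ∀ i ≤ l, ∀ i' ≤ l, ¬ Fx i → ¬ Fx i' → g ψ i ≠ g ψ' i')
    (hw : ∀ ψ ∈ P, Wk G l (g ψ) ∧ ∀ i ≤ l, ∀ i' ≤ l, g ψ i = g ψ i' → i = i')
    (hQ : Q < P.card) :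
    ∃ a e, 2 ≤ e ∧ a + e ≤ l ∧ (∀ i, a < i → i < a + e → ¬ Fx i) ∧
      RP G Q e (f a) (f (a + e)) := by
  have hkl : k < l := lt_of_le_of_ne hk fun e => hkF (e ▸ hl)
  have hex : ∃ b, k < b ∧ Fx b := ⟨l, hkl, hl⟩
  obtain ⟨b, ⟨hkb, hFb⟩, hbmin⟩ : ∃ b, (k < b ∧ Fx b) ∧ ∀ c, c < b → ¬ (k < c ∧ Fx c) :=
    ⟨Nat.find hex, Nat.find_spec hex, fun c hc => Nat.find_min hex hc⟩
  have hbl : b ≤ l := by
    by_contra hc
    exact hbmin l (by omega) ⟨hkl, hl⟩
  obtain ⟨a, hak, hFa, hamax⟩ : ∃ a, a ≤ k ∧ Fx a ∧ ∀ c, a < c → c ≤ k → ¬ Fx c :=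
    ⟨Nat.findGreatest Fx k, Nat.findGreatest_le k, Nat.findGreatest_spec (Nat.zero_le k) h0,
      fun c h1 h2 => Nat.findGreatest_is_greatest h1 h2⟩
  have hak' : a < k := lt_of_le_of_ne hak fun e => hkF (e ▸ hFa)
  have hfree : ∀ i, a < i → i < b → ¬ Fx i := by
    intro i h1 h2 hF
    by_cases c : i ≤ k
    · exact hamax i h1 c hF
    · exact hbmin i h2 ⟨by omega, hF⟩
  have eb : a + (b - a) = b := by omega
  refine ⟨a, b - a, by omega, by omega, fun i h1 h2 => hfree i h1 (by omega), ?_⟩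
  intro Z hZ
  have hgood : ∃ ψ ∈ P, ∀ i, a < i → i < b → g ψ i ∉ Z := by
    by_contra hc
    have hbad : ∀ ψ ∈ P, ∃ i, a < i ∧ i < b ∧ g ψ i ∈ Z := by
      intro ψ hψ
      by_contra hn
      exact hc ⟨ψ, hψ, fun i h1 h2 h3 => hn ⟨i, h1, h2, h3⟩⟩
    choose! idx hidx using hbad
    have hle : P.card ≤ Z.card := by
      refine card_le_card_of_injOn (fun ψ => g ψ (idx ψ)) (fun ψ hψ => (hidx ψ hψ).2.2) ?_
      intro ψ hψ ψ' hψ' e
      by_contra hne
      have k1 := hidx ψ hψ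
      have k2 := hidx ψ' hψ'
      exact hdis ψ hψ ψ' hψ' hne (idx ψ) (by omega) (idx ψ') (by omega)
        (hfree _ k1.1 k1.2.1) (hfree _ k2.1 k2.2.1) e
    omega
  obtain ⟨ψ, hψ, hz⟩ := hgood
  obtain ⟨hwk, hinj⟩ := hw ψ hψ
  refine ⟨fun i => g ψ (a + i), ?_, ?_, ?_, ?_, ?_⟩
  · exact hfix ψ hψ a (by omega) hFa
  · show g ψ (a + (b - a)) = f (a + (b - a))
    rw [eb]
    exact hfix ψ hψ b hbl hFb
  · intro i hi
    exact hwk (a + i) (by omega)
  · intro i i' a1 a2 a3 a4 e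
    have := hinj (a + i) (by omega) (a + i') (by omega) e
    omega
  · intro i a1 a2
    exact hz (a + i) (by omega) (by omega)

end Pool.Agent.Work.MP_054302_co.Y
end

-- merged part: Pool.Agent.Work.MP_054302_co.Y.P2
section
namespace Pool.Agent.Work.MP_054302_co.Y

open Finset Function Pool.Agent.Work.MP_054302_co.X
open scoped Classical

variable {V : Type} [Fintype V] [DecidableEq V] {G : SimpleGraph V} {Δ : ℕ}

/-- Intervals of integers are connected for the successor relation. -/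
lemma conn_Icc (a b : ℕ) : Conn (fun i i' : ℕ => i' = i + 1 ∨ i = i' + 1) (Icc a b) := by
  intro S hS hne hU
  by_contra hc
  push Not at hc
  obtain ⟨s, hs⟩ := hne
  have hs' := mem_Icc.1 (hS hs)
  have up : ∀ d, s + d ≤ b → s + d ∈ S := by
    intro d
    induction d with
    | zero => exact fun _ => hs
    | succ d ih =>
      intro hd
      by_contra hn
      exact (hc (s + d) (ih (by omega)) (s + (d + 1)) (mem_Icc.2 ⟨by omega, hd⟩) hn).1 rfl
  have down : ∀ d, a + d ≤ s → s - d ∈ S := by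
    intro d
    induction d with
    | zero => exact fun _ => hs
    | succ d ih =>
      intro hd
      by_contra hn
      exact (hc (s - d) (ih (by omega)) (s - (d + 1)) (mem_Icc.2 ⟨by omega, by omega⟩) hn).2
        (by omega)
  refine hU (Subset.antisymm hS fun t ht => ?_)
  have ht' := mem_Icc.1 ht
  rcases le_total s t with h | h
  · have := up (t - s) (by omega)
    rwa [show s + (t - s) = t by omega] at this
  · have := down (s - t) (by omega)
    rwa [show s - (s - t) = t by omega] at this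

/-- `ext_ub'` for walks (`range (j + 1) = Icc 0 j`, `conn_Icc`). -/
lemma wk_ub {β : Type} (hdeg : ∀ v, (nbr G v).card ≤ Δ) {W : Finset V} {j : ℕ} {v0 : V}
    (F : Finset (ℕ → V)) (hF : F ⊆ WK G W j v0) (S : Finset ℕ) (hS : ∀ i ∈ S, i ≤ j)
    (hne : S.Nonempty) (π : (ℕ → V) → β) (T : Finset β) (hT : ∀ p ∈ F, π p ∈ T)
    (hπ : ∀ p ∈ F, ∀ q ∈ F, π p = π q → ∀ i ∈ S, p i = q i) :
    F.card ≤ T.card * Δ ^ (j + 1 - S.card) := by
  have e : (Icc 0 j).card = j + 1 := by simp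
  rw [← e]
  refine ext_ub' hdeg (conn_Icc 0 j) (fun i hi => mem_Icc.2 ⟨Nat.zero_le _, hS i hi⟩) hne F
    (fun f hf u hu v hv huv => ?_) (fun f hf g hg v hv => ?_) π T hT hπ
  · have hw := (mem_WK.1 (hF hf)).2.2
    rw [mem_Icc] at hu hv
    rcases huv with rfl | rfl
    · exact hw u (by omega)
    · exact (hw v (by omega)).symm
  · have hv' : j < v := by
      by_contra hn
      exact hv (mem_Icc.2 ⟨Nat.zero_le _, by omega⟩)
    rw [(mem_WK.1 (hF hf)).1 v hv', (mem_WK.1 (hF hg)).1 v hv']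

/-- There are at most `Δ ^ j` walks in `WK G univ j x` starting at `x` (`wk_ub`), and a heavy
partner `x'` is the end of at least `Q + 1` of them: otherwise test `RP` with the set `Z` of second
vertices of the walks from `x` to `x'` and cut the resulting walk after `j`. -/
lemma rp_partners (hdeg : ∀ v, (nbr G v).card ≤ Δ) {j : ℕ} (hj : 2 ≤ j) (Q : ℕ) (x : V) :
    (Q + 1) * (univ.filter fun x' => RP G Q j x x').card ≤ Δ ^ j := by
  set F := (WK G univ j x).filter fun p => p 0 = x ∧ RP G Q j x (p j) with hFd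
  have h1 : F.card ≤ Δ ^ j := by
    have := wk_ub (β := Unit) hdeg F (filter_subset _ _) {0} (by simp) (singleton_nonempty 0)
      (fun _ => ()) {()} (fun _ _ => mem_singleton_self _) (fun p hp q hq _ i hi => by
        rw [mem_singleton.1 hi, (mem_filter.1 hp).2.1, (mem_filter.1 hq).2.1])
    simpa using this
  refine le_trans (mul_card_image_le_card_of_maps_to (f := fun p : ℕ → V => p j) (s := F)
    (fun p hp => mem_filter.2 ⟨mem_univ _, (mem_filter.1 hp).2.2⟩) _ fun x' hx' => ?_) h1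
  have hR := (mem_filter.1 hx').2
  by_contra hn
  have hZ : ((F.filter fun p => p j = x').image fun p => p 1).card ≤ Q :=
    card_image_le.trans (by omega)
  obtain ⟨p, h0, hj', hw, -, hz⟩ := hR _ hZ
  refine hz 1 (by omega) (by omega) (mem_image.2 ⟨fun i => if i ≤ j then p i else x, ?_, ?_⟩)
  · refine mem_filter.2 ⟨mem_filter.2 ⟨mem_WK.2 ⟨fun i hi => if_neg (by omega),
      fun _ _ => mem_univ _, fun i hi => ?_⟩, ?_, ?_⟩, ?_⟩
    · simp only [if_pos hi.le, if_pos (Nat.succ_le_of_lt hi)]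
      exact hw i hi
    · simp [h0]
    · simpa [hj'] using hR
    · simp [hj']
  · exact if_pos (by omega)

/-- Removing the last vertex (`update q (j + 1) v0`); the fibres lie in a neighbourhood. -/
lemma drop_last (hdeg : ∀ v, (nbr G v).card ≤ Δ) (W : Finset V) (j : ℕ) (v0 : V)
    (T : V → V → Prop) :
    ((WK G W (j + 1) v0).filter fun q => T (q 0) (q j)).card ≤
      Δ * ((WK G W j v0).filter fun q => T (q 0) (q j)).card := by
  refine card_le_mul_card_image_of_maps_to (f := fun q : ℕ → V => update q (j + 1) v0)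
    (fun q hq => ?_) _ fun b _ => ?_
  · obtain ⟨hq, hT⟩ := mem_filter.1 hq
    obtain ⟨h1, h2, h3⟩ := mem_WK.1 hq
    refine mem_filter.2 ⟨mem_WK.2 ⟨fun i hi => ?_, fun i hi => ?_, fun i hi => ?_⟩, ?_⟩
    · by_cases e : i = j + 1
      · rw [e, update_self]
      · rw [update_of_ne e]
        exact h1 i (by omega)
    · rw [update_of_ne (by omega)]
      exact h2 i (by omega)
    · rw [update_of_ne (by omega), update_of_ne (by omega)]
      exact h3 i (by omega)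
    · rw [update_of_ne (by omega), update_of_ne (by omega)]
      exact hT
  · refine le_trans (card_le_card_of_injOn (fun q : ℕ → V => q (j + 1)) (fun q hq => ?_)
      fun q hq q' hq' e => ?_) (hdeg (b j))
    · obtain ⟨hq, hb⟩ := mem_filter.1 (mem_coe.1 hq)
      have h3 := (mem_WK.1 (mem_filter.1 hq).1).2.2
      refine mem_coe.2 (mem_nbr.2 ?_)
      rw [← hb]
      simp only [update_of_ne (show j ≠ j + 1 by omega)]
      exact h3 j (by omega)
    · have hb := ((mem_filter.1 (mem_coe.1 hq)).2).trans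
        ((mem_filter.1 (mem_coe.1 hq')).2).symm
      funext i
      by_cases h : i = j + 1
      · rw [h]
        exact e
      · have := congrFun hb i
        simpa only [update_of_ne h] using this

/-- The reversed walk. -/
def rev (j : ℕ) (v0 : V) (p : ℕ → V) : ℕ → V := fun i => if i ≤ j then p (j - i) else v0

/-- `rev` is injective on `WK`, keeps `HA` (by `rp_symm`) and sends `Alt H o j` to
`Alt H (o + j) j` (`mem_Ho_succ`, `Ho_congr`). -/
lemma card_rev (Q : ℕ → ℕ) (W : Finset V) (j : ℕ) (v0 : V) (H : Finset (V × V)) (o : ℕ) :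
    ((HA G Q W j v0).filter (Alt H o j)).card ≤
      ((HA G Q W j v0).filter (Alt H (o + j) j)).card := by
  have rv : ∀ (p : ℕ → V) (i : ℕ), i ≤ j → rev j v0 p i = p (j - i) := fun p i hi => if_pos hi
  refine card_le_card_of_injOn (rev j v0) (fun p hp => ?_) fun p hp q hq e => ?_
  · obtain ⟨hp, hA⟩ := mem_filter.1 (mem_coe.1 hp)
    obtain ⟨hW, hi, hR, hn⟩ := mem_HA.1 hp
    obtain ⟨-, h2, h3⟩ := mem_WK.1 hW
    refine mem_coe.2 (mem_filter.2 ⟨mem_HA.2 ⟨mem_WK.2 ⟨fun i hi => if_neg (by omega),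
      fun i hi => ?_, fun i hi => ?_⟩, fun i hi1 i' hi2 e => ?_, ?_, fun a e h2e hej hae => ?_⟩,
      fun i hi => ?_⟩)
    · rw [rv p i hi]
      exact h2 _ (by omega)
    · rw [rv p i hi.le, rv p (i + 1) hi, show j - i = j - (i + 1) + 1 by omega]
      exact (h3 _ (by omega)).symm
    · rw [rv p i hi1, rv p i' hi2] at e
      have := hi _ (by omega) _ (by omega) e
      omega
    · rw [rv p 0 (Nat.zero_le _), rv p j le_rfl, Nat.sub_zero, Nat.sub_self]
      exact rp_symm hR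
    · rw [rv p a (by omega), rv p (a + e) hae, show j - a = j - (a + e) + e by omega]
      exact fun c => hn _ e h2e hej (by omega) (rp_symm c)
    · rw [rv p i hi.le, rv p (i + 1) hi, show j - i = j - (i + 1) + 1 by omega,
        Ho_congr (o' := o + (j - (i + 1)) + 1) (by omega), mem_Ho_succ]
      exact hA _ (by omega)
  · have hp' := (mem_WK.1 (mem_HA.1 (mem_filter.1 (mem_coe.1 hp)).1).1).1
    have hq' := (mem_WK.1 (mem_HA.1 (mem_filter.1 (mem_coe.1 hq)).1).1).1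
    funext i
    by_cases h : i ≤ j
    · have := congrFun e (j - i)
      rwa [rv p _ (by omega), rv q _ (by omega), show j - (j - i) = i by omega] at this
    · rw [hp' i (by omega), hq' i (by omega)]

/-- The map `p ↦ (p 3, p 2, p 1, p 0)` is injective on `WK` and lands in `Qd`. -/
lemma card_three (Q : ℕ → ℕ) (W : Finset V) (v0 : V) (H : Finset (V × V)) {o : ℕ}
    (ho : o % 2 = 0) (T : V → V → Prop) :
    ((HA G Q W 3 v0).filter fun p => Alt H o 3 p ∧ T (p 2) (p 0)).card ≤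
      (Qd G (Q 2) (Q 3) T H).card := by
  refine card_le_card_of_injOn (fun p : ℕ → V => (p 3, p 2, p 1, p 0)) (fun p hp => ?_)
    fun p hp q hq e => ?_
  · obtain ⟨hp, hA, hT⟩ := mem_filter.1 (mem_coe.1 hp)
    obtain ⟨-, -, hR, hn⟩ := mem_HA.1 hp
    have e0 : Ho o H = H := if_pos ho
    have a0 := hA 0 (by omega)
    have a1 := hA 1 (by omega)
    have a2 := hA 2 (by omega)
    rw [Nat.add_zero, e0] at a0
    rw [mem_Ho_succ, e0] at a1
    rw [Ho_congr (o' := o) (by omega), e0] at a2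
    exact mem_coe.2 (mem_Qd.2 ⟨a2, a1, a0,
      fun c => hn 0 2 le_rfl (by omega) (by omega) (rp_symm c), rp_symm hR, hT⟩)
  · have hp' := (mem_WK.1 (mem_HA.1 (mem_filter.1 (mem_coe.1 hp)).1).1).1
    have hq' := (mem_WK.1 (mem_HA.1 (mem_filter.1 (mem_coe.1 hq)).1).1).1
    simp only [Prod.mk.injEq] at e
    funext i
    by_cases h : 3 < i
    · rw [hp' i h, hq' i h]
    · have : i = 0 ∨ i = 1 ∨ i = 2 ∨ i = 3 := by omega
      rcases this with rfl | rfl | rfl | rfl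
      exacts [e.2.2.2, e.2.2.1, e.2.1, e.1]

end Pool.Agent.Work.MP_054302_co.Y
end

-- merged part: Pool.Agent.Work.MP_054302_co.X.Sun
section
namespace Pool.Agent.Work.MP_054302_co.X

open Finset Function
open scoped Classical

variable {L V : Type} [DecidableEq L] [Fintype V] [DecidableEq V]

lemma Sun_max (U0 : Finset L) (F : Finset (L → V)) :
    ∃ P : Finset (L → V), P ⊆ F ∧
      (∀ g ∈ P, ∀ h ∈ P, g ≠ h → ∀ v ∈ U0, ∀ w ∈ U0, g v ≠ h w) ∧
      ∀ f ∈ F, f ∉ P → ∃ g ∈ P, ∃ v ∈ U0, ∃ w ∈ U0, f v = g w := by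
  obtain ⟨P, hP, hmax⟩ := exists_max_image
    (F.powerset.filter fun P : Finset (L → V) =>
      ∀ g ∈ P, ∀ h ∈ P, g ≠ h → ∀ v ∈ U0, ∀ w ∈ U0, g v ≠ h w) Finset.card
    ⟨∅, by simp⟩
  rw [mem_filter, mem_powerset] at hP
  refine ⟨P, hP.1, hP.2, fun f hf hfP => ?_⟩
  by_contra hcon
  have hne : ∀ g ∈ P, ∀ v ∈ U0, ∀ w ∈ U0, f v ≠ g w := fun g hg v hv w hw he =>
    hcon ⟨g, hg, v, hv, w, hw, he⟩
  have hmem : insert f P ∈ F.powerset.filter fun P : Finset (L → V) =>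
      ∀ g ∈ P, ∀ h ∈ P, g ≠ h → ∀ v ∈ U0, ∀ w ∈ U0, g v ≠ h w := by
    rw [mem_filter, mem_powerset]
    refine ⟨insert_subset hf hP.1, fun g hg h hh hgh v hv w hw => ?_⟩
    rcases mem_insert.1 hg with hg | hg
    · rcases mem_insert.1 hh with hh | hh
      · exact absurd (hg.trans hh.symm) hgh
      · rw [hg]; exact hne h hh v hv w hw
    · rcases mem_insert.1 hh with hh | hh
      · rw [hh]; exact fun he => hne g hg w hw v hv he.symm
      · exact hP.2 g hg h hh hgh v hv w hw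
  have h1 := hmax _ hmem
  rw [card_insert_of_notMem hfP] at h1
  omega

lemma Sun_class (u Q M : ℕ) (U0 : Finset L) (hu : U0.card ≤ u) (hne : U0.Nonempty)
    (F P : Finset (L → V)) (hQ : P.card ≤ Q)
    (hmax : ∀ f ∈ F, f ∉ P → ∃ g ∈ P, ∃ v ∈ U0, ∃ w ∈ U0, f v = g w)
    (hF : Q * u ^ 2 * M < F.card) :
    ∃ w ∈ U0, ∃ x : V, M < (F.filter fun f => f w = x).card := by
  by_contra hcon
  have hle : ∀ w ∈ U0, ∀ x : V, (F.filter fun f => f w = x).card ≤ M := fun w hw x =>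
    not_lt.1 fun h => hcon ⟨w, hw, x, h⟩
  have hZ : (P.biUnion fun g => U0.image g).card ≤ Q * u := by
    calc (P.biUnion fun g => U0.image g).card ≤ P.card * u :=
          card_biUnion_le_card_mul _ _ _ fun g _ => card_image_le.trans hu
      _ ≤ Q * u := Nat.mul_le_mul_right _ hQ
  have hsub : F ⊆ (U0 ×ˢ P.biUnion fun g => U0.image g).biUnion
      fun p => F.filter fun f => f p.1 = p.2 := by
    intro f hf
    have hex : ∃ g ∈ P, ∃ v ∈ U0, ∃ w ∈ U0, f v = g w := by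
      by_cases hfP : f ∈ P
      · obtain ⟨v, hv⟩ := hne
        exact ⟨f, hfP, v, hv, v, hv, rfl⟩
      · exact hmax f hf hfP
    obtain ⟨g, hg, v, hv, w, hw, he⟩ := hex
    refine mem_biUnion.2 ⟨(v, f v), mem_product.2 ⟨hv, ?_⟩, mem_filter.2 ⟨hf, rfl⟩⟩
    exact mem_biUnion.2 ⟨g, hg, mem_image.2 ⟨w, hw, he.symm⟩⟩
  have h1 : F.card ≤ (U0 ×ˢ P.biUnion fun g => U0.image g).card * M :=
    (card_le_card hsub).trans
      (card_biUnion_le_card_mul _ _ _ fun p hp => hle p.1 (mem_product.1 hp).1 p.2)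
  rw [card_product] at h1
  have h2 : U0.card * (P.biUnion fun g => U0.image g).card * M ≤ u * (Q * u) * M :=
    Nat.mul_le_mul_right _ (Nat.mul_le_mul hu hZ)
  have h3 : u * (Q * u) * M = Q * u ^ 2 * M := by ring
  omega

/-- Sunflower lemma for maps. Induction on `U0` (size `s ≤ u`, bound `(Q u^2+1)^s`): take a
maximal subfamily with pairwise disjoint images of `U0`; if it has fewer than `Q` members, every
`f` sends some `w ∈ U0` into the union `Z` of these images (fewer than `Q u` points), so one of at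
most `Q u^2` classes `f w = x` is large; recurse on `U0.erase w` and add `w` to the kernel. -/
lemma sunflower (u Q : ℕ) (U0 : Finset L) (hu : U0.card ≤ u) (F : Finset (L → V))
    (hoff : ∀ f ∈ F, ∀ g ∈ F, ∀ v, v ∉ U0 → f v = g v)
    (hF : (Q * u ^ 2 + 1) ^ U0.card < F.card) :
    ∃ K : Finset L, K ⊆ U0 ∧ K ≠ U0 ∧ ∃ P : Finset (L → V), P ⊆ F ∧ Q ≤ P.card ∧
      (∀ g ∈ P, ∀ h ∈ P, ∀ v ∈ K, g v = h v) ∧
      ∀ g ∈ P, ∀ h ∈ P, g ≠ h → ∀ v ∈ U0, v ∉ K → ∀ w ∈ U0, w ∉ K → g v ≠ h w := by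
  obtain ⟨n, hn⟩ : ∃ n, U0.card = n := ⟨_, rfl⟩
  induction n generalizing U0 F with
  | zero =>
    exfalso
    rw [hn, pow_zero] at hF
    obtain ⟨f, hf, g, hg, hfg⟩ := one_lt_card.1 hF
    rw [card_eq_zero] at hn
    exact hfg (funext fun v => hoff f hf g hg v (by simp [hn]))
  | succ n ih =>
    have hne : U0.Nonempty := card_pos.1 (by omega)
    obtain ⟨P, hPF, hP, hmax⟩ := Sun_max U0 F
    by_cases hQ : Q ≤ P.card
    · exact ⟨∅, empty_subset _, hne.ne_empty.symm, P, hPF, hQ, fun g _ h _ v hv => by simp at hv,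
        fun g hg h hh hgh v hv _ w hw _ => hP g hg h hh hgh v hv w hw⟩
    · have hF' : Q * u ^ 2 * (Q * u ^ 2 + 1) ^ n < F.card := by
        refine lt_of_le_of_lt ?_ hF
        rw [hn, pow_succ' (Q * u ^ 2 + 1) n]
        exact Nat.mul_le_mul_right _ (Nat.le_succ _)
      obtain ⟨w, hw, x, hx⟩ := Sun_class u Q _ U0 hu hne F P (not_le.1 hQ).le hmax hF'
      have hc : (U0.erase w).card = n := by rw [card_erase_of_mem hw, hn]; rfl
      obtain ⟨K, hK, hKne, P', hP'F, hP'Q, hag, hdis⟩ := ih (U0.erase w) (by omega)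
        (F.filter fun f => f w = x)
        (fun f hf g hg v hv => by
          rw [mem_filter] at hf hg
          by_cases hvw : v = w
          · rw [hvw, hf.2, hg.2]
          · exact hoff f hf.1 g hg.1 v fun h => hv (mem_erase.2 ⟨hvw, h⟩))
        (by rw [hc]; exact hx) hc
      have hwK : w ∉ K := fun h => (mem_erase.1 (hK h)).1 rfl
      refine ⟨insert w K, insert_subset hw (hK.trans (erase_subset _ _)), fun h => hKne ?_, P',
        hP'F.trans (filter_subset _ _), hP'Q, fun g hg h hh v hv => ?_,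
        fun g hg h hh hgh v hv hvK v' hv' hv'K => ?_⟩
      · rw [← h, erase_insert hwK]
      · rcases mem_insert.1 hv with hv | hv
        · rw [hv, (mem_filter.1 (hP'F hg)).2, (mem_filter.1 (hP'F hh)).2]
        · exact hag g hg h hh v hv
      · rw [mem_insert, not_or] at hvK hv'K
        exact hdis g hg h hh hgh v (mem_erase.2 ⟨hvK.1, hv⟩) hvK.2 v'
          (mem_erase.2 ⟨hv'K.1, hv'⟩) hv'K.2

/-- Apply `sunflower` to the set of non-petals. -/
lemma card_nonpetal (u Q : ℕ) (hQ : 1 ≤ Q) (U0 : Finset L) (hu : U0.card ≤ u)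
    (F : Finset (L → V)) (hoff : ∀ f ∈ F, ∀ g ∈ F, ∀ v, v ∉ U0 → f v = g v) :
    (F.filter fun f => ¬ IsPetal U0 Q F f).card ≤ sunC u Q := by
  by_contra hcon
  have hlt : (Q * u ^ 2 + 1) ^ U0.card < (F.filter fun f => ¬ IsPetal U0 Q F f).card :=
    lt_of_le_of_lt (Nat.pow_le_pow_right (Nat.succ_pos _) hu) (not_le.1 hcon)
  obtain ⟨K, hK, hKne, P, hPF, hPQ, hag, hdis⟩ := sunflower u Q U0 hu _
    (fun f hf g hg v hv => hoff f (mem_filter.1 hf).1 g (mem_filter.1 hg).1 v hv) hlt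
  obtain ⟨f, hf⟩ : P.Nonempty := card_pos.1 (by omega)
  exact (mem_filter.1 (hPF hf)).2 ⟨K, hK, hKne, P, hPF.trans (filter_subset _ _), hf, hPQ,
    fun g hg v hv => hag g hg f hf v hv, hdis⟩

end Pool.Agent.Work.MP_054302_co.X
end

-- merged part: Pool.Agent.Work.MP_054302_co.Y.P3
section
namespace Pool.Agent.Work.MP_054302_co.Y

open Finset Function Pool.Agent.Work.MP_054302_co.X
open scoped Classical

variable {V : Type} [Fintype V] [DecidableEq V] {G : SimpleGraph V} {Δ : ℕ}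

/-- Counting through fibres with a real bound. -/
lemma P3_fib {α β : Type} [DecidableEq β] (F : Finset α) (T : Finset β) (π : α → β) {c : ℝ}
    (hc : 0 ≤ c) (hT : ∀ p ∈ F, π p ∈ T)
    (h : ∀ p ∈ F, ((F.filter fun q => π q = π p).card : ℝ) ≤ c) : (F.card : ℝ) ≤ T.card * c := by
  rw [card_eq_sum_card_fiberwise (f := π) (t := T) (fun p hp => hT p hp)]
  push_cast
  rw [← nsmul_eq_mul]
  refine sum_le_card_nsmul _ _ _ fun b _ => ?_
  rcases (F.filter fun q => π q = b).eq_empty_or_nonempty with he | ⟨p, hp⟩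
  · rw [he]; simpa using hc
  · rw [mem_filter] at hp
    rw [← hp.2]; exact h p hp.1

lemma P3_pairs (hdeg : ∀ v, (nbr G v).card ≤ Δ) {j : ℕ} (hj : 2 ≤ j) (Q : ℕ) (W : Finset V) :
    (((W ×ˢ (univ : Finset V)).filter fun x => RP G Q j x.1 x.2).card : ℝ) * (Q + 1) ≤
      W.card * (Δ : ℝ) ^ j := by
  have hq : (0 : ℝ) < (Q : ℝ) + 1 := by positivity
  have h := P3_fib ((W ×ˢ (univ : Finset V)).filter fun x => RP G Q j x.1 x.2) W Prod.fst
    (c := (Δ : ℝ) ^ j / (Q + 1)) (by positivity)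
    (fun x hx => (mem_product.1 (mem_filter.1 hx).1).1) (fun x _ => by
      rw [le_div_iff₀ hq]
      have h1 := rp_partners (G := G) hdeg hj Q x.1
      have h2 : (((W ×ˢ (univ : Finset V)).filter fun x => RP G Q j x.1 x.2).filter
          fun q => q.1 = x.1).card ≤ (univ.filter fun x' => RP G Q j x.1 x').card := by
        refine card_le_card_of_injOn Prod.snd (fun y hy => ?_) (fun y hy z hz hyz => ?_)
        · simp only [coe_filter, mem_filter, Set.mem_ofPred_eq, mem_univ, true_and] at hy ⊢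
          rw [← hy.2]; exact hy.1.2
        · simp only [coe_filter, mem_filter, Set.mem_ofPred_eq] at hy hz
          exact Prod.ext (hy.2.trans hz.2.symm) hyz
      have h3 := (Nat.mul_le_mul_left (Q + 1) h2).trans h1
      rw [mul_comm] at h3
      exact_mod_cast h3)
  rw [← mul_div_assoc, le_div_iff₀ hq] at h
  exact h

/-- `card_nonpetal` with `U0 = Ioo 0 (j - 1)` and `Q (j - 1) + 1` petals: no member of `F` is a
petal, since `run_rp` (fixed indices: the kernel, `0`, `j - 1`, `j`) would give a heavy subwalk,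
proper because `j - 1` is fixed. -/
lemma fb {Q : ℕ → ℕ} (hQ : Monotone Q) {W : Finset V} {j L : ℕ} {v0 : V} (hj : 2 ≤ j)
    (hL : j ≤ L) (F : Finset (ℕ → V)) (hF : F ⊆ HA G Q W j v0)
    (hag : ∀ p ∈ F, ∀ q ∈ F, p 0 = q 0 ∧ p (j - 1) = q (j - 1) ∧ p j = q j) :
    F.card ≤ sunC L (Q (j - 1) + 1) := by
  have hoff : ∀ f ∈ F, ∀ g ∈ F, ∀ v, v ∉ Ioo 0 (j - 1) → f v = g v := by
    intro f hf g hg v hv
    rw [mem_Ioo] at hv
    obtain ⟨h1, h2, h3⟩ := hag f hf g hg
    have hv' : v = 0 ∨ v = j - 1 ∨ v = j ∨ j < v := by omega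
    rcases hv' with h | h | h | h
    · rw [h]; exact h1
    · rw [h]; exact h2
    · rw [h]; exact h3
    · rw [(mem_WK.1 (mem_HA.1 (hF hf)).1).1 v h, (mem_WK.1 (mem_HA.1 (hF hg)).1).1 v h]
  have hc := card_nonpetal L (Q (j - 1) + 1) (by omega) (Ioo 0 (j - 1))
    (by rw [Nat.card_Ioo]; omega) F hoff
  refine le_trans (card_le_card fun f hf => mem_filter.2 ⟨hf, ?_⟩) hc
  rintro ⟨K, hK, hKne, P, hP, -, hcard, hagree, hdis⟩
  obtain ⟨k, hk1, hk2⟩ := exists_of_ssubset (ssubset_of_subset_of_ne hK hKne)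
  have hk3 := mem_Ioo.1 hk1
  obtain ⟨a, e, he, hae, hfree, hR⟩ := run_rp (G := G) P (fun ψ => ψ) f
    (fun i => i ∉ Ioo 0 (j - 1) ∨ i ∈ K) (l := j) (Q := Q (j - 1)) (k := k)
    (Or.inl (by simp)) (Or.inl (by rw [mem_Ioo]; omega)) (by omega)
    (fun h => h.elim (fun h => h hk1) hk2)
    (fun ψ hψ i _ hi => hi.elim (fun h => hoff ψ (hP hψ) f hf i h) (fun h => hagree ψ hψ i h))
    (fun ψ hψ ψ' hψ' hne i _ i' _ hi hi' => by
      rw [not_or, not_not] at hi hi'
      exact hdis ψ hψ ψ' hψ' hne i hi.1 hi.2 i' hi'.1 hi'.2)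
    (fun ψ hψ => ⟨(mem_WK.1 (mem_HA.1 (hF (hP hψ))).1).2.2, (mem_HA.1 (hF (hP hψ))).2.1⟩)
    (by omega)
  have hej : e < j := by
    by_contra hcon
    exact hfree (j - 1) (by omega) (by omega) (Or.inl (by simp))
  exact (mem_HA.1 (hF hf)).2.2.2 a e he hej hae (rp_mono (hQ (by omega)) hR)

/-- Choose the first `j` vertices (`wk_ub` for the truncated walks `update p j v0`), then fewer
than `η Δ` values for the last one. -/
lemma step_even (hdeg : ∀ v, (nbr G v).card ≤ Δ) {W : Finset V} {j : ℕ} {v0 : V} (hj : 1 ≤ j)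
    (R : V → V → Prop) {η : ℝ} (hη : 0 ≤ η) :
    (((WK G W j v0).filter fun p => R (p j) (p 0) ∧
      (((nbr G (p (j - 1))).filter fun u => R u (p 0)).card : ℝ) < η * Δ).card : ℝ) ≤
      η * W.card * (Δ : ℝ) ^ j := by
  obtain ⟨m, rfl⟩ : ∃ m, j = m + 1 := ⟨j - 1, by omega⟩
  have hW : ((WK G W m v0).card : ℝ) ≤ W.card * (Δ : ℝ) ^ m := by
    have h := wk_ub hdeg (WK G W m v0) subset_rfl {0} (by simp) (by simp) (fun p => p 0) W
      (fun p hp => (mem_WK.1 hp).2.1 0 (by omega))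
      (fun p _ q _ h i hi => by rw [mem_singleton.1 hi]; exact h)
    simp only [card_singleton, Nat.add_sub_cancel] at h
    exact_mod_cast h
  refine le_trans (P3_fib _ (WK G W m v0) (fun p => update p (m + 1) v0) (c := η * Δ)
    (by positivity) (fun p hp => ?_) (fun p hp => ?_)) ?_
  · obtain ⟨h1, h2, h3⟩ := mem_WK.1 (mem_filter.1 hp).1
    refine mem_WK.2 ⟨fun i hi => ?_, fun i hi => ?_, fun i hi => ?_⟩
    · by_cases h : i = m + 1
      · rw [h, update_self]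
      · rw [update_of_ne h]; exact h1 i (by omega)
    · rw [update_of_ne (by omega)]; exact h2 i (by omega)
    · rw [update_of_ne (by omega), update_of_ne (by omega)]; exact h3 i (by omega)
  · refine le_trans ?_ (mem_filter.1 hp).2.2.le
    rw [Nat.cast_le]
    refine card_le_card_of_injOn (fun q => q (m + 1)) (fun q hq => ?_) (fun q hq r hr hqr => ?_)
    · rw [mem_coe, mem_filter, mem_filter] at hq
      obtain ⟨⟨h1, h2, -⟩, h3⟩ := hq
      have e0 : q 0 = p 0 := by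
        have := congrFun h3 0
        rwa [update_of_ne (by omega), update_of_ne (by omega)] at this
      have e1 : q m = p m := by
        have := congrFun h3 m
        rwa [update_of_ne (by omega), update_of_ne (by omega)] at this
      rw [mem_coe, mem_filter, mem_nbr, Nat.add_sub_cancel, ← e0, ← e1]
      exact ⟨(mem_WK.1 h1).2.2 m (by omega), h2⟩
    · rw [mem_coe, mem_filter] at hq hr
      have h3 := hq.2.trans hr.2.symm
      funext i
      by_cases h : i = m + 1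
      · rw [h]; exact hqr
      · have := congrFun h3 i
        rwa [update_of_ne h, update_of_ne h] at this
  · calc ((WK G W m v0).card : ℝ) * (η * Δ) ≤ (W.card * (Δ : ℝ) ^ m) * (η * Δ) :=
          mul_le_mul_of_nonneg_right hW (by positivity)
      _ = η * W.card * (Δ : ℝ) ^ (m + 1) := by ring

/-- Choose the heavy pair `(p 0, p j)` (`rp_partners`), fewer than `P` values of `p (j - 1)`, and
at most `sunC` completions (`fb`). -/
lemma step_odd (hdeg : ∀ v, (nbr G v).card ≤ Δ) {Q : ℕ → ℕ} (hQ : Monotone Q) {W : Finset V}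
    {j L P : ℕ} {v0 : V} (hj : 2 ≤ j) (hL : j ≤ L) (R : V → V → Prop) {η : ℝ}
    (h3 : (P : ℝ) * sunC L (Q (j - 1) + 1) ≤ η * (Q j + 1)) :
    (((HA G Q W j v0).filter fun p => R (p (j - 1)) (p 0) ∧
      ((nbr G (p j)).filter fun u => R u (p 0)).card < P).card : ℝ) ≤
      η * W.card * (Δ : ℝ) ^ j := by
  have hq : (0 : ℝ) < (Q j : ℝ) + 1 := by positivity
  have hη : 0 ≤ η := by
    have h0 : (0 : ℝ) ≤ (P : ℝ) * sunC L (Q (j - 1) + 1) := by positivity
    exact nonneg_of_mul_nonneg_left (h0.trans h3) hq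
  refine le_trans (P3_fib _ ((W ×ˢ (univ : Finset V)).filter fun x => RP G (Q j) j x.1 x.2)
    (fun p => (p 0, p j)) (c := (P : ℝ) * sunC L (Q (j - 1) + 1)) (by positivity)
    (fun p hp => ?_) (fun p hp => ?_)) ?_
  · obtain ⟨h1, -, h2, -⟩ := mem_HA.1 (mem_filter.1 hp).1
    exact mem_filter.2 ⟨mem_product.2 ⟨(mem_WK.1 h1).2.1 0 (by omega), mem_univ _⟩, h2⟩
  · refine le_trans (P3_fib _ ((nbr G (p j)).filter fun u => R u (p 0)) (fun q => q (j - 1))
      (c := sunC L (Q (j - 1) + 1)) (by positivity) (fun q hq => ?_) (fun q _ => ?_)) ?_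
    · rw [mem_filter, mem_filter] at hq
      obtain ⟨⟨h1, h2, -⟩, h3⟩ := hq
      rw [Prod.mk.injEq] at h3
      rw [mem_filter, mem_nbr, ← h3.1, ← h3.2]
      refine ⟨?_, h2⟩
      have h4 := (mem_WK.1 (mem_HA.1 h1).1).2.2 (j - 1) (by omega)
      rw [show j - 1 + 1 = j by omega] at h4
      exact h4.symm
    · rw [Nat.cast_le]
      refine fb (G := G) hQ (W := W) (v0 := v0) hj hL _ (fun r hr => ?_) (fun r hr s hs => ?_)
      · exact (mem_filter.1 (mem_filter.1 (mem_filter.1 hr).1).1).1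
      · rw [mem_filter, mem_filter, Prod.mk.injEq] at hr hs
        exact ⟨hr.1.2.1.trans hs.1.2.1.symm, hr.2.trans hs.2.symm, hr.1.2.2.trans hs.1.2.2.symm⟩
    · refine mul_le_mul_of_nonneg_right ?_ (by positivity)
      exact_mod_cast (mem_filter.1 hp).2.2.le
  · have h4 := P3_pairs (G := G) hdeg hj (Q j) W
    calc _ ≤ (((W ×ˢ (univ : Finset V)).filter fun x => RP G (Q j) j x.1 x.2).card : ℝ) *
          (η * (Q j + 1)) := mul_le_mul_of_nonneg_left h3 (by positivity)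
      _ = η * ((((W ×ˢ (univ : Finset V)).filter fun x => RP G (Q j) j x.1 x.2).card : ℝ) *
          (Q j + 1)) := by ring
      _ ≤ η * (W.card * (Δ : ℝ) ^ j) := mul_le_mul_of_nonneg_left h4 hη
      _ = _ := by ring

/-- Induction on `i`; the case `0` is `rp_symm`, the step is `step_even` or `step_odd`. -/
lemma cc (hdeg : ∀ v, (nbr G v).card ≤ Δ) {Q : ℕ → ℕ} (hQ : Monotone Q) {W : Finset V}
    {j L P : ℕ} {v0 : V} (hj : 2 ≤ j) (hL : j ≤ L) {η : ℝ} (hη : 0 ≤ η)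
    (h3 : (P : ℝ) * sunC L (Q (j - 1) + 1) ≤ η * (Q j + 1)) (i : ℕ) :
    (((HA G Q W j v0).filter fun p =>
      ¬ CR G (Q j) j (η * Δ) P i (p (j - i % 2)) (p 0)).card : ℝ) ≤
      i * η * W.card * (Δ : ℝ) ^ j := by
  induction i with
  | zero =>
    rw [filter_eq_empty_iff.2]
    · simp
    · intro p hp
      rw [not_not]
      exact rp_symm (mem_HA.1 hp).2.2.1
  | succ i ih =>
    have key : ∀ S : Finset (ℕ → V), (S.card : ℝ) ≤ η * W.card * (Δ : ℝ) ^ j →
        (∀ p ∈ HA G Q W j v0, CR G (Q j) j (η * Δ) P i (p (j - i % 2)) (p 0) →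
          ¬ CR G (Q j) j (η * Δ) P (i + 1) (p (j - (i + 1) % 2)) (p 0) → p ∈ S) →
        (((HA G Q W j v0).filter fun p =>
          ¬ CR G (Q j) j (η * Δ) P (i + 1) (p (j - (i + 1) % 2)) (p 0)).card : ℝ) ≤
          ((i + 1 : ℕ) : ℝ) * η * W.card * (Δ : ℝ) ^ j := by
      intro S hS hmem
      have h1 : ((HA G Q W j v0).filter fun p =>
          ¬ CR G (Q j) j (η * Δ) P (i + 1) (p (j - (i + 1) % 2)) (p 0)) ⊆
          ((HA G Q W j v0).filter fun p =>
            ¬ CR G (Q j) j (η * Δ) P i (p (j - i % 2)) (p 0)) ∪ S := by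
        intro p hp
        rw [mem_filter] at hp
        rw [mem_union, mem_filter]
        by_cases h : CR G (Q j) j (η * Δ) P i (p (j - i % 2)) (p 0)
        · exact Or.inr (hmem p hp.1 h hp.2)
        · exact Or.inl ⟨hp.1, h⟩
      have h2 := (card_le_card h1).trans (card_union_le _ _)
      have h4 := (Nat.cast_le (α := ℝ)).2 h2
      push_cast at h4 ⊢
      linarith
    rcases Nat.mod_two_eq_zero_or_one i with h | h
    · refine key _ (step_even (G := G) hdeg (W := W) (j := j) (v0 := v0) (by omega)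
        (CR G (Q j) j (η * Δ) P i) hη) fun p hp h1 h2 => ?_
      rw [h, Nat.sub_zero] at h1
      rw [show (i + 1) % 2 = 1 by omega] at h2
      refine mem_filter.2 ⟨(mem_HA.1 hp).1, h1, ?_⟩
      simp only [CR, if_pos h, not_le] at h2
      exact h2
    · refine key _ (step_odd (G := G) hdeg hQ (W := W) (v0 := v0) hj hL
        (CR G (Q j) j (η * Δ) P i) h3) fun p hp h1 h2 => ?_
      rw [h] at h1
      rw [show (i + 1) % 2 = 0 by omega, Nat.sub_zero] at h2
      refine mem_filter.2 ⟨hp, h1, ?_⟩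
      simp only [CR, if_neg (show ¬ i % 2 = 0 by omega), not_le] at h2
      exact_mod_cast h2

/-- `cc` with `P = B + L` and `cr_rp`. -/
theorem ha_good (hdeg : ∀ v, (nbr G v).card ≤ Δ) {Q : ℕ → ℕ} (hQ : Monotone Q) {W : Finset V}
    {j i L B : ℕ} {v0 : V} (hj : 2 ≤ j) (hL : j ≤ L) (hi : i ≤ L) {η : ℝ} (hη : 0 ≤ η)
    (h1 : B + L ≤ Q j) (h2 : ((B + L : ℕ) : ℝ) ≤ η * Δ)
    (h3 : ((B + L : ℕ) : ℝ) * sunC L (Q (j - 1) + 1) ≤ η * (Q j + 1)) :
    (((HA G Q W j v0).filter fun p => ¬ RP G B (j + i) (p (j - i % 2)) (p 0)).card : ℝ) ≤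
      L * η * W.card * (Δ : ℝ) ^ j := by
  have h := cc (G := G) hdeg hQ (W := W) (v0 := v0) (P := B + L) hj hL hη h3 i
  have hi' : (i : ℝ) ≤ L := by exact_mod_cast hi
  refine le_trans (Nat.cast_le.2 (card_le_card fun p hp => ?_)) (h.trans ?_)
  · rw [mem_filter] at hp ⊢
    refine ⟨hp.1, fun hc => hp.2 (cr_rp (by omega) i B _ _ (by omega) (le_trans ?_ h2)
      (by omega) hc)⟩
    exact_mod_cast (by omega : B + i ≤ B + L)
  · gcongr

end Pool.Agent.Work.MP_054302_co.Y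
end

-- merged part: Pool.Agent.Work.MP_054302_co.Y.P4
section
namespace Pool.Agent.Work.MP_054302_co.Y

open Finset Function Pool.Agent.Work.MP_054302_co.X
open scoped Classical

/-- Markov: the members of `T` below the threshold contribute at most `ρ / 2 * A.card * D`. -/
lemma mk_sum {α β : Type} (A : Finset α) (T : Finset β) (R : α → β → Prop) {ρ D : ℝ}
    (hρ : 0 < ρ) (hA : A.Nonempty) (hT : (T.card : ℝ) ≤ D)
    (h : ρ * D * A.card ≤ ∑ t ∈ T, ((A.filter fun a => R a t).card : ℝ)) :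
    ρ / 2 * D ≤
      ((T.filter fun t => ρ / 2 * A.card ≤ ((A.filter fun a => R a t).card : ℝ)).card : ℝ) := by
  have ha : (0 : ℝ) < A.card := by exact_mod_cast hA.card_pos
  rw [← sum_filter_add_sum_filter_not T
    (fun t => ρ / 2 * A.card ≤ ((A.filter fun a => R a t).card : ℝ))] at h
  set T1 := T.filter fun t => ρ / 2 * A.card ≤ ((A.filter fun a => R a t).card : ℝ) with hT1
  set T2 := T.filter fun t => ¬ ρ / 2 * A.card ≤ ((A.filter fun a => R a t).card : ℝ) with hT2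
  have h1 : ∑ t ∈ T1, ((A.filter fun a => R a t).card : ℝ) ≤ T1.card * A.card := by
    rw [← nsmul_eq_mul, ← sum_const]
    exact sum_le_sum fun t _ => by exact_mod_cast card_filter_le _ _
  have h2 : ∑ t ∈ T2, ((A.filter fun a => R a t).card : ℝ) ≤ T2.card * (ρ / 2 * A.card) := by
    rw [← nsmul_eq_mul, ← sum_const]
    exact sum_le_sum fun t ht => (not_le.1 (mem_filter.1 ht).2).le
  have h3 : (T2.card : ℝ) ≤ D := le_trans (by exact_mod_cast card_filter_le _ _) hT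
  have h4 : (T2.card : ℝ) * (ρ / 2 * A.card) ≤ D * (ρ / 2 * A.card) :=
    mul_le_mul_of_nonneg_right h3 (by positivity)
  refine le_of_mul_le_mul_right ?_ ha
  nlinarith

/-- Double counting and `mk_sum`. -/
lemma mk {α β : Type} (A : Finset α) (T : Finset β) (R : α → β → Prop) {ρ D : ℝ}
    (hρ : 0 < ρ) (hA : A.Nonempty) (hT : (T.card : ℝ) ≤ D)
    (h : ∀ a ∈ A, ρ * D ≤ ((T.filter fun t => R a t).card : ℝ)) :
    ρ / 2 * D ≤
      ((T.filter fun t => ρ / 2 * A.card ≤ ((A.filter fun a => R a t).card : ℝ)).card : ℝ) := by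
  refine mk_sum A T R hρ hA hT ?_
  have h1 : ∑ t ∈ T, ((A.filter fun a => R a t).card : ℝ) =
      ∑ a ∈ A, ((T.filter fun t => R a t).card : ℝ) := by
    simp only [card_filter, Nat.cast_sum]
    exact sum_comm
  rw [h1, mul_comm, ← nsmul_eq_mul, ← sum_const]
  exact sum_le_sum h

/-- `mk` and a member outside the small set `F`. -/
lemma mk_avoid {α β : Type} (A : Finset α) (T F : Finset β) (R : α → β → Prop) {ρ D : ℝ}
    (hρ : 0 < ρ) (hA : A.Nonempty) (hT : (T.card : ℝ) ≤ D)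
    (h : ∀ a ∈ A, ρ * D ≤ ((T.filter fun t => R a t).card : ℝ)) (hF : (F.card : ℝ) < ρ / 2 * D) :
    ∃ t ∈ T, t ∉ F ∧ ρ / 2 * A.card ≤ ((A.filter fun a => R a t).card : ℝ) := by
  have h1 := hF.trans_le (mk A T R hρ hA hT h)
  obtain ⟨t, ht, htF⟩ := exists_mem_notMem_of_card_lt_card (Nat.cast_lt.1 h1)
  exact ⟨t, (mem_filter.1 ht).1, htF, (mem_filter.1 ht).2⟩

/-- Weighted cleaning: a minimal nonempty subset with total weight at least `2 lam card`. If the
subset is a single point its loop has weight at least `2 lam`. -/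
lemma clean_w {σ : Type} (w : σ → σ → ℕ) (hs : ∀ s t, w s t = w t s) (U : Finset σ)
    (hU : U.Nonempty) {lam : ℝ} (hlam : 0 < lam)
    (h : 2 * lam * U.card ≤ ∑ s ∈ U, ∑ t ∈ U, (w s t : ℝ)) :
    ∃ U0 : Finset σ, U0 ⊆ U ∧ U0.Nonempty ∧ ∀ s ∈ U0, lam ≤ ∑ t ∈ U0, (w s t : ℝ) := by
  induction U using Finset.strongInduction with
  | H U ih =>
    by_cases hall : ∀ s ∈ U, lam ≤ ∑ t ∈ U, (w s t : ℝ)
    · exact ⟨U, subset_rfl, hU, hall⟩
    push Not at hall
    obtain ⟨s, hsU, hlt⟩ := hall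
    have e1 : ∑ a ∈ U, ∑ t ∈ U, (w a t : ℝ) =
        ∑ t ∈ U, (w s t : ℝ) + ∑ a ∈ U.erase s, ((w a s : ℝ) + ∑ t ∈ U.erase s, (w a t : ℝ)) := by
      rw [← add_sum_erase U _ hsU]
      congr 1
      exact sum_congr rfl fun a _ => (add_sum_erase U (fun t => (w a t : ℝ)) hsU).symm
    have e2 : ∑ a ∈ U.erase s, (w a s : ℝ) ≤ ∑ t ∈ U, (w s t : ℝ) := by
      rw [sum_congr rfl fun a _ => by rw [hs a s]]
      exact sum_le_sum_of_subset_of_nonneg (erase_subset _ _) fun _ _ _ => Nat.cast_nonneg _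
    have e3 : (U.card : ℝ) = (U.erase s).card + 1 := by
      exact_mod_cast (card_erase_add_one hsU).symm
    rw [e1, sum_add_distrib, e3] at h
    have e4 : 2 * lam * (U.erase s).card < ∑ a ∈ U.erase s, ∑ t ∈ U.erase s, (w a t : ℝ) := by
      linarith
    have hne : (U.erase s).Nonempty := by
      rw [nonempty_iff_ne_empty]
      intro e
      rw [e] at e4
      simp at e4
    obtain ⟨U0, a1, a2, a3⟩ := ih (U.erase s) (erase_ssubset hsU) hne e4.le
    exact ⟨U0, a1.trans (erase_subset _ _), a2, a3⟩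

variable {V : Type} [Fintype V] [DecidableEq V] {G : SimpleGraph V} {Δ : ℕ}

/-- Twin step. `mk_avoid` gives `y'` with `E = A.filter (R · y')` of size at least `η δ Δ / 2`.
The pairs `(x, c)` with `x ∈ E` and `c` a common neighbour of `x`, `y'` number at least
`Q E.card`, and at most `P' E.card + P Δ` if the claim fails. -/
lemma ts (hdeg : ∀ v, (nbr G v).card ≤ Δ) {U0 A F : Finset V} {R : V → V → Prop} {η δ : ℝ}
    {Q P P' : ℕ} (hη : 0 < η) (hδ : 0 < δ) (hΔ : 0 < Δ) (hU : U0.card ≤ Δ)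
    (hmin : ∀ x ∈ U0, η * Δ ≤ ((U0.filter fun x' => R x x').card : ℝ))
    (hR : ∀ x x', R x x' → Q ≤ (nbr G x ∩ nbr G x').card) (hA : A ⊆ U0)
    (hAc : δ * Δ ≤ A.card) (hF : (F.card : ℝ) < η / 2 * Δ)
    (hQ : (P' : ℝ) + 2 * P / (η * δ) < Q) :
    ∃ y', y' ∉ F ∧ P' ≤ ((nbr G y').filter fun c => P ≤ (nbr G c ∩ A).card).card := by
  have hΔ' : (0 : ℝ) < Δ := by exact_mod_cast hΔ
  have ha : (0 : ℝ) < A.card := lt_of_lt_of_le (by positivity) hAc
  have hne : A.Nonempty := card_pos.1 (by exact_mod_cast ha)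
  obtain ⟨y', -, hyF, hE⟩ := mk_avoid A U0 F R (D := (Δ : ℝ)) hη hne (by exact_mod_cast hU)
    (fun a ha => hmin a (hA ha)) hF
  refine ⟨y', hyF, ?_⟩
  by_contra hcon
  set E := A.filter fun a => R a y' with hEd
  set C := (nbr G y').filter fun c => P ≤ (nbr G c ∩ A).card with hC
  have hC' : C.card ≤ P' := (not_le.1 hcon).le
  have h1 : E.card * Q ≤ ∑ x ∈ E, ((nbr G y').filter fun c => G.Adj x c).card := by
    rw [← smul_eq_mul, ← sum_const]
    refine sum_le_sum fun x hx => (hR x y' (mem_filter.1 hx).2).trans (card_le_card fun c hc => ?_)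
    rw [mem_inter] at hc
    exact mem_filter.2 ⟨hc.2, mem_nbr.1 hc.1⟩
  have h2 : ∑ x ∈ E, ((nbr G y').filter fun c => G.Adj x c).card =
      ∑ c ∈ nbr G y', (E.filter fun x => G.Adj x c).card := by
    simp only [card_filter]
    exact sum_comm
  have h3 : ∑ c ∈ C, (E.filter fun x => G.Adj x c).card ≤ P' * E.card := by
    refine le_trans (sum_le_sum fun c _ => card_filter_le E _) ?_
    rw [sum_const, smul_eq_mul]
    exact Nat.mul_le_mul_right _ hC'
  have h4 : ∑ c ∈ (nbr G y').filter (fun c => ¬ P ≤ (nbr G c ∩ A).card),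
      (E.filter fun x => G.Adj x c).card ≤ Δ * P := by
    refine le_trans (sum_le_sum (g := fun _ => P) fun c hc => ?_) ?_
    · refine le_trans (card_le_card fun x hx => ?_) (not_le.1 (mem_filter.1 hc).2).le
      rw [mem_filter] at hx
      exact mem_inter.2 ⟨mem_nbr.2 hx.2.symm, (mem_filter.1 hx.1).1⟩
    · rw [sum_const, smul_eq_mul]
      exact Nat.mul_le_mul_right _ ((card_filter_le _ _).trans (hdeg y'))
  rw [h2, ← sum_filter_add_sum_filter_not (nbr G y') (fun c => P ≤ (nbr G c ∩ A).card)] at h1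
  have h5 : (E.card : ℝ) * Q ≤ P' * E.card + Δ * P := by
    exact_mod_cast h1.trans (Nat.add_le_add h3 h4)
  have h6 : η / 2 * (δ * Δ) ≤ E.card := le_trans (by gcongr) hE
  have hE0 : (0 : ℝ) < E.card := lt_of_lt_of_le (by positivity) h6
  have h7 : (Δ : ℝ) * P ≤ 2 * P / (η * δ) * E.card := by
    calc (Δ : ℝ) * P = 2 * P / (η * δ) * (η / 2 * (δ * Δ)) := by field_simp
      _ ≤ _ := mul_le_mul_of_nonneg_left h6 (by positivity)
  have h8 := mul_lt_mul_of_pos_right hQ hE0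
  nlinarith

/-- `ts` with the empty set and `P' = F.card + 1`. -/
lemma ystep (hdeg : ∀ v, (nbr G v).card ≤ Δ) {U0 A F : Finset V} {R : V → V → Prop} {η δ : ℝ}
    {Q P : ℕ} (hη : 0 < η) (hδ : 0 < δ) (hΔ : 0 < Δ) (hU : U0.card ≤ Δ)
    (hmin : ∀ x ∈ U0, η * Δ ≤ ((U0.filter fun x' => R x x').card : ℝ))
    (hR : ∀ x x', R x x' → Q ≤ (nbr G x ∩ nbr G x').card) (hA : A ⊆ U0)
    (hAc : δ * Δ ≤ A.card) (hQ : (F.card : ℝ) + 1 + 2 * P / (η * δ) < Q) :
    ∃ y, y ∉ F ∧ P ≤ (nbr G y ∩ A).card := by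
  have hΔ' : (0 : ℝ) < Δ := by exact_mod_cast hΔ
  obtain ⟨y', -, h1⟩ := ts (F := ∅) (P := P) (P' := F.card + 1) hdeg hη hδ hΔ hU hmin hR hA hAc
    (by simp only [card_empty, Nat.cast_zero]; positivity) (by push_cast; exact hQ)
  obtain ⟨y, hy, hyF⟩ := exists_mem_notMem_of_card_lt_card (Nat.lt_of_succ_le h1)
  exact ⟨y, hyF, (mem_filter.1 hy).2⟩

end Pool.Agent.Work.MP_054302_co.Y
end

-- merged part: Pool.Agent.Work.MP_054302_co.Y.PC1
section
namespace Pool.Agent.Work.MP_054302_co.Y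

open Finset Function Pool.Agent.Work.MP_054302_co.X
open scoped Classical

variable {V : Type} [Fintype V] [DecidableEq V] {G : SimpleGraph V} {Δ : ℕ}

lemma PC1_fib (SS : Finset (V × V)) (g : V × V → ℝ) :
    ∑ t ∈ SS, g t = ∑ y', ∑ z ∈ nbX SS y', g (z, y') := by
  have h1 : ∑ t ∈ SS, g t = ∑ t : V × V, if t ∈ SS then g t else 0 := by
    rw [← sum_filter]
    simp
  rw [h1, Fintype.sum_prod_type_right]
  refine sum_congr rfl fun y' _ => ?_
  rw [nbX, sum_filter]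

lemma PC1_card (hdeg : ∀ v, (nbr G v).card ≤ Δ) {SS : Finset (V × V)}
    (hadj : ∀ s ∈ SS, G.Adj s.2 s.1) (y' : V) : ((nbX SS y').card : ℝ) ≤ Δ := by
  have h : nbX SS y' ⊆ nbr G y' := fun z hz => mem_nbr.2 (hadj _ (mem_nbX.1 hz))
  exact_mod_cast (card_le_card h).trans (hdeg y')

lemma PC1_tot (T : V → V → Prop) (SS : Finset (V × V)) (ν : V → V → ℕ) {m : ℝ}
    (hmin : ∀ s ∈ SS, m ≤ ∑ t ∈ SS.filter (fun t => T s.1 t.1), (ν s.2 t.2 : ℝ))
    {y : V} {A : Finset V} (hA : ∀ c ∈ A, (c, y) ∈ SS) :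
    m * A.card ≤ ∑ y', (ν y y' : ℝ) *
      ∑ z ∈ nbX SS y', ((A.filter fun c => T c z).card : ℝ) := by
  calc m * A.card = ∑ _c ∈ A, m := by rw [sum_const, nsmul_eq_mul, mul_comm]
    _ ≤ ∑ c ∈ A, ∑ t ∈ SS, if T c t.1 then (ν y t.2 : ℝ) else 0 := by
        refine sum_le_sum fun c hc => ?_
        rw [← sum_filter]
        exact hmin _ (hA c hc)
    _ = ∑ t ∈ SS, (ν y t.2 : ℝ) * ((A.filter fun c => T c t.1).card : ℝ) := by
        rw [sum_comm]
        refine sum_congr rfl fun t _ => ?_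
        rw [← sum_filter, sum_const, nsmul_eq_mul, mul_comm]
    _ = _ := by
        rw [PC1_fib]
        refine sum_congr rfl fun y' _ => ?_
        rw [mul_sum]

/-- Leg step. Sum `hmin` over `c ∈ A`; targets `t` with `t.1 ∈ F` weigh at most `F.card D Δ` for
each `c`; the others weigh at most `M D Δ ^ 2` where `M` bounds the number of partners in `A` of a
vertex outside `F` (every `y'` has at most `Δ` states). -/
lemma c_leg (hdeg : ∀ v, (nbr G v).card ≤ Δ) (hΔ : 0 < Δ) (T : V → V → Prop)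
    (SS : Finset (V × V)) (ν : V → V → ℕ) {ε D : ℝ} (hε : 0 < ε) (hD : 0 < D)
    (hadj : ∀ s ∈ SS, G.Adj s.2 s.1) (hν2 : ∀ y, ∑ y', (ν y y' : ℝ) ≤ D * Δ)
    (hmin : ∀ s ∈ SS, ε * D * (Δ : ℝ) ^ 2 ≤ ∑ t ∈ SS.filter (fun t => T s.1 t.1), (ν s.2 t.2 : ℝ))
    {y : V} {A F : Finset V} (hA : ∀ c ∈ A, (c, y) ∈ SS) (hne : A.Nonempty)
    (hF : 4 * (F.card : ℝ) ≤ ε * Δ) :
    ∃ z, z ∉ F ∧ ε / 4 * A.card ≤ ((A.filter fun c => T c z).card : ℝ) := by
  by_contra hcon
  push Not at hcon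
  have hAc : (0 : ℝ) < A.card := by exact_mod_cast hne.card_pos
  have hΔ' : (0 : ℝ) < Δ := by exact_mod_cast hΔ
  have h1 := PC1_tot T SS ν hmin hA
  have h2 : ∀ y', ∑ z ∈ nbX SS y', ((A.filter fun c => T c z).card : ℝ) ≤
      ε / 2 * Δ * A.card := by
    intro y'
    calc ∑ z ∈ nbX SS y', ((A.filter fun c => T c z).card : ℝ)
        ≤ ∑ z ∈ nbX SS y', ((if z ∈ F then (A.card : ℝ) else 0) + ε / 4 * A.card) := by
          refine sum_le_sum fun z _ => ?_
          split_ifs with hz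
          · have : ((A.filter fun c => T c z).card : ℝ) ≤ A.card := by
              exact_mod_cast card_filter_le _ _
            have : 0 ≤ ε / 4 * A.card := by positivity
            linarith
          · have := hcon z hz
            linarith
      _ = (((nbX SS y').filter fun z => z ∈ F).card : ℝ) * A.card +
            (nbX SS y').card * (ε / 4 * A.card) := by
          rw [sum_add_distrib, ← sum_filter, sum_const, sum_const, nsmul_eq_mul, nsmul_eq_mul]
      _ ≤ (ε / 4 * Δ) * A.card + Δ * (ε / 4 * A.card) := by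
          have e1 : (((nbX SS y').filter fun z => z ∈ F).card : ℝ) ≤ F.card := by
            exact_mod_cast card_le_card fun z hz => (mem_filter.1 hz).2
          exact add_le_add (mul_le_mul_of_nonneg_right (by linarith) hAc.le)
            (mul_le_mul_of_nonneg_right (PC1_card hdeg hadj y') (by positivity))
      _ = _ := by ring
  have h3 : ∑ y', (ν y y' : ℝ) * ∑ z ∈ nbX SS y', ((A.filter fun c => T c z).card : ℝ) ≤
      (D * Δ) * (ε / 2 * Δ * A.card) := by
    refine le_trans (sum_le_sum fun y' _ =>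
      mul_le_mul_of_nonneg_left (h2 y') (Nat.cast_nonneg _)) ?_
    rw [← sum_mul]
    exact mul_le_mul_of_nonneg_right (hν2 y) (by positivity)
  have h4 : 0 < ε * D * (Δ : ℝ) ^ 2 * A.card := by positivity
  nlinarith

/-- Gap step. Targets with `t.2 ∈ F` weigh at most `F.card D Δ` for each `c`, so some `y'` outside
`F` has at least `ε / 2 A.card Δ` related pairs in `A × nbX SS y'`; then `mk_sum`. -/
lemma c_gap (hdeg : ∀ v, (nbr G v).card ≤ Δ) (hΔ : 0 < Δ) (T : V → V → Prop)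
    (SS : Finset (V × V)) (ν : V → V → ℕ) {ε D : ℝ} (hε : 0 < ε) (hD : 0 < D)
    (hadj : ∀ s ∈ SS, G.Adj s.2 s.1) (hν1 : ∀ y y', (ν y y' : ℝ) ≤ D)
    (hν2 : ∀ y, ∑ y', (ν y y' : ℝ) ≤ D * Δ)
    (hmin : ∀ s ∈ SS, ε * D * (Δ : ℝ) ^ 2 ≤ ∑ t ∈ SS.filter (fun t => T s.1 t.1), (ν s.2 t.2 : ℝ))
    {y : V} {A F : Finset V} (hA : ∀ c ∈ A, (c, y) ∈ SS) (hne : A.Nonempty)
    (hF : 4 * (F.card : ℝ) ≤ ε * Δ) :
    ∃ y', y' ∉ F ∧ ε / 4 * Δ ≤ (((nbX SS y').filter fun c' =>
      ε / 4 * A.card ≤ ((A.filter fun c => T c c').card : ℝ)).card : ℝ) := by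
  have hAc : (0 : ℝ) < A.card := by exact_mod_cast hne.card_pos
  have hΔ' : (0 : ℝ) < Δ := by exact_mod_cast hΔ
  have h1 := PC1_tot T SS ν hmin hA
  have key : ∃ y', y' ∉ F ∧ ε / 2 * Δ * A.card ≤
      ∑ z ∈ nbX SS y', ((A.filter fun c => T c z).card : ℝ) := by
    by_contra hcon
    push Not at hcon
    have h2 : ∀ y', ∑ z ∈ nbX SS y', ((A.filter fun c => T c z).card : ℝ) ≤ Δ * A.card := by
      intro y'
      calc ∑ z ∈ nbX SS y', ((A.filter fun c => T c z).card : ℝ)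
          ≤ ∑ _z ∈ nbX SS y', (A.card : ℝ) :=
            sum_le_sum fun z _ => by exact_mod_cast card_filter_le _ _
        _ = (nbX SS y').card * (A.card : ℝ) := by rw [sum_const, nsmul_eq_mul]
        _ ≤ _ := mul_le_mul_of_nonneg_right (PC1_card hdeg hadj y') hAc.le
    have h3 : ∑ y', (ν y y' : ℝ) * ∑ z ∈ nbX SS y', ((A.filter fun c => T c z).card : ℝ) ≤
        ∑ y', ((if y' ∈ F then D * (Δ * A.card) else 0) +
          (ν y y' : ℝ) * (ε / 2 * Δ * A.card)) := by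
      refine sum_le_sum fun y' _ => ?_
      split_ifs with hy
      · have e1 : (ν y y' : ℝ) * ∑ z ∈ nbX SS y', ((A.filter fun c => T c z).card : ℝ) ≤
            D * (Δ * A.card) :=
          mul_le_mul (hν1 y y') (h2 y') (sum_nonneg fun _ _ => Nat.cast_nonneg _) hD.le
        have e2 : 0 ≤ (ν y y' : ℝ) * (ε / 2 * Δ * A.card) := by positivity
        linarith
      · rw [zero_add]
        exact mul_le_mul_of_nonneg_left (hcon y' hy).le (Nat.cast_nonneg _)
    rw [sum_add_distrib, ← sum_filter, sum_const, nsmul_eq_mul, ← sum_mul] at h3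
    have e1 : ((univ.filter fun y' => y' ∈ F).card : ℝ) ≤ ε / 4 * Δ := by
      have : ((univ.filter fun y' => y' ∈ F).card : ℝ) ≤ F.card := by
        exact_mod_cast card_le_card fun z hz => (mem_filter.1 hz).2
      linarith
    have e2 := mul_le_mul_of_nonneg_right e1 (show 0 ≤ D * (Δ * A.card) by positivity)
    have e3 := mul_le_mul_of_nonneg_right (hν2 y) (show 0 ≤ ε / 2 * Δ * A.card by positivity)
    have h4 : 0 < ε * D * (Δ : ℝ) ^ 2 * A.card := by positivity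
    nlinarith
  obtain ⟨y', hy, hs⟩ := key
  have h5 := mk_sum A (nbX SS y') T (ρ := ε / 2) (D := Δ) (by positivity) hne
    (PC1_card hdeg hadj y') hs
  have e : ε / 2 / 2 = ε / 4 := by ring
  rw [e] at h5
  exact ⟨y', hy, h5⟩

/-- States `St n y A`: all `(c, y)`, `c ∈ A`, lie in `SS` and `(ε / 4) ^ (n + 1) Δ ≤ A.card`.
The start is `c_gap` for a single state. -/
theorem c_core (hdeg : ∀ v, (nbr G v).card ≤ Δ) (hΔ : 0 < Δ) (T : V → V → Prop)
    (SS : Finset (V × V)) (ν : V → V → ℕ) {ε D : ℝ} (hε : 0 < ε) (hε1 : ε ≤ 1) (hD : 0 < D)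
    (hne : SS.Nonempty) (hadj : ∀ s ∈ SS, G.Adj s.2 s.1) (hν1 : ∀ y y', (ν y y' : ℝ) ≤ D)
    (hν2 : ∀ y, ∑ y', (ν y y' : ℝ) ≤ D * Δ)
    (hmin : ∀ s ∈ SS, ε * D * (Δ : ℝ) ^ 2 ≤ ∑ t ∈ SS.filter (fun t => T s.1 t.1), (ν s.2 t.2 : ℝ))
    {u p : ℕ} (hu : 4 * (u : ℝ) ≤ ε * Δ) (hp : (p : ℝ) ≤ (ε / 4) ^ (u + 1) * Δ) :
    CanSweep G T u p := by
  have hΔ' : (0 : ℝ) < Δ := by exact_mod_cast hΔ
  have h0 : 0 < ε / 4 := by positivity
  have hpow : ∀ a b : ℕ, a ≤ b → (ε / 4) ^ b * Δ ≤ (ε / 4) ^ a * Δ := fun a b h =>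
    mul_le_mul_of_nonneg_right (pow_le_pow_of_le_one h0.le (by linarith) h) hΔ'.le
  have hnon : ∀ (n : ℕ) (A : Finset V), (ε / 4) ^ (n + 1) * Δ ≤ A.card → A.Nonempty := by
    intro n A h
    have : (0 : ℝ) < A.card := lt_of_lt_of_le (by positivity) h
    exact card_pos.1 (by exact_mod_cast this)
  have hFu : ∀ F : Finset V, F.card ≤ u → 4 * (F.card : ℝ) ≤ ε * Δ := by
    intro F h
    have : (F.card : ℝ) ≤ u := by exact_mod_cast h
    linarith
  have hstep : ∀ (n : ℕ) (a : ℝ), (ε / 4) ^ (n + 1) * Δ ≤ a →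
      (ε / 4) ^ (n + 1 + 1) * Δ ≤ ε / 4 * a := by
    intro n a h
    calc (ε / 4) ^ (n + 1 + 1) * Δ = ε / 4 * ((ε / 4) ^ (n + 1) * Δ) := by ring
      _ ≤ _ := mul_le_mul_of_nonneg_left h h0.le
  refine ⟨fun n y A => (∀ c ∈ A, (c, y) ∈ SS) ∧ (ε / 4) ^ (n + 1) * Δ ≤ A.card, ?_, ?_, ?_, ?_⟩
  · obtain ⟨⟨c, y⟩, hs⟩ := hne
    obtain ⟨y', -, h⟩ := c_gap hdeg hΔ T SS ν hε hD hadj hν1 hν2 hmin (y := y) (A := {c})
      (F := ∅) (fun c' hc' => by rw [mem_singleton.1 hc']; exact hs) (singleton_nonempty c)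
      (by rw [card_empty, Nat.cast_zero, mul_zero]; positivity)
    exact ⟨y', _, fun c' hc' => mem_nbX.1 (mem_filter.1 hc').1,
      le_trans (le_of_eq (by rw [zero_add, pow_one])) h⟩
  · rintro n y A hn ⟨h1, h2⟩
    refine ⟨fun c hc => mem_nbr.2 (hadj _ (h1 c hc)), ?_⟩
    have : (p : ℝ) ≤ A.card := hp.trans ((hpow _ _ (by omega)).trans h2)
    exact_mod_cast this
  · rintro n y A F hn ⟨h1, h2⟩ hF
    obtain ⟨z, hz, h⟩ := c_leg hdeg hΔ T SS ν hε hD hadj hν2 hmin h1 (hnon n A h2) (hFu F hF)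
    exact ⟨z, hz, _, filter_subset _ _, ⟨fun c hc => h1 c (mem_filter.1 hc).1,
      (hstep n _ h2).trans h⟩, fun c hc => (mem_filter.1 hc).2⟩
  · rintro n y A F hn ⟨h1, h2⟩ hF
    obtain ⟨y', hy, h⟩ :=
      c_gap hdeg hΔ T SS ν hε hD hadj hν1 hν2 hmin h1 (hnon n A h2) (hFu F hF)
    refine ⟨y', hy, _, ⟨fun c' hc' => mem_nbX.1 (mem_filter.1 hc').1, le_trans ?_ h⟩, ?_⟩
    · have := hpow 1 (n + 1 + 1) (by omega)
      rwa [pow_one] at this
    · intro c' hc'
      have : (p : ℝ) ≤ ((A.filter fun c => T c c').card : ℝ) :=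
        hp.trans ((hpow _ _ (by omega)).trans ((hstep n _ h2).trans (mem_filter.1 hc').2))
      exact_mod_cast this

end Pool.Agent.Work.MP_054302_co.Y
end

-- merged part: Pool.Agent.Work.MP_054302_co.Y.PC2
section
namespace Pool.Agent.Work.MP_054302_co.Y

open Finset Function Pool.Agent.Work.MP_054302_co.X
open scoped Classical

section

variable {V : Type} [Fintype V] [DecidableEq V] {G : SimpleGraph V} {Δ : ℕ}

/-- Number of walks of length `k` between two vertices. -/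
noncomputable def nu (G : SimpleGraph V) (k : ℕ) (v0 y y' : V) : ℕ :=
  ((WK G univ k v0).filter fun q => q 0 = y ∧ q k = y').card

lemma PC2_le (k : ℕ) (v0 y y' : V) : nu G k v0 y y' ≤ nu G k v0 y' y := by
  refine card_le_card_of_injOn (rev k v0) (fun q hq => ?_) fun q hq q' hq' e => ?_
  · obtain ⟨h1, h2, h3⟩ := mem_filter.1 (mem_coe.1 hq)
    obtain ⟨-, -, h4⟩ := mem_WK.1 h1
    refine mem_coe.2 (mem_filter.2 ⟨mem_WK.2 ⟨fun i hi => if_neg (by omega),
      fun _ _ => mem_univ _, fun i hi => ?_⟩, ?_, ?_⟩)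
    · have h5 := h4 (k - (i + 1)) (by omega)
      rw [show k - (i + 1) + 1 = k - i by omega] at h5
      simp only [rev, if_pos hi.le, if_pos (Nat.succ_le_of_lt hi)]
      exact h5.symm
    · simp only [rev, if_pos (Nat.zero_le k)]
      exact h3
    · simp only [rev, if_pos (le_refl k), Nat.sub_self]
      exact h2
  · have h1 := (mem_WK.1 (mem_filter.1 (mem_coe.1 hq)).1).1
    have h2 := (mem_WK.1 (mem_filter.1 (mem_coe.1 hq')).1).1
    funext i
    by_cases hi : i ≤ k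
    · have h3 := congrFun e (k - i)
      simp only [rev, if_pos (Nat.sub_le k i), Nat.sub_sub_self hi] at h3
      exact h3
    · rw [h1 i (by omega), h2 i (by omega)]

/-- The map `rev k v0` is an involution of `WK`. -/
lemma nu_symm (k : ℕ) (v0 y y' : V) : nu G k v0 y y' = nu G k v0 y' y := by
  exact le_antisymm (PC2_le k v0 y y') (PC2_le k v0 y' y)

/-- `wk_ub` with `S = {0, k}`. -/
lemma nu_le (hdeg : ∀ v, (nbr G v).card ≤ Δ) {k : ℕ} (hk : 1 ≤ k) (v0 y y' : V) :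
    nu G k v0 y y' ≤ Δ ^ (k - 1) := by
  have h := wk_ub hdeg ((WK G univ k v0).filter fun q => q 0 = y ∧ q k = y') (filter_subset _ _)
    {0, k} (fun i hi => by
      rcases mem_insert.1 hi with rfl | hi
      · omega
      · exact (mem_singleton.1 hi).le) ⟨0, mem_insert_self _ _⟩ (fun _ => ()) {()}
    (fun _ _ => mem_singleton_self _) (fun p hp q hq _ i hi => by
      obtain ⟨-, h1, h2⟩ := mem_filter.1 hp
      obtain ⟨-, h3, h4⟩ := mem_filter.1 hq
      rcases mem_insert.1 hi with rfl | hi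
      · rw [h1, h3]
      · rw [mem_singleton.1 hi, h2, h4])
  rw [card_singleton, one_mul, card_pair (by omega), show k + 1 - 2 = k - 1 by omega] at h
  exact h

/-- `wk_ub` with `S = {0}`. -/
lemma nu_sum (hdeg : ∀ v, (nbr G v).card ≤ Δ) (k : ℕ) (v0 y : V) :
    ∑ y', nu G k v0 y y' ≤ Δ ^ k := by
  have h := wk_ub hdeg ((WK G univ k v0).filter fun q => q 0 = y) (filter_subset _ _)
    {0} (fun i hi => by rw [mem_singleton.1 hi]; omega) ⟨0, mem_singleton_self _⟩ (fun _ => ()) {()}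
    (fun _ _ => mem_singleton_self _) (fun p hp q hq _ i hi => by
      rw [mem_singleton.1 hi, (mem_filter.1 hp).2, (mem_filter.1 hq).2])
  rw [card_singleton, one_mul, card_singleton, Nat.add_sub_cancel,
    card_eq_sum_card_fiberwise (f := fun q : ℕ → V => q k) (t := univ) fun _ _ => mem_univ _] at h
  refine le_trans (sum_le_sum fun y' _ => card_le_card fun q hq => ?_) h
  obtain ⟨h1, h2, h3⟩ := mem_filter.1 hq
  exact mem_filter.2 ⟨mem_filter.2 ⟨h1, h2⟩, h3⟩

/-- Sort the walks by `((q 0, q 1), (q (k + 2), q (k + 1)))`; a fibre injects into the walks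
counted by `nu` through `fun i => if i ≤ k then q (i + 1) else v0`. -/
lemma walks_le (W : Finset V) (k : ℕ) (v0 : V) (T : V → V → Prop) :
    ((WK G W (k + 2) v0).filter fun q => T (q 0) (q (k + 2))).card ≤
      ∑ s ∈ univ.filter (fun s : V × V => s.2 ∈ W ∧ G.Adj s.2 s.1),
        ∑ t ∈ univ.filter (fun s : V × V => s.2 ∈ W ∧ G.Adj s.2 s.1),
          if T s.1 t.1 then nu G k v0 s.2 t.2 else 0 := by
  rw [← sum_product', card_eq_sum_card_fiberwise
    (f := fun q : ℕ → V => ((q 0, q 1), (q (k + 2), q (k + 1))))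
    (t := univ.filter (fun s : V × V => s.2 ∈ W ∧ G.Adj s.2 s.1) ×ˢ
      univ.filter (fun s : V × V => s.2 ∈ W ∧ G.Adj s.2 s.1)) fun q hq => by
      obtain ⟨-, h2, h3⟩ := mem_WK.1 (mem_filter.1 (mem_coe.1 hq)).1
      exact mem_coe.2 (mem_product.2
        ⟨mem_filter.2 ⟨mem_univ _, h2 1 (by omega), (h3 0 (by omega)).symm⟩,
          mem_filter.2 ⟨mem_univ _, h2 (k + 1) (by omega), h3 (k + 1) (by omega)⟩⟩)]
  refine sum_le_sum fun st _ => ?_
  have key : ∀ q ∈ ((WK G W (k + 2) v0).filter fun q => T (q 0) (q (k + 2))).filter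
      fun q : ℕ → V => ((q 0, q 1), (q (k + 2), q (k + 1))) = st,
      (∀ i, k + 2 < i → q i = v0) ∧ Wk G (k + 2) q ∧ T (q 0) (q (k + 2)) ∧ q 0 = st.1.1 ∧
        q 1 = st.1.2 ∧ q (k + 2) = st.2.1 ∧ q (k + 1) = st.2.2 := fun q hq => by
    obtain ⟨h1, rfl⟩ := mem_filter.1 hq
    obtain ⟨h2, h3⟩ := mem_filter.1 h1
    obtain ⟨h4, -, h5⟩ := mem_WK.1 h2
    exact ⟨h4, h5, h3, rfl, rfl, rfl, rfl⟩
  split_ifs with hT
  · refine card_le_card_of_injOn (fun q i => if i ≤ k then q (i + 1) else v0) (fun q hq => ?_)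
      fun q hq q' hq' e => ?_
    · obtain ⟨-, h2, -, -, h5, -, h7⟩ := key q (mem_coe.1 hq)
      refine mem_coe.2 (mem_filter.2 ⟨mem_WK.2 ⟨fun i hi => if_neg (by omega),
        fun _ _ => mem_univ _, fun i hi => ?_⟩, ?_, ?_⟩)
      · simp only [if_pos hi.le, if_pos (Nat.succ_le_of_lt hi)]
        exact h2 (i + 1) (by omega)
      · simp only [if_pos (Nat.zero_le k)]
        exact h5
      · simp only [if_pos (le_refl k)]
        exact h7
    · obtain ⟨h1, -, -, h4, -, h6, -⟩ := key q (mem_coe.1 hq)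
      obtain ⟨h1', -, -, h4', -, h6', -⟩ := key q' (mem_coe.1 hq')
      funext i
      rcases i with _ | i
      · rw [h4, h4']
      by_cases hi : i ≤ k
      · have := congrFun e i
        simpa only [if_pos hi] using this
      by_cases hi' : i = k + 1
      · rw [hi', h6, h6']
      · rw [h1 _ (by omega), h1' _ (by omega)]
  · rw [Nat.le_zero, card_eq_zero, eq_empty_iff_forall_notMem]
    intro q hq
    obtain ⟨-, -, h3, h4, -, h6, -⟩ := key q hq
    exact hT (h4 ▸ h6 ▸ h3)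

end

/-- Put `m = k + 2`, `ε = min θ 1 / 2`, `D = Δ ^ (k - 1)`. There are at most `W.card Δ` states;
`clean_w` with `lam = ε D Δ ^ 2`, then `c_core`. -/
theorem c_wrap (θ : ℝ) (hθ : 0 < θ) (u p m : ℕ) (hm : 3 ≤ m) : ∃ D0 : ℕ,
    ∀ (V : Type) [Fintype V] [DecidableEq V] (G : SimpleGraph V) (Δ : ℕ) (W : Finset V) (v0 : V)
      (T : V → V → Prop), (∀ x x', T x x' → T x' x) → (∀ v, (nbr G v).card ≤ Δ) → D0 ≤ Δ →
      θ * W.card * (Δ : ℝ) ^ m < (((WK G W m v0).filter fun q => T (q 0) (q m)).card : ℝ) →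
      CanSweep G T u p := by
  obtain ⟨k, rfl⟩ : ∃ k, m = k + 1 + 2 := ⟨m - 3, by omega⟩
  obtain ⟨ε, hε, hε1, hεθ⟩ : ∃ ε : ℝ, 0 < ε ∧ ε ≤ 1 ∧ 2 * ε ≤ θ :=
    ⟨min θ 1 / 2, by positivity, by linarith [min_le_right θ 1], by linarith [min_le_left θ 1]⟩
  have hq : 0 < (ε / 4) ^ (u + 1) := by positivity
  obtain ⟨D0, hD0⟩ := exists_nat_ge (max (4 * (u : ℝ) / ε) (p / (ε / 4) ^ (u + 1)))
  refine ⟨D0 + 1, fun V _ _ G Δ W v0 T hT hdeg hΔ h => ?_⟩
  have hΔ0 : 0 < Δ := by omega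
  have hΔ1 : (0 : ℝ) < Δ := by exact_mod_cast hΔ0
  have hΔ2 : (D0 : ℝ) ≤ Δ := by exact_mod_cast (by omega : D0 ≤ Δ)
  have hu : 4 * (u : ℝ) ≤ ε * Δ := by
    rw [mul_comm ε, ← div_le_iff₀ hε]
    exact (le_max_left _ _).trans (hD0.trans hΔ2)
  have hp : (p : ℝ) ≤ (ε / 4) ^ (u + 1) * Δ := by
    rw [mul_comm, ← div_le_iff₀ hq]
    exact (le_max_right _ _).trans (hD0.trans hΔ2)
  set U := univ.filter (fun s : V × V => s.2 ∈ W ∧ G.Adj s.2 s.1) with hU
  set w : V × V → V × V → ℕ := fun s t => if T s.1 t.1 then nu G (k + 1) v0 s.2 t.2 else 0 with hw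
  have h1 : θ * W.card * (Δ : ℝ) ^ (k + 1 + 2) < ∑ s ∈ U, ∑ t ∈ U, (w s t : ℝ) := by
    refine h.trans_le ?_
    exact_mod_cast walks_le W (k + 1) v0 T
  have h2 : U.card ≤ W.card * Δ := by
    rw [mul_comm]
    refine card_le_mul_card_image_of_maps_to (f := Prod.snd) (fun s hs => (mem_filter.1 hs).2.1) _
      fun y _ => le_trans ?_ (hdeg y)
    refine card_le_card_of_injOn Prod.fst (fun s hs => ?_) fun s hs t ht e => ?_
    · obtain ⟨h3, rfl⟩ := mem_filter.1 (mem_coe.1 hs)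
      exact mem_coe.2 (mem_nbr.2 (mem_filter.1 h3).2.2)
    · exact Prod.ext e ((mem_filter.1 (mem_coe.1 hs)).2.trans (mem_filter.1 (mem_coe.1 ht)).2.symm)
  have h3 : (U.card : ℝ) ≤ W.card * Δ := by exact_mod_cast h2
  have h4 : U.Nonempty := by
    rw [nonempty_iff_ne_empty]
    intro h0
    rw [h0, sum_empty] at h1
    exact absurd h1 (not_lt.2 (by positivity))
  obtain ⟨U0, h5, h6, h7⟩ := clean_w w (fun s t => by
      simp only [hw]
      by_cases h8 : T s.1 t.1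
      · rw [if_pos h8, if_pos (hT _ _ h8), nu_symm]
      · rw [if_neg h8, if_neg fun h9 => h8 (hT _ _ h9)]) U h4
    (lam := ε * (Δ : ℝ) ^ k * (Δ : ℝ) ^ 2) (by positivity) (by
      refine le_trans ?_ h1.le
      calc 2 * (ε * (Δ : ℝ) ^ k * (Δ : ℝ) ^ 2) * U.card
          = 2 * ε * U.card * ((Δ : ℝ) ^ k * (Δ : ℝ) ^ 2) := by ring
        _ ≤ θ * (W.card * Δ) * ((Δ : ℝ) ^ k * (Δ : ℝ) ^ 2) := by gcongr
        _ = _ := by ring)
  refine c_core hdeg hΔ0 T U0 (nu G (k + 1) v0) (D := (Δ : ℝ) ^ k) hε hε1 (by positivity) h6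
    (fun s hs => (mem_filter.1 (h5 hs)).2.2) (fun y y' => ?_) (fun y => ?_) (fun s hs => ?_) hu hp
  · exact_mod_cast nu_le hdeg (Nat.le_add_left 1 k) v0 y y'
  · rw [← pow_succ]
    exact_mod_cast nu_sum hdeg (k + 1) v0 y
  · refine (h7 s hs).trans (le_of_eq ?_)
    rw [sum_filter]
    refine sum_congr rfl fun t _ => ?_
    simp only [hw]
    split_ifs <;> simp

end Pool.Agent.Work.MP_054302_co.Y
end

-- merged part: Pool.Agent.Work.MP_054302_co.Y.PL1
section
namespace Pool.Agent.Work.MP_054302_co.Y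

open Finset Function Pool.Agent.Work.MP_054302_co.X
open scoped Classical

/-- Even length. Fix `P0 : ℕ` with `p + 1 ≤ P0 (η / 2) ^ (u + 1)`; note `η ≤ 1`. States: `A` inside
`U0 ∩ nbr G y` with `P0 (η / 2) ^ n ≤ A.card`. Start: `ystep` with `A = U0`. Leg: `mk_avoid` for
`(A, U0, R)`. Gap: `mk` gives a set `A1 ⊆ U0` of size at least `η / 2 Δ` whose members have
`η / 2 A.card` partners in `A`; `ystep` gives `y'` with `P0` neighbours in `A1`. -/
theorem l_even (η : ℝ) (hη : 0 < η) (u p : ℕ) : ∃ Q0 D0 : ℕ,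
    ∀ (V : Type) [Fintype V] [DecidableEq V] (G : SimpleGraph V) (Δ Q : ℕ) (U0 : Finset V)
      (R T : V → V → Prop), Q0 ≤ Q → D0 ≤ Δ → (∀ v, (nbr G v).card ≤ Δ) → U0.Nonempty →
      U0.card ≤ Δ → (∀ x ∈ U0, η * Δ ≤ ((U0.filter fun x' => R x x').card : ℝ)) →
      (∀ x x', R x x' → Q ≤ (nbr G x ∩ nbr G x').card) → (∀ x x', R x x' → T x x') →
      CanSweep G T u p := by
  have hη2 : 0 < η / 2 := by positivity
  obtain ⟨P0, hP0⟩ : ∃ P0 : ℕ, (p : ℝ) + 1 ≤ P0 * (η / 2) ^ (u + 1) := by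
    refine ⟨⌈((p : ℝ) + 1) / (η / 2) ^ (u + 1)⌉₊, ?_⟩
    rw [← div_le_iff₀ (by positivity)]
    exact Nat.le_ceil _
  refine ⟨⌈(u : ℝ) + 1 + 2 * P0 / (η * (η / 2))⌉₊ + 1, ⌈(u : ℝ) / (η / 2)⌉₊ + 1, ?_⟩
  intro V _ _ G Δ Q U0 R T hQ hD hdeg hne hU hmin hR hT
  have hΔ : 0 < Δ := by omega
  have hΔ' : (0 : ℝ) < Δ := by exact_mod_cast hΔ
  have hQ' : (u : ℝ) + 1 + 2 * P0 / (η * (η / 2)) < Q := by
    have h1 := Nat.le_ceil ((u : ℝ) + 1 + 2 * P0 / (η * (η / 2)))
    have h2 : ((⌈(u : ℝ) + 1 + 2 * P0 / (η * (η / 2))⌉₊ + 1 : ℕ) : ℝ) ≤ Q := by exact_mod_cast hQ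
    push_cast at h2
    linarith
  have hD' : (u : ℝ) < η / 2 * Δ := by
    have h1 := Nat.le_ceil ((u : ℝ) / (η / 2))
    have h2 : ((⌈(u : ℝ) / (η / 2)⌉₊ + 1 : ℕ) : ℝ) ≤ Δ := by exact_mod_cast hD
    push_cast at h2
    have h3 : (u : ℝ) / (η / 2) < Δ := by linarith
    rw [div_lt_iff₀ hη2] at h3
    linarith
  have hUc : η * Δ ≤ (U0.card : ℝ) := by
    obtain ⟨x, hx⟩ := hne
    exact (hmin x hx).trans (by exact_mod_cast card_filter_le _ _)
  have hU' : (U0.card : ℝ) ≤ Δ := by exact_mod_cast hU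
  have hη1 : η / 2 ≤ 1 := by
    have : η * Δ ≤ 1 * Δ := by linarith
    have := le_of_mul_le_mul_right this hΔ'
    linarith
  have hP : (0 : ℝ) ≤ P0 := Nat.cast_nonneg _
  have hlow : ∀ n, n ≤ u + 1 → (p : ℝ) + 1 ≤ P0 * (η / 2) ^ n := fun n hn =>
    hP0.trans (mul_le_mul_of_nonneg_left (pow_le_pow_of_le_one hη2.le hη1 hn) hP)
  have hup : ∀ n : ℕ, (P0 : ℝ) * (η / 2) ^ n ≤ P0 := fun n =>
    mul_le_of_le_one_right hP (pow_le_one₀ hη2.le hη1)
  have hp0 : (0 : ℝ) ≤ p := Nat.cast_nonneg _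
  have hy : ∀ A F : Finset V, A ⊆ U0 → η / 2 * Δ ≤ A.card → F.card ≤ u →
      ∃ y, y ∉ F ∧ P0 ≤ (nbr G y ∩ A).card := by
    intro A F hA hAc hF
    refine ystep hdeg hη hη2 hΔ hU hmin hR hA hAc ?_
    have : (F.card : ℝ) ≤ u := by exact_mod_cast hF
    linarith
  have hnon : ∀ (n : ℕ) (A : Finset V), n ≤ u + 1 → (P0 : ℝ) * (η / 2) ^ n ≤ A.card →
      A.Nonempty := by
    intro n A hn hA
    rw [← card_pos]
    have : (0 : ℝ) < A.card := by linarith [hlow n hn]
    exact_mod_cast this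
  have hstep : ∀ (n : ℕ) (A : Finset V), (P0 : ℝ) * (η / 2) ^ n ≤ A.card →
      (P0 : ℝ) * (η / 2) ^ (n + 1) ≤ η / 2 * A.card := by
    intro n A hA
    rw [pow_succ, ← mul_assoc, mul_comm (η / 2)]
    exact mul_le_mul_of_nonneg_right hA hη2.le
  refine ⟨fun n y A => A ⊆ U0 ∧ A ⊆ nbr G y ∧ (P0 : ℝ) * (η / 2) ^ n ≤ A.card, ?_, ?_, ?_, ?_⟩
  · obtain ⟨y, -, h⟩ := hy U0 ∅ Subset.rfl (by nlinarith) (by simp)
    refine ⟨y, nbr G y ∩ U0, inter_subset_right, inter_subset_left, (hup 0).trans ?_⟩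
    exact_mod_cast h
  · rintro n y A hn ⟨-, h2, h3⟩
    refine ⟨h2, ?_⟩
    have : (p : ℝ) ≤ A.card := by linarith [hlow n (by omega)]
    exact_mod_cast this
  · rintro n y A F hn ⟨h1, h2, h3⟩ hF
    have hF' : (F.card : ℝ) < η / 2 * Δ := lt_of_le_of_lt (by exact_mod_cast hF) hD'
    obtain ⟨t, -, ht, h⟩ := mk_avoid A U0 F R hη (hnon n A (by omega) h3) hU'
      (fun a ha => hmin a (h1 ha)) hF'
    refine ⟨t, ht, A.filter fun a => R a t, filter_subset _ _,
      ⟨(filter_subset _ _).trans h1, (filter_subset _ _).trans h2, (hstep n A h3).trans h⟩, ?_⟩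
    intro c hc
    exact hT _ _ (mem_filter.1 hc).2
  · rintro n y A F hn ⟨h1, -, h3⟩ hF
    have h := mk A U0 R hη (hnon n A (by omega) h3) hU' (fun a ha => hmin a (h1 ha))
    obtain ⟨y', hy', h4⟩ := hy _ F (filter_subset _ _) h hF
    refine ⟨y', hy', _, ⟨inter_subset_right.trans (filter_subset _ _), inter_subset_left,
      (hup (n + 1)).trans (by exact_mod_cast h4)⟩, ?_⟩
    intro c' hc'
    have h5 := (mem_filter.1 (mem_inter.1 hc').2).2
    have h6 : (A.filter fun a => R a c').card ≤ (A.filter fun c => T c c').card :=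
      card_le_card fun a ha => mem_filter.2 ⟨(mem_filter.1 ha).1, hT _ _ (mem_filter.1 ha).2⟩
    have h7 : ((A.filter fun a => R a c').card : ℝ) ≤ (A.filter fun c => T c c').card := by
      exact_mod_cast h6
    have h8 : (p : ℝ) ≤ (A.filter fun c => T c c').card := by
      linarith [hstep n A h3, hlow (n + 1) (by omega)]
    exact_mod_cast h8

end Pool.Agent.Work.MP_054302_co.Y
end

-- merged part: Pool.Agent.Work.MP_054302_co.Y.PL2
section
namespace Pool.Agent.Work.MP_054302_co.Y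

open Finset Function Pool.Agent.Work.MP_054302_co.X
open scoped Classical

section

variable {V : Type} [Fintype V] [DecidableEq V] {G : SimpleGraph V} {Δ : ℕ}

/-- A vertex with `P` neighbours in `U0` is joined to many members of `U0`
(`mk` for `(nbr G c ∩ U0, U0, R)`). -/
lemma odd_three {U0 : Finset V} {R T : V → V → Prop} {η : ℝ} {P b : ℕ} (hη : 0 < η)
    (hU : U0.card ≤ Δ) (hmin : ∀ x ∈ U0, η * Δ ≤ ((U0.filter fun x' => R x x').card : ℝ))
    (hT : ∀ c w, b ≤ ((nbr G c).filter fun x => R x w).card → T c w) (hP : 1 ≤ P)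
    (hb : (b : ℝ) ≤ η / 4 * P) {c : V} (hc : P ≤ (nbr G c ∩ U0).card) :
    η / 2 * Δ ≤ ((U0.filter fun w => T c w).card : ℝ) := by
  refine (mk (nbr G c ∩ U0) U0 R hη (card_pos.1 (by omega)) (by exact_mod_cast hU)
    fun a ha => hmin a (mem_inter.1 ha).2).trans (Nat.cast_le.2 (card_le_card fun w hw => ?_))
  obtain ⟨h1, h2⟩ := mem_filter.1 hw
  refine mem_filter.2 ⟨h1, hT c w ((Nat.cast_le (α := ℝ)).1 (hb.trans (le_trans ?_ (h2.trans
    (Nat.cast_le.2 (card_le_card (filter_subset_filter _ inter_subset_left)))))))⟩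
  have : (P : ℝ) ≤ (nbr G c ∩ U0).card := by exact_mod_cast hc
  gcongr
  norm_num

/-- A vertex with `P` neighbours among the vertices having `η / 2 A.card` partners in `A` is joined
to many members of `A` (`mk` for `(nbr G x ∩ A1, A)` with `D = A.card`, `ρ = η / 2`). -/
lemma odd_one {A A1 : Finset V} {R T : V → V → Prop} {η : ℝ} {P b : ℕ} (hη : 0 < η)
    (hs : ∀ x x', R x x' → R x' x) (hTs : ∀ x x', T x x' → T x' x)
    (hA1 : ∀ w ∈ A1, η / 2 * A.card ≤ ((A.filter fun c => R c w).card : ℝ))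
    (hT : ∀ c w, b ≤ ((nbr G c).filter fun x => R x w).card → T c w) (hP : 1 ≤ P)
    (hb : (b : ℝ) ≤ η / 4 * P) {x : V} (hx : P ≤ (nbr G x ∩ A1).card) :
    η / 4 * A.card ≤ ((A.filter fun c => T c x).card : ℝ) := by
  have := mk (nbr G x ∩ A1) A (fun w c => R c w) (half_pos hη) (card_pos.1 (by omega)) le_rfl
    fun a ha => hA1 a (mem_inter.1 ha).2
  rw [show η / 2 / 2 = η / 4 by ring] at this
  refine this.trans (Nat.cast_le.2 (card_le_card fun c hc => ?_))
  obtain ⟨h1, h2⟩ := mem_filter.1 hc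
  refine mem_filter.2 ⟨h1, hTs _ _ (hT x c ((Nat.cast_le (α := ℝ)).1 (hb.trans (le_trans ?_
    (h2.trans (Nat.cast_le.2 (card_le_card fun w hw => ?_)))))))⟩
  · have : (P : ℝ) ≤ (nbr G x ∩ A1).card := by exact_mod_cast hx
    gcongr
  · exact mem_filter.2 ⟨(mem_inter.1 (mem_filter.1 hw).1).1, hs _ _ (mem_filter.1 hw).2⟩

end

/-- Odd length. Fix `P ≥ 1` with `b ≤ η / 4 P` and `P0` with `p + 1 ≤ P0 (η / 4) ^ (u + 1)`; note
`η ≤ 1`. States: `A ⊆ nbr G y`, `P0 (η / 4) ^ n ≤ A.card`, and either (I) `A ⊆ U0` or (III) every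
`c ∈ A` has `P` neighbours in `U0`. Start: `ystep`, type I. Type I: `A1` from `mk (A, U0, R)`; leg
by `ystep` and `odd_one`; gap by `ts` with `P' = P0` and `odd_one`, new type III. Type III:
`odd_three`; leg by `mk_avoid (A, U0, T)` with `ρ = η / 2`; gap by `mk (A, U0, T)` and `ystep`,
new type I. -/
theorem l_odd (η : ℝ) (hη : 0 < η) (u p b : ℕ) : ∃ Q0 D0 : ℕ,
    ∀ (V : Type) [Fintype V] [DecidableEq V] (G : SimpleGraph V) (Δ Q : ℕ) (U0 : Finset V)
      (R T : V → V → Prop), Q0 ≤ Q → D0 ≤ Δ → (∀ v, (nbr G v).card ≤ Δ) → U0.Nonempty →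
      U0.card ≤ Δ → (∀ x ∈ U0, η * Δ ≤ ((U0.filter fun x' => R x x').card : ℝ)) →
      (∀ x x', R x x' → Q ≤ (nbr G x ∩ nbr G x').card) → (∀ x x', R x x' → R x' x) →
      (∀ x x', T x x' → T x' x) →
      (∀ c w, b ≤ ((nbr G c).filter fun x => R x w).card → T c w) → CanSweep G T u p := by
  have e4 : 0 < η / 4 := by positivity
  obtain ⟨P, hP⟩ := exists_nat_ge (max 1 (max (b / (η / 4)) (p / (η / 4) ^ (u + 1))))
  simp only [max_le_iff, div_le_iff₀' e4, div_le_iff₀ (pow_pos e4 _), Nat.one_le_cast] at hP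
  obtain ⟨P1, P2, P3⟩ := hP
  obtain ⟨Q0, hQ0⟩ := exists_nat_gt ((u : ℝ) + 1 + P + 2 * P / (η * (η / 4)))
  obtain ⟨D0, hD0⟩ := exists_nat_gt ((u : ℝ) / (η / 4))
  rw [div_lt_iff₀' e4] at hD0
  refine ⟨Q0, D0, fun V _ _ G Δ Q U0 R T hQ hD hdeg hne hU hmin hR hs hTs hT => ?_⟩
  have q0 : (Q0 : ℝ) ≤ Q := by exact_mod_cast hQ
  have d0 : (D0 : ℝ) ≤ Δ := by exact_mod_cast hD
  have d1 : (u : ℝ) < η / 4 * Δ := hD0.trans_le (by gcongr)
  have d2 : (0 : ℝ) < Δ := (mul_pos_iff_of_pos_left e4).1 ((Nat.cast_nonneg u).trans_lt d1)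
  have d3 : 0 < Δ := by exact_mod_cast d2
  have hU' : (U0.card : ℝ) ≤ Δ := by exact_mod_cast hU
  have u1 : η * Δ ≤ U0.card := by
    obtain ⟨x, hx⟩ := hne
    exact (hmin x hx).trans (Nat.cast_le.2 (card_filter_le _ _))
  have e1 : η / 4 ≤ 1 := by nlinarith
  have p0 : (0 : ℝ) < P := by exact_mod_cast P1
  have u0 := Nat.cast_nonneg (α := ℝ) u
  have ys : ∀ A F : Finset V, A ⊆ U0 → η / 4 * Δ ≤ A.card → F.card ≤ u →
      ∃ y, y ∉ F ∧ P ≤ (nbr G y ∩ A).card := fun A F h1 h2 h3 =>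
    ystep hdeg hη e4 d3 hU hmin hR h1 h2 (by
      have : (F.card : ℝ) ≤ u := by exact_mod_cast h3
      linarith)
  have s1 : ∀ n (A : Finset V), P ≤ A.card → P * (η / 4) ^ n ≤ A.card := fun n A h =>
    (mul_le_of_le_one_right p0.le (pow_le_one₀ e4.le e1)).trans (by exact_mod_cast h)
  have s2 : ∀ n (A : Finset V) (x : ℝ), P * (η / 4) ^ n ≤ A.card → η / 4 * A.card ≤ x →
      P * (η / 4) ^ (n + 1) ≤ x := fun n A x h h' => by
    refine le_trans ?_ h'
    rw [pow_succ, ← mul_assoc, mul_comm]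
    gcongr
  have s3 : ∀ n k : ℕ, n ≤ u + 1 → P * (η / 4) ^ n ≤ k → p ≤ k := fun n k h h' =>
    (Nat.cast_le (α := ℝ)).1 (P3.trans (le_trans
      (mul_le_mul_of_nonneg_left (pow_le_pow_of_le_one e4.le e1 h) p0.le) h'))
  have s4 : ∀ n (A : Finset V), P * (η / 4) ^ n ≤ A.card → A.Nonempty := fun n A h =>
    card_pos.1 ((Nat.cast_pos (α := ℝ)).1 (lt_of_lt_of_le (by positivity) h))
  have t1 : ∀ A : Finset V, A.Nonempty → A ⊆ U0 → ∃ A1 ⊆ U0, η / 4 * Δ ≤ A1.card ∧
      ∀ x, P ≤ (nbr G x ∩ A1).card → η / 4 * A.card ≤ ((A.filter fun c => T c x).card : ℝ) :=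
    fun A h h' => ⟨_, filter_subset _ _, le_trans (by nlinarith)
      (mk A U0 R hη h hU' fun a ha => hmin a (h' ha)),
      fun x hx => odd_one hη hs hTs (fun w hw => (mem_filter.1 hw).2) hT P1 P2 hx⟩
  have e2 : η / 2 / 2 = η / 4 := by ring
  refine ⟨fun n y A => A ⊆ nbr G y ∧ P * (η / 4) ^ n ≤ A.card ∧
    (A ⊆ U0 ∨ ∀ c ∈ A, P ≤ (nbr G c ∩ U0).card), ?_, fun n y A hn h => ⟨h.1, s3 n _ (by omega) h.2.1⟩,
    ?_, ?_⟩
  · obtain ⟨y, -, hy⟩ := ys U0 ∅ subset_rfl (by nlinarith) (by simp)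
    exact ⟨y, _, inter_subset_left, s1 _ _ hy, Or.inl inter_subset_right⟩
  · rintro n y A F hn ⟨h1, h2, h3⟩ hF
    suffices ∃ z, z ∉ F ∧ η / 4 * A.card ≤ ((A.filter fun c => T c z).card : ℝ) by
      obtain ⟨z, hz, k⟩ := this
      exact ⟨z, hz, _, filter_subset _ _, ⟨(filter_subset _ _).trans h1, s2 _ _ _ h2 k,
        h3.imp (filter_subset _ _).trans fun h c hc => h c (mem_filter.1 hc).1⟩,
        fun c hc => (mem_filter.1 hc).2⟩
    rcases h3 with h3 | h3
    · obtain ⟨A1, k1, k2, k3⟩ := t1 A (s4 _ _ h2) h3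
      exact (ys A1 F k1 k2 hF).imp fun z hz => ⟨hz.1, k3 z hz.2⟩
    · obtain ⟨z, -, k, k'⟩ := mk_avoid A U0 F T (half_pos hη) (s4 _ _ h2) hU'
        (fun c hc => odd_three hη hU hmin hT P1 P2 (h3 c hc))
        (e2 ▸ lt_of_le_of_lt (by exact_mod_cast hF) d1)
      exact ⟨z, k, e2 ▸ k'⟩
  · rintro n y A F hn ⟨h1, h2, h3 | h3⟩ hF
    · obtain ⟨A1, k1, k2, k3⟩ := t1 A (s4 _ _ h2) h3
      have : (F.card : ℝ) ≤ u := by exact_mod_cast hF
      obtain ⟨y', k4, k5⟩ := ts (P := P) (P' := P) (F := F) hdeg hη e4 d3 hU hmin hR k1 k2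
        (by nlinarith) (by linarith)
      exact ⟨y', k4, _, ⟨filter_subset _ _, s1 _ _ k5, Or.inr fun c hc => (mem_filter.1 hc).2.trans
        (card_le_card (inter_subset_inter_left k1))⟩,
        fun c hc => s3 (n + 1) _ (by omega) (s2 _ _ _ h2 (k3 c (mem_filter.1 hc).2))⟩
    · have k := mk A U0 T (half_pos hη) (s4 _ _ h2) hU'
        fun c hc => odd_three hη hU hmin hT P1 P2 (h3 c hc)
      rw [e2] at k
      obtain ⟨y', k4, k5⟩ := ys _ F (filter_subset _ _) k hF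
      exact ⟨y', k4, _, ⟨inter_subset_left, s1 _ _ k5,
        Or.inl (inter_subset_right.trans (filter_subset _ _))⟩,
        fun c hc => s3 (n + 1) _ (by omega) (s2 _ _ _ h2 (mem_filter.1 (mem_inter.1 hc).2).2)⟩

end Pool.Agent.Work.MP_054302_co.Y
end

-- merged part: Pool.Agent.Work.MP_054302_co.Y.PL3
section
namespace Pool.Agent.Work.MP_054302_co.Y

open Finset Function Pool.Agent.Work.MP_054302_co.X
open scoped Classical

/-- Averaging over the middle vertex `q 1 ∈ W`; a walk is determined by `q 0, q 1, q 2`. -/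
lemma avg_mid {V : Type} [Fintype V] [DecidableEq V] {G : SimpleGraph V} (W : Finset V) (v0 : V)
    (R : V → V → Prop) {t : ℝ}
    (h : t * W.card < (((WK G W 2 v0).filter fun q => R (q 0) (q 2)).card : ℝ)) :
    ∃ v, t < (((nbr G v ×ˢ nbr G v).filter fun e => R e.1 e.2).card : ℝ) := by
  by_contra hc
  push Not at hc
  have hmap : ∀ q ∈ (WK G W 2 v0).filter fun q => R (q 0) (q 2), q 1 ∈ W := fun q hq =>
    (mem_WK.1 (mem_filter.1 hq).1).2.1 1 (by norm_num)
  have hfib : ∀ v ∈ W, (((((WK G W 2 v0).filter fun q => R (q 0) (q 2)).filter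
      fun q => q 1 = v).card : ℕ) : ℝ) ≤ t := by
    intro v _
    refine le_trans ?_ (hc v)
    refine Nat.cast_le.2 (card_le_card_of_injOn (fun q => (q 0, q 2)) ?_ ?_)
    · intro q hq
      obtain ⟨hq1, hv⟩ := mem_filter.1 (mem_coe.1 hq)
      obtain ⟨hq2, hR⟩ := mem_filter.1 hq1
      obtain ⟨-, -, hw⟩ := mem_WK.1 hq2
      have h0 : G.Adj (q 0) (q 1) := hw 0 (by norm_num)
      have h1 : G.Adj (q 1) (q 2) := hw 1 (by norm_num)
      rw [hv] at h0 h1
      exact mem_coe.2 (mem_filter.2 ⟨mem_product.2 ⟨mem_nbr.2 h0.symm, mem_nbr.2 h1⟩, hR⟩)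
    · intro q hq q' hq' he
      obtain ⟨hq1, hv⟩ := mem_filter.1 (mem_coe.1 hq)
      obtain ⟨hq1', hv'⟩ := mem_filter.1 (mem_coe.1 hq')
      have hk := (mem_WK.1 (mem_filter.1 hq1).1).1
      have hk' := (mem_WK.1 (mem_filter.1 hq1').1).1
      have e0 : q 0 = q' 0 := congrArg Prod.fst he
      have e2 : q 2 = q' 2 := congrArg Prod.snd he
      funext i
      rcases Nat.lt_or_ge 2 i with hi | hi
      · rw [hk i hi, hk' i hi]
      · interval_cases i
        · exact e0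
        · rw [hv, hv']
        · exact e2
  rw [card_eq_sum_card_fiberwise hmap, Nat.cast_sum] at h
  have := sum_le_card_nsmul W _ t hfib
  rw [nsmul_eq_mul, mul_comm] at this
  exact absurd h (not_lt.2 this)

/-- The cleaned set inside a neighbourhood. -/
lemma PL3_clean {V : Type} [Fintype V] [DecidableEq V] {G : SimpleGraph V} {Δ : ℕ} {θ : ℝ}
    (hθ : 0 < θ) (hΔ : 1 ≤ Δ) (hdeg : ∀ v, (nbr G v).card ≤ Δ) (W : Finset V) (v0 : V)
    (R : V → V → Prop) (hs : ∀ x x', R x x' → R x' x) (hi : ∀ x, ¬ R x x)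
    (h : θ * W.card * (Δ : ℝ) ^ 2 < (((WK G W 2 v0).filter fun q => R (q 0) (q 2)).card : ℝ)) :
    ∃ U0 : Finset V, U0.Nonempty ∧ U0.card ≤ Δ ∧
      ∀ x ∈ U0, θ / 2 * Δ ≤ ((U0.filter fun x' => R x x').card : ℝ) := by
  have hΔ' : (1 : ℝ) ≤ Δ := by exact_mod_cast hΔ
  obtain ⟨v, hv⟩ := avg_mid (G := G) W v0 R (t := θ * (Δ : ℝ) ^ 2) (by linarith)
  have hne : (nbr G v).Nonempty := by
    have h0 : (0 : ℝ) < (((nbr G v ×ˢ nbr G v).filter fun e => R e.1 e.2).card : ℝ) :=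
      lt_of_le_of_lt (by positivity) hv
    obtain ⟨e, he⟩ := card_pos.1 (Nat.cast_pos.1 h0)
    exact ⟨e.1, (mem_product.1 (mem_filter.1 he).1).1⟩
  have hU : ((nbr G v).card : ℝ) ≤ Δ := by exact_mod_cast hdeg v
  obtain ⟨U0, hsub, hU0, hmin⟩ := clean_sym R hs hi (nbr G v) hne (lam := θ / 2 * Δ)
    (by positivity) (by
      have : θ * Δ * ((nbr G v).card : ℝ) ≤ θ * Δ * Δ :=
        mul_le_mul_of_nonneg_left hU (by positivity)
      have h2 : 2 * (θ / 2 * Δ) * ((nbr G v).card : ℝ) ≤ θ * (Δ : ℝ) ^ 2 := by linarith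
      exact h2.trans hv.le)
  exact ⟨U0, hU0, (card_le_card hsub).trans (hdeg v), hmin⟩

/-- `avg_mid`, then `clean_sym` in `nbr G v` with `lam = θ / 2 Δ` for the symmetric relation of
the hypothesis, then `l_even` or `l_odd` (with `b = B + 1`, `rp_ext`) for `η = θ / 2`;
`rp_two_card` gives the common neighbours. -/
theorem l_wrap (θ : ℝ) (hθ : 0 < θ) (u B L : ℕ) (hL : 2 ≤ L) : ∃ Q0 D0 : ℕ,
    ∀ (V : Type) [Fintype V] [DecidableEq V] (G : SimpleGraph V) (Δ Q : ℕ) (W : Finset V)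
      (v0 : V), Q0 ≤ Q → D0 ≤ Δ → (∀ v, (nbr G v).card ≤ Δ) →
      θ * W.card * (Δ : ℝ) ^ 2 < (((WK G W 2 v0).filter fun q => q 0 ≠ q 2 ∧
        RP G Q 2 (q 0) (q 2) ∧ RP G (B + 1) (L - L % 2) (q 0) (q 2)).card : ℝ) →
      CanSweep G (RP G B L) u B := by
  obtain ⟨Qe, De, he⟩ := l_even (θ / 2) (by positivity) u B
  obtain ⟨Qo, Do, ho⟩ := l_odd (θ / 2) (by positivity) u B (B + 1)
  refine ⟨max Qe Qo, max 1 (max De Do), ?_⟩
  intro V _ _ G Δ Q W v0 hQ hD hdeg h
  have hs : ∀ x x' : V, (x ≠ x' ∧ RP G Q 2 x x' ∧ RP G (B + 1) (L - L % 2) x x') →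
      (x' ≠ x ∧ RP G Q 2 x' x ∧ RP G (B + 1) (L - L % 2) x' x) := fun x x' hx =>
    ⟨hx.1.symm, rp_symm hx.2.1, rp_symm hx.2.2⟩
  obtain ⟨U0, hne, hU, hmin⟩ := PL3_clean hθ (by omega) hdeg W v0
    (fun x x' => x ≠ x' ∧ RP G Q 2 x x' ∧ RP G (B + 1) (L - L % 2) x x') hs
    (fun x hx => hx.1 rfl) (by convert h)
  have hcn : ∀ x x' : V, (x ≠ x' ∧ RP G Q 2 x x' ∧ RP G (B + 1) (L - L % 2) x x') →
      Q ≤ (nbr G x ∩ nbr G x').card := fun x x' hx => (Nat.le_succ Q).trans (rp_two_card hx.2.1)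
  rcases Nat.mod_two_eq_zero_or_one L with hL0 | hL1
  · refine he V G Δ Q U0 _ _ (by omega) (by omega) hdeg hne hU hmin hcn ?_
    intro x x' hx
    have h2 := hx.2.2
    rw [hL0, Nat.sub_zero] at h2
    exact rp_mono (Nat.le_succ B) h2
  · refine ho V G Δ Q U0 _ _ (by omega) (by omega) hdeg hne hU hmin hcn hs
      (fun x x' hx => rp_symm hx) ?_
    intro c w hcw
    have e : L = L - L % 2 + 1 := by omega
    rw [e]
    refine rp_ext (by omega) (hcw.trans (card_le_card ?_))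
    intro x hx
    simp only [mem_filter] at hx ⊢
    exact ⟨hx.1, hx.2.2.2⟩

end Pool.Agent.Work.MP_054302_co.Y
end

-- merged part: Pool.Agent.Work.MP_054302_co.Y.PR0
section
namespace Pool.Agent.Work.MP_054302_co.Y

open Finset Function Pool.Agent.Work.MP_054302_co.X
open scoped Classical

variable {V : Type} [Fintype V] [DecidableEq V]

/-- The decreasing sets of active edges `(c, y)`. -/
noncomputable def KK (G : SimpleGraph V) (Q2 Q3 : ℕ) (T : V → V → Prop) (H0 : Finset (V × V))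
    (th : ℝ) (Δ : ℕ) : ℕ → Finset (V × V)
  | 0 => H0.filter fun e => th * Δ ≤ (((nbr G e.2).filter fun z => T e.1 z).card : ℝ)
  | k + 1 => (KK G Q2 Q3 T H0 th Δ k).filter fun e => th * (Δ : ℝ) ^ 2 ≤
      (((KK G Q2 Q3 T H0 th Δ k).filter fun e' => G.Adj e.1 e'.2 ∧ ¬ RP G Q2 2 e.1 e'.1 ∧
        RP G Q3 3 e.2 e'.1 ∧ T e.1 e'.1).card : ℝ)

variable {G : SimpleGraph V} {Q2 Q3 : ℕ} {T : V → V → Prop} {H0 : Finset (V × V)} {th : ℝ}
  {Δ : ℕ}

lemma KK_succ (k : ℕ) : KK G Q2 Q3 T H0 th Δ (k + 1) ⊆ KK G Q2 Q3 T H0 th Δ k :=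
  filter_subset _ _

lemma KK_anti {k k' : ℕ} (h : k ≤ k') : KK G Q2 Q3 T H0 th Δ k' ⊆ KK G Q2 Q3 T H0 th Δ k := by
  induction h with
  | refl => exact subset_rfl
  | step _ ih => exact (KK_succ _).trans ih

lemma KK_sub (k : ℕ) : KK G Q2 Q3 T H0 th Δ k ⊆ H0 :=
  (KK_anti (Nat.zero_le k)).trans (filter_subset _ _)

end Pool.Agent.Work.MP_054302_co.Y
end

-- merged part: Pool.Agent.Work.MP_054302_co.Y.PR1
section
namespace Pool.Agent.Work.MP_054302_co.Y

open Finset Function Pool.Agent.Work.MP_054302_co.X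
open scoped Classical

section

variable {V : Type} [Fintype V] [DecidableEq V] {G : SimpleGraph V} {Δ : ℕ}

/-- Gap step. Count triples `(c, c', w)` with `c ∈ A` and `(c', w)` as in `hA`: at least
`A.card th Δ ^ 2`. Those with `c'` having fewer than `p` partners in `A` number at most
`Δ ^ 3 / (Q3 + 1) * p * Q2` (`rp_partners` at `y`; at most `Q2` common neighbours `w` by
`rp_two_of`), those with `w ∈ F` at most `A.card F.card Δ`; the rest is spread over at most
`A.card Δ` pairs `(c, w)`. -/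
lemma r_gap (hdeg : ∀ v, (nbr G v).card ≤ Δ) (hΔ : 0 < Δ) {Q2 Q3 p : ℕ} {T : V → V → Prop}
    {K : Finset (V × V)} (hK : ∀ e ∈ K, G.Adj e.1 e.2) {th δ : ℝ} (hth : 0 < th) (hδ : 0 < δ)
    {y : V} {A F : Finset V} (hAc : δ * Δ ≤ A.card)
    (hA : ∀ c ∈ A, th * (Δ : ℝ) ^ 2 ≤ ((K.filter fun e' => G.Adj c e'.2 ∧ ¬ RP G Q2 2 c e'.1 ∧
      RP G Q3 3 y e'.1 ∧ T c e'.1).card : ℝ))
    (hF : 4 * (F.card : ℝ) ≤ th * Δ) (hQ : 4 * (p : ℝ) * Q2 ≤ δ * th * (Q3 + 1)) :
    ∃ w, w ∉ F ∧ th / 4 * Δ ≤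
      (((nbX K w).filter fun c' => p ≤ (A.filter fun c => T c c').card).card : ℝ) := by
  by_contra hn
  push Not at hn
  set P := univ.filter fun x' => RP G Q3 3 y x'
  set gd : V → Prop := fun c' => p ≤ (A.filter fun c => T c c').card
  have hD : (0 : ℝ) < Δ := by exact_mod_cast hΔ
  have key : ∀ c ∈ A, th * (Δ : ℝ) ^ 2 ≤
      Q2 * (((P.filter fun c' => ¬ gd c').filter fun c' => T c c').card : ℝ) +
        th / 2 * (Δ : ℝ) ^ 2 := fun c hc => by
    refine (hA c hc).trans ?_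
    set S := K.filter fun e' => G.Adj c e'.2 ∧ ¬ RP G Q2 2 c e'.1 ∧ RP G Q3 3 y e'.1 ∧ T c e'.1
    have h1 : (S.filter fun e => ¬ gd e.1).card ≤
        Q2 * ((P.filter fun c' => ¬ gd c').filter fun c' => T c c').card := by
      refine card_le_mul_card_image_of_maps_to (f := Prod.fst) (fun e he => ?_) _ fun c' _ => ?_
      · simp only [S, P, mem_filter, mem_univ, true_and] at he ⊢
        exact ⟨⟨he.1.2.2.2.1, he.2⟩, he.1.2.2.2.2⟩
      · by_cases hr : RP G Q2 2 c c'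
        · refine (card_eq_zero.2 (filter_eq_empty_iff.2 fun e he h => ?_)).trans_le (Nat.zero_le _)
          exact (mem_filter.1 (mem_filter.1 he).1).2.2.1 (h ▸ hr)
        · refine le_trans (card_le_card_of_injOn (t := nbr G c ∩ nbr G c') Prod.snd
            (fun e he => ?_) fun e he e' he' h => ?_) ?_
          · simp only [S, coe_filter, mem_filter, Set.mem_ofPred_eq] at he
            exact mem_coe.2 (mem_inter.2 ⟨mem_nbr.2 he.1.1.2.1, mem_nbr.2 (he.2 ▸ hK e he.1.1.1)⟩)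
          · exact Prod.ext ((mem_filter.1 he).2.trans (mem_filter.1 he').2.symm) h
          · exact Nat.le_of_lt_succ (not_le.1 fun h => hr (rp_two_of h))
    have fib : ∀ (X : Finset (V × V)) (w : V) (Y : Finset V), (∀ e ∈ X, e.2 = w → e.1 ∈ Y) →
        (X.filter fun e => e.2 = w).card ≤ Y.card := fun X w Y h =>
      card_le_card_of_injOn Prod.fst (fun e he => h e (mem_filter.1 he).1 (mem_filter.1 he).2)
        fun e he e' he' h => Prod.ext h ((mem_filter.1 he).2.trans (mem_filter.1 he').2.symm)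
    have h2 : (S.filter fun e => e.2 ∈ F).card ≤ Δ * F.card :=
      card_le_mul_card_image_of_maps_to (f := Prod.snd) (fun e he => (mem_filter.1 he).2) _
        fun w _ => (fib _ w _ fun e he h =>
          mem_nbr.2 (h ▸ (hK e (mem_filter.1 (mem_filter.1 he).1).1).symm)).trans (hdeg w)
    have h3 : ((S.filter fun e => gd e.1 ∧ e.2 ∉ F).card : ℝ) ≤ Δ * (th / 4 * Δ) := by
      rw [card_eq_sum_card_fiberwise (f := Prod.snd) (t := nbr G c \ F) fun e he =>
        mem_coe.2 (mem_sdiff.2 ⟨mem_nbr.2 (mem_filter.1 (mem_filter.1 he).1).2.1,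
          (mem_filter.1 he).2.2⟩), Nat.cast_sum]
      refine (sum_le_card_nsmul _ _ (th / 4 * Δ) fun w hw => ?_).trans ?_
      · refine le_trans (Nat.cast_le.2 (fib _ w _ fun e he h => ?_)) (hn w (mem_sdiff.1 hw).2).le
        exact mem_filter.2 ⟨mem_nbX.2 (h ▸ (mem_filter.1 (mem_filter.1 he).1).1),
          (mem_filter.1 he).2.1⟩
      · rw [nsmul_eq_mul]
        exact mul_le_mul_of_nonneg_right
          (Nat.cast_le.2 ((card_le_card sdiff_subset).trans (hdeg c))) (by positivity)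
    have h4 : S.card ≤ (S.filter fun e => ¬ gd e.1).card + (S.filter fun e => e.2 ∈ F).card +
        (S.filter fun e => gd e.1 ∧ e.2 ∉ F).card := by
      refine le_trans (card_le_card fun e he => ?_)
        ((card_union_le _ _).trans (Nat.add_le_add_right (card_union_le _ _) _))
      simp only [mem_union, mem_filter, he, true_and]
      tauto
    have h1' := (Nat.cast_le (α := ℝ)).2 h1
    have h2' := (Nat.cast_le (α := ℝ)).2 h2
    have h4' := (Nat.cast_le (α := ℝ)).2 h4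
    push_cast at h1' h2' h4'
    nlinarith [mul_le_mul_of_nonneg_left hF hD.le]
  have tot := sum_le_sum key
  have dc : ∑ c ∈ A, ((P.filter fun c' => ¬ gd c').filter fun c' => T c c').card ≤ P.card * p := by
    refine (sum_card_bipartiteAbove_eq_sum_card_bipartiteBelow (r := T)).trans_le ?_
    refine (sum_le_card_nsmul _ _ p fun c' hc' => (not_le.1 (mem_filter.1 hc').2).le).trans ?_
    exact Nat.mul_le_mul_right _ (card_filter_le _ _)
  have dc' := (Nat.cast_le (α := ℝ)).2 dc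
  have hP : ((Q3 : ℝ) + 1) * P.card ≤ (Δ : ℝ) ^ 3 := by
    exact_mod_cast rp_partners hdeg (j := 3) (by norm_num) Q3 y
  push_cast at dc'
  rw [sum_const, sum_add_distrib, ← mul_sum, sum_const, nsmul_eq_mul, nsmul_eq_mul] at tot
  have e1 := mul_le_mul_of_nonneg_left dc' (Nat.cast_nonneg (α := ℝ) Q2)
  have e2 := mul_le_mul_of_nonneg_right hQ (Nat.cast_nonneg (α := ℝ) P.card)
  have e3 := mul_le_mul_of_nonneg_left hP (mul_pos hδ hth).le
  have e4 := mul_le_mul_of_nonneg_left hAc (mul_pos hth (pow_pos hD 2)).le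
  have e5 := mul_pos (mul_pos hδ hth) (pow_pos hD 3)
  nlinarith

end

/-- States `St n y A`: `(c, y) ∈ KK (u - n)` for `c ∈ A` and `κ (th / 4) ^ n Δ ≤ A.card`.
Leg: `mk_avoid (A, nbr G y, T)` using `KK 0`. Gap: `r_gap` with `K = KK (u - n - 1)` and
`δ = κ (th / 4) ^ u`. -/
theorem r_sweep (th κ : ℝ) (hth : 0 < th) (hth1 : th ≤ 1) (hκ : 0 < κ) (hκ1 : κ ≤ 1) (u p : ℕ) :
    ∃ c0 D0 : ℕ, ∀ (V : Type) [Fintype V] [DecidableEq V] (G : SimpleGraph V) (Δ Q2 Q3 : ℕ)
      (T : V → V → Prop) (H0 : Finset (V × V)), c0 * Q2 ≤ Q3 → D0 ≤ Δ →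
      (∀ v, (nbr G v).card ≤ Δ) → (∀ e ∈ H0, G.Adj e.1 e.2) →
      (∃ y, κ * Δ ≤ ((nbX (KK G Q2 Q3 T H0 th Δ u) y).card : ℝ)) → CanSweep G T u p := by
  have h4 : 0 < th / 4 := by positivity
  have hδ : 0 < κ * (th / 4) ^ u := by positivity
  obtain ⟨c0, hc0⟩ := exists_nat_ge (4 * p / (κ * (th / 4) ^ u * th))
  obtain ⟨D1, hD1⟩ := exists_nat_ge (p / (κ * (th / 4) ^ u))
  obtain ⟨D2, hD2⟩ := exists_nat_ge (4 * u / th)
  refine ⟨c0, D1 + D2 + 1, fun V _ _ G Δ Q2 Q3 T H0 hQ hD hdeg hH ⟨y0, hy0⟩ => ?_⟩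
  have hΔ : (0 : ℝ) < Δ := by exact_mod_cast (by omega : 0 < Δ)
  have d1 : (D1 : ℝ) ≤ Δ := by exact_mod_cast (by omega : D1 ≤ Δ)
  have d2 : (D2 : ℝ) ≤ Δ := by exact_mod_cast (by omega : D2 ≤ Δ)
  have hp : (p : ℝ) ≤ κ * (th / 4) ^ u * Δ := (div_le_iff₀' hδ).1 (hD1.trans d1)
  have hu : 4 * (u : ℝ) ≤ th * Δ := (div_le_iff₀' hth).1 (hD2.trans d2)
  have hm : ∀ n ≤ u, κ * (th / 4) ^ u * Δ ≤ κ * (th / 4) ^ n * Δ := fun n hn =>
    mul_le_mul_of_nonneg_right (mul_le_mul_of_nonneg_left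
      (pow_le_pow_of_le_one h4.le (by linarith) hn) hκ.le) hΔ.le
  refine ⟨fun n y A => (∀ c ∈ A, (c, y) ∈ KK G Q2 Q3 T H0 th Δ (u - n)) ∧
    κ * (th / 4) ^ n * Δ ≤ A.card, ⟨y0, _, fun c hc => mem_nbX.1 hc, by simpa using hy0⟩,
    fun n y A hn h => ⟨fun c hc => mem_nbr.2 (hH _ (KK_sub _ (h.1 c hc))).symm,
      by exact_mod_cast hp.trans ((hm n hn).trans h.2)⟩, fun n y A F hn h hF => ?_,
    fun n y A F hn h hF => ?_⟩
  · have hF' : (F.card : ℝ) ≤ u := by exact_mod_cast hF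
    have h0 : 0 < κ * (th / 4) ^ n * Δ := by positivity
    obtain ⟨z, -, hz, hc⟩ := mk_avoid A (nbr G y) F T hth (D := Δ)
      (card_pos.1 (by exact_mod_cast h0.trans_le h.2)) (by exact_mod_cast hdeg y)
      (fun c hc => (mem_filter.1 (KK_anti (Nat.zero_le _) (h.1 c hc))).2)
      (by nlinarith [mul_pos hth hΔ])
    refine ⟨z, hz, _, filter_subset _ _, ⟨fun c hc => KK_anti (by omega) (h.1 c (mem_filter.1 hc).1),
      le_trans ?_ hc⟩, fun c hc => (mem_filter.1 hc).2⟩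
    rw [pow_succ]
    nlinarith [mul_le_mul_of_nonneg_left h.2 h4.le, mul_pos h4 h0]
  · have hF' : (F.card : ℝ) ≤ u := by exact_mod_cast hF
    have hQ' : (c0 : ℝ) * Q2 ≤ Q3 := by exact_mod_cast hQ
    have e : u - n = u - (n + 1) + 1 := by omega
    obtain ⟨w, hw, hc⟩ := r_gap hdeg (by omega) (p := p) (K := KK G Q2 Q3 T H0 th Δ (u - (n + 1)))
      (fun e he => hH e (KK_sub _ he)) hth hδ (y := y) (F := F) ((hm n hn.le).trans h.2)
      (fun c hc => (mem_filter.1 (e ▸ h.1 c hc : (c, y) ∈ KK G Q2 Q3 T H0 th Δ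
        (u - (n + 1) + 1))).2) (by linarith) (by
        have := (div_le_iff₀' (mul_pos hδ hth)).1 hc0
        nlinarith [mul_le_mul_of_nonneg_right this (Nat.cast_nonneg (α := ℝ) Q2),
          mul_le_mul_of_nonneg_left hQ' (mul_pos hδ hth).le, mul_pos hδ hth])
    refine ⟨w, hw, _, ⟨fun c hc => mem_nbX.1 (mem_filter.1 hc).1, le_trans ?_ hc⟩,
      fun c hc => (mem_filter.1 hc).2⟩
    have := mul_le_one₀ hκ1 (pow_pos h4 n).le (pow_le_one₀ h4.le (by linarith) (n := n))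
    rw [pow_succ]
    nlinarith [mul_le_mul_of_nonneg_right this (mul_pos h4 hΔ).le]

end Pool.Agent.Work.MP_054302_co.Y
end

-- merged part: Pool.Agent.Work.MP_054302_co.Y.PR2
section
namespace Pool.Agent.Work.MP_054302_co.Y

open Finset Function Pool.Agent.Work.MP_054302_co.X
open scoped Classical

variable {V : Type} [Fintype V] [DecidableEq V] {G : SimpleGraph V} {Δ : ℕ}

omit [Fintype V] [DecidableEq V] in
/-- Counting along fibres with a real bound. -/
lemma PR2_fib {α β : Type} [DecidableEq β] (S : Finset α) (H : Finset β) (π : α → β) {M : ℝ}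
    (hπ : ∀ q ∈ S, π q ∈ H) (hM : ∀ e ∈ H, ((S.filter fun q => π q = e).card : ℝ) ≤ M) :
    (S.card : ℝ) ≤ M * H.card := by
  rw [card_eq_sum_card_fiberwise (f := π) (t := H) fun q hq => hπ q hq]
  push_cast
  have := sum_le_card_nsmul H (fun e => ((S.filter fun q => π q = e).card : ℝ)) M hM
  rw [nsmul_eq_mul] at this
  linarith

/-- Read the edge `(c, w)`: fewer than `th Δ` values of `c'`, at most `Δ` values of `y`. -/
lemma qd_zero (hdeg : ∀ v, (nbr G v).card ≤ Δ) {Q2 Q3 : ℕ} {T : V → V → Prop}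
    {H0 H : Finset (V × V)} (h0 : ∀ e ∈ H0, G.Adj e.1 e.2) {th : ℝ} (hth : 0 ≤ th)
    (hH : H ⊆ H0 \ KK G Q2 Q3 T H0 th Δ 0) :
    ((Qd G Q2 Q3 T H).card : ℝ) ≤ th * (Δ : ℝ) ^ 2 * H.card := by
  have hsub : ∀ e ∈ H, e ∈ H0 := fun e he => (mem_sdiff.1 (hH he)).1
  refine PR2_fib _ H (fun q => (q.2.1, q.2.2.1)) ?_ ?_
  · rintro ⟨y, c, w, c'⟩ hq
    exact (mem_Qd.1 hq).2.1
  · rintro ⟨c, w⟩ he
    have h1 := mem_sdiff.1 (hH he)
    have h2 : (((nbr G w).filter fun z => T c z).card : ℝ) ≤ th * Δ := by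
      by_contra hc
      exact h1.2 (mem_filter.2 ⟨h1.1, (not_le.1 hc).le⟩)
    have h3 : ((Qd G Q2 Q3 T H).filter fun q => (q.2.1, q.2.2.1) = (c, w)).card ≤
        (nbr G c ×ˢ (nbr G w).filter fun z => T c z).card := by
      refine card_le_card_of_injOn (fun q => (q.1, q.2.2.2)) ?_ ?_
      · rintro ⟨y, c1, w1, c'⟩ hq
        obtain ⟨hq1, hq2⟩ := mem_filter.1 (mem_coe.1 hq)
        simp only [Prod.mk.injEq] at hq2
        obtain ⟨rfl, rfl⟩ := hq2
        obtain ⟨a1, -, a3, -, -, a6⟩ := mem_Qd.1 hq1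
        refine mem_coe.2 (mem_product.2 ⟨mem_nbr.2 (h0 _ (hsub _ a1)), ?_⟩)
        exact mem_filter.2 ⟨mem_nbr.2 (h0 _ (hsub _ a3)).symm, a6⟩
      · rintro ⟨y, c1, w1, c'⟩ hq ⟨y2, c2, w2, c2'⟩ hq' e
        have e1 := (mem_filter.1 (mem_coe.1 hq)).2
        have e2 := (mem_filter.1 (mem_coe.1 hq')).2
        simp only [Prod.mk.injEq] at e e1 e2 ⊢
        exact ⟨e.1, e1.1.trans e2.1.symm, e1.2.trans e2.2.symm, e.2⟩
    rw [card_product] at h3
    have h4 : ((nbr G c).card : ℝ) ≤ Δ := Nat.cast_le.2 (hdeg c)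
    have h5 := (Nat.cast_le (α := ℝ)).2 h3
    rw [Nat.cast_mul] at h5
    refine h5.trans ?_
    calc _ ≤ (Δ : ℝ) * (th * Δ) :=
          mul_le_mul h4 h2 (Nat.cast_nonneg _) (Nat.cast_nonneg _)
      _ = th * (Δ : ℝ) ^ 2 := by ring

/-- Read the edge `(c, y)`: fewer than `th Δ ^ 2` values of `(c', w)`. -/
lemma qd_succ {Q2 Q3 : ℕ} {T : V → V → Prop} {H0 H : Finset (V × V)}
    (h0 : ∀ e ∈ H0, G.Adj e.1 e.2) {th : ℝ} {k : ℕ}
    (hH : H ⊆ KK G Q2 Q3 T H0 th Δ k \ KK G Q2 Q3 T H0 th Δ (k + 1)) :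
    ((Qd G Q2 Q3 T H).card : ℝ) ≤ th * (Δ : ℝ) ^ 2 * H.card := by
  have hsub : ∀ e ∈ H, e ∈ KK G Q2 Q3 T H0 th Δ k := fun e he => (mem_sdiff.1 (hH he)).1
  refine PR2_fib _ H (fun q => (q.2.1, q.1)) ?_ ?_
  · rintro ⟨y, c, w, c'⟩ hq
    exact (mem_Qd.1 hq).1
  · rintro ⟨c, y⟩ he
    have h1 := mem_sdiff.1 (hH he)
    have h2 : (((KK G Q2 Q3 T H0 th Δ k).filter fun e' => G.Adj c e'.2 ∧ ¬ RP G Q2 2 c e'.1 ∧
        RP G Q3 3 y e'.1 ∧ T c e'.1).card : ℝ) ≤ th * (Δ : ℝ) ^ 2 := by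
      by_contra hc
      exact h1.2 (mem_filter.2 ⟨h1.1, (not_le.1 hc).le⟩)
    refine le_trans (Nat.cast_le.2 ?_) h2
    refine card_le_card_of_injOn (fun q => (q.2.2.2, q.2.2.1)) ?_ ?_
    · rintro ⟨y1, c1, w, c'⟩ hq
      obtain ⟨hq1, hq2⟩ := mem_filter.1 (mem_coe.1 hq)
      simp only [Prod.mk.injEq] at hq2
      obtain ⟨rfl, rfl⟩ := hq2
      obtain ⟨-, a2, a3, a4, a5, a6⟩ := mem_Qd.1 hq1
      exact mem_coe.2 (mem_filter.2 ⟨hsub _ a3, h0 _ (KK_sub k (hsub _ a2)), a4, a5, a6⟩)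
    · rintro ⟨y1, c1, w1, c'⟩ hq ⟨y2, c2, w2, c2'⟩ hq' e
      have e1 := (mem_filter.1 (mem_coe.1 hq)).2
      have e2 := (mem_filter.1 (mem_coe.1 hq')).2
      simp only [Prod.mk.injEq] at e e1 e2 ⊢
      exact ⟨e1.2.trans e2.2.symm, e1.1.trans e2.1.symm, e.2, e.1⟩

/-- Telescoping the differences. -/
lemma PR2_tele {Q2 Q3 : ℕ} {T : V → V → Prop} {H0 : Finset (V × V)} {th t : ℝ}
    (h0 : ((H0 \ KK G Q2 Q3 T H0 th Δ 0).card : ℝ) ≤ t) (k : ℕ)
    (hk : ∀ i < k, ((KK G Q2 Q3 T H0 th Δ i \ KK G Q2 Q3 T H0 th Δ (i + 1)).card : ℝ) ≤ t) :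
    (H0.card : ℝ) ≤ (KK G Q2 Q3 T H0 th Δ k).card + (k + 1) * t := by
  induction k with
  | zero =>
    have e := card_sdiff_add_card_eq_card (KK_sub (G := G) (Q2 := Q2) (Q3 := Q3) (T := T)
      (H0 := H0) (th := th) (Δ := Δ) 0)
    have e' := congrArg (Nat.cast : ℕ → ℝ) e
    push_cast at e' ⊢
    linarith
  | succ k ih =>
    have e := card_sdiff_add_card_eq_card (KK_succ (G := G) (Q2 := Q2) (Q3 := Q3) (T := T)
      (H0 := H0) (th := th) (Δ := Δ) k)
    have e' := congrArg (Nat.cast : ℕ → ℝ) e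
    have a := ih fun i hi => hk i (Nat.lt_succ_of_lt hi)
    have b := hk k (Nat.lt_succ_self k)
    push_cast at e' ⊢
    linarith

/-- If one of the `u + 1` differences has at least `H0.card / (2 (u + 1))` edges, `clean` it
(`host_card`); otherwise `KK u` has at least half of the edges and we average over `Y0`. -/
theorem r_dich (hdeg : ∀ v, (nbr G v).card ≤ Δ) (hΔ : 0 < Δ) (Q2 Q3 u : ℕ) (T : V → V → Prop)
    {H0 : Finset (V × V)} {X0 Y0 : Finset V} {κ0 th : ℝ} (hκ : 0 < κ0) (hth : 0 ≤ th)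
    (h0 : Host G H0 X0 Y0 (κ0 * Δ)) :
    (∃ y, κ0 / 2 * Δ ≤ ((nbX (KK G Q2 Q3 T H0 th Δ u) y).card : ℝ)) ∨
      ∃ (H1 : Finset (V × V)) (X1 Y1 : Finset V), X1 ⊆ X0 ∧ Y1 ⊆ Y0 ∧
        Host G H1 X1 Y1 (κ0 / (4 * (u + 1)) * Δ) ∧
        ∀ H : Finset (V × V), H ⊆ H1 →
          ((Qd G Q2 Q3 T H).card : ℝ) ≤ th * (Δ : ℝ) ^ 2 * H.card := by
  obtain ⟨cX, cY, -, -, -, neY, -, -⟩ := host_card hdeg h0
  have hadj : ∀ e ∈ H0, G.Adj e.1 e.2 := fun e he => (h0.sub e he).1
  have hΔ' : (0 : ℝ) < Δ := Nat.cast_pos.2 hΔ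
  have hu : (0 : ℝ) < (u : ℝ) + 1 := by positivity
  have hN : (0 : ℝ) < H0.card := Nat.cast_pos.2 h0.ne.card_pos
  set t : ℝ := H0.card / (2 * (u + 1)) with ht
  have ht0 : 0 < t := by positivity
  have hlam : 0 < κ0 / (4 * (u + 1)) * Δ := by positivity
  have hcl : ∀ D : Finset (V × V), D ⊆ H0 → t ≤ D.card →
      ∃ (H1 : Finset (V × V)) (X1 Y1 : Finset V), H1 ⊆ D ∧ X1 ⊆ X0 ∧ Y1 ⊆ Y0 ∧
        Host G H1 X1 Y1 (κ0 / (4 * (u + 1)) * Δ) := by
    intro D hD hc
    refine clean D hlam (fun p hp => h0.sub p (hD hp)) ?_ ?_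
    · exact card_pos.1 (Nat.cast_pos.1 (ht0.trans_le hc))
    · refine le_trans ?_ hc
      have e : κ0 / (4 * (u + 1)) * Δ * ((X0.card : ℝ) + Y0.card) =
          (κ0 * Δ * X0.card + κ0 * Δ * Y0.card) / 2 / (2 * (u + 1)) := by
        field_simp
        ring
      rw [e, ht]
      exact div_le_div_of_nonneg_right (by linarith) (by positivity)
  by_cases c0 : t ≤ ((H0 \ KK G Q2 Q3 T H0 th Δ 0).card : ℝ)
  · obtain ⟨H1, X1, Y1, a1, a2, a3, a4⟩ := hcl _ sdiff_subset c0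
    exact Or.inr ⟨H1, X1, Y1, a2, a3, a4, fun H hH => qd_zero hdeg hadj hth (hH.trans a1)⟩
  by_cases c1 : ∃ i < u,
      t ≤ ((KK G Q2 Q3 T H0 th Δ i \ KK G Q2 Q3 T H0 th Δ (i + 1)).card : ℝ)
  · obtain ⟨i, -, hi⟩ := c1
    obtain ⟨H1, X1, Y1, a1, a2, a3, a4⟩ := hcl _ (sdiff_subset.trans (KK_sub i)) hi
    exact Or.inr ⟨H1, X1, Y1, a2, a3, a4, fun H hH => qd_succ hadj (hH.trans a1)⟩
  left
  have hte := PR2_tele (not_le.1 c0).le u fun i hi => by
    by_contra hc
    exact c1 ⟨i, hi, (not_le.1 hc).le⟩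
  have e2 : ((u : ℝ) + 1) * t = H0.card / 2 := by
    rw [ht]
    field_simp
  by_contra hc
  push Not at hc
  have eY : (KK G Q2 Q3 T H0 th Δ u).card =
      ∑ y ∈ Y0, (nbX (KK G Q2 Q3 T H0 th Δ u) y).card := by
    rw [card_eq_sum_card_fiberwise (f := Prod.snd) (t := Y0)
      fun p hp => (h0.sub p (KK_sub u hp)).2.2]
    refine sum_congr rfl fun y _ => card_bij (fun p _ => p.1) (fun p hp => ?_)
      (fun p hp q hq e => ?_) fun x hx => ⟨(x, y), mem_filter.2 ⟨mem_nbX.1 hx, rfl⟩, rfl⟩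
    · obtain ⟨h1, h2⟩ := mem_filter.1 hp
      rw [mem_nbX, ← h2]
      exact h1
    · exact Prod.ext e ((mem_filter.1 hp).2.trans (mem_filter.1 hq).2.symm)
  have hlt : ∑ y ∈ Y0, ((nbX (KK G Q2 Q3 T H0 th Δ u) y).card : ℝ) <
      ∑ _y ∈ Y0, κ0 / 2 * Δ := sum_lt_sum_of_nonempty neY fun y _ => hc y
  rw [sum_const, nsmul_eq_mul] at hlt
  have eY' := congrArg (Nat.cast : ℕ → ℝ) eY
  push_cast at eY'
  have e3 : (Y0.card : ℝ) * (κ0 / 2 * Δ) = κ0 * Δ * Y0.card / 2 := by ring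
  linarith

end Pool.Agent.Work.MP_054302_co.Y
end

-- merged part: Pool.Agent.Work.MP_054302_co.Y.TL
section
namespace Pool.Agent.Work.MP_054302_co.Y

open Finset Function Pool.Agent.Work.MP_054302_co.X
open scoped Classical

/-- The thresholds. -/
def TL_Q (L b c c' : ℕ) : ℕ → ℕ
  | 0 => c
  | j + 1 => c' * (b * sunC L (TL_Q L b c c' j + 1) + TL_Q L b c c' j + 1)

lemma exists_Q (L b c : ℕ) (η : ℝ) (hη : 0 < η) : ∃ Q : ℕ → ℕ, Monotone Q ∧ (∀ j, c ≤ Q j) ∧
    (∀ j, c * Q j ≤ Q (j + 1)) ∧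
    ∀ j, 1 ≤ j → (b : ℝ) * sunC L (Q (j - 1) + 1) ≤ η * (Q j + 1) := by
  obtain ⟨n, hn⟩ := exists_nat_ge (1 / η)
  have hm : Monotone (TL_Q L b c (c + 1 + n)) := monotone_nat_of_le_succ fun j => by
    show _ ≤ (c + 1 + n) * _
    exact le_trans (by omega) (Nat.le_mul_of_pos_left _ (by omega))
  refine ⟨TL_Q L b c (c + 1 + n), hm, fun j => hm (Nat.zero_le j), fun j => ?_, fun j hj => ?_⟩
  · show _ ≤ (c + 1 + n) * _
    exact Nat.mul_le_mul (by omega) (by omega)
  · obtain ⟨i, rfl⟩ : ∃ i, j = i + 1 := ⟨j - 1, by omega⟩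
    rw [Nat.add_sub_cancel]
    have h1 : n * (b * sunC L (TL_Q L b c (c + 1 + n) i + 1)) ≤
        TL_Q L b c (c + 1 + n) (i + 1) := by
      show _ ≤ (c + 1 + n) * _
      exact Nat.mul_le_mul (by omega) (by omega)
    have h2 : (n : ℝ) * (b * sunC L (TL_Q L b c (c + 1 + n) i + 1)) ≤
        TL_Q L b c (c + 1 + n) (i + 1) := by exact_mod_cast h1
    have h3 : 1 ≤ n * η := (div_le_iff₀ hη).1 hn
    have h4 : (0 : ℝ) ≤ b * sunC L (TL_Q L b c (c + 1 + n) i + 1) := by positivity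
    nlinarith

lemma TL_split {α : Type} (A : Finset α) (P R : α → Prop) {x y : ℝ}
    (h1 : x + y < ((A.filter P).card : ℝ)) (h2 : ((A.filter fun a => ¬ R a).card : ℝ) ≤ y) :
    x < ((A.filter fun a => P a ∧ R a).card : ℝ) := by
  have : (A.filter P).card ≤ (A.filter fun a => P a ∧ R a).card +
      (A.filter fun a => ¬ R a).card := by
    refine le_trans (card_le_card fun a ha => ?_) (card_union_le _ _)
    rw [mem_filter] at ha
    rw [mem_union, mem_filter, mem_filter]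
    by_cases h : R a
    · exact .inl ⟨ha.1, ha.2, h⟩
    · exact .inr ⟨ha.1, h⟩
  have h3 : ((A.filter P).card : ℝ) ≤ (A.filter fun a => P a ∧ R a).card +
      (A.filter fun a => ¬ R a).card := by exact_mod_cast this
  linarith

/-- Terminal lemma. -/
theorem tl (u B L : ℕ) (hL : 2 ≤ L) (κ0 θ : ℝ) (h0 : 0 < κ0) (h1 : κ0 ≤ 1) (hθ : 0 < θ) :
    ∃ (Q : ℕ → ℕ) (D0 : ℕ), Monotone Q ∧
      ∀ (V : Type) [Fintype V] [DecidableEq V] (G : SimpleGraph V) (Δ : ℕ)
        (H0 : Finset (V × V)) (X0 Y0 : Finset V), (∀ v, (nbr G v).card ≤ Δ) →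
        Host G H0 X0 Y0 (κ0 * Δ) → D0 ≤ Δ → ¬ CanSweep G (RP G B L) u B →
        ∃ (H1 : Finset (V × V)) (X1 Y1 : Finset V), X1 ⊆ X0 ∧ Y1 ⊆ Y0 ∧
          Host G H1 X1 Y1 (κ0 / (4 * (u + 1)) * Δ) ∧
          ∀ (H : Finset (V × V)) (Xs Ys : Finset V) (v0 : V), H ⊆ H1 →
            (∀ e ∈ H, e.1 ∈ Xs ∧ e.2 ∈ Ys) → ∀ j o, 2 ≤ j → j ≤ L →
            (((HA G Q (Xs ∪ Ys) j v0).filter (Alt H o j)).card : ℝ) ≤
              θ * ((Xs.card + Ys.card : ℕ) : ℝ) * (Δ : ℝ) ^ j := by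
  have hLR : (0 : ℝ) < L := by exact_mod_cast (by omega : 0 < L)
  obtain ⟨η, hηd⟩ : ∃ η : ℝ, η = θ / (2 * L) := ⟨_, rfl⟩
  have hη : 0 < η := by rw [hηd]; positivity
  have hLη : L * η = θ / 2 := by rw [hηd]; field_simp
  have hθ2 : 0 < θ / 2 := by positivity
  obtain ⟨th, hth0, hth1, hth2⟩ : ∃ th : ℝ, 0 < th ∧ th ≤ 1 ∧ th ≤ θ / 2 :=
    ⟨min (θ / 2) 1, lt_min hθ2 one_pos, min_le_right _ _, min_le_left _ _⟩
  obtain ⟨Q0, D1, hl⟩ := l_wrap (θ / 2) hθ2 u B L hL
  choose Dc hc using fun m : ℕ => c_wrap (θ / 2) hθ2 u B (m + 3) (by omega)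
  obtain ⟨c0, D2, hr⟩ := r_sweep th (κ0 / 2) hth0 hth1 (by positivity) (by linarith) u B
  obtain ⟨Q, hQm, hQc, hQs, hQf⟩ := exists_Q L (B + 1 + L) (Q0 + c0 + (B + 1 + L)) η hη
  obtain ⟨D3, hD3⟩ := exists_nat_ge (((B + 1 + L : ℕ) : ℝ) / η)
  refine ⟨Q, D1 + D2 + D3 + 1 + ∑ m ∈ range (L + 1), Dc m, hQm, ?_⟩
  intro V _ _ G Δ H0 X0 Y0 hdeg hH0 hΔ hno
  have hΔ0 : 0 < Δ := by omega
  have hΔR : (0 : ℝ) < Δ := by exact_mod_cast hΔ0
  have hDc : ∀ m ≤ L, Dc m ≤ Δ := fun m hm => by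
    have : Dc m ≤ ∑ m ∈ range (L + 1), Dc m :=
      single_le_sum (f := Dc) (fun _ _ => Nat.zero_le _) (mem_range.2 (by omega))
    omega
  have hη2 : ((B + 1 + L : ℕ) : ℝ) ≤ η * Δ := by
    have a1 : (D3 : ℝ) ≤ Δ := by exact_mod_cast (by omega : D3 ≤ Δ)
    have a2 := (div_le_iff₀ hη).1 (hD3.trans a1)
    linarith
  rcases r_dich hdeg hΔ0 (Q 2) (Q 3) u (RP G B L) h0 hth0.le hH0 with
    hy | ⟨H1, X1, Y1, hX, hY, hH1, hq⟩
  · refine absurd (hr V G Δ (Q 2) (Q 3) _ H0 ?_ (by omega) hdeg (fun e he => (hH0.sub e he).1) hy)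
      hno
    exact le_trans (Nat.mul_le_mul_right _ (by omega)) (hQs 2)
  refine ⟨H1, X1, Y1, hX, hY, hH1, ?_⟩
  intro H Xs Ys v0 hH hs
  have hW : (((Xs ∪ Ys).card : ℕ) : ℝ) ≤ ((Xs.card + Ys.card : ℕ) : ℝ) := by
    exact_mod_cast card_union_le _ _
  have good : ∀ j i o, 2 ≤ j → j ≤ L → i ≤ L →
      θ * ((Xs.card + Ys.card : ℕ) : ℝ) * (Δ : ℝ) ^ j <
        (((HA G Q (Xs ∪ Ys) j v0).filter (Alt H o j)).card : ℝ) →
      θ / 2 * ((Xs.card + Ys.card : ℕ) : ℝ) * (Δ : ℝ) ^ j <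
        (((HA G Q (Xs ∪ Ys) j v0).filter fun p => Alt H o j p ∧
          RP G (B + 1) (j + i) (p (j - i % 2)) (p 0)).card : ℝ) := by
    intro j i o hj hjL hi h
    have a1 := ha_good (W := Xs ∪ Ys) (v0 := v0) (B := B + 1) hdeg hQm hj hjL hi hη.le
      (le_trans (by omega) (hQc j)) hη2 (hQf j (by omega))
    rw [hLη] at a1
    refine TL_split _ _ _ ?_ a1
    have a2 : θ / 2 * ((Xs ∪ Ys).card : ℕ) * (Δ : ℝ) ^ j ≤
        θ / 2 * ((Xs.card + Ys.card : ℕ) : ℝ) * (Δ : ℝ) ^ j := by gcongr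
    linarith
  have hW2 : ∀ j, θ / 2 * ((Xs ∪ Ys).card : ℕ) * (Δ : ℝ) ^ j ≤
      θ / 2 * ((Xs.card + Ys.card : ℕ) : ℝ) * (Δ : ℝ) ^ j := fun j => by gcongr
  have three : L % 2 = 0 → 3 ≤ L → ∀ o, o % 2 = 0 →
      (((HA G Q (Xs ∪ Ys) 3 v0).filter (Alt H o 3)).card : ℝ) ≤
        θ * ((Xs.card + Ys.card : ℕ) : ℝ) * (Δ : ℝ) ^ 3 := by
    intro e1 e2 o ho
    by_contra hc'
    have a1 := good 3 (L - 3) o (by omega) e2 (by omega) (not_le.1 hc')
    have a2 : ((HA G Q (Xs ∪ Ys) 3 v0).filter fun p => Alt H o 3 p ∧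
        RP G (B + 1) (3 + (L - 3)) (p (3 - (L - 3) % 2)) (p 0)).card ≤
        (Qd G (Q 2) (Q 3) (RP G B L) H).card := by
      refine le_trans (card_le_card fun p hp => ?_) (card_three Q (Xs ∪ Ys) v0 H ho (RP G B L))
      rw [mem_filter] at hp ⊢
      have b1 : 3 + (L - 3) = L := by omega
      have b2 : 3 - (L - 3) % 2 = 2 := by omega
      rw [b1, b2] at hp
      exact ⟨hp.1, hp.2.1, rp_mono (Nat.le_succ B) hp.2.2⟩
    have a3 := hq H hH
    have a4 : H.card ≤ Xs.card * Δ := by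
      refine card_le_mul_card_image_of_maps_to (f := Prod.fst) (fun e he => (hs e he).1) Δ
        (fun x _ => ?_) |>.trans (by rw [mul_comm])
      refine le_trans (card_le_card_of_injOn Prod.snd (fun e he => ?_) ?_) (hdeg x)
      · have he' := mem_filter.1 (mem_coe.1 he)
        rw [← he'.2]
        exact mem_coe.2 (mem_nbr.2 (hH1.sub e (hH he'.1)).1)
      · intro e he e' he' h
        exact Prod.ext ((mem_filter.1 (mem_coe.1 he)).2.trans (mem_filter.1 (mem_coe.1 he')).2.symm) h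
    have a5 : (H.card : ℝ) ≤ ((Xs.card + Ys.card : ℕ) : ℝ) * Δ := by
      exact_mod_cast a4.trans (Nat.mul_le_mul_right _ (Nat.le_add_right _ _))
    have a6 : th * (Δ : ℝ) ^ 2 * H.card ≤
        θ / 2 * (Δ : ℝ) ^ 2 * (((Xs.card + Ys.card : ℕ) : ℝ) * Δ) := by gcongr
    have a7 : (((HA G Q (Xs ∪ Ys) 3 v0).filter fun p => Alt H o 3 p ∧
        RP G (B + 1) (3 + (L - 3)) (p (3 - (L - 3) % 2)) (p 0)).card : ℝ) ≤
        (Qd G (Q 2) (Q 3) (RP G B L) H).card := by exact_mod_cast a2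
    nlinarith
  intro j o hj hjL
  by_contra hc'
  have hc' := not_le.1 hc'
  by_cases e2 : j = 2
  · subst e2
    have a1 := good 2 (L - L % 2 - 2) o le_rfl hjL (by omega) hc'
    refine hno (hl V G Δ (Q 2) (Xs ∪ Ys) v0 (le_trans (by omega) (hQc 2)) (by omega) hdeg
      (lt_of_le_of_lt (hW2 2) (a1.trans_le ?_)))
    refine Nat.cast_le.2 (card_le_card fun p hp => ?_)
    rw [mem_filter, mem_HA] at hp
    have b1 : 2 + (L - L % 2 - 2) = L - L % 2 := by omega
    have b2 : 2 - (L - L % 2 - 2) % 2 = 2 := by omega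
    rw [b1, b2] at hp
    exact mem_filter.2 ⟨hp.1.1, fun e => absurd (hp.1.2.1 0 (by omega) 2 le_rfl e) (by omega),
      hp.1.2.2.1, rp_symm hp.2.2⟩
  have a1 := good j (L - j) o hj hjL (by omega) hc'
  have b1 : j + (L - j) = L := by omega
  by_cases e3 : (L - j) % 2 = 0
  · obtain ⟨m, rfl⟩ : ∃ m, j = m + 3 := ⟨j - 3, by omega⟩
    refine hno (hc m V G Δ (Xs ∪ Ys) v0 _ (fun _ _ => rp_symm) hdeg (hDc m (by omega))
      (lt_of_le_of_lt (hW2 _) (a1.trans_le ?_)))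
    refine Nat.cast_le.2 (card_le_card fun p hp => ?_)
    rw [mem_filter, mem_HA, b1, e3, Nat.sub_zero] at hp
    exact mem_filter.2 ⟨hp.1.1, rp_symm (rp_mono (Nat.le_succ B) hp.2.2)⟩
  by_cases e4 : j = 3
  · subst e4
    rcases Nat.mod_two_eq_zero_or_one o with ho | ho
    · exact absurd (three (by omega) hjL o ho) (not_le.2 hc')
    · have a2 := three (by omega) hjL (o + 3) (by omega)
      have a3 : (((HA G Q (Xs ∪ Ys) 3 v0).filter (Alt H o 3)).card : ℝ) ≤
          ((HA G Q (Xs ∪ Ys) 3 v0).filter (Alt H (o + 3) 3)).card := by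
        exact_mod_cast card_rev Q (Xs ∪ Ys) 3 v0 H o
      linarith
  obtain ⟨m, rfl⟩ : ∃ m, j = m + 3 + 1 := ⟨j - 4, by omega⟩
  refine hno (hc m V G Δ (Xs ∪ Ys) v0 _ (fun _ _ => rp_symm) hdeg (hDc m (by omega)) ?_)
  have a2 : ((HA G Q (Xs ∪ Ys) (m + 3 + 1) v0).filter fun p => Alt H o (m + 3 + 1) p ∧
      RP G (B + 1) (m + 3 + 1 + (L - (m + 3 + 1)))
        (p (m + 3 + 1 - (L - (m + 3 + 1)) % 2)) (p 0)).card ≤
      Δ * ((WK G (Xs ∪ Ys) (m + 3) v0).filter fun q => RP G B L (q 0) (q (m + 3))).card := by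
    refine le_trans (card_le_card fun p hp => ?_) (drop_last hdeg (Xs ∪ Ys) (m + 3) v0 (RP G B L))
    have b2 : m + 3 + 1 - (L - (m + 3 + 1)) % 2 = m + 3 := by omega
    rw [mem_filter, mem_HA, b1, b2] at hp
    exact mem_filter.2 ⟨hp.1.1, rp_symm (rp_mono (Nat.le_succ B) hp.2.2)⟩
  have a3 : θ / 2 * ((Xs ∪ Ys).card : ℕ) * (Δ : ℝ) ^ (m + 3 + 1) <
      Δ * (((WK G (Xs ∪ Ys) (m + 3) v0).filter fun q => RP G B L (q 0) (q (m + 3))).card : ℝ) :=
    lt_of_le_of_lt (hW2 _) (a1.trans_le (by exact_mod_cast a2))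
  rw [pow_succ, ← mul_assoc, mul_comm] at a3
  exact lt_of_mul_lt_mul_left a3 hΔR.le

end Pool.Agent.Work.MP_054302_co.Y
end

-- merged part: Pool.Agent.Work.MP_054302_co.Y.Sw1
section
namespace Pool.Agent.Work.MP_054302_co.Y

open Finset Function Pool.Agent.Work.MP_054302_co.X
open scoped Classical

variable {V : Type} [Fintype V] [DecidableEq V] {G : SimpleGraph V} {T : V → V → Prop}

/-- `k` leg steps in a row (induction on `k`, each new root avoids `F` and the earlier ones). -/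
lemma sweep_legs {u p : ℕ} {St : ℕ → V → Finset V → Prop} (h : Sweep G T u p St) (k : ℕ)
    {n : ℕ} {y : V} {A F : Finset V} (hs : St n y A) (hn : n + k ≤ u) (hF : F.card + k ≤ u) :
    ∃ (zs : ℕ → V) (A' : Finset V), Set.InjOn zs (range k) ∧ (∀ j < k, zs j ∉ F) ∧ A' ⊆ A ∧
      St (n + k) y A' ∧ ∀ c ∈ A', ∀ j < k, T c (zs j) := by
  induction k with
  | zero => exact ⟨fun _ => y, A, by simp, by simp, Subset.refl _, hs, by simp⟩
  | succ k ih =>
    obtain ⟨zs, A', hi, hzF, hA, hS, hT⟩ := ih (by omega) (by omega)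
    have hc : (F ∪ (range k).image zs).card ≤ u := by
      have h1 := card_union_le F ((range k).image zs)
      have h2 : ((range k).image zs).card ≤ k := card_image_le.trans (by simp)
      omega
    obtain ⟨z, hz, A'', hA', hS', hT'⟩ := h.leg (n + k) y A' _ (by omega) hS hc
    rw [mem_union, not_or] at hz
    have hz2 : ∀ j < k, zs j ≠ z := fun j hj e => hz.2 (mem_image.2 ⟨j, mem_range.2 hj, e⟩)
    have hup : ∀ j < k, update zs k z j = zs j := fun j hj => update_of_ne (by omega) _ _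
    refine ⟨update zs k z, A'', ?_, ?_, hA'.trans hA, hS', ?_⟩
    · intro a ha b hb e
      have ha' : a < k + 1 := by simpa using ha
      have hb' : b < k + 1 := by simpa using hb
      rcases Nat.lt_succ_iff_lt_or_eq.1 ha' with ha1 | ha1 <;>
        rcases Nat.lt_succ_iff_lt_or_eq.1 hb' with hb1 | hb1
      · rw [hup a ha1, hup b hb1] at e
        exact hi (by simpa using ha1) (by simpa using hb1) e
      · rw [hup a ha1, hb1, update_self] at e
        exact absurd e (hz2 a ha1)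
      · rw [hup b hb1, ha1, update_self] at e
        exact absurd e.symm (hz2 b hb1)
      · rw [ha1, hb1]
    · intro j hj
      rcases Nat.lt_succ_iff_lt_or_eq.1 hj with hj1 | hj1
      · rw [hup j hj1]; exact hzF j hj1
      · rw [hj1, update_self]; exact hz.1
    · intro c hc' j hj
      rcases Nat.lt_succ_iff_lt_or_eq.1 hj with hj1 | hj1
      · rw [hup j hj1]; exact hT c (hA' hc') j hj1
      · rw [hj1, update_self]; exact hT' c hc'

/-- The strengthened sequence statement. -/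
lemma Sw1_seq {u p : ℕ} {St : ℕ → V → Finset V → Prop} (h : Sweep G T u p St) (r : ℕ → ℕ)
    (N : ℕ) (hN : 1 ≤ N) (hu : N + ∑ i ∈ Icc 1 N, r i ≤ u) :
    ∃ (ys : ℕ → V) (zs : ℕ → ℕ → V) (Γ : ℕ → Finset V) (F : Finset V),
      F.card ≤ N + ∑ i ∈ Icc 1 N, r i ∧
      (∀ i, 1 ≤ i → i ≤ N → ys i ∈ F) ∧
      (∀ i j, 1 ≤ i → i ≤ N → j < r i → zs i j ∈ F) ∧
      St (N - 1 + ∑ i ∈ Icc 1 N, r i) (ys N) (Γ N) ∧
      (∀ i i', 1 ≤ i → i ≤ N → 1 ≤ i' → i' ≤ N → ys i = ys i' → i = i') ∧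
      (∀ i i' j, 1 ≤ i → i ≤ N → 1 ≤ i' → i' ≤ N → j < r i' → ys i ≠ zs i' j) ∧
      (∀ i i' j j', 1 ≤ i → i ≤ N → 1 ≤ i' → i' ≤ N → j < r i → j' < r i' →
        zs i j = zs i' j' → i = i' ∧ j = j') ∧
      (∀ i, 1 ≤ i → i ≤ N → p ≤ (Γ i).card ∧
        ∀ x ∈ Γ i, G.Adj (ys i) x ∧ ∀ j < r i, T x (zs i j)) ∧
      ∀ i, 1 ≤ i → i < N → ∀ x' ∈ Γ (i + 1), p ≤ ((Γ i).filter fun x => T x x').card := by
  induction N, hN using Nat.le_induction with
  | base =>
    simp only [Icc_self, sum_singleton] at hu ⊢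
    obtain ⟨y, A, hs⟩ := h.start
    obtain ⟨zs, A', hi, hzF, hA, hS, hT⟩ :=
      sweep_legs h (r 1) (F := {y}) hs (by omega) (by simpa using hu)
    have hsz := h.size _ _ _ (by omega) hS
    refine ⟨fun _ => y, fun _ => zs, fun _ => A', {y} ∪ (range (r 1)).image zs, ?_, ?_, ?_, ?_,
      ?_, ?_, ?_, ?_, ?_⟩
    · have h1 := card_union_le {y} ((range (r 1)).image zs)
      have h2 : ((range (r 1)).image zs).card ≤ r 1 := card_image_le.trans (by simp)
      rw [card_singleton] at h1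
      omega
    · intro i _ _
      exact mem_union_left _ (mem_singleton_self _)
    · intro i j h1 h2 hj
      have : i = 1 := by omega
      subst this
      exact mem_union_right _ (mem_image.2 ⟨j, mem_range.2 hj, rfl⟩)
    · simpa using hS
    · intro i i' _ _ _ _ _
      omega
    · intro i i' j _ _ h1 h2 hj e
      have : i' = 1 := by omega
      subst this
      exact hzF j hj (mem_singleton.2 e.symm)
    · intro i i' j j' h1 h2 h3 h4 hj hj' e
      have e1 : i = 1 := by omega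
      have e2 : i' = 1 := by omega
      subst e1 e2
      exact ⟨rfl, hi (by simpa using hj) (by simpa using hj') e⟩
    · intro i h1 h2
      have : i = 1 := by omega
      subst this
      exact ⟨hsz.2, fun x hx => ⟨mem_nbr.1 (hsz.1 hx), hT x hx⟩⟩
    · intro i h1 h2
      omega
  | succ N hN ih =>
    rw [sum_Icc_succ_top (by omega)] at hu ⊢
    obtain ⟨ys, zs, Γ, F, hFc, hyF, hzF, hS, hyy, hyz, hzz, hΓ, hlink⟩ := ih (by omega)
    obtain ⟨y', hy', A', hS', hlink'⟩ := h.gap _ _ _ F (by omega) hS (by omega)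
    have hFc' : (insert y' F).card ≤ F.card + 1 := card_insert_le _ _
    obtain ⟨ws, A'', hi, hwF, hA, hS'', hT⟩ :=
      sweep_legs h (r (N + 1)) (F := insert y' F) hS' (by omega) (by omega)
    have hsz := h.size _ _ _ (by omega) hS''
    have uy : ∀ i ≤ N, update ys (N + 1) y' i = ys i := fun i hi => update_of_ne (by omega) _ _
    have uz : ∀ i ≤ N, update zs (N + 1) ws i = zs i := fun i hi => update_of_ne (by omega) _ _
    have uΓ : ∀ i ≤ N, update Γ (N + 1) A'' i = Γ i := fun i hi => update_of_ne (by omega) _ _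
    have hw1 : ∀ j < r (N + 1), ws j ≠ y' := fun j hj e =>
      hwF j hj (mem_insert.2 (Or.inl e))
    have hw2 : ∀ j < r (N + 1), ws j ∉ F := fun j hj e =>
      hwF j hj (mem_insert.2 (Or.inr e))
    refine ⟨update ys (N + 1) y', update zs (N + 1) ws, update Γ (N + 1) A'',
      insert y' F ∪ (range (r (N + 1))).image ws, ?_, ?_, ?_, ?_, ?_, ?_, ?_, ?_, ?_⟩
    · have h1 := card_union_le (insert y' F) ((range (r (N + 1))).image ws)
      have h2 : ((range (r (N + 1))).image ws).card ≤ r (N + 1) := card_image_le.trans (by simp)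
      omega
    · intro i h1 h2
      rcases Nat.le_succ_iff.1 h2 with h3 | h3
      · rw [uy i h3]
        exact mem_union_left _ (mem_insert_of_mem (hyF i h1 h3))
      · rw [h3, update_self]
        exact mem_union_left _ (mem_insert_self _ _)
    · intro i j h1 h2 hj
      rcases Nat.le_succ_iff.1 h2 with h3 | h3
      · rw [uz i h3]
        exact mem_union_left _ (mem_insert_of_mem (hzF i j h1 h3 hj))
      · subst h3
        rw [update_self]
        exact mem_union_right _ (mem_image.2 ⟨j, mem_range.2 hj, rfl⟩)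
    · rw [update_self, update_self]
      have e : N + 1 - 1 + (∑ i ∈ Icc 1 N, r i + r (N + 1)) =
          N - 1 + ∑ i ∈ Icc 1 N, r i + 1 + r (N + 1) := by omega
      rw [e]
      exact hS''
    · intro i i' h1 h2 h3 h4 e
      rcases Nat.le_succ_iff.1 h2 with h5 | h5 <;> rcases Nat.le_succ_iff.1 h4 with h6 | h6
      · rw [uy i h5, uy i' h6] at e
        exact hyy i i' h1 h5 h3 h6 e
      · rw [uy i h5, h6, update_self] at e
        exact absurd (e ▸ hyF i h1 h5) hy'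
      · rw [uy i' h6, h5, update_self] at e
        exact absurd (e ▸ hyF i' h3 h6) hy'
      · omega
    · intro i i' j h1 h2 h3 h4 hj e
      rcases Nat.le_succ_iff.1 h2 with h5 | h5 <;> rcases Nat.le_succ_iff.1 h4 with h6 | h6
      · rw [uy i h5, uz i' h6] at e
        exact hyz i i' j h1 h5 h3 h6 hj e
      · subst h6
        rw [uy i h5, update_self] at e
        exact hw2 j hj (e ▸ hyF i h1 h5)
      · rw [uz i' h6, h5, update_self] at e
        exact hy' (e ▸ hzF i' j h3 h6 hj)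
      · subst h6
        rw [h5, update_self, update_self] at e
        exact hw1 j hj e.symm
    · intro i i' j j' h1 h2 h3 h4 hj hj' e
      rcases Nat.le_succ_iff.1 h2 with h5 | h5 <;> rcases Nat.le_succ_iff.1 h4 with h6 | h6
      · rw [uz i h5, uz i' h6] at e
        exact hzz i i' j j' h1 h5 h3 h6 hj hj' e
      · subst h6
        rw [uz i h5, update_self] at e
        exact absurd (e ▸ hzF i j h1 h5 hj) (hw2 j' hj')
      · subst h5
        rw [uz i' h6, update_self] at e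
        exact absurd (e ▸ hzF i' j' h3 h6 hj') (hw2 j hj)
      · subst h5 h6
        rw [update_self] at e
        exact ⟨rfl, hi (by simpa using hj) (by simpa using hj') e⟩
    · intro i h1 h2
      rcases Nat.le_succ_iff.1 h2 with h3 | h3
      · rw [uy i h3, uz i h3, uΓ i h3]
        exact hΓ i h1 h3
      · subst h3
        rw [update_self, update_self, update_self]
        exact ⟨hsz.2, fun x hx => ⟨mem_nbr.1 (hsz.1 hx), hT x hx⟩⟩
    · intro i h1 h2 x' hx'
      rcases Nat.lt_succ_iff_lt_or_eq.1 h2 with h3 | h3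
      · rw [uΓ (i + 1) h3] at hx'
        rw [uΓ i h3.le]
        exact hlink i h1 h3 x' hx'
      · subst h3
        rw [update_self] at hx'
        rw [uΓ i le_rfl]
        exact hlink' x' (hA hx')

/-- Sequence form: anchors `ys i`, far roots `zs i j`, final sets `Γ i`. Induction on `N` with the
extra invariant that `St (N - 1 + ∑ i ∈ Icc 1 N, r i) (ys N) (Γ N)` holds; the set `F` of roots
chosen so far has at most `N + ∑ i ∈ Icc 1 N, r i` members. -/
lemma sweep_seq {u p : ℕ} (h : CanSweep G T u p) (r : ℕ → ℕ) (N : ℕ) (hN : 1 ≤ N)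
    (hu : N + ∑ i ∈ Icc 1 N, r i ≤ u) :
    ∃ (ys : ℕ → V) (zs : ℕ → ℕ → V) (Γ : ℕ → Finset V),
      (∀ i i', 1 ≤ i → i ≤ N → 1 ≤ i' → i' ≤ N → ys i = ys i' → i = i') ∧
      (∀ i i' j, 1 ≤ i → i ≤ N → 1 ≤ i' → i' ≤ N → j < r i' → ys i ≠ zs i' j) ∧
      (∀ i i' j j', 1 ≤ i → i ≤ N → 1 ≤ i' → i' ≤ N → j < r i → j' < r i' →
        zs i j = zs i' j' → i = i' ∧ j = j') ∧
      (∀ i, 1 ≤ i → i ≤ N → p ≤ (Γ i).card ∧
        ∀ x ∈ Γ i, G.Adj (ys i) x ∧ ∀ j < r i, T x (zs i j)) ∧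
      ∀ i, 1 ≤ i → i < N → ∀ x' ∈ Γ (i + 1), p ≤ ((Γ i).filter fun x => T x x').card := by
  obtain ⟨St, hSt⟩ := h
  obtain ⟨ys, zs, Γ, F, -, -, -, -, h1, h2, h3, h4, h5⟩ := Sw1_seq hSt r N hN hu
  exact ⟨ys, zs, Γ, h1, h2, h3, h4, h5⟩

omit [Fintype V] in
/-- Backward greedy choice with a default vertex `v0`. -/
lemma Sw1_back (v0 : V) {p : ℕ} (N : ℕ) (Γ : ℕ → Finset V) (Z : Finset V) (hZ : Z.card + N ≤ p)
    (h1 : ∀ i, 1 ≤ i → i ≤ N → p ≤ (Γ i).card)
    (h2 : ∀ i, 1 ≤ i → i < N → ∀ x' ∈ Γ (i + 1), p ≤ ((Γ i).filter fun x => T x x').card) :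
    ∃ cs : ℕ → V, (∀ i, 1 ≤ i → i ≤ N → cs i ∈ Γ i ∧ cs i ∉ Z) ∧
      (∀ i i', 1 ≤ i → i ≤ N → 1 ≤ i' → i' ≤ N → cs i = cs i' → i = i') ∧
      ∀ i, 1 ≤ i → i < N → T (cs i) (cs (i + 1)) := by
  induction N generalizing Γ Z with
  | zero =>
    exact ⟨fun _ => v0, fun i a b => by omega, fun i i' a b _ _ _ => by omega,
      fun i a b => by omega⟩
  | succ N ih =>
    have hlt : Z.card < (Γ (N + 1)).card := by
      have := h1 (N + 1) (by omega) le_rfl
      omega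
    obtain ⟨x, hx, hxZ⟩ := exists_mem_notMem_of_card_lt_card hlt
    have hZc : (insert x Z).card ≤ Z.card + 1 := card_insert_le _ _
    have uΓ : ∀ i < N, update Γ N ((Γ N).filter fun c => T c x) i = Γ i :=
      fun i hi => update_of_ne (by omega) _ _
    have hsub : ∀ i, update Γ N ((Γ N).filter fun c => T c x) i ⊆ Γ i := by
      intro i
      by_cases e : i = N
      · subst e
        rw [update_self]
        exact filter_subset _ _
      · rw [update_of_ne e]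
    obtain ⟨cs, c1, c2, c3⟩ := ih (update Γ N ((Γ N).filter fun c => T c x)) (insert x Z)
      (by omega) (by
        intro i hi1 hi2
        rcases Nat.lt_or_eq_of_le hi2 with h3 | h3
        · rw [uΓ i h3]
          exact h1 i hi1 (by omega)
        · subst h3
          rw [update_self]
          exact h2 i hi1 (by omega) x hx) (by
        intro i hi1 hi2 x' hx'
        rw [uΓ i hi2]
        exact h2 i hi1 (by omega) x' (hsub _ hx'))
    have uc : ∀ i ≤ N, update cs (N + 1) x i = cs i := fun i hi => update_of_ne (by omega) _ _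
    have hne : ∀ i, 1 ≤ i → i ≤ N → cs i ≠ x := fun i hi1 hi2 e =>
      (c1 i hi1 hi2).2 (mem_insert.2 (Or.inl e))
    refine ⟨update cs (N + 1) x, ?_, ?_, ?_⟩
    · intro i hi1 hi2
      rcases Nat.le_succ_iff.1 hi2 with h3 | h3
      · rw [uc i h3]
        exact ⟨hsub i (c1 i hi1 h3).1, fun e => (c1 i hi1 h3).2 (mem_insert_of_mem e)⟩
      · rw [h3, update_self]
        exact ⟨hx, hxZ⟩
    · intro i i' a1 a2 a3 a4 e
      rcases Nat.le_succ_iff.1 a2 with h5 | h5 <;> rcases Nat.le_succ_iff.1 a4 with h6 | h6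
      · rw [uc i h5, uc i' h6] at e
        exact c2 i i' a1 h5 a3 h6 e
      · rw [uc i h5, h6, update_self] at e
        exact absurd e (hne i a1 h5)
      · rw [uc i' h6, h5, update_self] at e
        exact absurd e.symm (hne i' a3 h6)
      · omega
    · intro i hi1 hi2
      rcases Nat.lt_succ_iff_lt_or_eq.1 hi2 with h3 | h3
      · rw [uc i h3.le, uc (i + 1) h3]
        exact c3 i hi1 h3
      · subst h3
        rw [uc i le_rfl, update_self]
        have := (c1 i hi1 le_rfl).1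
        rw [update_self] at this
        exact (mem_filter.1 this).2

omit [Fintype V] in
/-- Backward greedy choice of distinct branch vertices outside `Z` (induction on `N`,
generalizing `Z` and the last set). -/
lemma sweep_back {p : ℕ} (N : ℕ) (Γ : ℕ → Finset V) (Z : Finset V)
    (hZ : Z.card + N ≤ p ∧ 1 ≤ N)
    (h1 : ∀ i, 1 ≤ i → i ≤ N → p ≤ (Γ i).card)
    (h2 : ∀ i, 1 ≤ i → i < N → ∀ x' ∈ Γ (i + 1), p ≤ ((Γ i).filter fun x => T x x').card) :
    ∃ cs : ℕ → V, (∀ i, 1 ≤ i → i ≤ N → cs i ∈ Γ i ∧ cs i ∉ Z) ∧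
      (∀ i i', 1 ≤ i → i ≤ N → 1 ≤ i' → i' ≤ N → cs i = cs i' → i = i') ∧
      ∀ i, 1 ≤ i → i < N → T (cs i) (cs (i + 1)) := by
  have hpos : 0 < (Γ N).card := by
    have := h1 N hZ.2 le_rfl
    omega
  obtain ⟨v0, -⟩ := card_pos.1 hpos
  exact Sw1_back v0 N Γ Z hZ.1 h1 h2

end Pool.Agent.Work.MP_054302_co.Y
end

-- merged part: Pool.Agent.Work.MP_054302_co.Y.Sw2
section
namespace Pool.Agent.Work.MP_054302_co.Y

open Finset Function Pool.Agent.Work.MP_054302_co.X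
open scoped Classical

section

variable {L V : Type} [DecidableEq L] [Fintype V] [DecidableEq V] {A : L → L → Prop}
  {G : SimpleGraph V}

/-- The interior of a line is robust: put `f (q i) = p i` for the walk `p` given by `RP`. -/
lemma rob_line {B l : ℕ} {g : L → V} (q : ℕ → L)
    (hq : ∀ i ≤ l, ∀ i' ≤ l, q i = q i' → i = i')
    (ha : ∀ i, 0 < i → i < l → ∀ v, A (q i) v → v = q (i - 1) ∨ v = q (i + 1))
    (h : RP G B l (g (q 0)) (g (q l))) : Rob A G B ((Ioo 0 l).image q) g := by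
  intro Z hZ
  obtain ⟨p, p0, pl, pw, pi, pz⟩ := h Z hZ
  have hm : ∀ v, v ∈ (Ioo 0 l).image q ↔ ∃ i, 0 < i ∧ i < l ∧ q i = v := fun v => by
    simp only [mem_image, mem_Ioo, and_assoc]
  let f : L → V := fun v => if k : ∃ i, 0 < i ∧ i < l ∧ q i = v then p k.choose else g v
  have f1 : ∀ v, v ∉ (Ioo 0 l).image q → f v = g v := fun v hv => dif_neg (by rwa [hm] at hv)
  have f2 : ∀ i ≤ l, f (q i) = p i := by
    intro i hi
    by_cases k : ∃ i', 0 < i' ∧ i' < l ∧ q i' = q i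
    · have k' := k.choose_spec
      have e : f (q i) = p k.choose := dif_pos k
      rw [e, hq _ k'.2.1.le _ hi k'.2.2]
    · have e : f (q i) = g (q i) := dif_neg k
      rw [e]
      by_cases i0 : i = 0
      · rw [i0, p0]
      · by_cases il : i = l
        · rw [il, pl]
        · exact absurd ⟨i, by omega, by omega, rfl⟩ k
  refine ⟨f, f1, fun u hu v hv e => ?_, fun v hv => ?_, fun u hu v e => ?_⟩
  · obtain ⟨i, a1, a2, rfl⟩ := (hm u).1 (mem_coe.1 hu)
    obtain ⟨j, b1, b2, rfl⟩ := (hm v).1 (mem_coe.1 hv)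
    rw [f2 i a2.le, f2 j b2.le] at e
    rw [pi i j a1 a2 b1 b2 e]
  · obtain ⟨i, a1, a2, rfl⟩ := (hm v).1 hv
    rw [f2 i a2.le]
    exact pz i a1 a2
  · obtain ⟨i, a1, a2, rfl⟩ := (hm u).1 hu
    rcases ha i a1 a2 v e with rfl | rfl
    · rw [f2 i a2.le, f2 (i - 1) (by omega)]
      have := pw (i - 1) (by omega)
      rw [Nat.sub_add_cancel a1] at this
      exact this.symm
    · rw [f2 i a2.le, f2 (i + 1) a2]
      exact pw i a2

/-- Induction on `I` with `rob_union`, `rob_mono`. -/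
lemma rob_biUnion {ι : Type} [DecidableEq ι] (I : Finset ι) (S : ι → Finset L) {B : ℕ}
    {g : L → V} (hd : ∀ i ∈ I, ∀ j ∈ I, i ≠ j → Disjoint (S i) (S j))
    (hn : ∀ i ∈ I, ∀ j ∈ I, i ≠ j → ∀ u ∈ S i, ∀ v ∈ S j, ¬ A u v)
    (h : ∀ i ∈ I, Rob A G (B + (I.biUnion S).card) (S i) g) : Rob A G B (I.biUnion S) g := by
  induction I using Finset.induction_on with
  | empty => rw [biUnion_empty]; exact rob_empty _ _
  | insert a I ha ih =>
    have hs : (I.biUnion S).card ≤ ((insert a I).biUnion S).card :=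
      card_le_card (biUnion_subset_biUnion_of_subset_left _ (subset_insert _ _))
    have ne : ∀ i ∈ I, i ≠ a := fun i hi e => ha (e ▸ hi)
    have h1 : Rob A G B (I.biUnion S) g :=
      ih (fun i hi j hj => hd i (mem_insert_of_mem hi) j (mem_insert_of_mem hj))
        (fun i hi j hj => hn i (mem_insert_of_mem hi) j (mem_insert_of_mem hj))
        fun i hi => rob_mono (Nat.add_le_add_left hs _) (h i (mem_insert_of_mem hi))
    have h2 : Rob A G (B + (I.biUnion S).card) (S a) g :=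
      rob_mono (Nat.add_le_add_left hs _) (h a (mem_insert_self _ _))
    rw [biUnion_insert, union_comm]
    refine rob_union ?_ (fun u hu v hv => ?_) h1 h2
    · rw [disjoint_biUnion_left]
      exact fun i hi => hd i (mem_insert_of_mem hi) a (mem_insert_self _ _) (ne i hi)
    · obtain ⟨i, hi, hu⟩ := mem_biUnion.1 hu
      exact ⟨hn i (mem_insert_of_mem hi) a (mem_insert_self _ _) (ne i hi) u hu v hv,
        hn a (mem_insert_self _ _) i (mem_insert_of_mem hi) (ne i hi).symm v hv u hu⟩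

end

variable {V : Type} [Fintype V] [DecidableEq V] {G : SimpleGraph V} {d N : ℕ} {r : ℕ → ℕ}

/-- Inner vertices of a gap or a leg. -/
def Sw2_S (d : ℕ) : ℕ ⊕ ℕ × ℕ → Finset Lb
  | .inl i => (range (d + 1)).image (Lb.m i)
  | .inr x => (range (d + 1)).image (Lb.a x.1 x.2)

/-- Index set of the gaps and legs. -/
def Sw2_I (N : ℕ) (r : ℕ → ℕ) : Finset (ℕ ⊕ ℕ × ℕ) :=
  (Ico 1 N).disjSum ((Icc 1 N).biUnion fun i => (range (r i)).image (Prod.mk i))

lemma Sw2_inl {i : ℕ} : Sum.inl i ∈ Sw2_I N r ↔ 1 ≤ i ∧ i < N := by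
  simp [Sw2_I]

lemma Sw2_inr {i j : ℕ} : Sum.inr (i, j) ∈ Sw2_I N r ↔ 1 ≤ i ∧ i ≤ N ∧ j < r i := by
  simp [Sw2_I, and_assoc]

lemma Sw2_ml {i : ℕ} {v : Lb} : v ∈ Sw2_S d (.inl i) ↔ ∃ t ≤ d, v = Lb.m i t := by
  simp only [Sw2_S, mem_image, mem_range, Nat.lt_succ_iff, eq_comm]

lemma Sw2_mr {i j : ℕ} {v : Lb} : v ∈ Sw2_S d (.inr (i, j)) ↔ ∃ t ≤ d, v = Lb.a i j t := by
  simp only [Sw2_S, mem_image, mem_range, Nat.lt_succ_iff, eq_comm]

lemma Sw2_mc {v : Lb} : v ∈ (Icc 1 N).image Lb.c ↔ ∃ i, 1 ≤ i ∧ i ≤ N ∧ v = Lb.c i := by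
  simp only [mem_image, mem_Icc, and_assoc, eq_comm]

lemma Sw2_union :
    (Sw2_I N r).biUnion (Sw2_S d) = NR d N r \ (Icc 1 N).image Lb.c := by
  ext v
  rw [mem_sdiff, mem_NR, Sw2_mc, mem_biUnion]
  constructor
  · rintro ⟨i | ⟨i, j⟩, hi, hv⟩
    · obtain ⟨t, ht, rfl⟩ := Sw2_ml.1 hv
      rw [Sw2_inl] at hi
      exact ⟨⟨⟨hi.1, hi.2, ht⟩, rfl⟩, by simp⟩
    · obtain ⟨t, ht, rfl⟩ := Sw2_mr.1 hv
      rw [Sw2_inr] at hi
      exact ⟨⟨⟨hi.1, hi.2.1, hi.2.2, ht⟩, rfl⟩, by simp⟩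
  · rintro ⟨⟨h1, h2⟩, h3⟩
    cases v with
    | c i => exact absurd ⟨i, h1.1, h1.2, rfl⟩ h3
    | y i => simp [isRoot] at h2
    | z i j => simp [isRoot] at h2
    | m i t => exact ⟨.inl i, Sw2_inl.2 ⟨h1.1, h1.2.1⟩, Sw2_ml.2 ⟨t, h1.2.2, rfl⟩⟩
    | a i j t =>
      exact ⟨.inr (i, j), Sw2_inr.2 ⟨h1.1, h1.2.1, h1.2.2.1⟩, Sw2_mr.2 ⟨t, h1.2.2.2, rfl⟩⟩

lemma Sw2_gl (i : ℕ) : (Ioo 0 (d + 2)).image (gl d i) = Sw2_S d (.inl i) := by
  ext v
  rw [Sw2_ml, mem_image]
  constructor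
  · rintro ⟨t, ht, rfl⟩
    rw [mem_Ioo] at ht
    exact ⟨t - 1, by omega, by rw [gl, if_neg (by omega), if_pos (by omega)]⟩
  · rintro ⟨t, ht, rfl⟩
    exact ⟨t + 1, mem_Ioo.2 (by omega), by rw [gl, if_neg (by omega), if_pos (by omega)]; rfl⟩

lemma Sw2_ll (i j : ℕ) : (Ioo 0 (d + 2)).image (ll d i j) = Sw2_S d (.inr (i, j)) := by
  ext v
  rw [Sw2_mr, mem_image]
  constructor
  · rintro ⟨t, ht, rfl⟩
    rw [mem_Ioo] at ht
    exact ⟨t - 1, by omega, by rw [ll, if_neg (by omega), if_pos (by omega)]⟩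
  · rintro ⟨t, ht, rfl⟩
    exact ⟨t + 1, mem_Ioo.2 (by omega), by rw [ll, if_neg (by omega), if_pos (by omega)]; rfl⟩

lemma Sw2_gnb {i t : ℕ} (h0 : 0 < t) (h1 : t < d + 2) (v : Lb) (h : adj d N r (gl d i t) v) :
    v = gl d i (t - 1) ∨ v = gl d i (t + 1) := by
  obtain ⟨s, rfl⟩ : ∃ s, t = s + 1 := ⟨t - 1, by omega⟩
  have e : gl d i (s + 1) = Lb.m i s := by rw [gl, if_neg (by omega), if_pos (by omega)]; rfl
  rw [e] at h
  rw [Nat.add_sub_cancel]
  cases v with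
  | y j => simp [adj, Ed] at h
  | z j k => simp [adj, Ed] at h
  | a j k u => simp [adj, Ed] at h
  | c j =>
    rcases h with h | h
    · obtain ⟨rfl, rfl, -⟩ := h
      right
      rw [gl, if_neg (by omega), if_neg (by omega)]
    · obtain ⟨rfl, rfl, -⟩ := h
      left
      rw [gl, if_pos rfl]
  | m j u =>
    rcases h with h | h
    · obtain ⟨rfl, rfl, k, -⟩ := h
      right
      rw [gl, if_neg (by omega), if_pos (by omega)]
      rfl
    · obtain ⟨rfl, rfl, k, -⟩ := h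
      left
      rw [gl, if_neg (by omega), if_pos (by omega)]
      rfl

lemma Sw2_lnb {i j t : ℕ} (h0 : 0 < t) (h1 : t < d + 2) (v : Lb)
    (h : adj d N r (ll d i j t) v) : v = ll d i j (t - 1) ∨ v = ll d i j (t + 1) := by
  obtain ⟨s, rfl⟩ : ∃ s, t = s + 1 := ⟨t - 1, by omega⟩
  have e : ll d i j (s + 1) = Lb.a i j s := by rw [ll, if_neg (by omega), if_pos (by omega)]; rfl
  rw [e] at h
  rw [Nat.add_sub_cancel]
  cases v with
  | y j => simp [adj, Ed] at h
  | m j k => simp [adj, Ed] at h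
  | z j k =>
    rcases h with h | h
    · obtain ⟨rfl, rfl, rfl, -⟩ := h
      right
      rw [ll, if_neg (by omega), if_neg (by omega)]
    · exact h.elim
  | c j =>
    rcases h with h | h
    · exact h.elim
    · obtain ⟨rfl, rfl, -⟩ := h
      left
      rw [ll, if_pos rfl]
  | a j k u =>
    rcases h with h | h
    · obtain ⟨rfl, rfl, rfl, k, -⟩ := h
      right
      rw [ll, if_neg (by omega), if_pos (by omega)]
      rfl
    · obtain ⟨rfl, rfl, rfl, k, -⟩ := h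
      left
      rw [ll, if_neg (by omega), if_pos (by omega)]
      rfl

/-- The inner vertices of all gaps and legs are robust once the ends are robustly joined: index
the lines by `ℕ × ℕ` or a sum type, use `gl`, `ll`, `rob_line`, `rob_biUnion`. -/
lemma rob_inner {B : ℕ} {g : Lb → V}
    (h1 : ∀ i, 1 ≤ i → i < N →
      RP G (B + (VT d N r).card) (d + 2) (g (Lb.c i)) (g (Lb.c (i + 1))))
    (h2 : ∀ i j, 1 ≤ i → i ≤ N → j < r i →
      RP G (B + (VT d N r).card) (d + 2) (g (Lb.c i)) (g (Lb.z i j))) :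
    Rob (adj d N r) G B (NR d N r \ (Icc 1 N).image Lb.c) g := by
  have hc : ((Sw2_I N r).biUnion (Sw2_S d)).card ≤ (VT d N r).card := by
    rw [Sw2_union]
    exact card_le_card (sdiff_subset.trans (filter_subset _ _))
  rw [← Sw2_union]
  refine rob_biUnion _ _ ?_ ?_ ?_
  · rintro (i | ⟨i, j⟩) - (i' | ⟨i', j'⟩) - ne <;> rw [disjoint_left] <;> intro v hv hv'
    · obtain ⟨t, -, rfl⟩ := Sw2_ml.1 hv
      obtain ⟨t', -, e⟩ := Sw2_ml.1 hv'
      injection e with e1 e2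
      exact ne (by rw [e1])
    · obtain ⟨t, -, rfl⟩ := Sw2_ml.1 hv
      obtain ⟨t', -, e⟩ := Sw2_mr.1 hv'
      cases e
    · obtain ⟨t, -, rfl⟩ := Sw2_mr.1 hv
      obtain ⟨t', -, e⟩ := Sw2_ml.1 hv'
      cases e
    · obtain ⟨t, -, rfl⟩ := Sw2_mr.1 hv
      obtain ⟨t', -, e⟩ := Sw2_mr.1 hv'
      injection e with e1 e2 e3
      exact ne (by rw [e1, e2])
  · rintro (i | ⟨i, j⟩) - (i' | ⟨i', j'⟩) - ne u hu v hv e
    · obtain ⟨t, -, rfl⟩ := Sw2_ml.1 hu
      obtain ⟨t', -, rfl⟩ := Sw2_ml.1 hv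
      rcases e with e | e
      · exact ne (by rw [e.1])
      · exact ne (by rw [e.1])
    · obtain ⟨t, -, rfl⟩ := Sw2_ml.1 hu
      obtain ⟨t', -, rfl⟩ := Sw2_mr.1 hv
      exact e.elim id id
    · obtain ⟨t, -, rfl⟩ := Sw2_mr.1 hu
      obtain ⟨t', -, rfl⟩ := Sw2_ml.1 hv
      exact e.elim id id
    · obtain ⟨t, -, rfl⟩ := Sw2_mr.1 hu
      obtain ⟨t', -, rfl⟩ := Sw2_mr.1 hv
      rcases e with e | e
      · exact ne (by rw [e.1, e.2.1])
      · exact ne (by rw [e.1, e.2.1])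
  · rintro (i | ⟨i, j⟩) hi
    · rw [Sw2_inl] at hi
      rw [← Sw2_gl]
      refine rob_line _ (fun t ht t' ht' => gl_inj ht ht') (fun t a b => Sw2_gnb a b) ?_
      have e0 : gl d i 0 = Lb.c i := by rw [gl, if_pos rfl]
      have e1 : gl d i (d + 2) = Lb.c (i + 1) := by
        rw [gl, if_neg (by omega), if_neg (by omega)]
      rw [e0, e1]
      exact rp_mono (Nat.add_le_add_left hc _) (h1 i hi.1 hi.2)
    · rw [Sw2_inr] at hi
      rw [← Sw2_ll]
      refine rob_line _ (fun t ht t' ht' => ll_inj ht ht') (fun t a b => Sw2_lnb a b) ?_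
      have e0 : ll d i j 0 = Lb.c i := by rw [ll, if_pos rfl]
      have e1 : ll d i j (d + 2) = Lb.z i j := by
        rw [ll, if_neg (by omega), if_neg (by omega)]
      rw [e0, e1]
      exact rp_mono (Nat.add_le_add_left hc _) (h2 i j hi.1 hi.2.1 hi.2.2)

/-- The labelling of roots and branch vertices. -/
def Sw2_w (N : ℕ) (ys : ℕ → V) (zs : ℕ → ℕ → V) (cs : ℕ → V) : Lb → V
  | .y i => ys i
  | .z i j => zs i j
  | .c i => if 1 ≤ i ∧ i ≤ N then cs i else ys 0
  | _ => ys 0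

/-- `sweep_seq` gives the roots; given `Z`, `sweep_back` gives the branch vertices; `rob_ext` with
`J = (Icc 1 N).image Lb.c` and `rob_inner`. -/
theorem full_of_sweep (hN : 1 ≤ N) {B : ℕ}
    (h : CanSweep G (RP G (B + 2 * (VT d N r).card) (d + 2)) (VT d N r).card
      (B + 2 * (VT d N r).card)) : Full d N r G B := by
  have hu : N + ∑ i ∈ Icc 1 N, r i ≤ (VT d N r).card := by
    rw [← card_RT (d := d) hN]
    exact card_le_card (filter_subset _ _)
  obtain ⟨ys, zs, Γ, s1, s2, s3, s4, s5⟩ := sweep_seq h r N hN hu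
  have hJ : (Icc 1 N).image Lb.c ⊆ NR d N r := fun v hv => by
    obtain ⟨i, a, b, rfl⟩ := Sw2_mc.1 hv
    exact mem_NR.2 ⟨⟨a, b⟩, rfl⟩
  have hJc : ((Icc 1 N).image Lb.c).card ≤ (VT d N r).card :=
    card_le_card (hJ.trans (filter_subset _ _))
  refine ⟨Sw2_w N ys zs ys, fun u hu v hv e => ?_, ?_⟩
  · obtain ⟨u1, u2⟩ := mem_RT.1 (mem_coe.1 hu)
    obtain ⟨v1, v2⟩ := mem_RT.1 (mem_coe.1 hv)
    cases u with
    | c i => simp [isRoot] at u2
    | m i t => simp [isRoot] at u2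
    | a i j t => simp [isRoot] at u2
    | y i =>
      cases v with
      | c i => simp [isRoot] at v2
      | m i t => simp [isRoot] at v2
      | a i j t => simp [isRoot] at v2
      | y i' => rw [s1 i i' u1.1 u1.2 v1.1 v1.2 e]
      | z i' j' => exact absurd e (s2 i i' j' u1.1 u1.2 v1.1 v1.2.1 v1.2.2)
    | z i j =>
      cases v with
      | c i => simp [isRoot] at v2
      | m i t => simp [isRoot] at v2
      | a i j t => simp [isRoot] at v2
      | y i' => exact absurd e.symm (s2 i' i j v1.1 v1.2 u1.1 u1.2.1 u1.2.2)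
      | z i' j' =>
        obtain ⟨rfl, rfl⟩ := s3 i i' j j' u1.1 u1.2.1 v1.1 v1.2.1 u1.2.2 v1.2.2 e
        rfl
  · rw [← sdiff_union_of_subset hJ]
    refine rob_ext adj_symm sdiff_disjoint fun Z hZ => ?_
    obtain ⟨cs, c1, c2, c3⟩ := sweep_back N Γ Z (by omega) (fun i a b => (s4 i a b).1) s5
    have ec : ∀ i, 1 ≤ i → i ≤ N → Sw2_w N ys zs cs (Lb.c i) = cs i := fun i a b =>
      if_pos ⟨a, b⟩
    refine ⟨Sw2_w N ys zs cs, fun v hv => ?_, fun u hu v hv e => ?_, fun v hv => ?_,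
      fun u hu v hv e => ?_, rob_inner (fun i a b => ?_) fun i j a b k => ?_⟩
    · cases v with
      | c i =>
        have k : ¬ (1 ≤ i ∧ i ≤ N) := fun k => hv (Sw2_mc.2 ⟨i, k.1, k.2, rfl⟩)
        exact (if_neg k).trans (if_neg k).symm
      | y i => rfl
      | z i j => rfl
      | m i t => rfl
      | a i j t => rfl
    · obtain ⟨i, a, b, rfl⟩ := Sw2_mc.1 (mem_coe.1 hu)
      obtain ⟨i', a', b', rfl⟩ := Sw2_mc.1 (mem_coe.1 hv)
      rw [ec i a b, ec i' a' b'] at e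
      rw [c2 i i' a b a' b' e]
    · obtain ⟨i, a, b, rfl⟩ := Sw2_mc.1 hv
      rw [ec i a b]
      exact (c1 i a b).2
    · obtain ⟨i, a, b, rfl⟩ := Sw2_mc.1 hu
      have hr := (adj_real e).2
      rw [ec i a b]
      cases v with
      | c j => exact e.elim False.elim False.elim
      | z j k => exact e.elim False.elim False.elim
      | y j =>
        rcases e with e | e
        · obtain ⟨rfl, -⟩ := e
          exact ((s4 i a b).2 _ (c1 i a b).1).1.symm
        · exact e.elim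
      | m j t => exact absurd (mem_sdiff.2 ⟨mem_NR.2 ⟨hr, rfl⟩, by simp⟩) hv
      | a j k t => exact absurd (mem_sdiff.2 ⟨mem_NR.2 ⟨hr, rfl⟩, by simp⟩) hv
    · rw [ec i a b.le, ec (i + 1) (by omega) b]
      exact rp_mono (by omega) (c3 i a b)
    · rw [ec i a b]
      exact rp_mono (by omega) (((s4 i a b).2 _ (c1 i a b).1).2 j k)

end Pool.Agent.Work.MP_054302_co.Y
end
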